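import Mathlib
import Pool.Agent.Work.MP_787500_nt.GP.FinDefs

/-!
Ramification groups and the Artin conductor: definitions used in the statement of the theorem.
-/

set_option autoImplicit false

namespace Pool.Agent.Work.MP_787500_nt.AR

open NumberField Matrix

section field

variable {K : Type*} [Field K]

/-- The elements `σ` of the inertia group of `Q` with `σ x - x ∈ q ^ (k + 1)` for all integers `x` of the field `L` fixed by `W`,
where `q` is the ideal of the integers of `L` under `Q`. -/
def ramSet (W : Subgroup (AbsGal K)) (Q : Ideal (𝓞 (AlgebraicClosure K))) (k : ℕ) : Set (AbsGal K) :=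
  {σ | σ ∈ Q.inertia (AbsGal K) ∧ ∀ x : 𝓞 (IntermediateField.fixedField W),
    ∃ y ∈ (Q.comap (algebraMap (𝓞 (IntermediateField.fixedField W)) (𝓞 (AlgebraicClosure K)))) ^ (k + 1),
      algebraMap (𝓞 (IntermediateField.fixedField W)) (𝓞 (AlgebraicClosure K)) y =
        σ • algebraMap (𝓞 (IntermediateField.fixedField W)) (𝓞 (AlgebraicClosure K)) x -
          algebraMap (𝓞 (IntermediateField.fixedField W)) (𝓞 (AlgebraicClosure K)) x}

/-- The elements `σ` of the inertia group of `Q` such that every open subgroup contains a power `σ ^ l ^ j`. (If `Q` is a prime over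
`l`, this is the wild inertia group.) -/
def wildSet (l : ℕ) (Q : Ideal (𝓞 (AlgebraicClosure K))) : Set (AbsGal K) :=
  {σ | σ ∈ Q.inertia (AbsGal K) ∧
    ∀ U : Subgroup (AbsGal K), IsOpen (U : Set (AbsGal K)) → ∃ j : ℕ, σ ^ l ^ j ∈ U}

/-- The number of the cosets of `W` that contain an element of `H` in `ramSet W Q k`. (If `W` is normal and contained in `H`, and `L`
and `M` are the fields fixed by `W` and `H`, this is the order of the ramification group `G_k` of `L / M` at `Q`.) -/
noncomputable def ramCard (H W : Subgroup (AbsGal K)) (Q : Ideal (𝓞 (AlgebraicClosure K))) (k : ℕ) : ℕ :=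
  Nat.card {x : AbsGal K ⧸ W // ∃ σ ∈ H, σ ∈ ramSet W Q k ∧ (σ : AbsGal K ⧸ W) = x}

/-- The sum over `k ≥ 1` of `|G_k (L / K)| - |G_k (L / M)|`, divided by `|G_0 (L / M)| / |G_1 (L / M)|`. (This is `|G_1 (L / M)|`
times `d - e + 1`, for the ramification index `e` and the exponent `d` of the different of `M / K`.) -/
noncomputable def wildDiff (H W : Subgroup (AbsGal K)) (Q : Ideal (𝓞 (AlgebraicClosure K))) : ℕ :=
  (∑ᶠ k : ℕ, (ramCard ⊤ W Q (k + 1) - ramCard H W Q (k + 1))) / (ramCard H W Q 0 / ramCard H W Q 1)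

end field

section rep

variable {K : Type*} [Field K] {H : Subgroup (AbsGal K)} {E : Type*} [NormedField E] {n : ℕ}

/-- The sum over `k ≥ 1` of `|G_k|` times the codimension of the space fixed by `G_k`, divided by `|G_0| / |G_1|`, for the
ramification groups `G_k` of `L / M` at `Q` (which act through the wild inertia group if `τ` is trivial on its intersection with `W`).
(This is `|G_1|` times the Swan conductor.) -/
noncomputable def swan (l : ℕ) (W : Subgroup (AbsGal K)) (Q : Ideal (𝓞 (AlgebraicClosure K)))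
    (τ : H →* Matrix (Fin n) (Fin n) E) : ℕ :=
  (∑ᶠ k : ℕ, ramCard H W Q (k + 1) * (n - Module.finrank E (Parity.fixedBy
    (fun σ : {σ : H // (σ : AbsGal K) ∈ wildSet l Q ∧ (σ : AbsGal K) ∈ ramSet W Q (k + 1)} => τ σ)))) /
      (ramCard H W Q 0 / ramCard H W Q 1)

/-- The sum over `i` of the residue degree times the sum of the dimension of the space fixed by inertia, `swan` and `n * wildDiff`;
`D i` is the decomposition group at `Q i`. -/
noncomputable def condA (l : ℕ) (W : Subgroup (AbsGal K)) (τ : H →* Matrix (Fin n) (Fin n) E) {Ψ : Type*}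
    [Fintype Ψ] (D : Ψ → Subgroup (AbsGal K)) (Q : Ψ → Ideal (𝓞 (AlgebraicClosure K))) : ℕ :=
  ∑ i, ((Q i).inertia (AbsGal K) ⊔ (D i ⊓ H)).relIndex (D i) *
    (Module.finrank E (Parity.fixedBy (fun σ : ((Q i).inertia (AbsGal K)).subgroupOf H => τ σ)) +
      swan l W (Q i) τ + n * wildDiff H W (Q i))

end rep

end Pool.Agent.Work.MP_787500_nt.AR
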