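import Mathlib
import Pool.Agent.Work.MP_787500_nt.AR.FDefs

/-!
The auxiliary open normal subgroup: definition used in the statement of the theorem.
-/

set_option autoImplicit false

namespace Pool.Agent.Work.MP_787500_nt.AR

open NumberField Matrix

/-- `W` is an open normal subgroup contained in `H`, and `τ` is trivial on the elements of `W` in the sets `wildSet l (Q l i)` (the wild
inertia groups) for `l ∈ S`. -/
structure IsAux {K : Type*} [Field K] {H : Subgroup (AbsGal K)} {E : Type*} [NormedField E] {n : ℕ} (S : Set ℕ)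
    {Ψ : ℕ → Type*} (Q : ∀ l, Ψ l → Ideal (𝓞 (AlgebraicClosure K))) (τ : H →* Matrix (Fin n) (Fin n) E)
    (W : Subgroup (AbsGal K)) : Prop where
  opn : IsOpen (W : Set (AbsGal K))
  nor : W.Normal
  le : W ≤ H
  triv : ∀ l ∈ S, ∀ i, ∀ h : H, (h : AbsGal K) ∈ W → (h : AbsGal K) ∈ wildSet l (Q l i) → τ h = 1

end Pool.Agent.Work.MP_787500_nt.AR
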