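import Mathlib
import Pool.Agent.Work.MP_787500_nt.AR.FDefs
import Pool.Agent.Work.MP_787500_nt.GP.StDefs

/-!
The contribution of the primes above an inert prime number: definitions used in the statement of the theorem. (`swanB` and
`condB` are `swan` and `condA` of `AR/FDefs.lean`, written with more names.)
-/

set_option autoImplicit false

namespace Pool.Agent.Work.MP_787500_nt.AR

open NumberField Matrix

/-- The dimension of the space of the vectors fixed by all `A σ`. -/
noncomputable def dimFix {G : Type*} {E : Type*} [NormedField E] {n : ℕ} (A : G → Matrix (Fin n) (Fin n) E) : ℕ :=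
  Module.finrank E (Parity.fixedBy A)

variable {K : Type*} [Field K]

/-- The index in the decomposition group of `Q` of the subgroup generated by the inertia group and the elements of `H`. (This is
the residue degree of `M / K` at `Q`, for the field `M` fixed by `H`.) -/
noncomputable def resDeg (H : Subgroup (AbsGal K)) (Q : Ideal (𝓞 (AlgebraicClosure K))) : ℕ :=
  (Q.inertia (AbsGal K) ⊔ (GP.stabD Q ⊓ H)).relIndex (GP.stabD Q)

variable {H : Subgroup (AbsGal K)} {E : Type*} [NormedField E] {n : ℕ}

/-- The dimension of the space of the vectors fixed by the elements of `H` in the inertia group of `Q`. -/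
noncomputable def dimI (Q : Ideal (𝓞 (AlgebraicClosure K))) (τ : H →* Matrix (Fin n) (Fin n) E) : ℕ :=
  dimFix (fun σ : (Q.inertia (AbsGal K)).subgroupOf H => τ σ)

/-- The sum over `k ≥ 1` of `|G_k|` times the codimension of the space fixed by `G_k`, divided by `|G_0| / |G_1|`, for the
ramification groups `G_k` of `L / M` at `Q` (which act through the wild inertia group if `τ` is trivial on its intersection with `W`).
(This is `|G_1|` times the Swan conductor.) -/
noncomputable def swanB (l : ℕ) (W : Subgroup (AbsGal K)) (Q : Ideal (𝓞 (AlgebraicClosure K)))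
    (τ : H →* Matrix (Fin n) (Fin n) E) : ℕ :=
  (∑ᶠ k : ℕ, ramCard H W Q (k + 1) * (n - dimFix
    (fun σ : {σ : H // (σ : AbsGal K) ∈ wildSet l Q ∧ (σ : AbsGal K) ∈ ramSet W Q (k + 1)} => τ σ))) /
      (ramCard H W Q 0 / ramCard H W Q 1)

/-- The sum over `i` of the residue degree times the sum of the dimension of the space fixed by inertia, `swanB` and
`n * wildDiff`. -/
noncomputable def condB (l : ℕ) (W : Subgroup (AbsGal K)) (τ : H →* Matrix (Fin n) (Fin n) E) {Ψ : Type*}
    [Fintype Ψ] (Q : Ψ → Ideal (𝓞 (AlgebraicClosure K))) : ℕ :=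
  ∑ i, resDeg H (Q i) * (dimI (Q i) τ + swanB l W (Q i) τ + n * wildDiff H W (Q i))

end Pool.Agent.Work.MP_787500_nt.AR
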