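import Mathlib
import Pool.Agent.Work.MP_787500_nt.AR.FDefs
import Pool.Agent.Work.MP_787500_nt.Gn.SmallRho

/-!
# AR/ExW: a continuous 2-adic representation is trivial on an open subgroup of the wild inertia groups at the odd primes

`exists_W`: there is an open normal subgroup `W`, contained in `H`, such that the representation of `H` is trivial on the elements of
`W` in `wildSet l Q`, for all odd prime numbers `l` and all `Q`.
-/

set_option autoImplicit false
set_option linter.unusedSectionVars false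

namespace Pool.Agent.Work.MP_787500_nt.AR

open NumberField Matrix

section mat

variable {E : Type*} [NormedField E] [IsUltrametricDist E] {n : ℕ}

private theorem add_bd {A B : Matrix (Fin n) (Fin n) E} {a : ℝ} (hA : ∀ i j, ‖A i j‖ ≤ a)
    (hB : ∀ i j, ‖B i j‖ ≤ a) : ∀ i j, ‖(A + B) i j‖ ≤ a := fun i j =>
  (IsUltrametricDist.norm_add_le_max _ _).trans (max_le (hA i j) (hB i j))

private theorem mul_bd {A B : Matrix (Fin n) (Fin n) E} {a b : ℝ} (ha : 0 ≤ a) (hb : 0 ≤ b)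
    (hA : ∀ i j, ‖A i j‖ ≤ a) (hB : ∀ i j, ‖B i j‖ ≤ b) : ∀ i j, ‖(A * B) i j‖ ≤ a * b := by
  intro i j
  rw [Matrix.mul_apply]
  refine IsUltrametricDist.norm_sum_le_of_forall_le_of_nonneg (mul_nonneg ha hb) fun k _ => ?_
  rw [norm_mul]
  exact mul_le_mul (hA i k) (hB k j) (norm_nonneg _) ha

private theorem nat_bd (m : ℕ) : ∀ i j, ‖((m : Matrix (Fin n) (Fin n) E)) i j‖ ≤ 1 := by
  intro i j
  have h1 : (m : Matrix (Fin n) (Fin n) E) i j = if i = j then (m : E) else 0 := by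
    rw [← Matrix.diagonal_natCast, Matrix.diagonal_apply]
  rw [h1]
  split_ifs
  · exact IsUltrametricDist.norm_natCast_le_one E m
  · rw [norm_zero]
    exact zero_le_one

private theorem pow_exp {x : Matrix (Fin n) (Fin n) E} (hx : ∀ i j, ‖x i j‖ ≤ 1) (m : ℕ) :
    ∃ y : Matrix (Fin n) (Fin n) E, (∀ i j, ‖y i j‖ ≤ 1) ∧
      (1 + x) ^ m = 1 + (m : Matrix (Fin n) (Fin n) E) * x + x * x * y := by
  induction m with
  | zero => exact ⟨0, fun i j => by simp, by simp⟩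
  | succ m ih =>
    obtain ⟨y, hy, h⟩ := ih
    refine ⟨y + (m : Matrix (Fin n) (Fin n) E) + y * x, add_bd (add_bd hy (nat_bd m)) ?_, ?_⟩
    · have h1 := mul_bd zero_le_one zero_le_one hy hx
      rwa [mul_one] at h1
    · have hc : (m : Matrix (Fin n) (Fin n) E) * x = x * m := (Nat.cast_commute m x).eq
      rw [pow_succ, h, Nat.cast_succ]
      have h2 : x * x * (y + (m : Matrix (Fin n) (Fin n) E) + y * x) =
        x * x * y + x * (x * m) + x * x * y * x := by noncomm_ring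
      rw [h2, ← hc]
      have h3 : x * ((m : Matrix (Fin n) (Fin n) E) * x) = (m : Matrix (Fin n) (Fin n) E) * x * x := by
        rw [hc, mul_assoc, hc]
      rw [h3]
      noncomm_ring

end mat

/-- powers with an odd exponent do not come closer to 1 -/
private theorem one_of_pow {E : Type*} [NormedField E] [NormedAlgebra ℚ_[2] E] {n : ℕ}
    {A : Matrix (Fin n) (Fin n) E} {r : ℝ} (hr : r < 1) (hA : ∀ i j, ‖(A - 1) i j‖ ≤ r)
    (h : ∀ ε : ℝ, 0 < ε → ∃ m : ℕ, Odd m ∧ ∀ i j, ‖(A ^ m - 1) i j‖ < ε) : A = 1 := by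
  have hu : IsUltrametricDist E := Gn.ultra 2 E
  by_contra hne
  have hne' : ∃ i j, (A - 1) i j ≠ 0 := by
    by_contra h0
    push Not at h0
    exact hne (sub_eq_zero.1 (Matrix.ext fun i j => by rw [h0 i j]; rfl))
  obtain ⟨i₀, j₀, h0⟩ := hne'
  obtain ⟨p, -, hp⟩ := Finset.exists_max_image (Finset.univ : Finset (Fin n × Fin n))
    (fun p => ‖(A - 1) p.1 p.2‖) ⟨(i₀, j₀), Finset.mem_univ _⟩
  obtain ⟨d, hd⟩ : ∃ d, d = ‖(A - 1) p.1 p.2‖ := ⟨_, rfl⟩
  have hdx : ∀ i j, ‖(A - 1) i j‖ ≤ d := fun i j => hd ▸ hp (i, j) (Finset.mem_univ _)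
  have hd0 : 0 < d := (norm_pos_iff.2 h0).trans_le (hdx i₀ j₀)
  have hd1 : d < 1 := by
    rw [hd]
    exact (hA _ _).trans_lt hr
  obtain ⟨m, hm, hm'⟩ := h d hd0
  obtain ⟨y, hy, hpow⟩ := pow_exp (x := A - 1) (fun i j => (hdx i j).trans hd1.le) m
  rw [add_sub_cancel] at hpow
  have h1 : A ^ m - 1 = (m : Matrix (Fin n) (Fin n) E) * (A - 1) + (A - 1) * (A - 1) * y := by
    rw [hpow]
    abel
  have h2 := hm' p.1 p.2
  have h3 : ((m : Matrix (Fin n) (Fin n) E) * (A - 1)) p.1 p.2 = (m : E) * (A - 1) p.1 p.2 := by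
    rw [← nsmul_eq_mul, Matrix.smul_apply, nsmul_eq_mul]
  have h4 : ‖(m : E)‖ = 1 := by
    have h5 : (m : E) = algebraMap ℚ_[2] E (m : ℚ_[2]) := (map_natCast _ _).symm
    rw [h5, norm_algebraMap', Padic.norm_natCast_eq_one_iff]
    exact (Nat.coprime_two_left.2 hm)
  have h6 : ‖((A - 1) * (A - 1) * y) p.1 p.2‖ < d := by
    have h7 := mul_bd (mul_nonneg hd0.le hd0.le) zero_le_one (mul_bd hd0.le hd0.le hdx hdx) hy p.1 p.2
    refine h7.trans_lt ?_
    rw [mul_one]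
    nlinarith
  rw [h1, Matrix.add_apply, h3] at h2
  have h8 : ‖(m : E) * (A - 1) p.1 p.2‖ = d := by rw [norm_mul, h4, one_mul, hd]
  have h9 : ‖(m : E) * (A - 1) p.1 p.2‖ ≤ max ‖(m : E) * (A - 1) p.1 p.2 +
      ((A - 1) * (A - 1) * y) p.1 p.2‖ ‖((A - 1) * (A - 1) * y) p.1 p.2‖ := by
    have h10 := IsUltrametricDist.norm_add_le_max ((m : E) * (A - 1) p.1 p.2 +
      ((A - 1) * (A - 1) * y) p.1 p.2) (-(((A - 1) * (A - 1) * y) p.1 p.2))
    rwa [add_neg_cancel_right, norm_neg] at h10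
  rw [h8] at h9
  exact absurd (h9.trans_lt (max_lt h2 h6)) (lt_irrefl _)

variable {K : Type*} [Field K] [NumberField K]

/-- open normal subgroups in the preimage of a neighbourhood of 1 -/
private theorem exists_nhd {H : Subgroup (AbsGal K)} (hH : IsOpen (H : Set (AbsGal K)))
    {E : Type*} [NormedField E] {n : ℕ} {τ : H →* Matrix (Fin n) (Fin n) E} (hτ : Continuous τ) {ε : ℝ}
    (hε : 0 < ε) : ∃ W : Subgroup (AbsGal K), IsOpen (W : Set (AbsGal K)) ∧ W.Normal ∧ W ≤ H ∧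
      ∀ h : H, (h : AbsGal K) ∈ W → ∀ i j, ‖(τ h - 1) i j‖ < ε := by
  have h1 : {h : H | ∀ i j, ‖(τ h - 1) i j‖ < ε} ∈ nhds (1 : H) := by
    have h2 : ∀ i j, {h : H | ‖(τ h - 1) i j‖ < ε} ∈ nhds (1 : H) := by
      intro i j
      refine (IsOpen.mem_nhds ?_ ?_)
      · refine isOpen_lt ?_ continuous_const
        exact (((continuous_apply_apply i j).comp hτ).sub continuous_const).norm
      · show ‖(τ 1 - 1) i j‖ < ε
        rw [map_one, sub_self, Matrix.zero_apply, norm_zero]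
        exact hε
    have h3 : {h : H | ∀ i j, ‖(τ h - 1) i j‖ < ε} = ⋂ i, ⋂ j, {h : H | ‖(τ h - 1) i j‖ < ε} := by
      ext h
      simp
    rw [h3]
    exact Filter.iInter_mem.2 fun i => Filter.iInter_mem.2 fun j => h2 i j
  have h4 : (Subtype.val '' {h : H | ∀ i j, ‖(τ h - 1) i j‖ < ε} : Set (AbsGal K)) ∈ nhds (1 : AbsGal K) :=
    hH.isOpenMap_subtype_val.image_mem_nhds h1
  obtain ⟨L, hL, hn, hLU⟩ := (krullTopology_mem_nhds_one_iff_of_normal K (AlgebraicClosure K) _).1 h4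
  have : IsGalois K L := ⟨⟩
  refine ⟨L.fixingSubgroup, L.fixingSubgroup_isOpen, inferInstance, fun g hg => ?_, fun h hh => ?_⟩
  · obtain ⟨h, -, rfl⟩ := hLU hg
    exact h.2
  · obtain ⟨h', h1', h2'⟩ := hLU hh
    have h3 : h' = h := Subtype.ext h2'
    rw [← h3]
    exact h1'

/-- A continuous 2-adic representation of an open subgroup `H` is trivial on the intersection of an open normal subgroup with the wild
inertia groups at the odd prime numbers. -/
theorem exists_W {H : Subgroup (AbsGal K)} (hH : IsOpen (H : Set (AbsGal K)))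
    {E : Type*} [NormedField E] [NormedAlgebra ℚ_[2] E] {n : ℕ} {τ : H →* Matrix (Fin n) (Fin n) E}
    (hτ : Continuous τ) : ∃ W : Subgroup (AbsGal K), IsOpen (W : Set (AbsGal K)) ∧ W.Normal ∧ W ≤ H ∧
      ∀ l : ℕ, Odd l → ∀ (Q : Ideal (𝓞 (AlgebraicClosure K))) (h : H), (h : AbsGal K) ∈ W →
        (h : AbsGal K) ∈ wildSet l Q → τ h = 1 := by
  obtain ⟨W, hWo, hWn, hWH, hW⟩ := exists_nhd hH hτ (ε := 1 / 2) (by norm_num)
  refine ⟨W, hWo, hWn, hWH, fun l hl Q h hh hh' => ?_⟩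
  refine one_of_pow (r := 1 / 2) (by norm_num) (fun i j => (hW h hh i j).le) fun ε hε => ?_
  obtain ⟨U, hUo, -, hUH, hU⟩ := exists_nhd hH hτ hε
  obtain ⟨j, hj⟩ := hh'.2 U hUo
  refine ⟨l ^ j, hl.pow, fun i i' => ?_⟩
  rw [← map_pow]
  exact hU (h ^ l ^ j) (by simpa using hj) i i'

end Pool.Agent.Work.MP_787500_nt.AR
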