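import Mathlib
import Pool.Agent.Work.MP_787500_nt.SH.MackI

/-!
# AR/IndN (size M): indices and the fixed space of a normal subgroup in the induced representation (pure group theory)

* `rel_mul`: `N` is normalized by `B ≤ A`: `A ⊇ N B ⊇ B` and `[N B : B] = [N : N ∩ B]`; here `B = A ⊓ H`, `N ≤ A`, so `N ∩ B = N ⊓ H`.
* `relIndex_conj`: the index of the normal subgroup `W` does not change under conjugation.
* `index_dc`: the number of the cosets of `H` is the sum over the double cosets `A g i H` (e.g. `SH.fix_cs` for the trivial representation of dimension 1 is not needed: count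
  `G ⧸ H` directly; or use `fix_cs` with `N = ⊥` for the given `τ` if `n ≥ 1`; a direct bijection `G ⧸ H ≃ Σ i, A' i ⧸ (A' i ⊓ H)` as in the proof of `SH.fix_cs`).
* `ind_count`: `SH.fix_cs`, multiplied by `W.relIndex N = W.relIndex (N' i) = (N' i ⊓ H).relIndex (N' i) * W.relIndex (N' i ⊓ H)` (`W ≤ H`), `rel_mul` and `index_dc`
  (`n * W.relIndex N` is at least the product that is subtracted).
-/

set_option autoImplicit false
set_option linter.unusedSectionVars false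

namespace Pool.Agent.Work.MP_787500_nt.AR

open Module NumberField Matrix

variable {G : Type*} [Group G] {H : Subgroup G}

private theorem mem_sup_nor {N B : Subgroup G} (hn : ∀ a ∈ B, ∀ σ ∈ N, a * σ * a⁻¹ ∈ N) {c : G}
    (hc : c ∈ N ⊔ B) : ∃ σ ∈ N, ∃ u ∈ B, c = σ * u := by
  let S : Subgroup G :=
    { carrier := {c | ∃ σ ∈ N, ∃ u ∈ B, c = σ * u}
      mul_mem' := by
        rintro _ _ ⟨σ, hσ, u, hu, rfl⟩ ⟨σ', hσ', u', hu', rfl⟩
        exact ⟨σ * (u * σ' * u⁻¹), N.mul_mem hσ (hn u hu σ' hσ'), u * u', B.mul_mem hu hu', by group⟩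
      one_mem' := ⟨1, N.one_mem, 1, B.one_mem, by group⟩
      inv_mem' := by
        rintro _ ⟨σ, hσ, u, hu, rfl⟩
        exact ⟨u⁻¹ * σ⁻¹ * u⁻¹⁻¹, hn _ (B.inv_mem hu) _ (N.inv_mem hσ), u⁻¹, B.inv_mem hu, by group⟩ }
  have h1 : N ⊔ B ≤ S := sup_le (fun σ hσ => ⟨σ, hσ, 1, B.one_mem, by group⟩)
    (fun u hu => ⟨1, N.one_mem, u, hu, by group⟩)
  exact h1 hc

private theorem relIndex_sup {N B : Subgroup G} (hn : ∀ a ∈ B, ∀ σ ∈ N, a * σ * a⁻¹ ∈ N) :
    B.relIndex (N ⊔ B) = B.relIndex N := by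
  symm
  refine Nat.card_congr (Equiv.ofBijective
    (Subgroup.quotientSubgroupOfEmbeddingOfLE B (le_sup_left : N ≤ N ⊔ B)) ⟨?_, ?_⟩)
  · exact (Subgroup.quotientSubgroupOfEmbeddingOfLE B (le_sup_left : N ≤ N ⊔ B)).injective
  · intro x
    induction x using QuotientGroup.induction_on with
    | H c =>
      obtain ⟨σ, hσ, u, hu, h1⟩ := mem_sup_nor hn c.2
      refine ⟨QuotientGroup.mk ⟨σ, hσ⟩, ?_⟩
      rw [Subgroup.quotientSubgroupOfEmbeddingOfLE_apply_mk, QuotientGroup.eq,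
        Subgroup.mem_subgroupOf]
      have h2 : ((Subgroup.inclusion (le_sup_left : N ≤ N ⊔ B) ⟨σ, hσ⟩)⁻¹ * c : G) = u := by
        rw [h1]
        show σ⁻¹ * (σ * u) = u
        group
      have h3 : (((Subgroup.inclusion (le_sup_left : N ≤ N ⊔ B) ⟨σ, hσ⟩)⁻¹ * c :
          (N ⊔ B : Subgroup G)) : G) = u := h2
      rw [h3]
      exact hu

theorem rel_mul {A N : Subgroup G} (hn : ∀ a ∈ A, ∀ σ ∈ N, a * σ * a⁻¹ ∈ N) (hNA : N ≤ A)
    (hH : H.index ≠ 0) :
    (A ⊓ H).relIndex A = (N ⊔ (A ⊓ H)).relIndex A * (N ⊓ H).relIndex N := by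
  have h1 := Subgroup.relIndex_mul_relIndex (A ⊓ H) (N ⊔ (A ⊓ H)) A le_sup_right
    (sup_le hNA inf_le_left)
  have h2 : (A ⊓ H).relIndex (N ⊔ (A ⊓ H)) = (A ⊓ H).relIndex N :=
    relIndex_sup fun a ha σ hσ => hn a ha.1 σ hσ
  have h3 : (A ⊓ H).relIndex N = (N ⊓ H).relIndex N := by
    rw [← Subgroup.inf_relIndex_right (A ⊓ H) N, ← Subgroup.inf_relIndex_right (N ⊓ H) N]
    congr 1
    ext x
    simp only [Subgroup.mem_inf]
    exact ⟨fun h => ⟨⟨h.2, h.1.2⟩, h.2⟩, fun h => ⟨⟨hNA h.2, h.1.2⟩, h.2⟩⟩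
  rw [← h1, h2, h3, mul_comm]

theorem relIndex_conj {W N N' : Subgroup G} (hW : W.Normal) {g : G}
    (hN : ∀ a, a ∈ N' ↔ g * a * g⁻¹ ∈ N) : W.relIndex N' = W.relIndex N := by
  have h1 : W.comap (MulAut.conj g).toMonoidHom = W := by
    ext a
    rw [Subgroup.mem_comap]
    show g * a * g⁻¹ ∈ W ↔ a ∈ W
    refine ⟨fun h => ?_, fun h => hW.conj_mem a h g⟩
    have h2 := hW.conj_mem _ h g⁻¹
    have h3 : g⁻¹ * (g * a * g⁻¹) * g⁻¹⁻¹ = a := by group
    rwa [h3] at h2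
  have h2 : N'.map (MulAut.conj g).toMonoidHom = N := by
    ext a
    rw [Subgroup.mem_map]
    constructor
    · rintro ⟨b, hb, rfl⟩
      exact (hN b).1 hb
    · intro ha
      have h3 : g * (g⁻¹ * a * g) * g⁻¹ = a := by group
      refine ⟨g⁻¹ * a * g, (hN _).2 (by rwa [h3]), h3⟩
  rw [← h2, ← Subgroup.relIndex_comap, h1]

theorem index_dc (hH : H.index ≠ 0) {A : Subgroup G} {Φ : Type*} [Fintype Φ] {g : Φ → G}
    {A' : Φ → Subgroup G} (hA : ∀ i a, a ∈ A' i ↔ g i * a * (g i)⁻¹ ∈ A)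
    (hg : ∀ a : G, ∃! i, ∃ (d : A) (h : H), a = d * g i * h) :
    H.index = ∑ i, (A' i ⊓ H).relIndex (A' i) := by
  classical
  have hfi : H.FiniteIndex := ⟨hH⟩
  have hfin : ∀ i, Finite (A' i ⧸ (A' i ⊓ H).subgroupOf (A' i)) := by
    intro i
    have h2 : (H.subgroupOf (A' i)).FiniteIndex := inferInstance
    have h3 : H.subgroupOf (A' i) ≤ (A' i ⊓ H).subgroupOf (A' i) := fun a ha =>
      (show (a : G) ∈ A' i ⊓ H from ⟨a.2, ha⟩)
    have h4 : ((A' i ⊓ H).subgroupOf (A' i)).FiniteIndex := Subgroup.finiteIndex_of_le h3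
    infer_instance
  have hwd : ∀ i (a b : A' i), QuotientGroup.leftRel ((A' i ⊓ H).subgroupOf (A' i)) a b →
      ((g i * a : G) : G ⧸ H) = ((g i * b : G) : G ⧸ H) := by
    intro i a b h
    rw [QuotientGroup.leftRel_apply] at h
    rw [QuotientGroup.eq]
    have h1 : (g i * a)⁻¹ * (g i * b) = (a : G)⁻¹ * b := by group
    rw [h1]
    exact h.2
  let f : (Σ i, A' i ⧸ (A' i ⊓ H).subgroupOf (A' i)) → G ⧸ H := fun k =>
    Quotient.lift (fun a : A' k.1 => ((g k.1 * a : G) : G ⧸ H)) (hwd k.1) k.2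
  have hf : ∀ i (a : A' i), f ⟨i, QuotientGroup.mk a⟩ = ((g i * a : G) : G ⧸ H) := fun i a => rfl
  have hbij : Function.Bijective f := by
    constructor
    · rintro ⟨i, x⟩ ⟨j, y⟩ hxy
      induction x using QuotientGroup.induction_on with
      | H a =>
        induction y using QuotientGroup.induction_on with
        | H b =>
          rw [hf, hf, QuotientGroup.eq] at hxy
          obtain ⟨k, -, hk⟩ := hg (g j * b)
          have hi : i = k := by
            refine hk i ⟨⟨g i * a * (g i)⁻¹, (hA i _).1 a.2⟩, ⟨_, hxy⟩, ?_⟩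
            show g j * b = g i * a * (g i)⁻¹ * g i * ((g i * a)⁻¹ * (g j * b))
            group
          have hj : j = k := by
            refine hk j ⟨⟨g j * b * (g j)⁻¹, (hA j _).1 b.2⟩, 1, ?_⟩
            show g j * b = g j * b * (g j)⁻¹ * g j * ((1 : H) : G)
            rw [Subgroup.coe_one]
            group
          obtain rfl : i = j := hi.trans hj.symm
          congr 1
          rw [QuotientGroup.eq]
          have h1 : (g i * a)⁻¹ * (g i * b) = (a : G)⁻¹ * b := by group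
          rw [h1] at hxy
          exact ⟨(A' i).mul_mem ((A' i).inv_mem a.2) b.2, hxy⟩
    · intro x
      induction x using QuotientGroup.induction_on with
      | H c =>
        obtain ⟨i, ⟨d, h, hc⟩, -⟩ := hg c
        have hd : (g i)⁻¹ * d * g i ∈ A' i := by
          rw [hA]
          have h1 : g i * ((g i)⁻¹ * d * g i) * (g i)⁻¹ = d := by group
          rw [h1]
          exact d.2
        refine ⟨⟨i, QuotientGroup.mk ⟨_, hd⟩⟩, ?_⟩
        rw [hf, QuotientGroup.eq]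
        have h2 : (g i * ((g i)⁻¹ * d * g i))⁻¹ * c = h := by
          rw [hc]
          group
        show (g i * ((g i)⁻¹ * d * g i))⁻¹ * c ∈ H
        rw [h2]
        exact h.2
  have h1 : H.index = Nat.card (Σ i, A' i ⧸ (A' i ⊓ H).subgroupOf (A' i)) :=
    (Nat.card_congr (Equiv.ofBijective f hbij)).symm
  rw [h1, Nat.card_sigma]
  rfl

theorem ind_count {E : Type*} [NormedField E] {n m : ℕ} {τ : H →* Matrix (Fin n) (Fin n) E}
    {R : G →* Matrix (Fin m) (Fin m) E} {val : (Fin m → E) →ₗ[E] (G → Fin n → E)}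
    (hI : SH.IsInd τ R val) (hH : H.index ≠ 0) (hm : m = n * H.index) {A N : Subgroup G}
    (hn : ∀ a ∈ A, ∀ σ ∈ N, a * σ * a⁻¹ ∈ N) (hNA : N ≤ A) {Φ : Type*} [Fintype Φ] {g : Φ → G}
    {A' N' : Φ → Subgroup G} (hA : ∀ i a, a ∈ A' i ↔ g i * a * (g i)⁻¹ ∈ A)
    (hN : ∀ i a, a ∈ N' i ↔ g i * a * (g i)⁻¹ ∈ N)
    (hg : ∀ a : G, ∃! i, ∃ (d : A) (h : H), a = d * g i * h) {W : Subgroup G} (hW : W.Normal)
    (hWH : W ≤ H) (hWf : W.index ≠ 0) :
    W.relIndex N * (m - finrank E (Parity.fixedBy (fun σ : N => R σ))) =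
      ∑ i, (A' i ⊓ H).relIndex (A' i) * (n * W.relIndex N - W.relIndex (N' i ⊓ H) *
        finrank E (Parity.fixedBy (fun σ : (N' i).subgroupOf H => τ σ))) := by
  classical
  have hfi : H.FiniteIndex := ⟨hH⟩
  have hfq : Finite (G ⧸ H) := inferInstance
  have hNA' : ∀ i, N' i ≤ A' i := fun i a ha => (hA i a).2 (hNA ((hN i a).1 ha))
  have hn' : ∀ i, ∀ a ∈ A' i, ∀ σ ∈ N' i, a * σ * a⁻¹ ∈ N' i := by
    intro i a ha σ hσ
    rw [hN]
    have h1 := hn _ ((hA i a).1 ha) _ ((hN i σ).1 hσ)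
    have h2 : g i * a * (g i)⁻¹ * (g i * σ * (g i)⁻¹) * (g i * a * (g i)⁻¹)⁻¹ =
        g i * (a * σ * a⁻¹) * (g i)⁻¹ := by group
    rwa [h2] at h1
  have hab : ∀ i, (A' i ⊓ H).relIndex (A' i) =
      (N' i ⊔ (A' i ⊓ H)).relIndex (A' i) * (N' i ⊓ H).relIndex (N' i) := fun i =>
    rel_mul (hn' i) (hNA' i) hH
  have hc0 : ∀ i, (N' i ⊓ H).relIndex (N' i) ≠ 0 := by
    intro i
    rw [inf_comm, Subgroup.inf_relIndex_right]
    exact Subgroup.FiniteIndex.index_ne_zero (H := H.subgroupOf (N' i))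
  have hw : ∀ i, W.relIndex N = W.relIndex (N' i ⊓ H) * (N' i ⊓ H).relIndex (N' i) := by
    intro i
    have h1 := Subgroup.relIndex_mul_relIndex (W ⊓ N' i) (N' i ⊓ H) (N' i)
      (fun a ha => ⟨ha.2, hWH ha.1⟩) inf_le_left
    have h2 : (W ⊓ N' i).relIndex (N' i ⊓ H) = W.relIndex (N' i ⊓ H) := by
      rw [← Subgroup.inf_relIndex_right (W ⊓ N' i), ← Subgroup.inf_relIndex_right W]
      congr 1
      ext x
      simp only [Subgroup.mem_inf]
      exact ⟨fun h => ⟨h.1.1, h.2⟩, fun h => ⟨⟨h.1, h.2.1⟩, h.2⟩⟩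
    rw [h2, Subgroup.inf_relIndex_right] at h1
    rw [← relIndex_conj hW (hN i), ← h1]
  have hf : ∀ i, finrank E (Parity.fixedBy (fun σ : (N' i).subgroupOf H => τ σ)) ≤ n := by
    intro i
    refine (Submodule.finrank_le _).trans (le_of_eq ?_)
    rw [Module.finrank_fin_fun]
  rw [SH.fix_cs hI hn hNA hA hN hg, hm, index_dc hH hA hg, Finset.mul_sum]
  rw [← Finset.sum_tsub_distrib, Finset.mul_sum]
  · refine Finset.sum_congr rfl fun i _ => ?_
    rw [Nat.mul_sub, Nat.mul_sub, hab i]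
    congr 1
    · ring
    · rw [hw i]
      ring
  · intro i _
    rw [hab i, mul_comm n, mul_assoc]
    refine Nat.mul_le_mul_left _ ?_
    calc finrank E (Parity.fixedBy (fun σ : (N' i).subgroupOf H => τ σ)) ≤ 1 * n := by
          rw [one_mul]
          exact hf i
      _ ≤ (N' i ⊓ H).relIndex (N' i) * n :=
          Nat.mul_le_mul_right _ (Nat.one_le_iff_ne_zero.2 (hc0 i))

end Pool.Agent.Work.MP_787500_nt.AR
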