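import Mathlib
import Pool.Agent.Work.MP_787500_nt.AR.FDefs

/-!
# Block AR (definitions, fixed, do not change)

Decompositions of a vector space, fixed spaces, groups with a filtration as the ramification groups.
-/

set_option autoImplicit false

namespace Pool.Agent.Work.MP_787500_nt.AR

open NumberField Matrix Module

section lin

variable {F V : Type*} [Field F] [AddCommGroup V] [Module F V]

/-- the vectors fixed by an endomorphism -/
def fx (x : End F V) : Submodule F V where
  carrier := {v | x v = v}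
  add_mem' := fun {u v} (hu : x u = u) (hv : x v = v) => show x (u + v) = u + v by rw [map_add, hu, hv]
  zero_mem' := map_zero x
  smul_mem' := fun a v (hv : x v = v) => show x (a • v) = a • v by rw [map_smul, hv]

/-- the vectors fixed by a family of endomorphisms -/
def fxs {ι : Type*} (T : ι → End F V) : Submodule F V where
  carrier := {v | ∀ i, T i v = v}
  add_mem' := fun {u v} (hu : ∀ i, T i u = u) (hv : ∀ i, T i v = v) i => by rw [map_add, hu i, hv i]
  zero_mem' := fun i => map_zero (T i)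
  smul_mem' := fun a v (hv : ∀ i, T i v = v) i => by rw [map_smul, hv i]

/-- the vectors on which every `T a` is the multiplication with `χ a` -/
def wt {ι : Type*} (T : ι → End F V) (χ : ι → F) : Submodule F V where
  carrier := {v | ∀ a, T a v = χ a • v}
  add_mem' := fun {u v} (hu : ∀ a, T a u = χ a • u) (hv : ∀ a, T a v = χ a • v) a => by
    rw [map_add, hu a, hv a, smul_add]
  zero_mem' := fun a => by rw [map_zero, smul_zero]
  smul_mem' := fun r v (hv : ∀ a, T a v = χ a • v) a => by rw [map_smul, hv a, smul_comm]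

theorem mem_fx {x : End F V} {v : V} : v ∈ fx x ↔ x v = v := Iff.rfl

theorem mem_fxs {ι : Type*} {T : ι → End F V} {v : V} : v ∈ fxs T ↔ ∀ i, T i v = v := Iff.rfl

theorem mem_wt {ι : Type*} {T : ι → End F V} {χ : ι → F} {v : V} :
    v ∈ wt T χ ↔ ∀ a, T a v = χ a • v := Iff.rfl

/-- `V` is the direct sum of the subspaces `W i`, and `e i` is the projection to `W i` -/
structure Dec {Ω : Type*} [Fintype Ω] (W : Ω → Submodule F V) (e : Ω → End F V) : Prop where
  mem : ∀ i v, e i v ∈ W i
  eq : ∀ i, ∀ v ∈ W i, e i v = v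
  ne : ∀ i j, i ≠ j → ∀ v ∈ W j, e i v = 0
  sum : ∀ v, ∑ i, e i v = v

/-- a nondegenerate alternating form -/
structure IsSy (B : V →ₗ[F] V →ₗ[F] F) : Prop where
  alt : ∀ v, B v v = 0
  nd : ∀ v, (∀ w, B v w = 0) → v = 0

/-- the representation on a stable subspace -/
def resE {J : Type*} [Group J] (ρ : J →* End F V) (X : Submodule F V) (hX : ∀ g, ∀ v ∈ X, ρ g v ∈ X) :
    J →* End F X where
  toFun g := (ρ g).restrict (hX g)
  map_one' := by
    ext v
    simp
  map_mul' g h := by
    ext v
    simp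

theorem resE_apply {J : Type*} [Group J] {ρ : J →* End F V} {X : Submodule F V}
    {hX : ∀ g, ∀ v ∈ X, ρ g v ∈ X} (g : J) (v : X) : ((resE ρ X hX g v : X) : V) = ρ g v := rfl

/-- the set `S` is the disjoint union of the sets `σ ^ j T` for `j < q` -/
structure Orb {Ω : Type*} (σ : Equiv.Perm Ω) (q : ℕ) (S T : Finset Ω) : Prop where
  sub : ∀ j : ℕ, ∀ t ∈ T, (σ ^ j) t ∈ S
  ex : ∀ i ∈ S, ∃ j < q, ∃ t ∈ T, (σ ^ j) t = i
  inj : ∀ j < q, ∀ j' < q, ∀ t ∈ T, ∀ t' ∈ T, (σ ^ j) t = (σ ^ j') t' → j = j' ∧ t = t'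
  per : ∀ i ∈ S, (σ ^ q) i = i

end lin

section fil

variable {J k : Type*} [Group J] [Field k]

/-- A sequence of normal subgroups `R i` of `J`, for `i ≥ 1`, and homomorphisms `η i` from `R i` to the additive group of `k` with
kernel `R (i + 1)`, on which the conjugation with `s` is the multiplication with `θ s ^ i`. The commutators of `J` belong to `R 1`. -/
structure Fil (R : ℕ → Subgroup J) (θ : J →* k) (η : ℕ → J → k) : Prop where
  conj_mem : ∀ i, 1 ≤ i → ∀ s, ∀ g ∈ R i, s * g * s⁻¹ ∈ R i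
  add : ∀ i, 1 ≤ i → ∀ g ∈ R i, ∀ h ∈ R i, η i (g * h) = η i g + η i h
  ker : ∀ i, 1 ≤ i → ∀ g, g ∈ R (i + 1) ↔ g ∈ R i ∧ η i g = 0
  conj : ∀ i, 1 ≤ i → ∀ s, ∀ g ∈ R i, η i (s * g * s⁻¹) = θ s ^ i * η i g
  comm : ∀ s t, s * t * s⁻¹ * t⁻¹ ∈ R 1

/-- A subgroup `A` of `J` with a homomorphism `η` from `A` to the additive group of `k`, on which the conjugation with `s` is the
multiplication with `ζ s`; the elements of the kernel act trivially on `V`. -/
structure Layer {F V : Type*} [Field F] [AddCommGroup V] [Module F V] (A : Subgroup J) (ζ : J →* k)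
    (η : J → k) (ρ : J →* End F V) : Prop where
  conj_mem : ∀ s, ∀ a ∈ A, s * a * s⁻¹ ∈ A
  add : ∀ a ∈ A, ∀ b ∈ A, η (a * b) = η a + η b
  conj : ∀ s, ∀ a ∈ A, η (s * a * s⁻¹) = ζ s * η a
  ker : ∀ a ∈ A, η a = 0 → ρ a = 1

/-- the sum over `1 ≤ i < N` of `[R i : R N]` times the codimension of the space fixed by `R i` -/
noncomputable def artN {F V : Type*} [Field F] [AddCommGroup V] [Module F V] (R : ℕ → Subgroup J)
    (ρ : J →* End F V) (N : ℕ) : ℕ :=
  ∑ i ∈ Finset.Ico 1 N, (R N).relIndex (R i) *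
    (finrank F V - finrank F (fxs fun g : R i => ρ g))

end fil

section mat

variable {F : Type*} [Field F] {J : Type*} [Group J] {n : ℕ}

/-- the action of the matrices `A g` on the vectors with coordinates in the extension field `F'` -/
noncomputable def mrep (F' : Type*) [Field F'] [Algebra F F'] (A : J →* Matrix (Fin n) (Fin n) F) :
    J →* End F' (Fin n → F') where
  toFun g := Matrix.toLin' ((A g).map (algebraMap F F'))
  map_one' := by
    rw [map_one, Matrix.map_one _ (map_zero _) (map_one _), Matrix.toLin'_one]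
    rfl
  map_mul' g h := by
    rw [map_mul, Matrix.map_mul, Matrix.toLin'_mul]
    rfl

theorem mrep_apply {F' : Type*} [Field F'] [Algebra F F'] (A : J →* Matrix (Fin n) (Fin n) F) (g : J)
    (v : Fin n → F') : mrep F' A g v = (A g).map (algebraMap F F') *ᵥ v := rfl

theorem mrep_self (A : J →* Matrix (Fin n) (Fin n) F) (g : J) (v : Fin n → F) :
    mrep F A g v = A g *ᵥ v := by
  rw [mrep_apply]
  congr 1

end mat

section cgr

variable {G R : Type*} [Group G] [CommRing R]

/-- `g` acts trivially modulo `q ^ (i + 1)` -/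
def Cgr (a : G →* RingAut R) (q : Ideal R) (i : ℕ) (g : G) : Prop := ∀ x, a g x - x ∈ q ^ (i + 1)

end cgr

section glob

variable {K : Type*} [Field K] {E : Type*} [NormedField E] {n : ℕ}

/-- the number `swan` for a representation of the whole group -/
noncomputable def swanK (l : ℕ) (W : Subgroup (AbsGal K)) (Q : Ideal (𝓞 (AlgebraicClosure K)))
    (ρ : AbsGal K →* Matrix (Fin n) (Fin n) E) : ℕ :=
  (∑ᶠ k : ℕ, ramCard ⊤ W Q (k + 1) * (n - finrank E (Parity.fixedBy
    (fun σ : {σ : AbsGal K // σ ∈ wildSet l Q ∧ σ ∈ ramSet W Q (k + 1)} => ρ σ)))) /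
      (ramCard ⊤ W Q 0 / ramCard ⊤ W Q 1)

/-- the contribution of an inert prime number -/
noncomputable def artK (l : ℕ) (W : Subgroup (AbsGal K)) (Q : Ideal (𝓞 (AlgebraicClosure K)))
    (ρ : AbsGal K →* Matrix (Fin n) (Fin n) E) : ℕ :=
  finrank E (Parity.fixedBy (fun σ : Q.inertia (AbsGal K) => ρ σ)) + swanK l W Q ρ

end glob

end Pool.Agent.Work.MP_787500_nt.AR
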