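import Mathlib
import Pool.Agent.Work.MP_787500_nt.AR.Defs

/-!
# AR/RamA (size M/L): the homomorphisms from the ramification groups

`G` acts on the Dedekind domain `R`, trivially modulo the maximal ideal `q ≠ ⊥` with finite residue field (`h0`). So `a g` maps `q ^ j` to `q ^ j`.
Choose `π ∈ q`, `π ∉ q ^ 2`. For `y ∈ q ^ j` there is `c` with `y - c π ^ j ∈ q ^ (j + 1)` (`Ideal.exists_mul_add_mem_pow_succ`), unique modulo `q`
(`Ideal.mem_prime_of_mul_mem_pow`).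
* `θ g` is the class of `c` with `a g π - c π ∈ q ^ 2`, and `η i g` (for `Cgr a q i g`) the class of `c` with `a g π - π - c π ^ (i + 1) ∈ q ^ (i + 2)`.
* `Cgr a q i g` and `η i g = 0` (or `θ g = 1` for `i = 0`) imply `Cgr a q (i + 1) g`: first for `x ∈ q`: `x = c π + e`, `e ∈ q ^ 2`,
  `a g x - x = (a g c - c) a g π + c (a g π - π) + (a g e - e)` and `a g e - e ∈ q ^ (i + 2)` (for a product `e = e' e''` of elements of `q`; for `i = 0` use that
  `a g` is trivial on `q / q ^ 2`, or state the claim for `i = 0` as: `a g x - x ∈ q ^ 2` for `x ∈ q`). Then for all `x`: `δ x = a g x - x` is additive and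
  `δ (x y) = δ x * a g y + x * δ y`, so modulo `q ^ (i + 2)` it is a derivation that vanishes on `q`; with `N = |R / q|`, `x - x ^ N ∈ q` and
  `δ (x ^ N) ≡ N x ^ (N - 1) δ x ≡ 0` (`N ∈ q`, `δ x ∈ q ^ (i + 1)`).
* additivity: `a (g h) π - π = a g (a h π - π) + (a g π - π)`, and `a g y - y ∈ q ^ (i + 2)` for `y ∈ q ^ (i + 1)` (for `i ≥ 1`).
* conjugation: `a s⁻¹ π = c π + e` with `c` over `θ s⁻¹`; `a g (a s⁻¹ π) - a s⁻¹ π ≡ c (a g π - π) ≡ c η π ^ (i + 1)` modulo `q ^ (i + 2)`; apply `a s`, with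
  `a s π ^ (i + 1) ≡ θ s ^ (i + 1) π ^ (i + 1)`.
-/

set_option autoImplicit false
set_option linter.unusedSectionVars false

namespace Pool.Agent.Work.MP_787500_nt.AR

open Module NumberField

variable {G R : Type*} [Group G] [CommRing R] [IsDedekindDomain R] {a : G →* RingAut R} {q : Ideal R}

/-- `a g` preserves the powers of `q` -/
theorem ramA_map (h0 : ∀ g, Cgr a q 0 g) (g : G) (j : ℕ) {x : R} (hx : x ∈ q ^ j) :
    a g x ∈ q ^ j := by
  have h1 : Ideal.map (a g : R →+* R) q ≤ q := by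
    rw [Ideal.map_le_iff_le_comap]
    intro y hy
    rw [Ideal.mem_comap]
    have h2 := h0 g y
    rw [zero_add, pow_one] at h2
    have h3 := q.add_mem h2 hy
    rw [sub_add_cancel] at h3
    exact h3
  have h4 : Ideal.map (a g : R →+* R) (q ^ j) ≤ q ^ j := by
    rw [Ideal.map_pow]
    exact Ideal.pow_right_mono h1 j
  exact h4 (Ideal.mem_map_of_mem (a g : R →+* R) hx)

theorem ramA_mul_apply (g h : G) (x : R) : a (g * h) x = a g (a h x) := by
  rw [map_mul]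
  rfl

theorem ramA_inv_apply (g : G) (x : R) : a g⁻¹ (a g x) = x := by
  rw [← ramA_mul_apply, inv_mul_cancel, map_one]
  rfl

theorem ramA_apply_inv (g : G) (x : R) : a g (a g⁻¹ x) = x := by
  rw [← ramA_mul_apply, mul_inv_cancel, map_one]
  rfl

theorem Cgr.mul {i : ℕ} {g h : G} (h0 : ∀ g, Cgr a q 0 g) (hg : Cgr a q i g) (hh : Cgr a q i h) :
    Cgr a q i (g * h) := by
  intro x
  have h1 := Ideal.add_mem _ (hg (a h x)) (hh x)
  rw [ramA_mul_apply]
  rwa [sub_add_sub_cancel] at h1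

theorem Cgr.inv {i : ℕ} {g : G} (h0 : ∀ g, Cgr a q 0 g) (hg : Cgr a q i g) : Cgr a q i g⁻¹ := by
  intro x
  have h1 := ramA_map h0 g⁻¹ (i + 1) (hg x)
  rw [map_sub, ramA_inv_apply] at h1
  have h2 := Ideal.neg_mem_iff _ |>.mpr h1
  rwa [neg_sub] at h2

theorem Cgr.conj {i : ℕ} {g : G} (h0 : ∀ g, Cgr a q 0 g) (hg : Cgr a q i g) (s : G) :
    Cgr a q i (s * g * s⁻¹) := by
  intro x
  have h1 := ramA_map h0 s (i + 1) (hg (a s⁻¹ x))
  rw [map_sub, ramA_apply_inv, ← ramA_mul_apply, ← ramA_mul_apply] at h1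
  exact h1

/-- the powers of a uniformizer -/
theorem ramA_pow (hq : q.IsMaximal) (hq0 : q ≠ ⊥) {π : R} (hπ : π ∈ q) (hπ2 : π ∉ q ^ 2) (j : ℕ) :
    q ^ j ≤ Ideal.span {π ^ j} ⊔ q ^ (j + 1) := by
  have : q.IsPrime := hq.isPrime
  have h1 : q ≤ Ideal.span {π} ⊔ q ^ 2 := by
    intro c hc
    obtain ⟨d, e, he, hde⟩ := Ideal.exists_mul_add_mem_pow_succ hq0 (i := 1) π c (by rwa [pow_one]) hπ2
      (by rwa [pow_one])
    rw [← hde, mul_comm]
    exact Ideal.mem_span_singleton_sup.mpr ⟨d, e, he, rfl⟩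
  induction j with
  | zero =>
    rw [pow_zero, pow_zero, Ideal.span_singleton_one, top_sup_eq]
    exact le_top
  | succ j ih =>
    calc q ^ (j + 1) = q ^ j * q := pow_succ q j
      _ ≤ (Ideal.span {π ^ j} ⊔ q ^ (j + 1)) * (Ideal.span {π} ⊔ q ^ 2) := Ideal.mul_mono ih h1
      _ = (Ideal.span {π ^ j} * Ideal.span {π} ⊔ q ^ (j + 1) * Ideal.span {π}) ⊔
          (Ideal.span {π ^ j} * q ^ 2 ⊔ q ^ (j + 1) * q ^ 2) := by
        rw [Ideal.mul_sup, Ideal.sup_mul, Ideal.sup_mul]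
      _ ≤ Ideal.span {π ^ (j + 1)} ⊔ q ^ (j + 1 + 1) := by
        have hs : Ideal.span {π} ≤ q := (Ideal.span_singleton_le_iff_mem _).mpr hπ
        have hs' : Ideal.span {π ^ j} ≤ q ^ j :=
          (Ideal.span_singleton_le_iff_mem _).mpr (Ideal.pow_mem_pow hπ j)
        refine sup_le (sup_le ?_ ?_) (sup_le ?_ ?_)
        · rw [Ideal.span_singleton_mul_span_singleton, ← pow_succ]
          exact le_sup_left
        · refine le_trans ?_ le_sup_right
          rw [pow_succ q (j + 1)]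
          exact Ideal.mul_mono le_rfl hs
        · refine le_trans ?_ le_sup_right
          calc Ideal.span {π ^ j} * q ^ 2 ≤ q ^ j * q ^ 2 := Ideal.mul_mono hs' le_rfl
            _ = q ^ (j + 1 + 1) := by rw [← pow_add]
        · refine le_trans ?_ le_sup_right
          rw [← pow_add]
          exact Ideal.pow_le_pow_right (by omega)

theorem ramA_notMem (hq : q.IsMaximal) (hq0 : q ≠ ⊥) {π : R} (hπ : π ∈ q) (hπ2 : π ∉ q ^ 2) (j : ℕ) :
    π ^ j ∉ q ^ (j + 1) := by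
  have : q.IsPrime := hq.isPrime
  intro h
  have h1 := ramA_pow hq hq0 hπ hπ2 j
  have h2 : Ideal.span {π ^ j} ⊔ q ^ (j + 1) ≤ q ^ (j + 1) :=
    sup_le ((Ideal.span_singleton_le_iff_mem _).mpr h) le_rfl
  exact absurd (h1.trans h2) (not_le_of_gt (Ideal.pow_succ_lt_pow hq0 j))

open Classical in
/-- the class of the coefficient of `π ^ j` -/
noncomputable def ramC (q : Ideal R) (π : R) (j : ℕ) (y : R) : R ⧸ q :=
  if h : ∃ c : R, y - c * π ^ j ∈ q ^ (j + 1) then Ideal.Quotient.mk q (Classical.choose h) else 0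

section coeff

variable {π : R}

theorem ramC_eq (hq : q.IsMaximal) (hq0 : q ≠ ⊥) (hπ : π ∈ q) (hπ2 : π ∉ q ^ 2) {j : ℕ} {y c : R}
    (h : y - c * π ^ j ∈ q ^ (j + 1)) : ramC q π j y = Ideal.Quotient.mk q c := by
  have : q.IsPrime := hq.isPrime
  have hex : ∃ c : R, y - c * π ^ j ∈ q ^ (j + 1) := ⟨c, h⟩
  have hs := Classical.choose_spec hex
  rw [ramC, dif_pos hex, Ideal.Quotient.eq]
  refine Ideal.mem_prime_of_mul_mem_pow hq0 (ramA_notMem hq hq0 hπ hπ2 j) ?_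
  have h1 := Ideal.sub_mem _ h hs
  have h2 : π ^ j * (Classical.choose hex - c) =
      y - c * π ^ j - (y - Classical.choose hex * π ^ j) := by ring
  rw [h2]
  exact h1

theorem ramC_ex (hq : q.IsMaximal) (hq0 : q ≠ ⊥) (hπ : π ∈ q) (hπ2 : π ∉ q ^ 2) {j : ℕ} {y : R}
    (hy : y ∈ q ^ j) : ∃ c, ramC q π j y = Ideal.Quotient.mk q c ∧ y - c * π ^ j ∈ q ^ (j + 1) := by
  have : q.IsPrime := hq.isPrime
  obtain ⟨d, e, he, hde⟩ := Ideal.exists_mul_add_mem_pow_succ hq0 (π ^ j) y (Ideal.pow_mem_pow hπ j)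
    (ramA_notMem hq hq0 hπ hπ2 j) hy
  have h1 : y - d * π ^ j ∈ q ^ (j + 1) := by
    have h2 : y - d * π ^ j = e := by
      rw [← hde]
      ring
    rw [h2]
    exact he
  exact ⟨d, ramC_eq hq hq0 hπ hπ2 h1, h1⟩

theorem ramC_add (hq : q.IsMaximal) (hq0 : q ≠ ⊥) (hπ : π ∈ q) (hπ2 : π ∉ q ^ 2) {j : ℕ} {y z : R}
    (hy : y ∈ q ^ j) (hz : z ∈ q ^ j) : ramC q π j (y + z) = ramC q π j y + ramC q π j z := by
  obtain ⟨c, h1, h2⟩ := ramC_ex hq hq0 hπ hπ2 hy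
  obtain ⟨d, h3, h4⟩ := ramC_ex hq hq0 hπ hπ2 hz
  rw [h1, h3, ← map_add]
  refine ramC_eq hq hq0 hπ hπ2 ?_
  have h5 := Ideal.add_mem _ h2 h4
  have h6 : y + z - (c + d) * π ^ j = y - c * π ^ j + (z - d * π ^ j) := by ring
  rw [h6]
  exact h5

theorem ramC_mul (hq : q.IsMaximal) (hq0 : q ≠ ⊥) (hπ : π ∈ q) (hπ2 : π ∉ q ^ 2) {j : ℕ} {y : R}
    (hy : y ∈ q ^ j) (d : R) : ramC q π j (d * y) = Ideal.Quotient.mk q d * ramC q π j y := by
  obtain ⟨c, h1, h2⟩ := ramC_ex hq hq0 hπ hπ2 hy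
  rw [h1, ← map_mul]
  refine ramC_eq hq hq0 hπ hπ2 ?_
  have h6 : d * y - d * c * π ^ j = d * (y - c * π ^ j) := by ring
  rw [h6]
  exact Ideal.mul_mem_left _ _ h2

theorem ramC_congr (hq : q.IsMaximal) (hq0 : q ≠ ⊥) (hπ : π ∈ q) (hπ2 : π ∉ q ^ 2) {j : ℕ} {y z : R}
    (hy : y ∈ q ^ j) (h : z - y ∈ q ^ (j + 1)) : ramC q π j z = ramC q π j y := by
  obtain ⟨c, h1, h2⟩ := ramC_ex hq hq0 hπ hπ2 hy
  rw [h1]
  refine ramC_eq hq hq0 hπ hπ2 ?_
  have h6 : z - c * π ^ j = z - y + (y - c * π ^ j) := by ring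
  rw [h6]
  exact Ideal.add_mem _ h h2

theorem ramC_zero (hq : q.IsMaximal) (hq0 : q ≠ ⊥) (hπ : π ∈ q) (hπ2 : π ∉ q ^ 2) {j : ℕ} {y : R}
    (hy : y ∈ q ^ j) : ramC q π j y = 0 ↔ y ∈ q ^ (j + 1) := by
  constructor
  · intro h
    obtain ⟨c, h1, h2⟩ := ramC_ex hq hq0 hπ hπ2 hy
    rw [h1, Ideal.Quotient.eq_zero_iff_mem] at h
    have h3 : c * π ^ j ∈ q ^ (j + 1) := by
      rw [pow_succ']
      exact Ideal.mul_mem_mul h (Ideal.pow_mem_pow hπ j)
    have h4 := Ideal.add_mem _ h2 h3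
    rwa [sub_add_cancel] at h4
  · intro h
    rw [← map_zero (Ideal.Quotient.mk q)]
    refine ramC_eq hq hq0 hπ hπ2 ?_
    rw [zero_mul, sub_zero]
    exact h

theorem ramA_powsub {x y : R} (hx : x ∈ q) (hy : y ∈ q) (h : x - y ∈ q ^ 2) (j : ℕ) :
    x ^ j - y ^ j ∈ q ^ (j + 1) := by
  induction j with
  | zero => simp
  | succ j ih =>
    have h1 : x ^ (j + 1) - y ^ (j + 1) = (x ^ j - y ^ j) * x + (x - y) * y ^ j := by ring
    rw [h1]
    refine Ideal.add_mem _ ?_ ?_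
    · rw [pow_succ q (j + 1)]
      exact Ideal.mul_mem_mul ih hx
    · have h2 : q ^ (j + 1 + 1) = q ^ 2 * q ^ j := by
        rw [← pow_add]
        congr 1
        omega
      rw [h2]
      exact Ideal.mul_mem_mul h (Ideal.pow_mem_pow hy j)

theorem ramC_act (hq : q.IsMaximal) (hq0 : q ≠ ⊥) (hπ : π ∈ q) (hπ2 : π ∉ q ^ 2)
    (h0 : ∀ g, Cgr a q 0 g) {j : ℕ} {y : R} (hy : y ∈ q ^ j) (s : G) :
    ramC q π j (a s y) = ramC q π 1 (a s π) ^ j * ramC q π j y := by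
  obtain ⟨c, h1, h2⟩ := ramC_ex hq hq0 hπ hπ2 hy
  have hsπ : a s π ∈ q ^ 1 := ramA_map h0 s 1 (by rwa [pow_one])
  obtain ⟨t, h3, h4⟩ := ramC_ex hq hq0 hπ hπ2 (j := 1) hsπ
  rw [h1, h3, ← map_pow, ← map_mul]
  refine ramC_eq hq hq0 hπ hπ2 ?_
  rw [pow_one] at h4 hsπ
  have h5 : a s π ^ j - (t * π) ^ j ∈ q ^ (j + 1) :=
    ramA_powsub hsπ (Ideal.mul_mem_left _ _ hπ) h4 j
  have h6 := ramA_map h0 s (j + 1) h2
  rw [map_sub, map_mul, map_pow] at h6
  have h7 : (a s c - c) * (t * π) ^ j ∈ q ^ (j + 1) := by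
    rw [pow_succ' q j]
    refine Ideal.mul_mem_mul ?_ (Ideal.pow_mem_pow (Ideal.mul_mem_left _ _ hπ) j)
    have h8 := h0 s c
    rwa [zero_add, pow_one] at h8
  have h9 : a s y - t ^ j * c * π ^ j = a s y - a s c * a s π ^ j +
      a s c * (a s π ^ j - (t * π) ^ j) + (a s c - c) * (t * π) ^ j := by ring
  rw [h9]
  exact Ideal.add_mem _ (Ideal.add_mem _ h6 (Ideal.mul_mem_left _ _ h5)) h7

end coeff

/-- on the square of `q` -/
theorem ramA_sq (h0 : ∀ g, Cgr a q 0 g) {i : ℕ} {g : G} (hg : Cgr a q i g) {e : R}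
    (he : e ∈ q ^ 2) : a g e - e ∈ q ^ (i + 2) := by
  rw [pow_two] at he
  refine Submodule.mul_induction_on he ?_ ?_
  · intro x hx y hy
    have h1 : a g (x * y) - x * y = (a g x - x) * a g y + (a g y - y) * x := by
      rw [map_mul]
      ring
    rw [h1]
    have h2 : a g y ∈ q := by
      have h3 := ramA_map h0 g 1 (x := y) (by rwa [pow_one])
      rwa [pow_one] at h3
    have h4 : q ^ (i + 2) = q ^ (i + 1) * q := pow_succ q (i + 1)
    rw [h4]
    exact Ideal.add_mem _ (Ideal.mul_mem_mul (hg x) h2) (Ideal.mul_mem_mul (hg y) hx)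
  · intro x y hx hy
    have h1 : a g (x + y) - (x + y) = a g x - x + (a g y - y) := by
      rw [map_add]
      ring
    rw [h1]
    exact Ideal.add_mem _ hx hy

/-- `δ y` for `y` with the coefficient `c` -/
theorem ramA_delta (h0 : ∀ g, Cgr a q 0 g) {π : R} (hπ : π ∈ q) {i : ℕ} {g : G} (hg : Cgr a q i g)
    {y c : R} (hy : y - c * π ∈ q ^ 2) : a g y - y - c * (a g π - π) ∈ q ^ (i + 2) := by
  have h1 := ramA_sq h0 hg hy
  rw [map_sub, map_mul] at h1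
  have h2 : (a g c - c) * a g π ∈ q ^ (i + 2) := by
    have h4 : q ^ (i + 2) = q ^ (i + 1) * q := pow_succ q (i + 1)
    rw [h4]
    refine Ideal.mul_mem_mul (hg c) ?_
    have h3 := ramA_map h0 g 1 (x := π) (by rwa [pow_one])
    rwa [pow_one] at h3
  have h3 : a g y - y - c * (a g π - π) =
      a g y - a g c * a g π - (y - c * π) + (a g c - c) * a g π := by ring
  rw [h3]
  exact Ideal.add_mem _ h1 h2

/-- the step -/
theorem ramA_step (hq : q.IsMaximal) (hq0 : q ≠ ⊥) (hf : Finite (R ⧸ q)) (h0 : ∀ g, Cgr a q 0 g)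
    {π : R} (hπ : π ∈ q) (hπ2 : π ∉ q ^ 2) {i : ℕ} {g : G} (hg : Cgr a q i g)
    (h : a g π - π ∈ q ^ (i + 2)) : Cgr a q (i + 1) g := by
  have : q.IsPrime := hq.isPrime
  -- on `q`
  have hA : ∀ y ∈ q, a g y - y ∈ q ^ (i + 2) := by
    intro y hy
    obtain ⟨c, -, h2⟩ := ramC_ex hq hq0 hπ hπ2 (j := 1) (y := y) (by rwa [pow_one])
    rw [pow_one] at h2
    have h3 := ramA_delta h0 hπ hg h2
    have h4 := Ideal.add_mem _ h3 (Ideal.mul_mem_left _ c h)
    rwa [sub_add_cancel] at h4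
  let _ : Field (R ⧸ q) := Ideal.Quotient.field q
  have := Fintype.ofFinite (R ⧸ q)
  intro x
  set N := Fintype.card (R ⧸ q) with hN
  have h1 : x ^ N - x ∈ q := by
    rw [← Ideal.Quotient.eq, map_pow]
    exact FiniteField.pow_card _
  have h2 := hA _ h1
  have hNq : (N : R) ∈ q := by
    rw [← Ideal.Quotient.eq_zero_iff_mem, map_natCast]
    exact FiniteField.cast_card_eq_zero (R ⧸ q)
  have h3 : a g (x ^ N) - x ^ N ∈ q ^ (i + 2) := by
    rw [map_pow]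
    obtain ⟨k, hk⟩ := Polynomial.powAddExpansion x (a g x - x) N
    have h5 : a g x ^ N = (x + (a g x - x)) ^ N := by
      congr 1
      ring
    rw [h5, hk]
    have h6 : x ^ N + N * x ^ (N - 1) * (a g x - x) + k * (a g x - x) ^ 2 - x ^ N =
        (N : R) * (a g x - x) * x ^ (N - 1) + k * ((a g x - x) * (a g x - x)) := by ring
    rw [h6]
    refine Ideal.add_mem _ (Ideal.mul_mem_right _ _ ?_) (Ideal.mul_mem_left _ _ ?_)
    · have h4 : q ^ (i + 2) = q * q ^ (i + 1) := pow_succ' q (i + 1)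
      rw [h4]
      exact Ideal.mul_mem_mul hNq (hg x)
    · have h7 := Ideal.mul_mem_mul (hg x) (hg x)
      rw [← pow_add] at h7
      exact Ideal.pow_le_pow_right (by omega) h7
  have h4 : a g x - x = a g (x ^ N) - x ^ N - (a g (x ^ N - x) - (x ^ N - x)) := by
    rw [map_sub]
    ring
  show a g x - x ∈ q ^ (i + 1 + 1)
  rw [h4]
  exact Ideal.sub_mem _ h3 h2

theorem exists_eta (hq : q.IsMaximal) (hq0 : q ≠ ⊥) (hf : Finite (R ⧸ q)) (h0 : ∀ g, Cgr a q 0 g) :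
    ∃ (θ : G →* R ⧸ q) (η : ℕ → G → R ⧸ q), (∀ g, θ g = 1 ↔ Cgr a q 1 g) ∧
      (∀ i, 1 ≤ i → ∀ g h, Cgr a q i g → Cgr a q i h → η i (g * h) = η i g + η i h) ∧
      (∀ i, 1 ≤ i → ∀ g, Cgr a q (i + 1) g ↔ Cgr a q i g ∧ η i g = 0) ∧
      ∀ i, 1 ≤ i → ∀ s g, Cgr a q i g → η i (s * g * s⁻¹) = θ s ^ i * η i g := by
  have : q.IsPrime := hq.isPrime
  have hlt := Ideal.pow_succ_lt_pow hq0 1
  obtain ⟨π, hπ1, hπ2⟩ := Set.exists_of_ssubset hlt
  have hπ : π ∈ q := by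
    have h1 : π ∈ q ^ 1 := hπ1
    rwa [pow_one] at h1
  have hπ2 : π ∉ q ^ 2 := hπ2
  have hπ1 : π ∈ q ^ 1 := hπ1
  have hmono : ∀ i j : ℕ, i ≤ j → ∀ g, Cgr a q j g → Cgr a q i g := by
    intro i j hij g hg x
    exact Ideal.pow_le_pow_right (by omega) (hg x)
  have hππ : ramC q π 1 π = 1 := by
    rw [← map_one (Ideal.Quotient.mk q)]
    refine ramC_eq hq hq0 hπ hπ2 ?_
    rw [one_mul, pow_one, sub_self]
    exact Ideal.zero_mem _
  let θ : G →* R ⧸ q :=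
    { toFun := fun g => ramC q π 1 (a g π)
      map_one' := by
        rw [map_one]
        exact hππ
      map_mul' := fun g h => by
        rw [ramA_mul_apply, ramC_act hq hq0 hπ hπ2 h0 (ramA_map h0 h 1 hπ1) g, pow_one] }
  have hθ : ∀ g, θ g = ramC q π 1 (a g π) := fun g => rfl
  have hθ1 : ∀ g, θ g = 1 ↔ Cgr a q 1 g := by
    intro g
    constructor
    · intro hg
      refine ramA_step hq hq0 hf h0 hπ hπ2 (h0 g) ?_
      rw [hθ] at hg
      obtain ⟨c, h1, h2⟩ := ramC_ex hq hq0 hπ hπ2 (ramA_map h0 g 1 hπ1)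
      rw [h1, ← map_one (Ideal.Quotient.mk q), Ideal.Quotient.eq] at hg
      have h3 : (c - 1) * π ∈ q ^ 2 := by
        rw [pow_two]
        exact Ideal.mul_mem_mul hg hπ
      have h4 : a g π - π = a g π - c * π ^ 1 + (c - 1) * π := by ring
      rw [h4]
      exact Ideal.add_mem _ h2 h3
    · intro hg
      rw [hθ, ← hππ]
      exact ramC_congr hq hq0 hπ hπ2 hπ1 (hg π)
  refine ⟨θ, fun i g => ramC q π (i + 1) (a g π - π), hθ1, ?_, ?_, ?_⟩
  · intro i hi g h hg hh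
    have hg1 : θ g = 1 := (hθ1 g).mpr (hmono 1 i hi g hg)
    have h1 : a (g * h) π - π = a g (a h π - π) + (a g π - π) := by
      rw [ramA_mul_apply, map_sub]
      ring
    show ramC q π (i + 1) (a (g * h) π - π) = ramC q π (i + 1) (a g π - π) +
      ramC q π (i + 1) (a h π - π)
    rw [h1, ramC_add hq hq0 hπ hπ2 (ramA_map h0 g (i + 1) (hh π)) (hg π),
      ramC_act hq hq0 hπ hπ2 h0 (hh π) g, ← hθ, hg1, one_pow, one_mul, add_comm]
  · intro i hi g
    show Cgr a q (i + 1) g ↔ Cgr a q i g ∧ ramC q π (i + 1) (a g π - π) = 0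
    constructor
    · intro hg
      refine ⟨hmono i (i + 1) (by omega) g hg, ?_⟩
      rw [ramC_zero hq hq0 hπ hπ2 (hmono i (i + 1) (by omega) g hg π)]
      exact hg π
    · rintro ⟨hg, h1⟩
      rw [ramC_zero hq hq0 hπ hπ2 (hg π)] at h1
      exact ramA_step hq hq0 hf h0 hπ hπ2 hg h1
  · intro i hi s g hg
    show ramC q π (i + 1) (a (s * g * s⁻¹) π - π) = θ s ^ i * ramC q π (i + 1) (a g π - π)
    obtain ⟨c, h1, h2⟩ := ramC_ex hq hq0 hπ hπ2 (ramA_map h0 s⁻¹ 1 hπ1)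
    rw [pow_one] at h2
    have h3 := ramA_delta h0 hπ hg h2
    have h4 : a (s * g * s⁻¹) π - π = a s (a g (a s⁻¹ π) - a s⁻¹ π) := by
      rw [map_sub, ramA_apply_inv, ← ramA_mul_apply, ← ramA_mul_apply]
    have h5 : θ s * θ s⁻¹ = 1 := by
      rw [← map_mul, mul_inv_cancel, map_one]
    rw [h4, ramC_act hq hq0 hπ hπ2 h0 (hg _) s, ← hθ,
      ramC_congr hq hq0 hπ hπ2 (Ideal.mul_mem_left _ c (hg π)) h3, ramC_mul hq hq0 hπ hπ2 (hg π),
      ← h1, ← hθ, pow_succ, mul_assoc, ← mul_assoc (θ s) (θ s⁻¹), h5, one_mul]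

end Pool.Agent.Work.MP_787500_nt.AR
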