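import Mathlib
import Pool.Agent.Work.MP_787500_nt.AR.Defs

/-!
# AR/RamB (size M): the action on the integers of a finite Galois extension

`L` is the field fixed by the open normal subgroup `W`; it is a number field (`FiniteDimensional K L` since `W` is open: Krull topology,
`InfiniteGalois..` / `IntermediateField.finiteDimensional..`, see also the proofs in `H10_*`, `KR`, `HP`), normal over `K`.
* `exists_act`: the action of the group on `𝓞 L` (`AlgEquiv.restrictNormalHom`, `NumberField.RingOfIntegers.mapRingEquiv`-like).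
* `ideal_L`: the ideal under the prime `Q` over `l`: maximal, not zero, the residue field is finite of characteristic `l`.
* `mem_W_iff`: `g` is trivial on `𝓞 L` if and only if it is trivial on `L` (fractions), if and only if it is in `W` (`W` is closed).
* `ramSet_iff`: `ramSet` in terms of `Cgr` (`algebraMap` is injective).
* `inertia_cgr`: the inertia group acts trivially modulo `q`.
* `exists_N`: the intersection of the `q ^ i` is zero (`Ideal.iInf_pow_eq_bot_of_isDomain`); for each of the finitely many cosets of `W` not equal to `W` there is `i` such that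
  its elements are not in `ramSet W Q i`.
-/

set_option autoImplicit false
set_option linter.unusedSectionVars false

namespace Pool.Agent.Work.MP_787500_nt.AR

open Module NumberField

universe u

variable {K : Type u} [Field K] [NumberField K] {W : Subgroup (AbsGal K)}

private theorem ramB_closed (hW : IsOpen (W : Set (AbsGal K))) :
    (IntermediateField.fixedField (F := K) (E := AlgebraicClosure K) W).fixingSubgroup = W :=
  InfiniteGalois.fixingSubgroup_fixedField (k := K) (K := AlgebraicClosure K)
    ⟨W, Subgroup.isClosed_of_isOpen W hW⟩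

private theorem ramB_inj : Function.Injective
    (algebraMap (𝓞 (IntermediateField.fixedField W)) (𝓞 (AlgebraicClosure K))) := by
  intro x y h
  apply RingOfIntegers.ext
  apply Subtype.ext
  have := congrArg (algebraMap (𝓞 (AlgebraicClosure K)) (AlgebraicClosure K)) h
  exact this

private theorem ramB_fix {g : AbsGal K} (hg : g ∈ W) (x : 𝓞 (IntermediateField.fixedField W)) :
    g • algebraMap (𝓞 (IntermediateField.fixedField W)) (𝓞 (AlgebraicClosure K)) x =
      algebraMap (𝓞 (IntermediateField.fixedField W)) (𝓞 (AlgebraicClosure K)) x := by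
  apply RingOfIntegers.ext
  have h1 := (IntermediateField.mem_fixedField_iff W _).1 (x : IntermediateField.fixedField W).2 g hg
  exact h1

theorem numberField_fixed (hW : IsOpen (W : Set (AbsGal K))) :
    NumberField (IntermediateField.fixedField W) := by
  have h : FiniteDimensional K (IntermediateField.fixedField (F := K) (E := AlgebraicClosure K) W) := by
    rw [← InfiniteGalois.isOpen_iff_finite, ramB_closed hW]
    exact hW
  exact NumberField.of_module_finite K _

theorem exists_act (hW : IsOpen (W : Set (AbsGal K))) (hn : W.Normal) :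
    ∃ a : AbsGal K →* RingAut (𝓞 (IntermediateField.fixedField W)), ∀ g x,
      algebraMap (𝓞 (IntermediateField.fixedField W)) (𝓞 (AlgebraicClosure K)) (a g x) =
        g • algebraMap (𝓞 (IntermediateField.fixedField W)) (𝓞 (AlgebraicClosure K)) x := by
  have hg : IsGalois K (IntermediateField.fixedField (F := K) (E := AlgebraicClosure K) W) := by
    rw [← InfiniteGalois.normal_iff_isGalois, ramB_closed hW]
    exact hn
  refine ⟨(MulSemiringAction.toRingAut (Gal((IntermediateField.fixedField W)/K))
    (𝓞 (IntermediateField.fixedField W))).comp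
    (AlgEquiv.restrictNormalHom (IntermediateField.fixedField W)), fun g x => ?_⟩
  apply RingOfIntegers.ext
  exact AlgEquiv.restrictNormal_commutes g (IntermediateField.fixedField W) x

section act

variable {a : AbsGal K →* RingAut (𝓞 (IntermediateField.fixedField W))}
  {Q : Ideal (𝓞 (AlgebraicClosure K))}

theorem ideal_L (hW : IsOpen (W : Set (AbsGal K))) {l : ℕ} (hl : l.Prime) (hQ : Q.IsPrime)
    (hlQ : (l : 𝓞 (AlgebraicClosure K)) ∈ Q) {q : Ideal (𝓞 (IntermediateField.fixedField W))}
    (hq : q = Q.comap (algebraMap (𝓞 (IntermediateField.fixedField W)) (𝓞 (AlgebraicClosure K)))) :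
    q.IsMaximal ∧ q ≠ ⊥ ∧ Finite (𝓞 (IntermediateField.fixedField W) ⧸ q) ∧
      CharP (𝓞 (IntermediateField.fixedField W) ⧸ q) l := by
  have hnf := numberField_fixed hW
  have hp : q.IsPrime := by
    rw [hq]
    exact Ideal.comap_isPrime _ _
  have hl' : (l : 𝓞 (IntermediateField.fixedField W)) ∈ q := by
    rw [hq, Ideal.mem_comap, map_natCast]
    exact hlQ
  have h0 : q ≠ ⊥ := by
    intro h
    rw [h, Ideal.mem_bot] at hl'
    exact hl.ne_zero (by exact_mod_cast hl')
  have hm : q.IsMaximal := hp.isMaximal h0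
  refine ⟨hm, h0, Ideal.finiteQuotientOfFreeOfNeBot q h0, ?_⟩
  have : Nontrivial (𝓞 (IntermediateField.fixedField W) ⧸ q) := Ideal.Quotient.nontrivial_iff.2 hp.ne_top
  rw [CharP.charP_iff_prime_eq_zero hl]
  rw [← map_natCast (Ideal.Quotient.mk q), Ideal.Quotient.eq_zero_iff_mem]
  exact hl'

theorem mem_W_iff (hW : IsOpen (W : Set (AbsGal K))) (ha : ∀ g x,
      algebraMap (𝓞 (IntermediateField.fixedField W)) (𝓞 (AlgebraicClosure K)) (a g x) =
        g • algebraMap (𝓞 (IntermediateField.fixedField W)) (𝓞 (AlgebraicClosure K)) x) {g : AbsGal K} :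
    g ∈ W ↔ ∀ x, a g x = x := by
  have hnf := numberField_fixed hW
  constructor
  · intro hg x
    apply ramB_inj
    rw [ha, ramB_fix hg]
  · intro h
    have hx : ∀ x : 𝓞 (IntermediateField.fixedField W),
        g ((x : IntermediateField.fixedField W) : AlgebraicClosure K) =
          ((x : IntermediateField.fixedField W) : AlgebraicClosure K) := by
      intro x
      have h1 := ha g x
      rw [h x] at h1
      have h2 := congrArg (algebraMap (𝓞 (AlgebraicClosure K)) (AlgebraicClosure K)) h1
      exact h2.symm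
    have hmem : g ∈ (IntermediateField.fixedField (F := K) (E := AlgebraicClosure K) W).fixingSubgroup := by
      rw [IntermediateField.mem_fixingSubgroup_iff]
      intro z hz
      obtain ⟨x, y, hxy⟩ := IsFractionRing.div_surjective (A := 𝓞 (IntermediateField.fixedField W))
        (⟨z, hz⟩ : IntermediateField.fixedField W)
      have hz' : z = ((x : IntermediateField.fixedField W) : AlgebraicClosure K) /
          ((y : IntermediateField.fixedField W) : AlgebraicClosure K) := by
        have := congrArg (fun t : IntermediateField.fixedField W => (t : AlgebraicClosure K)) hxy.2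
        simpa using this.symm
      rw [hz', map_div₀, hx, hx]
    rw [ramB_closed hW] at hmem
    exact hmem

theorem ramSet_iff (ha : ∀ g x,
      algebraMap (𝓞 (IntermediateField.fixedField W)) (𝓞 (AlgebraicClosure K)) (a g x) =
        g • algebraMap (𝓞 (IntermediateField.fixedField W)) (𝓞 (AlgebraicClosure K)) x) {g : AbsGal K}
    {i : ℕ} : g ∈ ramSet W Q i ↔ g ∈ Q.inertia (AbsGal K) ∧
      Cgr a (Q.comap (algebraMap (𝓞 (IntermediateField.fixedField W)) (𝓞 (AlgebraicClosure K)))) i g := by
  unfold ramSet Cgr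
  rw [Set.mem_ofPred_eq]
  refine and_congr_right fun _ => forall_congr' fun x => ?_
  constructor
  · rintro ⟨y, hy, hyx⟩
    rw [← ha, ← map_sub] at hyx
    rw [← ramB_inj hyx]
    exact hy
  · intro h
    refine ⟨_, h, ?_⟩
    rw [map_sub, ha]

theorem inertia_cgr (ha : ∀ g x,
      algebraMap (𝓞 (IntermediateField.fixedField W)) (𝓞 (AlgebraicClosure K)) (a g x) =
        g • algebraMap (𝓞 (IntermediateField.fixedField W)) (𝓞 (AlgebraicClosure K)) x) {g : AbsGal K}
    (hg : g ∈ Q.inertia (AbsGal K)) :
    Cgr a (Q.comap (algebraMap (𝓞 (IntermediateField.fixedField W)) (𝓞 (AlgebraicClosure K)))) 0 g := by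
  intro x
  rw [zero_add, pow_one, Ideal.mem_comap, map_sub, ha]
  exact hg _

end act

theorem exists_N (hW : IsOpen (W : Set (AbsGal K))) (hn : W.Normal) {l : ℕ} (hl : l.Prime)
    {Q : Ideal (𝓞 (AlgebraicClosure K))} (hQ : Q.IsPrime) (hlQ : (l : 𝓞 (AlgebraicClosure K)) ∈ Q) :
    ∃ N₀ : ℕ, ∀ i, N₀ ≤ i → ∀ g ∈ ramSet W Q i, g ∈ W := by
  have hnf := numberField_fixed hW
  obtain ⟨a, ha⟩ := exists_act hW hn
  obtain ⟨hm, -, -, -⟩ := ideal_L (Q := Q) hW hl hQ hlQ rfl
  set q := Q.comap (algebraMap (𝓞 (IntermediateField.fixedField W)) (𝓞 (AlgebraicClosure K))) with hq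
  have hinf : ⨅ i, q ^ i = ⊥ := Ideal.iInf_pow_eq_bot_of_isDomain q hm.ne_top
  have hex : ∀ g : AbsGal K, ∃ N : ℕ, g ∉ W → ¬ Cgr a q N g := by
    intro g
    by_cases hg : g ∈ W
    · exact ⟨0, fun h => absurd hg h⟩
    · rw [mem_W_iff hW ha] at hg
      push Not at hg
      obtain ⟨x, hx⟩ := hg
      have h1 : a g x - x ∉ ⨅ i, q ^ i := by
        rw [hinf, Ideal.mem_bot]
        exact sub_ne_zero.2 hx
      rw [Submodule.mem_iInf] at h1
      push Not at h1
      obtain ⟨i, hi⟩ := h1
      refine ⟨i, fun _ h => hi ?_⟩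
      exact Ideal.pow_le_pow_right (Nat.le_succ i) (h x)
  choose N hN using hex
  have hfin : Finite (AbsGal K ⧸ W) := Subgroup.quotient_finite_of_isOpen W hW
  obtain ⟨M, hM⟩ := (Set.finite_range fun s : AbsGal K ⧸ W => N s.out).bddAbove
  refine ⟨M, fun i hi g hg => ?_⟩
  rw [ramSet_iff ha] at hg
  by_contra hgW
  have hout : (g⁻¹ * (g : AbsGal K ⧸ W).out) ∈ W := by
    rw [← QuotientGroup.eq]
    exact (QuotientGroup.out_eq' _).symm
  have hoW : (g : AbsGal K ⧸ W).out ∉ W := by
    intro h
    apply hgW
    have := W.mul_mem h (W.inv_mem hout)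
    rw [mul_inv_rev, inv_inv, ← mul_assoc, mul_inv_cancel, one_mul] at this
    exact this
  apply hN _ hoW
  intro x
  have h2 : a (g : AbsGal K ⧸ W).out x = a g x := by
    have h3 := (mem_W_iff hW ha).1 hout x
    have h4 : (g : AbsGal K ⧸ W).out = g * (g⁻¹ * (g : AbsGal K ⧸ W).out) := by
      rw [mul_inv_cancel_left]
    rw [h4, map_mul, RingAut.mul_apply, h3]
  rw [h2]
  refine Ideal.pow_le_pow_right ?_ (hg.2 x)
  have h5 := hM ⟨(g : AbsGal K ⧸ W), rfl⟩
  simp only at h5
  omega

theorem mem_ramSet_of_W {Q : Ideal (𝓞 (AlgebraicClosure K))} {g : AbsGal K}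
    (hg : g ∈ Q.inertia (AbsGal K)) (hgW : g ∈ W) (i : ℕ) : g ∈ ramSet W Q i := by
  refine ⟨hg, fun x => ⟨0, Ideal.zero_mem _, ?_⟩⟩
  rw [map_zero, ramB_fix hgW, sub_self]

end Pool.Agent.Work.MP_787500_nt.AR
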