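import Mathlib
import Pool.Agent.Work.MP_787500_nt.AR.RamA
import Pool.Agent.Work.MP_787500_nt.AR.RamB

/-!
# AR/Wild (size M/L): the wild inertia group

`Q` is a prime over `l`. For an open normal subgroup `W` (and the action on `𝓞 L`) there are `θ` and `η i` on the inertia group (`exists_eta`).
* `cgr_of_pow`: an element `g` of inertia with `g ^ l ^ j ∈ W` belongs to `ramSet W Q 1`: `θ g ^ l ^ j = 1` in characteristic `l`, so `θ g = 1`.
* `pow_of_cgr`: for `g ∈ ramSet W Q 1` there is `j` with `g ^ l ^ j ∈ W`: if `g ∈ ramSet W Q i`, `i ≥ 1`, then `g ^ l ∈ ramSet W Q (i + 1)` (`η i (g ^ l) = l η i g = 0`);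
  `exists_N`.
* `wild_iff`: an open subgroup contains an open normal subgroup (`HP.basis_K` or `Subgroup.normalCore`).
* `wild_mul`, `wild_inv`, `wild_conj`, `wild_comm` follow from `wild_iff` (`Cgr.mul`, ..; `θ` of a commutator is 1).
* `exists_wild`: compactness of the group. For an open normal subgroup `U` the set `C U = {p ∈ Q.inertia | g⁻¹ p ∈ W ∧ ∃ j, p ^ l ^ j ∈ U}` is closed and not empty: `p = g ^ c` with `c ≡ 1`
  modulo a power of `l` and `c ≡ 0` modulo the prime to `l` part of the order of `g` modulo `U ∩ W` (the order of `g` modulo `W` is a power of `l` by `pow_of_cgr`). `C (U ∩ U') ⊆ C U ∩ C U'`.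
  `IsCompact.nonempty_iInter_of_directed_nonempty_isCompact_isClosed`. The inertia group is closed.
-/

set_option autoImplicit false
set_option linter.unusedSectionVars false

namespace Pool.Agent.Work.MP_787500_nt.AR

open Module NumberField

universe u

variable {K : Type u} [Field K] [NumberField K] {W : Subgroup (AbsGal K)} {l : ℕ}
  {Q : Ideal (𝓞 (AlgebraicClosure K))}

private theorem eq_one_of_pow {k : Type*} [Field k] {l : ℕ} [CharP k l] (hl : l.Prime) {x : k}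
    {j : ℕ} (h : x ^ l ^ j = 1) : x = 1 := by
  have : Fact l.Prime := ⟨hl⟩
  have h1 : (x - 1) ^ l ^ j = 0 := by
    rw [sub_pow_char_pow, h, one_pow, sub_self]
  exact sub_eq_zero.1 (pow_eq_zero_iff (pow_ne_zero _ hl.ne_zero) |>.1 h1)

section hom

variable {G R : Type*} [Group G] [CommRing R] {a : G →* RingAut R} {q : Ideal R}

private theorem Cgr_pow {i : ℕ} {g : G} (h0 : ∀ g, Cgr a q 0 g) [IsDedekindDomain R]
    (hg : Cgr a q i g) (n : ℕ) : Cgr a q i (g ^ n) := by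
  induction n with
  | zero =>
    intro x
    rw [pow_zero, map_one]
    simp
  | succ n ih =>
    rw [pow_succ]
    exact Cgr.mul h0 ih hg

private theorem eta_pow {k : Type*} [Field k] {i : ℕ} {η : ℕ → G → k} (h0 : ∀ g, Cgr a q 0 g)
    [IsDedekindDomain R]
    (hadd : ∀ g h, Cgr a q i g → Cgr a q i h → η i (g * h) = η i g + η i h) {g : G}
    (hg : Cgr a q i g) (n : ℕ) : η i (g ^ n) = n * η i g := by
  induction n with
  | zero =>
    have h1 : Cgr a q i (1 : G) := by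
      have := Cgr_pow h0 hg 0
      rwa [pow_zero] at this
    have h2 := hadd 1 1 h1 h1
    rw [one_mul] at h2
    rw [pow_zero]
    simpa using h2
  | succ n ih =>
    rw [pow_succ, hadd _ _ (Cgr_pow h0 hg n) hg, ih]
    push_cast
    ring

end hom

private theorem smul_cont : letI : TopologicalSpace (𝓞 (AlgebraicClosure K)) := ⊥
    ContinuousSMul (AbsGal K) (𝓞 (AlgebraicClosure K)) := by
  let _ : TopologicalSpace (𝓞 (AlgebraicClosure K)) := ⊥
  have : DiscreteTopology (𝓞 (AlgebraicClosure K)) := ⟨rfl⟩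
  rw [continuousSMul_iff_stabilizer_isOpen]
  intro x
  have h1 : IsOpen (MulAction.stabilizer (AbsGal K)
      (algebraMap (𝓞 (AlgebraicClosure K)) (AlgebraicClosure K) x) : Set (AbsGal K)) :=
    stabilizer_isOpen_of_isIntegral _
  convert h1 using 1
  ext σ
  simp only [SetLike.mem_coe, MulAction.mem_stabilizer_iff]
  constructor
  · intro h
    have := congrArg (algebraMap (𝓞 (AlgebraicClosure K)) (AlgebraicClosure K)) h
    exact this
  · intro h
    apply RingOfIntegers.ext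
    exact h

private theorem inertia_closed (P : Ideal (𝓞 (AlgebraicClosure K))) :
    IsClosed (P.inertia (AbsGal K) : Set (AbsGal K)) := by
  let _ : TopologicalSpace (𝓞 (AlgebraicClosure K)) := ⊥
  have : DiscreteTopology (𝓞 (AlgebraicClosure K)) := ⟨rfl⟩
  have : ContinuousSMul (AbsGal K) (𝓞 (AlgebraicClosure K)) := smul_cont
  have h : (P.inertia (AbsGal K) : Set (AbsGal K)) = ⋂ x : 𝓞 (AlgebraicClosure K),
      (fun g : AbsGal K => g • x) ⁻¹' {y | y - x ∈ P} := by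
    ext g
    simp only [SetLike.mem_coe, Set.mem_iInter, Set.mem_preimage, Set.mem_ofPred_eq]
    exact Iff.rfl
  rw [h]
  exact isClosed_iInter fun x => (isClosed_discrete _).preimage (by fun_prop)

private theorem exists_normal {U : Subgroup (AbsGal K)} (hU : IsOpen (U : Set (AbsGal K))) :
    ∃ V : Subgroup (AbsGal K), IsOpen (V : Set (AbsGal K)) ∧ V.Normal ∧ V ≤ U := by
  obtain ⟨E, hE, hn, hEU⟩ := (krullTopology_mem_nhds_one_iff_of_normal K (AlgebraicClosure K)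
    (U : Set (AbsGal K))).1 (hU.mem_nhds U.one_mem)
  have : IsGalois K E := ⟨⟩
  exact ⟨E.fixingSubgroup, E.fixingSubgroup_isOpen, inferInstance, hEU⟩

/-- the homomorphisms on the inertia group -/
private theorem data (hl : l.Prime) (hQ : Q.IsPrime) (hlQ : (l : 𝓞 (AlgebraicClosure K)) ∈ Q)
    (hW : IsOpen (W : Set (AbsGal K))) (hn : W.Normal) :
    ∃ (k : Type u) (_ : Field k) (_ : CharP k l) (θ : Q.inertia (AbsGal K) →* k)
      (η : ℕ → Q.inertia (AbsGal K) → k),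
      (∀ g : Q.inertia (AbsGal K), θ g = 1 ↔ (g : AbsGal K) ∈ ramSet W Q 1) ∧
      (∀ i, 1 ≤ i → ∀ g : Q.inertia (AbsGal K), (g : AbsGal K) ∈ ramSet W Q i → ∀ n : ℕ,
        η i (g ^ n) = n * η i g) ∧
      (∀ i, 1 ≤ i → ∀ g : Q.inertia (AbsGal K), (g : AbsGal K) ∈ ramSet W Q (i + 1) ↔
        (g : AbsGal K) ∈ ramSet W Q i ∧ η i g = 0) ∧
      (∀ i, ∀ g h : Q.inertia (AbsGal K), (g : AbsGal K) ∈ ramSet W Q i →
        (h : AbsGal K) ∈ ramSet W Q i → ((g * h : Q.inertia (AbsGal K)) : AbsGal K) ∈ ramSet W Q i) := by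
  have := numberField_fixed hW
  obtain ⟨a, ha⟩ := exists_act hW hn
  set q := Q.comap (algebraMap (𝓞 (IntermediateField.fixedField W)) (𝓞 (AlgebraicClosure K)))
    with hq
  obtain ⟨hqm, hq0, hqf, hqc⟩ := ideal_L hW hl hQ hlQ hq
  set a' : Q.inertia (AbsGal K) →* RingAut (𝓞 (IntermediateField.fixedField W)) :=
    a.comp (Q.inertia (AbsGal K)).subtype with ha'
  have h0 : ∀ g, Cgr a' q 0 g := fun g => inertia_cgr ha g.2
  obtain ⟨θ, η, h1, h2, h3, -⟩ := exists_eta hqm hq0 hqf h0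
  have hr : ∀ (i : ℕ) (g : Q.inertia (AbsGal K)), (g : AbsGal K) ∈ ramSet W Q i ↔ Cgr a' q i g := by
    intro i g
    rw [ramSet_iff ha]
    exact ⟨fun h => h.2, fun h => ⟨g.2, h⟩⟩
  let _ : Field (𝓞 (IntermediateField.fixedField W) ⧸ q) := Ideal.Quotient.field q
  refine ⟨𝓞 (IntermediateField.fixedField W) ⧸ q, Ideal.Quotient.field q, hqc, θ, η, ?_, ?_, ?_, ?_⟩
  · intro g
    rw [hr]
    exact h1 g
  · intro i hi g hg n
    rw [hr] at hg
    exact eta_pow h0 (h2 i hi) hg n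
  · intro i hi g
    rw [hr, hr]
    exact h3 i hi g
  · intro i g h hg hh
    rw [hr] at hg hh ⊢
    exact Cgr.mul h0 hg hh

theorem cgr_of_pow (hl : l.Prime) (hQ : Q.IsPrime) (hlQ : (l : 𝓞 (AlgebraicClosure K)) ∈ Q)
    (hW : IsOpen (W : Set (AbsGal K))) (hn : W.Normal) {g : AbsGal K} (hg : g ∈ Q.inertia (AbsGal K)) {j : ℕ}
    (h : g ^ l ^ j ∈ W) : g ∈ ramSet W Q 1 := by
  obtain ⟨k, _, _, θ, η, h1, -, -, -⟩ := data hl hQ hlQ hW hn
  have h2 := h1 ⟨g, hg⟩
  rw [← h2]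
  have h3 : θ (⟨g, hg⟩ ^ l ^ j) = 1 := by
    rw [h1]
    exact mem_ramSet_of_W (Subtype.property _) h 1
  rw [map_pow] at h3
  exact eq_one_of_pow hl h3

theorem pow_of_cgr (hl : l.Prime) (hQ : Q.IsPrime) (hlQ : (l : 𝓞 (AlgebraicClosure K)) ∈ Q)
    (hW : IsOpen (W : Set (AbsGal K))) (hn : W.Normal) {g : AbsGal K} (hg : g ∈ ramSet W Q 1) :
    ∃ j, g ^ l ^ j ∈ W := by
  obtain ⟨k, _, _, θ, η, -, h2, h3, -⟩ := data hl hQ hlQ hW hn
  obtain ⟨N₀, hN⟩ := exists_N hW hn hl hQ hlQ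
  have hgI : g ∈ Q.inertia (AbsGal K) := hg.1
  have key : ∀ j : ℕ, g ^ l ^ j ∈ ramSet W Q (j + 1) := by
    intro j
    induction j with
    | zero => simpa using hg
    | succ j ih =>
      set x : Q.inertia (AbsGal K) := ⟨g, hgI⟩ ^ l ^ j with hx
      have hxg : (x : AbsGal K) = g ^ l ^ j := rfl
      have h4 : ((x ^ l : Q.inertia (AbsGal K)) : AbsGal K) = g ^ l ^ (j + 1) := by
        rw [pow_succ, pow_mul]
        rfl
      rw [← h4]
      rw [← hxg] at ih
      rw [h3 (j + 1) (by omega)]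
      constructor
      · have hr : ∀ n : ℕ, ((x ^ n : Q.inertia (AbsGal K)) : AbsGal K) ∈ ramSet W Q (j + 1) := by
          obtain ⟨a, ha⟩ := exists_act hW hn
          have := numberField_fixed hW
          have h0 : ∀ g : Q.inertia (AbsGal K), Cgr (a.comp (Q.inertia (AbsGal K)).subtype)
            (Q.comap (algebraMap (𝓞 (IntermediateField.fixedField W)) (𝓞 (AlgebraicClosure K)))) 0 g :=
            fun g => inertia_cgr ha g.2
          intro n
          rw [ramSet_iff ha] at ih ⊢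
          exact ⟨(x ^ n).2, Cgr_pow h0 (g := x) ih.2 n⟩
        exact hr l
      · rw [h2 (j + 1) (by omega) x ih, CharP.cast_eq_zero, zero_mul]
  exact ⟨N₀, hN (N₀ + 1) (by omega) _ (key N₀)⟩

theorem wild_iff (hl : l.Prime) (hQ : Q.IsPrime) (hlQ : (l : 𝓞 (AlgebraicClosure K)) ∈ Q) {g : AbsGal K} :
    g ∈ wildSet l Q ↔ ∀ W : Subgroup (AbsGal K), IsOpen (W : Set (AbsGal K)) → W.Normal →
      g ∈ ramSet W Q 1 := by
  constructor
  · rintro ⟨h1, h2⟩ W hW hn
    obtain ⟨j, hj⟩ := h2 W hW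
    exact cgr_of_pow hl hQ hlQ hW hn h1 hj
  · intro h
    refine ⟨(h ⊤ isOpen_univ inferInstance).1, ?_⟩
    intro U hU
    obtain ⟨V, hV, hVn, hVU⟩ := exists_normal hU
    obtain ⟨j, hj⟩ := pow_of_cgr hl hQ hlQ hV hVn (h V hV hVn)
    exact ⟨j, hVU hj⟩

theorem wild_one : (1 : AbsGal K) ∈ wildSet l Q :=
  ⟨Subgroup.one_mem _, fun U _ => ⟨0, by rw [one_pow]; exact U.one_mem⟩⟩

theorem wild_mul (hl : l.Prime) (hQ : Q.IsPrime) (hlQ : (l : 𝓞 (AlgebraicClosure K)) ∈ Q)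
    {g h : AbsGal K} (hg : g ∈ wildSet l Q) (hh : h ∈ wildSet l Q) : g * h ∈ wildSet l Q := by
  rw [wild_iff hl hQ hlQ] at hg hh ⊢
  intro W hW hn
  obtain ⟨k, _, _, θ, η, -, -, -, h4⟩ := data hl hQ hlQ hW hn
  exact h4 1 ⟨g, (hg W hW hn).1⟩ ⟨h, (hh W hW hn).1⟩ (hg W hW hn) (hh W hW hn)

theorem wild_inv {g : AbsGal K} (hg : g ∈ wildSet l Q) : g⁻¹ ∈ wildSet l Q := by
  refine ⟨Subgroup.inv_mem _ hg.1, ?_⟩
  intro U hU
  obtain ⟨j, hj⟩ := hg.2 U hU
  refine ⟨j, ?_⟩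
  rw [inv_pow]
  exact U.inv_mem hj

theorem wild_conj {s : AbsGal K} (hs : s ∈ Q.inertia (AbsGal K)) {g : AbsGal K} (hg : g ∈ wildSet l Q) :
    s * g * s⁻¹ ∈ wildSet l Q := by
  refine ⟨Subgroup.mul_mem _ (Subgroup.mul_mem _ hs hg.1) (Subgroup.inv_mem _ hs), ?_⟩
  intro U hU
  have hc : Continuous (fun x : AbsGal K => s * x * s⁻¹) := by fun_prop
  obtain ⟨j, hj⟩ := hg.2 (U.comap (MulAut.conj s).toMonoidHom) (hU.preimage hc)
  refine ⟨j, ?_⟩
  rw [conj_pow]
  exact hj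

theorem wild_comm (hl : l.Prime) (hQ : Q.IsPrime) (hlQ : (l : 𝓞 (AlgebraicClosure K)) ∈ Q)
    {s t : AbsGal K} (hs : s ∈ Q.inertia (AbsGal K)) (ht : t ∈ Q.inertia (AbsGal K)) :
    s * t * s⁻¹ * t⁻¹ ∈ wildSet l Q := by
  rw [wild_iff hl hQ hlQ]
  intro W hW hn
  obtain ⟨k, _, _, θ, η, h1, -, -, -⟩ := data hl hQ hlQ hW hn
  set x : Q.inertia (AbsGal K) := ⟨s, hs⟩ with hx
  set y : Q.inertia (AbsGal K) := ⟨t, ht⟩ with hy
  have h2 : ((x * y * x⁻¹ * y⁻¹ : Q.inertia (AbsGal K)) : AbsGal K) = s * t * s⁻¹ * t⁻¹ := rfl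
  rw [← h2, ← h1]
  have h3 : θ x * θ x⁻¹ = 1 := by rw [← map_mul, mul_inv_cancel, map_one]
  have h4 : θ y * θ y⁻¹ = 1 := by rw [← map_mul, mul_inv_cancel, map_one]
  rw [map_mul, map_mul, map_mul]
  calc θ x * θ y * θ x⁻¹ * θ y⁻¹ = (θ x * θ x⁻¹) * (θ y * θ y⁻¹) := by ring
    _ = 1 := by rw [h3, h4, one_mul]

/-- every element of `ramSet W Q 1` has the same class modulo `W` as an element of the wild inertia group -/
theorem exists_wild (hl : l.Prime) (hQ : Q.IsPrime) (hlQ : (l : 𝓞 (AlgebraicClosure K)) ∈ Q)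
    (hW : IsOpen (W : Set (AbsGal K))) (hn : W.Normal) {g : AbsGal K} (hg : g ∈ ramSet W Q 1) :
    ∃ p ∈ wildSet l Q, g⁻¹ * p ∈ W := by
  classical
  let I := {U : Subgroup (AbsGal K) // IsOpen (U : Set (AbsGal K)) ∧ U.Normal}
  let C : I → Set (AbsGal K) := fun U => {p | (p ∈ Q.inertia (AbsGal K) ∧ g⁻¹ * p ∈ W) ∧
    ∃ j : ℕ, p ^ l ^ j ∈ U.1}
  have hclosed : ∀ U : I, IsClosed (C U) := by
    intro U
    have hUn : U.1.Normal := U.2.2
    have h1 : IsClosed {p : AbsGal K | p ∈ Q.inertia (AbsGal K)} := inertia_closed Q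
    have h2 : IsClosed {p : AbsGal K | g⁻¹ * p ∈ W} := by
      have hc : Continuous (fun p : AbsGal K => g⁻¹ * p) := by fun_prop
      exact (Subgroup.isClosed_of_isOpen W hW).preimage hc
    have h3 : IsClosed {p : AbsGal K | ∃ j : ℕ, p ^ l ^ j ∈ U.1} := by
      have : DiscreteTopology (AbsGal K ⧸ U.1) := QuotientGroup.discreteTopology U.2.1
      have h4 : {p : AbsGal K | ∃ j : ℕ, p ^ l ^ j ∈ U.1} =
          (QuotientGroup.mk : AbsGal K → AbsGal K ⧸ U.1) ⁻¹' {x | ∃ j : ℕ, x ^ l ^ j = 1} := by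
        ext p
        simp only [Set.mem_ofPred_eq, Set.mem_preimage]
        constructor
        · rintro ⟨j, hj⟩
          refine ⟨j, ?_⟩
          rw [← QuotientGroup.mk_pow, QuotientGroup.eq_one_iff]
          exact hj
        · rintro ⟨j, hj⟩
          refine ⟨j, ?_⟩
          rw [← QuotientGroup.mk_pow, QuotientGroup.eq_one_iff] at hj
          exact hj
      rw [h4]
      exact (isClosed_discrete _).preimage QuotientGroup.continuous_mk
    exact (h1.inter h2).inter h3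
  have hne : ∀ U : I, (C U).Nonempty := by
    intro U
    have hUn : U.1.Normal := U.2.2
    have hfin : Finite (AbsGal K ⧸ U.1) := Subgroup.quotient_finite_of_isOpen _ U.2.1
    obtain ⟨j, hj⟩ := pow_of_cgr hl hQ hlQ hW hn hg
    set x : AbsGal K ⧸ U.1 := (g : AbsGal K ⧸ U.1) with hx
    have hpos : orderOf x ≠ 0 := (orderOf_pos x).ne'
    obtain ⟨e, b, hb, heb⟩ := Nat.exists_eq_pow_mul_and_not_dvd hpos l hl.ne_one
    have hcop : IsCoprime ((l : ℤ) ^ j) (b : ℤ) := by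
      apply IsCoprime.pow_left
      rw [Nat.isCoprime_iff_coprime]
      exact (Nat.Prime.coprime_iff_not_dvd hl).2 hb
    obtain ⟨u, v, huv⟩ := hcop
    refine ⟨g ^ (v * b : ℤ), ⟨⟨Subgroup.zpow_mem _ hg.1 _, ?_⟩, e, ?_⟩⟩
    · have h1 : g⁻¹ * g ^ (v * b : ℤ) = (g ^ l ^ j) ^ (-u : ℤ) := by
        rw [← zpow_neg_one, ← zpow_add, ← zpow_natCast, ← zpow_mul]
        congr 1
        push_cast
        linear_combination huv
      rw [h1]
      exact W.zpow_mem hj _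
    · have h1 : (g ^ (v * b : ℤ)) ^ l ^ e = (g ^ orderOf x) ^ (v : ℤ) := by
        rw [← zpow_natCast, ← zpow_natCast, ← zpow_mul, ← zpow_mul, heb]
        congr 1
        push_cast
        ring
      rw [h1]
      apply U.1.zpow_mem
      rw [← QuotientGroup.eq_one_iff, QuotientGroup.mk_pow]
      exact pow_orderOf_eq_one x
  have hdir : Directed (fun A B : Set (AbsGal K) => A ⊇ B) C := by
    intro U V
    have hUn : U.1.Normal := U.2.2
    have hVn : V.1.Normal := V.2.2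
    refine ⟨⟨U.1 ⊓ V.1, U.2.1.inter V.2.1, inferInstance⟩, ?_, ?_⟩
    · rintro p ⟨h1, j, h2⟩
      exact ⟨h1, j, h2.1⟩
    · rintro p ⟨h1, j, h2⟩
      exact ⟨h1, j, h2.2⟩
  have : Nonempty I := ⟨⟨⊤, isOpen_univ, inferInstance⟩⟩
  obtain ⟨p, hp⟩ := IsCompact.nonempty_iInter_of_directed_nonempty_isCompact_isClosed C hdir hne
    (fun U => (hclosed U).isCompact) hclosed
  rw [Set.mem_iInter] at hp
  have h0 := hp ⟨⊤, isOpen_univ, inferInstance⟩
  refine ⟨p, ⟨h0.1.1, ?_⟩, h0.1.2⟩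
  intro U hU
  obtain ⟨V, hV, hVn, hVU⟩ := exists_normal hU
  obtain ⟨-, j, hj⟩ := hp ⟨V, hV, hVn⟩
  exact ⟨j, hVU hj⟩

end Pool.Agent.Work.MP_787500_nt.AR
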