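import Mathlib
import Pool.Agent.Work.MP_787500_nt.AR.Wild

/-!
# AR/FilI (size M): the filtration of the inertia group

`J = I ⊓ H` with `W ≤ H`. `R i` for `i ≥ 1` consists of the elements of the wild inertia group that belong to `ramSet W Q i` (`Cgr.mul`, .., `wild_mul`, ..); `θ` and `η` are the
restrictions of those of `exists_eta` for the action of the inertia group on `𝓞 L`, `k = 𝓞 L ⧸ q`.
The commutators are in `wildSet` (`wild_comm`), so in `ramSet W Q 1` (`wild_iff`).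
* `ramCard H W Q i = (R N).relIndex (R i)` for `i ≥ 1` and `N ≥ N₀` (`exists_N`): for `i ≤ N`, `R N = R i ∩ W` is the kernel of `R i → G / W`, and the image of `R i` in `G / W` is
  the image of `H ∩ ramSet W Q i` by `exists_wild` (the element `p` belongs to `ramSet W Q i` and to `H`, since `g⁻¹ p ∈ W`, `W ≤ H`); for `i ≥ N` both numbers are 1.
* `ramCard H W Q 0 / ramCard H W Q 1`: `ramSet W Q 0` is the inertia group; `ramCard H W Q 0 = [J : J ∩ W]`, `ramCard H W Q 1 = [J ∩ ramSet W Q 1 : J ∩ W]` and `J ∩ ramSet W Q 1` is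
  the kernel of `θ`.
-/

set_option autoImplicit false
set_option linter.unusedSectionVars false

namespace Pool.Agent.Work.MP_787500_nt.AR

open Module NumberField

universe u

variable {K : Type u} [Field K] [NumberField K]

private theorem card_cosets {G : Type*} [Group G] (W S : Subgroup G) :
    Nat.card {x : G ⧸ W // ∃ σ ∈ S, (σ : G ⧸ W) = x} = W.relIndex S := by
  have hwd : ∀ a b : S, (QuotientGroup.leftRel (W.subgroupOf S)) a b →
      ((a : G) : G ⧸ W) = ((b : G) : G ⧸ W) := by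
    intro a b h
    rw [QuotientGroup.leftRel_apply] at h
    rw [QuotientGroup.eq]
    exact h
  let f : S ⧸ W.subgroupOf S → {x : G ⧸ W // ∃ σ ∈ S, (σ : G ⧸ W) = x} :=
    Quotient.lift (fun a : S => ⟨((a : G) : G ⧸ W), a, a.2, rfl⟩)
      (fun a b h => Subtype.ext (hwd a b h))
  have hf : ∀ a : S, f (QuotientGroup.mk a) = ⟨((a : G) : G ⧸ W), a, a.2, rfl⟩ := fun a => rfl
  have hbij : Function.Bijective f := by
    constructor
    · intro x y
      induction x using QuotientGroup.induction_on with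
      | H a =>
        induction y using QuotientGroup.induction_on with
        | H b =>
          intro h
          rw [hf, hf, Subtype.mk.injEq, QuotientGroup.eq] at h
          rw [QuotientGroup.eq]
          exact h
    · rintro ⟨x, σ, hσ, rfl⟩
      exact ⟨QuotientGroup.mk ⟨σ, hσ⟩, hf _⟩
  rw [← Nat.card_congr (Equiv.ofBijective f hbij)]
  rfl

private theorem card_range {G k : Type*} [Group G] [Field k] (θ : G →* k) :
    θ.ker.index = Nat.card (Set.range θ) := by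
  have h1 : θ.ker = θ.toHomUnits.ker := by
    ext g
    rw [MonoidHom.mem_ker, MonoidHom.mem_ker, ← Units.val_inj]
    rfl
  have h2 : Set.range θ = Units.val '' (θ.toHomUnits.range : Set kˣ) := by
    ext x
    constructor
    · rintro ⟨g, rfl⟩
      exact ⟨θ.toHomUnits g, ⟨g, rfl⟩, rfl⟩
    · rintro ⟨-, ⟨g, rfl⟩, rfl⟩
      exact ⟨g, rfl⟩
  rw [h1, Subgroup.index_ker, h2, Nat.card_image_of_injective Units.val_injective]
  rfl

private theorem data {W : Subgroup (AbsGal K)} {l : ℕ} {Q : Ideal (𝓞 (AlgebraicClosure K))} (hl : l.Prime)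
    (hQ : Q.IsPrime) (hlQ : (l : 𝓞 (AlgebraicClosure K)) ∈ Q) (hW : IsOpen (W : Set (AbsGal K)))
    (hn : W.Normal) :
    ∃ (k : Type u) (_ : Field k) (_ : Finite k) (_ : CharP k l) (θ : Q.inertia (AbsGal K) →* k)
      (η : ℕ → Q.inertia (AbsGal K) → k),
      (∀ g : Q.inertia (AbsGal K), θ g = 1 ↔ (g : AbsGal K) ∈ ramSet W Q 1) ∧
      (∀ i, 1 ≤ i → ∀ g h : Q.inertia (AbsGal K), (g : AbsGal K) ∈ ramSet W Q i →
        (h : AbsGal K) ∈ ramSet W Q i → η i (g * h) = η i g + η i h) ∧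
      (∀ i, 1 ≤ i → ∀ g : Q.inertia (AbsGal K), (g : AbsGal K) ∈ ramSet W Q (i + 1) ↔
        (g : AbsGal K) ∈ ramSet W Q i ∧ η i g = 0) ∧
      (∀ i, 1 ≤ i → ∀ s g : Q.inertia (AbsGal K), (g : AbsGal K) ∈ ramSet W Q i →
        η i (s * g * s⁻¹) = θ s ^ i * η i g) ∧
      (∀ i, ∀ g h : AbsGal K, g ∈ ramSet W Q i → h ∈ ramSet W Q i → g * h ∈ ramSet W Q i) ∧
      (∀ i, ∀ g : AbsGal K, g ∈ ramSet W Q i → g⁻¹ ∈ ramSet W Q i) ∧
      (∀ i, ∀ s ∈ Q.inertia (AbsGal K), ∀ g : AbsGal K, g ∈ ramSet W Q i →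
        s * g * s⁻¹ ∈ ramSet W Q i) ∧
      (∀ i, 1 ≤ i → ∀ g : AbsGal K, g ∈ ramSet W Q i → g ∈ ramSet W Q 1) ∧
      (∀ g : AbsGal K, g ∈ ramSet W Q 0 ↔ g ∈ Q.inertia (AbsGal K)) := by
  have := numberField_fixed hW
  obtain ⟨a, ha⟩ := exists_act hW hn
  set q := Q.comap (algebraMap (𝓞 (IntermediateField.fixedField W)) (𝓞 (AlgebraicClosure K)))
    with hq
  obtain ⟨hqm, hq0, hqf, hqc⟩ := ideal_L hW hl hQ hlQ hq
  set a' : Q.inertia (AbsGal K) →* RingAut (𝓞 (IntermediateField.fixedField W)) :=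
    a.comp (Q.inertia (AbsGal K)).subtype with ha'
  have h0 : ∀ g, Cgr a' q 0 g := fun g => inertia_cgr ha g.2
  obtain ⟨θ₀, η₀, h1, h2, h3, h4⟩ := exists_eta hqm hq0 hqf h0
  have hr : ∀ (i : ℕ) (g : Q.inertia (AbsGal K)), (g : AbsGal K) ∈ ramSet W Q i ↔ Cgr a' q i g := by
    intro i g
    rw [ramSet_iff ha]
    exact ⟨fun h => h.2, fun h => ⟨g.2, h⟩⟩
  refine ⟨𝓞 (IntermediateField.fixedField W) ⧸ q, Ideal.Quotient.field q, hqf, hqc, θ₀, η₀,
    ?_, ?_, ?_, ?_, ?_, ?_, ?_, ?_, ?_⟩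
  · intro g
    rw [hr]
    exact h1 g
  · intro i hi g h hg hh
    exact h2 i hi g h ((hr i g).1 hg) ((hr i h).1 hh)
  · intro i hi g
    rw [hr, hr]
    exact h3 i hi g
  · intro i hi s g hg
    exact h4 i hi s g ((hr i g).1 hg)
  · intro i g h hg hh
    have key : ∀ x y : Q.inertia (AbsGal K), (x : AbsGal K) ∈ ramSet W Q i →
        (y : AbsGal K) ∈ ramSet W Q i →
        ((x * y : Q.inertia (AbsGal K)) : AbsGal K) ∈ ramSet W Q i := by
      intro x y hx hy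
      rw [hr] at hx hy ⊢
      exact Cgr.mul h0 hx hy
    have h5 := key ⟨g, hg.1⟩ ⟨h, hh.1⟩ hg hh
    rw [Subgroup.coe_mul] at h5
    exact h5
  · intro i g hg
    have key : ∀ x : Q.inertia (AbsGal K), (x : AbsGal K) ∈ ramSet W Q i →
        ((x⁻¹ : Q.inertia (AbsGal K)) : AbsGal K) ∈ ramSet W Q i := by
      intro x hx
      rw [hr] at hx ⊢
      exact Cgr.inv h0 hx
    have h5 := key ⟨g, hg.1⟩ hg
    rw [Subgroup.coe_inv] at h5
    exact h5
  · intro i s hs g hg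
    have key : ∀ x y : Q.inertia (AbsGal K), (y : AbsGal K) ∈ ramSet W Q i →
        ((x * y * x⁻¹ : Q.inertia (AbsGal K)) : AbsGal K) ∈ ramSet W Q i := by
      intro x y hy
      rw [hr] at hy ⊢
      exact Cgr.conj h0 hy x
    have h5 := key ⟨s, hs⟩ ⟨g, hg.1⟩ hg
    rw [Subgroup.coe_mul, Subgroup.coe_mul, Subgroup.coe_inv] at h5
    exact h5
  · intro i hi g hg
    have h5 := (hr i ⟨g, hg.1⟩).1 hg
    refine (hr 1 ⟨g, hg.1⟩).2 ?_
    intro x
    exact Ideal.pow_le_pow_right (by omega) (h5 x)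
  · intro g
    exact ⟨fun h => h.1, fun h => (hr 0 ⟨g, h⟩).2 (h0 _)⟩

theorem exists_fil {W : Subgroup (AbsGal K)} {l : ℕ} {Q : Ideal (𝓞 (AlgebraicClosure K))} (hl : l.Prime)
    (hQ : Q.IsPrime) (hlQ : (l : 𝓞 (AlgebraicClosure K)) ∈ Q) (hW : IsOpen (W : Set (AbsGal K)))
    (hn : W.Normal) {H : Subgroup (AbsGal K)} (hWH : W ≤ H) :
    ∃ (k : Type u) (_ : Field k) (_ : Finite k) (_ : CharP k l)
      (R : ℕ → Subgroup (Q.inertia (AbsGal K) ⊓ H : Subgroup (AbsGal K)))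
      (θ : (Q.inertia (AbsGal K) ⊓ H : Subgroup (AbsGal K)) →* k)
      (η : ℕ → (Q.inertia (AbsGal K) ⊓ H : Subgroup (AbsGal K)) → k),
      Fil R θ η ∧
      (∀ i, 1 ≤ i → ∀ g : (Q.inertia (AbsGal K) ⊓ H : Subgroup (AbsGal K)), g ∈ R i ↔
        (g : AbsGal K) ∈ wildSet l Q ∧ (g : AbsGal K) ∈ ramSet W Q i) ∧
      (∀ g : (Q.inertia (AbsGal K) ⊓ H : Subgroup (AbsGal K)), θ g = 1 ↔ (g : AbsGal K) ∈ ramSet W Q 1) ∧
      (∃ N₀, 1 ≤ N₀ ∧ ∀ N, N₀ ≤ N → (∀ g ∈ R N, ((g : (Q.inertia (AbsGal K) ⊓ H : Subgroup (AbsGal K))) :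
        AbsGal K) ∈ W) ∧ ∀ i, 1 ≤ i → ramCard H W Q i = (R N).relIndex (R i)) ∧
      ramCard H W Q 0 / ramCard H W Q 1 = Nat.card (Set.range θ) := by
  obtain ⟨k, _, _, _, θ₀, η₀, h1, h2, h3, h4, rmul, rinv, rconj, ranti, rzero⟩ :=
    data hl hQ hlQ hW hn
  have rone : ∀ i, (1 : AbsGal K) ∈ ramSet W Q i := fun i =>
    mem_ramSet_of_W (Subgroup.one_mem _) (Subgroup.one_mem _) i
  let inc : (Q.inertia (AbsGal K) ⊓ H : Subgroup (AbsGal K)) →* Q.inertia (AbsGal K) :=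
    Subgroup.inclusion inf_le_left
  let R : ℕ → Subgroup (Q.inertia (AbsGal K) ⊓ H : Subgroup (AbsGal K)) := fun i =>
    { carrier := {g | (g : AbsGal K) ∈ wildSet l Q ∧ (g : AbsGal K) ∈ ramSet W Q i}
      mul_mem' := fun {x y} hx hy => ⟨wild_mul hl hQ hlQ hx.1 hy.1, rmul i _ _ hx.2 hy.2⟩
      one_mem' := ⟨wild_one, rone i⟩
      inv_mem' := fun {x} hx => ⟨wild_inv hx.1, rinv i _ hx.2⟩ }
  have hR : ∀ i (g : (Q.inertia (AbsGal K) ⊓ H : Subgroup (AbsGal K))), g ∈ R i ↔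
      (g : AbsGal K) ∈ wildSet l Q ∧ (g : AbsGal K) ∈ ramSet W Q i :=
    fun i g => Iff.rfl
  have hθ : ∀ g : (Q.inertia (AbsGal K) ⊓ H : Subgroup (AbsGal K)), (θ₀.comp inc) g = 1 ↔
      (g : AbsGal K) ∈ ramSet W Q 1 := fun g => h1 (inc g)
  obtain ⟨N₀, hN₀⟩ := exists_N hW hn hl hQ hlQ
  refine ⟨k, inferInstance, inferInstance, inferInstance, R, θ₀.comp inc,
    fun i g => η₀ i (inc g), ?_, ?_, ?_, ?_, ?_⟩
  · refine ⟨?_, ?_, ?_, ?_, ?_⟩
    · intro i _ s g hg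
      exact ⟨wild_conj s.2.1 hg.1, rconj i s s.2.1 g hg.2⟩
    · intro i hi g hg h hh
      exact h2 i hi (inc g) (inc h) hg.2 hh.2
    · intro i hi g
      have h5 := h3 i hi (inc g)
      rw [hR, hR]
      constructor
      · rintro ⟨h6, h7⟩
        have h8 := h5.1 h7
        exact ⟨⟨h6, h8.1⟩, h8.2⟩
      · rintro ⟨⟨h6, h7⟩, h8⟩
        exact ⟨h6, h5.2 ⟨h7, h8⟩⟩
    · intro i hi s g hg
      exact h4 i hi (inc s) (inc g) hg.2
    · intro s t
      have h5 : ((s * t * s⁻¹ * t⁻¹ : (Q.inertia (AbsGal K) ⊓ H : Subgroup (AbsGal K))) :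
          AbsGal K) ∈ wildSet l Q := wild_comm hl hQ hlQ s.2.1 t.2.1
      exact ⟨h5, (wild_iff hl hQ hlQ).1 h5 W hW hn⟩
  · intro i _ g
    exact hR i g
  · exact hθ
  · refine ⟨max 1 N₀, le_max_left _ _, ?_⟩
    intro N hN
    have hRW : ∀ g ∈ R N, ((g : (Q.inertia (AbsGal K) ⊓ H : Subgroup (AbsGal K))) : AbsGal K) ∈ W :=
      fun g hg => hN₀ N ((le_max_right _ _).trans hN) _ hg.2
    refine ⟨hRW, ?_⟩
    intro i hi
    let S : Subgroup (AbsGal K) := (R i).map (Subgroup.subtype _)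
    have e1 : ramCard H W Q i = W.relIndex S := by
      rw [← card_cosets]
      refine Nat.card_congr (Equiv.subtypeEquivRight ?_)
      intro x
      constructor
      · rintro ⟨σ, hσH, hσ, rfl⟩
        obtain ⟨p, hp, hpW⟩ := exists_wild hl hQ hlQ hW hn (ranti i hi σ hσ)
        have hpeq : p = σ * (σ⁻¹ * p) := by group
        have hpH : p ∈ H := by
          rw [hpeq]
          exact H.mul_mem hσH (hWH hpW)
        have hpr : p ∈ ramSet W Q i := by
          rw [hpeq]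
          refine rmul i _ _ hσ (mem_ramSet_of_W ?_ hpW i)
          exact Subgroup.mul_mem _ (Subgroup.inv_mem _ hσ.1) hp.1
        exact ⟨p, ⟨⟨p, hp.1, hpH⟩, ⟨hp, hpr⟩, rfl⟩, (QuotientGroup.eq.2 hpW).symm⟩
      · rintro ⟨-, ⟨σ, h5, rfl⟩, h7⟩
        exact ⟨σ, σ.2.2, h5.2, h7⟩
    have e2 : (R N).relIndex (R i) = W.relIndex S := by
      rw [← Subgroup.relIndex_comap]
      rw [← Subgroup.inf_relIndex_right, ← Subgroup.inf_relIndex_right (W.comap _)]
      congr 1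
      ext g
      rw [Subgroup.mem_inf, Subgroup.mem_inf, Subgroup.mem_comap]
      constructor
      · rintro ⟨h5, h6⟩
        exact ⟨hRW g h5, h6⟩
      · rintro ⟨h5, h6⟩
        exact ⟨⟨h6.1, mem_ramSet_of_W h6.1.1 h5 N⟩, h6⟩
    rw [e1, e2]
  · let S : Subgroup (AbsGal K) :=
      { carrier := {g | g ∈ H ∧ g ∈ ramSet W Q 1}
        mul_mem' := fun {x y} hx hy => ⟨H.mul_mem hx.1 hy.1, rmul 1 _ _ hx.2 hy.2⟩
        one_mem' := ⟨H.one_mem, rone 1⟩
        inv_mem' := fun {x} hx => ⟨H.inv_mem hx.1, rinv 1 _ hx.2⟩ }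
    have e0 : ramCard H W Q 0 = W.relIndex (Q.inertia (AbsGal K) ⊓ H) := by
      rw [← card_cosets]
      refine Nat.card_congr (Equiv.subtypeEquivRight ?_)
      intro x
      constructor
      · rintro ⟨σ, h5, h6, h7⟩
        exact ⟨σ, ⟨h6.1, h5⟩, h7⟩
      · rintro ⟨σ, h5, h7⟩
        exact ⟨σ, h5.2, (rzero σ).2 h5.1, h7⟩
    have e1 : ramCard H W Q 1 = W.relIndex S := by
      rw [← card_cosets]
      refine Nat.card_congr (Equiv.subtypeEquivRight ?_)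
      intro x
      constructor
      · rintro ⟨σ, h5, h6, h7⟩
        exact ⟨σ, ⟨h5, h6⟩, h7⟩
      · rintro ⟨σ, h5, h7⟩
        exact ⟨σ, h5.1, h5.2, h7⟩
    have hSJ : S ≤ Q.inertia (AbsGal K) ⊓ H := fun g hg => ⟨hg.2.1, hg.1⟩
    have hWS : W ⊓ (Q.inertia (AbsGal K) ⊓ H) ≤ S :=
      fun g hg => ⟨hWH hg.1, mem_ramSet_of_W hg.2.1 hg.1 1⟩
    have e2 := Subgroup.relIndex_mul_relIndex _ _ _ hWS hSJ
    rw [Subgroup.inf_relIndex_right] at e2
    have e3 : (W ⊓ (Q.inertia (AbsGal K) ⊓ H)).relIndex S = W.relIndex S := by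
      rw [← Subgroup.inf_relIndex_right (W ⊓ (Q.inertia (AbsGal K) ⊓ H)) S, inf_assoc,
        inf_eq_right.2 hSJ, Subgroup.inf_relIndex_right]
    have e4 : S.relIndex (Q.inertia (AbsGal K) ⊓ H) = Nat.card (Set.range (θ₀.comp inc)) := by
      rw [← card_range]
      have : S.subgroupOf (Q.inertia (AbsGal K) ⊓ H) = (θ₀.comp inc).ker := by
        ext g
        rw [Subgroup.mem_subgroupOf, MonoidHom.mem_ker, hθ]
        exact ⟨fun h => h.2, fun h => ⟨g.2.2, h⟩⟩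
      rw [← this]
      rfl
    have hfin : Finite (AbsGal K ⧸ W) := Subgroup.quotient_finite_of_isOpen _ hW
    have hfi : W.FiniteIndex := Subgroup.finiteIndex_of_finite_quotient
    have hpos : W.relIndex S ≠ 0 := Subgroup.FiniteIndex.index_ne_zero (H := W.subgroupOf S)
    rw [e0, e1, ← e2, e3, e4]
    exact Nat.mul_div_cancel_left _ (Nat.pos_of_ne_zero hpos)

end Pool.Agent.Work.MP_787500_nt.AR
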