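import Mathlib
import Pool.Agent.Work.MP_787500_nt.AR.FilI
import Pool.Agent.Work.MP_787500_nt.SH.Prm

/-!
# AR/IndC (size M): conjugation of the ramification groups, and their orders as indices

* `conj_wild`, `conj_ram`: `g` maps `Q` to `Q'`. Inertia: `SH.iner_conj`. For `ramSet`: `W` is normal, so `g` maps the field `L` to itself, the ideal `Q ∩ L` to `Q' ∩ L` and the powers
  to the powers (use `exists_act`, `ramSet_iff`: `a g` is a ring automorphism of `𝓞 L` that maps `q` to `q'`, `Ideal.map`/`comap` of powers).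
* `exists_sub`: `wild_mul`, `wild_inv`, `Cgr.mul`, `Cgr.inv`.
* `ramCard_zero`: the cosets of `W` that contain an element of `H ∩ I` (`ramSet W Q 0` is the inertia group, `inertia_cgr`): the image of `I ⊓ H` in `G / W`, with kernel `W ∩ (I ⊓ H)`.
* `ramCard_sub`: the image of `P ⊓ H` by `exists_wild`.
-/

set_option autoImplicit false
set_option linter.unusedSectionVars false

namespace Pool.Agent.Work.MP_787500_nt.AR

open Module NumberField Matrix

open Pool.Agent.Work.MP_787500_nt.GP (stabD)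

universe u

variable {K : Type u} [Field K] [NumberField K] {W H : Subgroup (AbsGal K)} {l : ℕ}
  {Q Q' : Ideal (𝓞 (AlgebraicClosure K))}

private theorem card_cosets {G : Type*} [Group G] (W S : Subgroup G) :
    Nat.card {x : G ⧸ W // ∃ σ ∈ S, (σ : G ⧸ W) = x} = W.relIndex S := by
  have hwd : ∀ a b : S, (QuotientGroup.leftRel (W.subgroupOf S)) a b →
      ((a : G) : G ⧸ W) = ((b : G) : G ⧸ W) := by
    intro a b h
    rw [QuotientGroup.leftRel_apply] at h
    rw [QuotientGroup.eq]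
    exact h
  let f : S ⧸ W.subgroupOf S → {x : G ⧸ W // ∃ σ ∈ S, (σ : G ⧸ W) = x} :=
    Quotient.lift (fun a : S => ⟨((a : G) : G ⧸ W), a, a.2, rfl⟩)
      (fun a b h => Subtype.ext (hwd a b h))
  have hf : ∀ a : S, f (QuotientGroup.mk a) = ⟨((a : G) : G ⧸ W), a, a.2, rfl⟩ := fun a => rfl
  have hbij : Function.Bijective f := by
    constructor
    · intro x y
      induction x using QuotientGroup.induction_on with
      | H a =>
        induction y using QuotientGroup.induction_on with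
        | H b =>
          intro h
          rw [hf, hf, Subtype.mk.injEq, QuotientGroup.eq] at h
          rw [QuotientGroup.eq]
          exact h
    · rintro ⟨x, σ, hσ, rfl⟩
      exact ⟨QuotientGroup.mk ⟨σ, hσ⟩, hf _⟩
  rw [← Nat.card_congr (Equiv.ofBijective f hbij)]
  rfl

private theorem ram_zero (hW : IsOpen (W : Set (AbsGal K))) (hn : W.Normal) (g : AbsGal K) :
    g ∈ ramSet W Q 0 ↔ g ∈ Q.inertia (AbsGal K) := by
  obtain ⟨a, ha⟩ := exists_act hW hn
  rw [ramSet_iff ha]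
  exact ⟨fun h => h.1, fun h => ⟨h, inertia_cgr ha h⟩⟩

private theorem ram_anti (hW : IsOpen (W : Set (AbsGal K))) (hn : W.Normal) {k : ℕ} (hk : 1 ≤ k)
    {g : AbsGal K} (hg : g ∈ ramSet W Q k) : g ∈ ramSet W Q 1 := by
  obtain ⟨a, ha⟩ := exists_act hW hn
  rw [ramSet_iff ha] at hg ⊢
  exact ⟨hg.1, fun x => Ideal.pow_le_pow_right (by omega) (hg.2 x)⟩

/-- the conjugation on the level of `𝓞 L` -/
private theorem mem_pow {R : Type*} [CommRing R] (e : R ≃+* R) {q q' : Ideal R}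
    (h : ∀ x, x ∈ q ↔ e x ∈ q') (k : ℕ) (x : R) : x ∈ q ^ k ↔ e x ∈ q' ^ k := by
  have h1 : q' = q.map e := by
    ext y
    rw [Ideal.mem_map_of_equiv]
    constructor
    · intro hy
      refine ⟨e.symm y, (h _).2 ?_, e.apply_symm_apply y⟩
      rwa [e.apply_symm_apply]
    · rintro ⟨z, hz, rfl⟩
      exact (h z).1 hz
  rw [h1, ← Ideal.map_pow, Ideal.mem_map_of_equiv]
  constructor
  · intro hx
    exact ⟨x, hx, rfl⟩
  · rintro ⟨z, hz, hzx⟩
    rwa [← e.injective hzx]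

private theorem ram_mul (hW : IsOpen (W : Set (AbsGal K))) (hn : W.Normal) {k : ℕ}
    {g h : AbsGal K} (hg : g ∈ ramSet W Q k) (hh : h ∈ ramSet W Q k) : g * h ∈ ramSet W Q k := by
  obtain ⟨a, ha⟩ := exists_act hW hn
  rw [ramSet_iff ha] at hg hh ⊢
  refine ⟨Subgroup.mul_mem _ hg.1 hh.1, fun x => ?_⟩
  have hq : ∀ x, x ∈ Q.comap (algebraMap (𝓞 (IntermediateField.fixedField W))
      (𝓞 (AlgebraicClosure K))) ↔ a g x ∈ Q.comap (algebraMap (𝓞 (IntermediateField.fixedField W))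
      (𝓞 (AlgebraicClosure K))) := by
    intro x
    have h0 := inertia_cgr ha hg.1 x
    rw [zero_add, pow_one] at h0
    constructor
    · intro hx
      have := Ideal.add_mem _ h0 hx
      rwa [sub_add_cancel] at this
    · intro hx
      have := Ideal.sub_mem _ hx h0
      rwa [sub_sub_cancel] at this
  have h1 : a (g * h) x - x = a g (a h x - x) + (a g x - x) := by
    rw [map_mul, RingAut.mul_apply, map_sub]
    ring
  rw [h1]
  exact Ideal.add_mem _ ((mem_pow (a g) hq (k + 1) _).1 (hh.2 x)) (hg.2 x)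

theorem conj_wild {g : AbsGal K} (hg : ∀ x, x ∈ Q ↔ g • x ∈ Q') (a : AbsGal K) :
    a ∈ wildSet l Q ↔ g * a * g⁻¹ ∈ wildSet l Q' := by
  constructor
  · rintro ⟨h1, h2⟩
    refine ⟨(SH.iner_conj hg a).1 h1, fun U hU => ?_⟩
    have hc : Continuous (fun x : AbsGal K => g * x * g⁻¹) := by fun_prop
    obtain ⟨j, hj⟩ := h2 (U.comap (MulAut.conj g).toMonoidHom) (hU.preimage hc)
    refine ⟨j, ?_⟩
    rw [conj_pow]
    exact hj
  · rintro ⟨h1, h2⟩
    refine ⟨(SH.iner_conj hg a).2 h1, fun U hU => ?_⟩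
    have hc : Continuous (fun x : AbsGal K => g⁻¹ * x * g⁻¹⁻¹) := by fun_prop
    obtain ⟨j, hj⟩ := h2 (U.comap (MulAut.conj g⁻¹).toMonoidHom) (hU.preimage hc)
    refine ⟨j, ?_⟩
    have h3 : g⁻¹ * (g * a * g⁻¹) ^ l ^ j * g⁻¹⁻¹ ∈ U := hj
    rw [conj_pow] at h3
    have h4 : g⁻¹ * (g * a ^ l ^ j * g⁻¹) * g⁻¹⁻¹ = a ^ l ^ j := by group
    rwa [h4] at h3

theorem conj_ram (hW : IsOpen (W : Set (AbsGal K))) (hn : W.Normal) {g : AbsGal K}
    (hg : ∀ x, x ∈ Q ↔ g • x ∈ Q') (k : ℕ) (a : AbsGal K) :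
    a ∈ ramSet W Q k ↔ g * a * g⁻¹ ∈ ramSet W Q' k := by
  obtain ⟨A, hA⟩ := exists_act hW hn
  rw [ramSet_iff hA, ramSet_iff hA, ← SH.iner_conj hg a]
  refine and_congr_right fun _ => ?_
  have hq : ∀ x, x ∈ Q.comap (algebraMap (𝓞 (IntermediateField.fixedField W))
      (𝓞 (AlgebraicClosure K))) ↔ A g x ∈ Q'.comap (algebraMap (𝓞 (IntermediateField.fixedField W))
      (𝓞 (AlgebraicClosure K))) := by
    intro x
    rw [Ideal.mem_comap, Ideal.mem_comap, hA]
    exact hg _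
  have h1 : ∀ y, A (g * a * g⁻¹) (A g y) - A g y = A g (A a y - y) := by
    intro y
    rw [map_sub, ← RingAut.mul_apply, ← map_mul, ← RingAut.mul_apply (A g), ← map_mul,
      inv_mul_cancel_right]
  constructor
  · intro h x
    obtain ⟨y, rfl⟩ := (A g).surjective x
    rw [h1]
    exact (mem_pow (A g) hq (k + 1) _).1 (h y)
  · intro h x
    refine (mem_pow (A g) hq (k + 1) _).2 ?_
    rw [← h1]
    exact h (A g x)

theorem exists_sub (hl : l.Prime) (hQ : Q.IsPrime) (hlQ : (l : 𝓞 (AlgebraicClosure K)) ∈ Q)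
    (hW : IsOpen (W : Set (AbsGal K))) (hn : W.Normal) (k : ℕ) :
    ∃ P : Subgroup (AbsGal K), ∀ g, g ∈ P ↔ g ∈ wildSet l Q ∧ g ∈ ramSet W Q k := by
  rcases Nat.eq_zero_or_pos k with rfl | hk
  · refine ⟨
      { carrier := {g | g ∈ wildSet l Q ∧ g ∈ ramSet W Q 0}
        mul_mem' := fun {x y} hx hy => ⟨wild_mul hl hQ hlQ hx.1 hy.1, ram_mul hW hn hx.2 hy.2⟩
        one_mem' := ⟨wild_one, (ram_zero hW hn _).2 (Subgroup.one_mem _)⟩
        inv_mem' := fun {x} hx => ⟨wild_inv hx.1,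
          (ram_zero hW hn _).2 (Subgroup.inv_mem _ ((ram_zero hW hn _).1 hx.2))⟩ }, fun g => Iff.rfl⟩
  · obtain ⟨k', _, _, _, R, θ, η, -, hR, -, -, -⟩ := exists_fil (H := ⊤) hl hQ hlQ hW hn le_top
    refine ⟨(R k).map (Subgroup.subtype _), fun g => ?_⟩
    rw [Subgroup.mem_map]
    constructor
    · rintro ⟨h, hh, rfl⟩
      exact (hR k hk h).1 hh
    · intro h
      exact ⟨⟨g, h.1.1, Subgroup.mem_top _⟩, (hR k hk _).2 h, rfl⟩

theorem ramCard_zero (hW : IsOpen (W : Set (AbsGal K))) (hn : W.Normal) (hWH : W ≤ H) :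
    ramCard H W Q 0 = W.relIndex (Q.inertia (AbsGal K) ⊓ H) := by
  rw [← card_cosets]
  refine Nat.card_congr (Equiv.subtypeEquivRight ?_)
  intro x
  constructor
  · rintro ⟨σ, h5, h6, h7⟩
    exact ⟨σ, ⟨h6.1, h5⟩, h7⟩
  · rintro ⟨σ, h5, h7⟩
    exact ⟨σ, h5.2, (ram_zero hW hn σ).2 h5.1, h7⟩

theorem ramCard_sub (hl : l.Prime) (hQ : Q.IsPrime) (hlQ : (l : 𝓞 (AlgebraicClosure K)) ∈ Q)
    (hW : IsOpen (W : Set (AbsGal K))) (hn : W.Normal) (hWH : W ≤ H) {k : ℕ} (hk : 1 ≤ k)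
    {P : Subgroup (AbsGal K)} (hP : ∀ g, g ∈ P ↔ g ∈ wildSet l Q ∧ g ∈ ramSet W Q k) :
    ramCard H W Q k = W.relIndex (P ⊓ H) := by
  rw [← card_cosets]
  refine Nat.card_congr (Equiv.subtypeEquivRight ?_)
  intro x
  constructor
  · rintro ⟨σ, hσH, hσ, rfl⟩
    obtain ⟨p, hp, hpW⟩ := exists_wild hl hQ hlQ hW hn (ram_anti hW hn hk hσ)
    have hpeq : p = σ * (σ⁻¹ * p) := by group
    have hpH : p ∈ H := by
      rw [hpeq]
      exact H.mul_mem hσH (hWH hpW)
    have hpr : p ∈ ramSet W Q k := by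
      rw [hpeq]
      refine ram_mul hW hn hσ (mem_ramSet_of_W ?_ hpW k)
      exact Subgroup.mul_mem _ (Subgroup.inv_mem _ hσ.1) hp.1
    exact ⟨p, ⟨(hP p).2 ⟨hp, hpr⟩, hpH⟩, (QuotientGroup.eq.2 hpW).symm⟩
  · rintro ⟨σ, ⟨h5, h6⟩, h7⟩
    exact ⟨σ, h6, ((hP σ).1 h5).2, h7⟩

end Pool.Agent.Work.MP_787500_nt.AR
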