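import Mathlib
import Pool.Agent.Work.MP_787500_nt.AR.Defs
import Pool.Agent.Work.MP_787500_nt.KT.Alg

/-!
# AR/BC (size S/M): extension of the base field

* `finrank_fxs_mrep`: the space of solutions of a system of linear equations with coefficients in `F` (possibly infinitely many equations) has the same dimension over `F'`. E.g. choose a
  finite set `s` of indices with the same space of solutions over `F` (dimension), ... or: the span of the rows `(A i - 1) j` in `F ^ n` is finite dimensional; choose a basis of the span;
  the space of solutions over `F` (over `F'`) has the dimension `n - r` by the rank of the matrix of the basis (`Matrix.rank_map`-like, `LinearIndependent.map..`). Or: base change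
  `F' ⊗ ker = ker (F' ⊗ ..)` for the map `F ^ n → (ι → F ^ n)` restricted to finitely many indices. See also `QX/ExtG.lean`, `RP/ExtSel.lean` (`fixed_ext`) for fields `E`.
* `exists_form`: the symplectic form over `F'`, `B' u v = ∑ i j, u i * v j * ee (e i) (e j)`; it is nondegenerate since the determinant of the matrix `ee (e i) (e j)` is not zero.
-/

set_option autoImplicit false
set_option linter.unusedSectionVars false

namespace Pool.Agent.Work.MP_787500_nt.AR

open Module NumberField Matrix

variable {F : Type*} [Field F] {J : Type*} [Group J] {n : ℕ}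

private theorem dual_zero (F' : Type*) [Field F'] [Algebra F F'] {x : F'}
    (h : ∀ φ : F' →ₗ[F] F, φ x = 0) : x = 0 :=
  (Module.forall_dual_apply_eq_zero_iff F x).1 h

/-- extension of a subspace -/
private theorem ext_finrank {F' : Type*} [Field F'] [Algebra F F'] {S : Submodule F (Fin n → F)}
    {S' : Submodule F' (Fin n → F')}
    (hS : ∀ v : Fin n → F', v ∈ S' ↔ ∀ φ : F' →ₗ[F] F, (fun k => φ (v k)) ∈ S) :
    finrank F' S' = finrank F S := by
  classical
  let b := Module.finBasis F S
  let b' : Fin (finrank F S) → (Fin n → F') := fun i k => algebraMap F F' ((b i : Fin n → F) k)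
  have hlin : ∀ w ∈ S, (fun k => algebraMap F F' (w k)) ∈ Submodule.span F' (Set.range b') := by
    intro w hw
    have h1 : w = ∑ i, b.repr ⟨w, hw⟩ i • (b i : Fin n → F) := by
      have h2 := congrArg S.subtype (b.sum_repr ⟨w, hw⟩)
      rw [map_sum] at h2
      exact h2.symm
    have h3 : (fun k => algebraMap F F' (w k)) =
        ∑ i, algebraMap F F' (b.repr ⟨w, hw⟩ i) • b' i := by
      funext k
      conv_lhs => rw [h1]
      rw [Finset.sum_apply, Finset.sum_apply, map_sum]
      refine Finset.sum_congr rfl fun i _ => ?_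
      rw [Pi.smul_apply, Pi.smul_apply, smul_eq_mul, smul_eq_mul, map_mul]
    rw [h3]
    exact Submodule.sum_mem _ fun i _ => Submodule.smul_mem _ _ (Submodule.subset_span ⟨i, rfl⟩)
  have hli : LinearIndependent F' b' := by
    rw [Fintype.linearIndependent_iff]
    intro g hg i
    refine dual_zero (F := F) F' fun φ => ?_
    have h1 := b.linearIndependent
    rw [Fintype.linearIndependent_iff] at h1
    refine h1 (fun i => φ (g i)) (Subtype.ext ?_) i
    funext k
    have h2 := congrArg φ (congrFun hg k)
    rw [Pi.zero_apply, map_zero, Finset.sum_apply, map_sum] at h2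
    have h3 : (↑(∑ i, φ (g i) • b i) : Fin n → F) k = ∑ i, φ (g i) * (b i : Fin n → F) k := by
      simp
    rw [h3]
    show _ = (0 : F)
    rw [← h2]
    refine Finset.sum_congr rfl fun i _ => ?_
    show _ = φ (g i * algebraMap F F' ((b i : Fin n → F) k))
    rw [mul_comm (g i), ← Algebra.smul_def, map_smul, smul_eq_mul, mul_comm]
  have hspan : S' = Submodule.span F' (Set.range b') := by
    refine le_antisymm ?_ ?_
    · intro v hv
      let B := Module.Basis.ofVectorSpace F F'
      let s := Finset.univ.biUnion fun k => (B.repr (v k)).support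
      have h1 : v = ∑ j ∈ s, B j • (fun k => algebraMap F F' (B.repr (v k) j)) := by
        funext k
        rw [Finset.sum_apply]
        conv_lhs => rw [← B.linearCombination_repr (v k), Finsupp.linearCombination_apply]
        rw [Finsupp.sum_of_support_subset _ (s := s)]
        · refine Finset.sum_congr rfl fun j _ => ?_
          rw [Pi.smul_apply, smul_eq_mul, Algebra.smul_def, mul_comm]
        · exact Finset.subset_biUnion_of_mem (fun k => (B.repr (v k)).support) (Finset.mem_univ k)
        · intro j _
          rw [zero_smul]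
      rw [h1]
      refine Submodule.sum_mem _ fun j _ => Submodule.smul_mem _ _ (hlin _ ?_)
      exact (hS v).1 hv (B.coord j)
    · rw [Submodule.span_le]
      rintro _ ⟨i, rfl⟩
      refine (hS _).2 fun φ => ?_
      have h1 : (fun k => φ (b' i k)) = φ 1 • (b i : Fin n → F) := by
        funext k
        show φ (algebraMap F F' ((b i : Fin n → F) k)) = φ 1 * (b i : Fin n → F) k
        rw [Algebra.algebraMap_eq_smul_one, map_smul, smul_eq_mul, mul_comm]
      rw [h1]
      exact S.smul_mem _ (b i).2
  rw [hspan, finrank_span_eq_card hli, Fintype.card_fin]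

private theorem phi_mulVec {F' : Type*} [Field F'] [Algebra F F'] (φ : F' →ₗ[F] F)
    (M : Matrix (Fin n) (Fin n) F) (v : Fin n → F') (k : Fin n) :
    φ ((M.map (algebraMap F F') *ᵥ v) k) = (M *ᵥ fun k => φ (v k)) k := by
  show φ (∑ j, algebraMap F F' (M k j) * v j) = ∑ j, M k j * φ (v j)
  rw [map_sum]
  refine Finset.sum_congr rfl fun j _ => ?_
  rw [← Algebra.smul_def, map_smul, smul_eq_mul]

private theorem fix_iff {F' : Type*} [Field F'] [Algebra F F'] (M : Matrix (Fin n) (Fin n) F)
    (v : Fin n → F') : M.map (algebraMap F F') *ᵥ v = v ↔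
      ∀ φ : F' →ₗ[F] F, (M *ᵥ fun k => φ (v k)) = fun k => φ (v k) := by
  constructor
  · intro h φ
    funext k
    rw [← phi_mulVec, h]
  · intro h
    funext k
    refine sub_eq_zero.1 (dual_zero (F := F) F' fun φ => ?_)
    rw [map_sub, phi_mulVec, h φ, sub_self]

theorem finrank_fxs_mrep (F' : Type*) [Field F'] [Algebra F F'] (A : J →* Matrix (Fin n) (Fin n) F)
    {ι : Type*} (f : ι → J) :
    finrank F' (fxs fun i => mrep F' A (f i)) = finrank F (fxs fun i => mrep F A (f i)) := by
  refine ext_finrank fun v => ?_
  constructor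
  · intro h φ i
    show mrep F A (f i) _ = _
    rw [mrep_self]
    exact (fix_iff _ _).1 (h i) φ
  · intro h i
    refine (fix_iff _ _).2 fun φ => ?_
    have h1 : mrep F A (f i) (fun k => φ (v k)) = fun k => φ (v k) := h φ i
    rwa [mrep_self] at h1

theorem finrank_fx_mrep (F' : Type*) [Field F'] [Algebra F F'] (A : J →* Matrix (Fin n) (Fin n) F)
    (g : J) : finrank F' (fx (mrep F' A g)) = finrank F (fx (mrep F A g)) := by
  refine ext_finrank fun v => ?_
  constructor
  · intro h φ
    show mrep F A g _ = _
    rw [mrep_self]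
    exact (fix_iff _ _).1 h φ
  · intro h
    refine (fix_iff _ _).2 fun φ => ?_
    have h1 : mrep F A g (fun k => φ (v k)) = fun k => φ (v k) := h φ
    rwa [mrep_self] at h1

theorem artN_mrep (F' : Type*) [Field F'] [Algebra F F'] (A : J →* Matrix (Fin n) (Fin n) F)
    (R : ℕ → Subgroup J) (N : ℕ) : artN R (mrep F' A) N = artN R (mrep F A) N := by
  unfold artN
  refine Finset.sum_congr rfl fun i _ => ?_
  rw [Module.finrank_fin_fun, Module.finrank_fin_fun,
    finrank_fxs_mrep F' A (fun g : R i => (g : J))]

open Pool.Agent.Work.MP_787500_nt.KT in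
theorem exists_form [Sy F n] (F' : Type*) [Field F'] [Algebra F F'] :
    ∃ B : (Fin n → F') →ₗ[F'] (Fin n → F') →ₗ[F'] F', IsSy B ∧
      ∀ M : Matrix (Fin n) (Fin n) F, IsSp M → ∀ u v,
        B (M.map (algebraMap F F') *ᵥ u) (M.map (algebraMap F F') *ᵥ v) = B u v := by
  classical
  let m : Matrix (Fin n) (Fin n) F := LinearMap.toMatrix₂' F (Sy.e : (Fin n → F) →ₗ[F] (Fin n → F) →ₗ[F] F)
  have hm : ∀ x y : Fin n → F, ee x y = x ⬝ᵥ (m *ᵥ y) := by
    intro x y
    rw [← Matrix.toLinearMap₂'_apply' m x y]
    show Sy.e x y = _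
    rw [Matrix.toLinearMap₂'_toMatrix']
  have hm1 : ∀ i j, m i j = ee (Pi.single i 1) (Pi.single j 1) := by
    intro i j
    rw [hm]
    simp
  have hdiag : ∀ i, m i i = 0 := fun i => by rw [hm1, ee_self]
  have hanti : ∀ i j, m i j + m j i = 0 := by
    intro i j
    have h1 := ee_self (F := F) (Pi.single i 1 + Pi.single j 1 : Fin n → F)
    rw [ee_add_left, ee_add_right, ee_add_right, ee_self, ee_self, zero_add, add_zero] at h1
    rw [hm1, hm1]
    exact h1
  refine ⟨Matrix.toLinearMap₂' F' (m.map (algebraMap F F')), ⟨?_, ?_⟩, ?_⟩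
  · intro v
    rw [Matrix.toLinearMap₂'_apply', dotProduct]
    simp only [Matrix.mulVec, dotProduct, Finset.mul_sum]
    rw [← Finset.sum_product']
    refine Finset.sum_involution (fun p _ => (p.2, p.1)) ?_ ?_ ?_ ?_
    · rintro ⟨i, j⟩ _
      show v i * (algebraMap F F' (m i j) * v j) + v j * (algebraMap F F' (m j i) * v i) = 0
      have h1 := congrArg (algebraMap F F') (hanti i j)
      rw [map_add, map_zero] at h1
      linear_combination (v i * v j) * h1
    · rintro ⟨i, j⟩ _ h1 h2
      have h3 : i = j := (Prod.ext_iff.1 h2).2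
      subst h3
      refine h1 ?_
      show v i * (algebraMap F F' (m i i) * v i) = 0
      rw [hdiag, map_zero, zero_mul, mul_zero]
    · rintro ⟨i, j⟩ _
      exact Finset.mem_univ _
    · rintro ⟨i, j⟩ _
      rfl
  · intro u hu
    funext i
    refine dual_zero (F := F) F' fun φ => ?_
    have h1 : (fun k => φ (u k)) = 0 := by
      refine ee_nondeg fun y => ?_
      have h2 := congrArg φ (hu fun k => algebraMap F F' (y k))
      rw [map_zero, Matrix.toLinearMap₂'_apply', dotProduct] at h2
      rw [hm, ← h2, map_sum, dotProduct]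
      refine Finset.sum_congr rfl fun k _ => ?_
      have h3 : (m.map (algebraMap F F') *ᵥ fun k => algebraMap F F' (y k)) k =
          algebraMap F F' ((m *ᵥ y) k) := by
        rw [Matrix.mulVec, Matrix.mulVec, dotProduct, dotProduct, map_sum]
        refine Finset.sum_congr rfl fun j _ => ?_
        rw [map_mul]
        rfl
      rw [h3, mul_comm (u k), ← Algebra.smul_def, map_smul, smul_eq_mul, mul_comm]
    exact congrFun h1 i
  · intro M hM u v
    have h1 : Mᵀ * m * M = m := by
      ext i j
      have h2 := hM (Pi.single i 1) (Pi.single j 1)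
      rw [← hm1, hm] at h2
      rw [← h2]
      rw [Matrix.mulVec_mulVec, Matrix.dotProduct_mulVec, Matrix.mulVec_single_one,
        dotProduct_single_one, Matrix.mul_assoc, Matrix.mul_apply, Matrix.vecMul, dotProduct]
      rfl
    have h3 : (M.map (algebraMap F F'))ᵀ * m.map (algebraMap F F') * M.map (algebraMap F F') =
        m.map (algebraMap F F') := by
      rw [← Matrix.transpose_map, ← Matrix.map_mul, ← Matrix.map_mul, h1]
    rw [Matrix.toLinearMap₂'_apply', Matrix.toLinearMap₂'_apply']
    conv_rhs => rw [← h3]
    rw [← Matrix.mulVec_mulVec, ← Matrix.mulVec_mulVec, Matrix.dotProduct_mulVec u, Matrix.vecMul_transpose]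

end Pool.Agent.Work.MP_787500_nt.AR
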