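import Mathlib
import Pool.Agent.Work.MP_787500_nt.AR.Defs

/-!
# AR/Wt (size M): the weights of a commuting family of operators of finite order

* `exists_dec`: over an algebraically closed field, `V` is the direct sum of the spaces `wt T χ`. Mathlib:
  `Module.End.iSup_iInf_maxGenEigenspace_eq_top_of_forall_mapsTo`, `Module.End.independent_iInf_maxGenEigenspace_of_forall_mapsTo`
  (LinearAlgebra/Eigenspace/Pi); every `T a` is semisimple since it is a root of the separable polynomial `X ^ m - 1`
  (`Module.End.isSemisimple_of_squarefree_aeval_eq_zero`), so the generalised eigenspaces are eigenspaces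
  (`Module.End.IsFinitelySemisimple.maxGenEigenspace_eq_eigenspace`). Only finitely many spaces of an independent family are not zero
  (`iSupIndep`, `WellFoundedGT.finite_ne_bot_of_iSupIndep`). The projections from `DirectSum.IsInternal` (`DirectSum.decompose..` or
  `DirectSum.component`).
* `exists_of_ne`: a space `wt T χ' ≠ ⊥` is one of the spaces of the decomposition.
* `wt_orth`: `B (T a u) (T a v) = χ a * ψ a * B u v`.
* `fxs_eq_wt`: the weight 1.
-/

set_option autoImplicit false
set_option linter.unusedSectionVars false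

namespace Pool.Agent.Work.MP_787500_nt.AR

open Module

variable {F V : Type*} [Field F] [AddCommGroup V] [Module F V] {ι : Type*} {T : ι → End F V}

private theorem wt_eq [FiniteDimensional F V] (hT : ∀ a, ∃ m : ℕ, (m : F) ≠ 0 ∧ T a ^ m = 1)
    (χ : ι → F) : wt T χ = ⨅ a, (T a).maxGenEigenspace (χ a) := by
  have hs : ∀ a, (T a).IsFinitelySemisimple := by
    intro a
    obtain ⟨m, hm, h1⟩ := hT a
    have hsep : (Polynomial.X ^ m - 1 : Polynomial F).Separable :=
      Polynomial.X_pow_sub_one_separable_iff.2 hm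
    have hz : Polynomial.aeval (T a) (Polynomial.X ^ m - 1 : Polynomial F) = 0 := by
      rw [map_sub, map_pow, Polynomial.aeval_X, map_one, h1, sub_self]
    exact (Module.End.isSemisimple_of_squarefree_aeval_eq_zero hsep.squarefree hz).isFinitelySemisimple
  ext v
  rw [mem_wt, Submodule.mem_iInf]
  refine forall_congr' fun a => ?_
  rw [(hs a).maxGenEigenspace_eq_eigenspace, Module.End.mem_eigenspace_iff]

private theorem dec_of_internal {r : ℕ} (W : Fin r → Submodule F V) (hi : iSupIndep W)
    (ht : ⨆ i, W i = ⊤) : ∃ e : Fin r → End F V, Dec W e := by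
  classical
  have h : DirectSum.IsInternal W :=
    DirectSum.isInternal_submodule_of_iSupIndep_of_iSup_eq_top hi ht
  let D : (DirectSum (Fin r) fun i => W i) ≃ₗ[F] V :=
    LinearEquiv.ofBijective (DirectSum.coeLinearMap W) h
  have hD : ∀ i (w : W i), D (DirectSum.lof F (Fin r) (fun i => W i) i w) = w := by
    intro i w
    exact DirectSum.coeLinearMap_lof W i w
  let e : Fin r → End F V := fun i =>
    (W i).subtype ∘ₗ DirectSum.component F (Fin r) (fun i => W i) i ∘ₗ D.symm.toLinearMap
  have he : ∀ i v, e i v = ((D.symm v) i : V) := fun i v => rfl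
  have hof : ∀ j, ∀ v (hv : v ∈ W j),
      D.symm v = DirectSum.lof F (Fin r) (fun i => W i) j ⟨v, hv⟩ := by
    intro j v hv
    rw [LinearEquiv.symm_apply_eq, hD]
  refine ⟨e, ⟨fun i v => ?_, fun i v hv => ?_, fun i j hij v hv => ?_, fun v => ?_⟩⟩
  · rw [he]
    exact Subtype.coe_prop _
  · rw [he, hof i v hv, DirectSum.lof_eq_of, DirectSum.of_eq_same]
  · rw [he, hof j v hv, DirectSum.lof_eq_of, DirectSum.of_eq_of_ne _ _ _ hij]
    rfl
  · have h1 : ∑ i, DirectSum.of (fun i => W i) i ((D.symm v) i) = D.symm v :=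
      DirectSum.sum_univ_of _
    have h2 := congrArg D h1
    rw [map_sum, LinearEquiv.apply_symm_apply] at h2
    rw [← h2]
    refine Finset.sum_congr rfl fun i _ => ?_
    rw [he, h2]
    exact (hD i _).symm

theorem exists_dec [IsAlgClosed F] [FiniteDimensional F V] (hc : ∀ a b, Commute (T a) (T b))
    (hT : ∀ a, ∃ m : ℕ, (m : F) ≠ 0 ∧ T a ^ m = 1) :
    ∃ (r : ℕ) (χ : Fin r → ι → F) (e : Fin r → End F V), Function.Injective χ ∧
      Dec (fun i => wt T (χ i)) e ∧ ∀ i, wt T (χ i) ≠ ⊥ := by
  classical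
  have hind : iSupIndep fun χ : ι → F => wt T χ := by
    have h1 := Module.End.independent_iInf_maxGenEigenspace_of_forall_mapsTo T
      (fun i j φ => Module.End.mapsTo_maxGenEigenspace_of_comm (hc j i) φ)
    have h2 : (fun χ : ι → F => wt T χ) = fun χ : ι → F => ⨅ a, (T a).maxGenEigenspace (χ a) :=
      funext fun χ => wt_eq hT χ
    rw [h2]
    exact h1
  have htop : ⨆ χ : ι → F, wt T χ = ⊤ := by
    have h1 := Module.End.iSup_iInf_maxGenEigenspace_eq_top_of_forall_mapsTo T
      (fun i j φ => Module.End.mapsTo_maxGenEigenspace_of_comm (hc j i) φ)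
      (fun i => Module.End.iSup_maxGenEigenspace_eq_top (T i))
    rw [← h1]
    exact iSup_congr fun χ => wt_eq hT χ
  have hfin : {χ : ι → F | wt T χ ≠ ⊥}.Finite := WellFoundedGT.finite_ne_bot_of_iSupIndep hind
  have : Fintype {χ : ι → F // wt T χ ≠ ⊥} := hfin.fintype
  let r := Fintype.card {χ : ι → F // wt T χ ≠ ⊥}
  let E := Fintype.equivFin {χ : ι → F // wt T χ ≠ ⊥}
  have hinj : Function.Injective fun i : Fin r => ((E.symm i : {χ : ι → F // wt T χ ≠ ⊥}) : ι → F) :=
    Subtype.val_injective.comp E.symm.injective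
  have hi : iSupIndep fun i : Fin r => wt T ((E.symm i : {χ : ι → F // wt T χ ≠ ⊥}) : ι → F) :=
    hind.comp hinj
  have ht : ⨆ i : Fin r, wt T ((E.symm i : {χ : ι → F // wt T χ ≠ ⊥}) : ι → F) = ⊤ := by
    rw [eq_top_iff, ← htop]
    refine iSup_le fun χ => ?_
    by_cases hχ : wt T χ = ⊥
    · rw [hχ]
      exact bot_le
    · refine le_trans ?_ (le_iSup (fun i : Fin r =>
        wt T ((E.symm i : {χ : ι → F // wt T χ ≠ ⊥}) : ι → F)) (E ⟨χ, hχ⟩))
      simp only [Equiv.symm_apply_apply]
      exact le_rfl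
  obtain ⟨e, he⟩ := dec_of_internal _ hi ht
  exact ⟨r, fun i => ((E.symm i : {χ : ι → F // wt T χ ≠ ⊥}) : ι → F), e, hinj, he,
    fun i => (E.symm i).2⟩

theorem exists_of_ne {r : ℕ} {χ : Fin r → ι → F} {e : Fin r → End F V} (h : Dec (fun i => wt T (χ i)) e)
    {χ' : ι → F} (h' : wt T χ' ≠ ⊥) : ∃ i, χ i = χ' := by
  classical
  obtain ⟨v, hv, hv0⟩ := Submodule.exists_mem_ne_zero_of_ne_bot h'
  have h1 : ∃ i, e i v ≠ 0 := by
    by_contra hcon
    push Not at hcon
    apply hv0
    rw [← h.sum v]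
    exact Finset.sum_eq_zero fun i _ => hcon i
  obtain ⟨i, hi⟩ := h1
  refine ⟨i, funext fun a => ?_⟩
  have hee : ∀ j, e i (e j v) = if i = j then e i v else 0 := by
    intro j
    by_cases hij : i = j
    · subst hij
      rw [if_pos rfl]
      exact h.eq i _ (h.mem i v)
    · rw [if_neg hij]
      exact h.ne i j hij _ (h.mem j v)
  have h2 : e i (T a v) = χ i a • e i v := by
    conv_lhs => rw [← h.sum v]
    rw [map_sum, map_sum, Finset.sum_eq_single i]
    · rw [h.mem i v a, map_smul, hee, if_pos rfl]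
    · intro j _ hj
      rw [h.mem j v a, map_smul, hee, if_neg (Ne.symm hj), smul_zero]
    · intro hn
      exact absurd (Finset.mem_univ _) hn
  rw [hv a, map_smul] at h2
  have h3 : (χ' a - χ i a) • e i v = 0 := by
    rw [sub_smul, h2, sub_self]
  rcases smul_eq_zero.1 h3 with h4 | h4
  · exact (sub_eq_zero.1 h4).symm
  · exact absurd h4 hi

theorem wt_orth {B : V →ₗ[F] V →ₗ[F] F} (hB : ∀ a u v, B (T a u) (T a v) = B u v) {χ ψ : ι → F} {u v : V}
    (hu : u ∈ wt T χ) (hv : v ∈ wt T ψ) (h : B u v ≠ 0) (a : ι) : χ a * ψ a = 1 := by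
  have h1 := hB a u v
  rw [hu a, hv a, map_smul, map_smul, LinearMap.smul_apply, smul_smul, smul_eq_mul, mul_comm (ψ a)] at h1
  exact mul_right_cancel₀ h (by rw [h1, one_mul])

theorem fxs_eq_wt : fxs T = wt T 1 := by
  ext v
  rw [mem_fxs, mem_wt]
  refine forall_congr' fun a => ?_
  rw [Pi.one_apply, one_smul]

end Pool.Agent.Work.MP_787500_nt.AR
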