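import Mathlib
import Pool.Agent.Work.MP_787500_nt.AR.Wt

/-!
# AR/Act (size M): the action of `J` on the weights of a layer

`T a = ρ a` for `a ∈ A`. By `Layer.add`, `Layer.conj`, `Layer.ker`: `η (a⁻¹) = - η a`, `ρ` is constant on the fibres of `η` on `A`, the `ρ a` commute
(`η` of a commutator is 0) and `ρ a ^ l = 1` (`η (a ^ l) = l η a = 0`). Use `exists_dec`. For `s` in `J`, `ρ s` maps `wt T χ` to
`wt T (a ↦ χ (s⁻¹ a s))`, which is not zero since `ρ s` is invertible, so it belongs to the list (`exists_of_ne`); this is the permutation `σ s`,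
a homomorphism because `χ` is injective.
* `fix_iff`: if `ζ s = 1` then `η (s⁻¹ a s) = η a`, so `ρ (s⁻¹ a s) = ρ a` and the weight does not change (`χ i a` is determined by `ρ a` since
  `wt T (χ i) ≠ ⊥`). Conversely let `σ s i = i` and `λ = ζ s⁻¹ ≠ 1`. The image `Λ = η A` is a finite subgroup of `k` and `x ↦ (λ - 1) x` is an injective map from
  `Λ` to `Λ` (`(λ - 1) η a = η (s⁻¹ a s a⁻¹)`), so it is surjective: every `a` in `A` has the same `η` as some `s⁻¹ b s b⁻¹`, and
  `χ i (s⁻¹ b s b⁻¹) = χ i (s⁻¹ b s) / χ i b = 1`. So `χ i = 1`.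
* the last two parts: if `χ i = 1` the weight is fixed by all `s`; if `ζ s = -1` then `s⁻¹ a s` and `a⁻¹` have the same `η`.
-/

set_option autoImplicit false
set_option linter.unusedSectionVars false

namespace Pool.Agent.Work.MP_787500_nt.AR

open Module

variable {F V : Type*} [Field F] [AddCommGroup V] [Module F V] {J k : Type*} [Group J] [Field k] [Finite k]
  {A : Subgroup J} {ζ : J →* k} {η : J → k} {ρ : J →* End F V}

private theorem eta_one (h : Layer A ζ η ρ) : η 1 = 0 := by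
  have h1 := h.add 1 A.one_mem 1 A.one_mem
  rw [mul_one] at h1
  exact left_eq_add.1 h1

private theorem eta_inv (h : Layer A ζ η ρ) {a : J} (ha : a ∈ A) : η a⁻¹ = -η a := by
  have h1 := h.add a ha a⁻¹ (A.inv_mem ha)
  rw [mul_inv_cancel, eta_one h] at h1
  exact (neg_eq_of_add_eq_zero_right h1.symm).symm

private theorem rho_eq (h : Layer A ζ η ρ) {a b : J} (ha : a ∈ A) (hb : b ∈ A) (hab : η a = η b) :
    ρ a = ρ b := by
  have h1 : ρ (a * b⁻¹) = 1 := h.ker _ (A.mul_mem ha (A.inv_mem hb)) (by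
    rw [h.add a ha _ (A.inv_mem hb), eta_inv h hb, hab, add_neg_cancel])
  have h2 : ρ a = ρ (a * b⁻¹) * ρ b := by rw [← map_mul, inv_mul_cancel_right]
  rw [h2, h1, one_mul]

private theorem conj_mem' (h : Layer A ζ η ρ) (s : J) {a : J} (ha : a ∈ A) : s⁻¹ * a * s ∈ A := by
  have h1 := h.conj_mem s⁻¹ a ha
  rwa [inv_inv] at h1

private theorem zeta_inv (s : J) : ζ s⁻¹ = (ζ s)⁻¹ := by
  refine eq_inv_of_mul_eq_one_left ?_
  rw [← map_mul, inv_mul_cancel, map_one]

private theorem zeta_ne (s : J) : ζ s ≠ 0 := by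
  intro h0
  have h1 : ζ s⁻¹ * ζ s = 1 := by rw [← map_mul, inv_mul_cancel, map_one]
  rw [h0, mul_zero] at h1
  exact zero_ne_one h1

private theorem eta_conj' (h : Layer A ζ η ρ) (s : J) {a : J} (ha : a ∈ A) :
    η (s⁻¹ * a * s) = (ζ s)⁻¹ * η a := by
  have h1 := h.conj s⁻¹ a ha
  rwa [inv_inv, zeta_inv] at h1

private theorem eta_pow (h : Layer A ζ η ρ) {a : J} (ha : a ∈ A) (n : ℕ) : η (a ^ n) = n * η a := by
  induction n with
  | zero => rw [pow_zero, eta_one h, Nat.cast_zero, zero_mul]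
  | succ n ih =>
    rw [pow_succ, h.add _ (A.pow_mem ha n) _ ha, ih]
    push_cast
    ring

theorem Layer.exists_weights [IsAlgClosed F] [FiniteDimensional F V] (h : Layer A ζ η ρ) {l : ℕ} [CharP k l]
    (hl : (l : F) ≠ 0) :
    ∃ (r : ℕ) (χ : Fin r → A → F) (e : Fin r → End F V) (σ : J →* Equiv.Perm (Fin r)),
      Function.Injective χ ∧ Dec (fun i => wt (fun a : A => ρ a) (χ i)) e ∧
      (∀ i, wt (fun a : A => ρ a) (χ i) ≠ ⊥) ∧
      (∀ s i, ∀ v ∈ wt (fun a : A => ρ a) (χ i), ρ s v ∈ wt (fun a : A => ρ a) (χ (σ s i))) ∧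
      (∀ i, χ i ≠ 1 → ∀ s, σ s i = i ↔ ζ s = 1) ∧ (∀ i, χ i = 1 → ∀ s, σ s i = i) ∧
      ∀ i s, ζ s = -1 → ∀ a, χ (σ s i) a * χ i a = 1 := by
  classical
  obtain ⟨r, χ, e, hχ, hdec, hne⟩ := exists_dec (T := fun a : A => ρ a)
    (fun a b => by
      show ρ a * ρ b = ρ b * ρ a
      rw [← map_mul, ← map_mul]
      refine rho_eq h (A.mul_mem a.2 b.2) (A.mul_mem b.2 a.2) ?_
      rw [h.add _ a.2 _ b.2, h.add _ b.2 _ a.2, add_comm])
    (fun a => ⟨l, hl, by
      show ρ a ^ l = 1
      rw [← map_pow]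
      refine h.ker _ (A.pow_mem a.2 l) ?_
      rw [eta_pow h a.2, CharP.cast_eq_zero, zero_mul]⟩)
  -- a nonzero vector of each weight
  have hv : ∀ i, ∃ v : V, v ≠ 0 ∧ ∀ a : A, ρ a v = χ i a • v := by
    intro i
    obtain ⟨v, hv1, hv2⟩ := Submodule.exists_mem_ne_zero_of_ne_bot (hne i)
    exact ⟨v, hv2, hv1⟩
  -- conjugation
  let cj : J → A → A := fun s a => ⟨s⁻¹ * a * s, conj_mem' h s a.2⟩
  have hmap : ∀ (s : J) (i : Fin r), ∀ v ∈ wt (fun a : A => ρ a) (χ i),
      ρ s v ∈ wt (fun a : A => ρ a) (fun a => χ i (cj s a)) := by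
    intro s i v hv a
    show ρ a (ρ s v) = χ i (cj s a) • ρ s v
    have h1 : (a : J) * s = s * (s⁻¹ * a * s) := by group
    have h2 : ρ a (ρ s v) = ρ s (ρ (s⁻¹ * a * s) v) := by
      rw [← Module.End.mul_apply, ← Module.End.mul_apply, ← map_mul, ← map_mul, h1]
    have h3 : ρ (s⁻¹ * a * s) v = χ i (cj s a) • v := hv (cj s a)
    rw [h2, h3, map_smul]
  have hex : ∀ (s : J) (i : Fin r), ∃ j, χ j = fun a => χ i (cj s a) := by
    intro s i
    refine exists_of_ne hdec ?_
    obtain ⟨v, hv1, hv2⟩ := Submodule.exists_mem_ne_zero_of_ne_bot (hne i)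
    intro h0
    have h1 := hmap s i v hv1
    rw [h0, Submodule.mem_bot] at h1
    refine hv2 ?_
    have h2 : ρ s⁻¹ (ρ s v) = v := by
      rw [← Module.End.mul_apply, ← map_mul, inv_mul_cancel, map_one, Module.End.one_apply]
    rw [← h2, h1, map_zero]
  choose f hf using hex
  have hf' : ∀ s i a, χ (f s i) a = χ i (cj s a) := fun s i a => congrFun (hf s i) a
  let fe : J →* Function.End (Fin r) :=
    { toFun := f
      map_one' := by
        funext i
        refine hχ (funext fun a => ?_)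
        rw [hf']
        have h1 : cj 1 a = a := Subtype.ext (by
          show (1 : J)⁻¹ * a * 1 = a
          rw [inv_one, one_mul, mul_one])
        rw [h1]
        rfl
      map_mul' := by
        intro s t
        funext i
        refine hχ (funext fun a => ?_)
        show χ (f (s * t) i) a = χ (f s (f t i)) a
        rw [hf', hf', hf']
        congr 1
        refine Subtype.ext ?_
        show (s * t)⁻¹ * a * (s * t) = t⁻¹ * (s⁻¹ * a * s) * t
        group }
  let σ : J →* Equiv.Perm (Fin r) := fe.toHomPerm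
  have hσ : ∀ s i, σ s i = f s i := fun s i => rfl
  have hσ' : ∀ s i a, χ (σ s i) a = χ i (cj s a) := fun s i a => by rw [hσ, hf']
  -- the weight depends only on the operator
  have hval : ∀ i (a b : A), ρ a = ρ b → χ i a = χ i b := by
    intro i a b hab
    obtain ⟨v, hv0, hv1⟩ := hv i
    have h1 : χ i a • v = χ i b • v := by rw [← hv1, ← hv1, hab]
    exact smul_left_injective F hv0 h1
  have hmul1 : ∀ i (a b : A), ρ a * ρ b = 1 → χ i a * χ i b = 1 := by
    intro i a b hab
    obtain ⟨v, hv0, hv1⟩ := hv i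
    have h1 : (χ i a * χ i b) • v = (1 : F) • v := by
      have h2 : ρ a (ρ b v) = v := by
        rw [← Module.End.mul_apply, hab, Module.End.one_apply]
      rw [hv1, map_smul, hv1, smul_smul] at h2
      rw [one_smul, mul_comm]
      exact h2
    exact smul_left_injective F hv0 h1
  refine ⟨r, χ, e, σ, hχ, hdec, hne, ?_, ?_, ?_, ?_⟩
  · intro s i v hv
    have h1 := hmap s i v hv
    rw [hσ, hf]
    exact h1
  · intro i hi s
    constructor
    · intro hfix
      by_contra hz
      refine hi (funext fun a => ?_)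
      -- the map on the image
      let Λ : Set k := η '' (A : Set J)
      have hlam : (ζ s)⁻¹ - 1 ≠ 0 := by
        intro h0
        refine hz ?_
        have h1 : (ζ s)⁻¹ = 1 := sub_eq_zero.1 h0
        exact inv_eq_one.1 h1
      have hmaps : Set.MapsTo (fun x : k => ((ζ s)⁻¹ - 1) * x) Λ Λ := by
        rintro _ ⟨b, hb, rfl⟩
        refine ⟨s⁻¹ * b * s * b⁻¹, A.mul_mem (conj_mem' h s hb) (A.inv_mem hb), ?_⟩
        show η (s⁻¹ * b * s * b⁻¹) = ((ζ s)⁻¹ - 1) * η b
        rw [h.add _ (conj_mem' h s hb) _ (A.inv_mem hb), eta_inv h hb, eta_conj' h s hb]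
        ring
      have hinj : Set.InjOn (fun x : k => ((ζ s)⁻¹ - 1) * x) Λ := fun x _ y _ hxy =>
        mul_left_cancel₀ hlam hxy
      have hsurj : Set.SurjOn (fun x : k => ((ζ s)⁻¹ - 1) * x) Λ Λ := by
        have h1 := Finset.surjOn_of_injOn_of_card_le (s := (Set.toFinite Λ).toFinset)
          (t := (Set.toFinite Λ).toFinset) (fun x : k => ((ζ s)⁻¹ - 1) * x)
          (by rwa [Set.Finite.coe_toFinset]) (by rwa [Set.Finite.coe_toFinset]) le_rfl
        rwa [Set.Finite.coe_toFinset] at h1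
      obtain ⟨_, ⟨b, hb, rfl⟩, hb2⟩ := hsurj ⟨(a : J), a.2, rfl⟩
      have hb3 : ((ζ s)⁻¹ - 1) * η b = η a := hb2
      let b' : A := ⟨b, hb⟩
      let c : A := cj s b'
      have e1 : ρ a = ρ (c * b'⁻¹ : A) := by
        refine rho_eq h a.2 (c * b'⁻¹ : A).2 ?_
        show η a = η (s⁻¹ * b * s * b⁻¹)
        rw [h.add _ (conj_mem' h s hb) _ (A.inv_mem hb), eta_inv h hb, eta_conj' h s hb, ← hb3]
        ring
      have e2 : χ i c = χ i b' := by
        rw [← hσ' s i b', hfix]
      have e3 : χ i c = χ i (b' : A) := e2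
      have e4 : χ i b' * χ i b'⁻¹ = 1 := hmul1 i b' b'⁻¹ (by
        rw [← map_mul]
        show ρ ((b' : J) * (b' : J)⁻¹) = 1
        rw [mul_inv_cancel, map_one])
      obtain ⟨v, hv0, hv1⟩ := hv i
      have e5 : χ i a • v = (1 : F) • v := by
        rw [← hv1, e1]
        show ρ ((c : J) * (b'⁻¹ : A)) v = (1 : F) • v
        rw [map_mul, Module.End.mul_apply, hv1, map_smul, hv1, smul_smul, e3, mul_comm, e4]
      exact smul_left_injective F hv0 e5
    · intro hz
      refine hχ (funext fun a => ?_)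
      rw [hσ']
      refine hval i _ _ (rho_eq h (cj s a).2 a.2 ?_)
      show η (s⁻¹ * a * s) = η a
      rw [eta_conj' h s a.2, hz, inv_one, one_mul]
  · intro i hi s
    refine hχ (funext fun a => ?_)
    rw [hσ', hi]
    rfl
  · intro i s hz a
    rw [hσ']
    refine hmul1 i _ _ ?_
    rw [← map_mul]
    refine h.ker _ (A.mul_mem (cj s a).2 a.2) ?_
    rw [h.add _ (cj s a).2 _ a.2]
    show η (s⁻¹ * a * s) + η a = 0
    rw [eta_conj' h s a.2, hz, inv_neg, inv_one]
    ring

end Pool.Agent.Work.MP_787500_nt.AR
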