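import Mathlib
import Pool.Agent.Work.MP_787500_nt.AR.Defs

/-!
# AR/Cyc (size M): homomorphisms to the multiplicative group of a finite field

The image of `ζ : J →* k` is a finite cyclic group (`ζ` factors through `kˣ`: `ζ.toHomUnits`; `rootsOfUnity`/`isCyclic_subgroup_units`).
* `exists_gen`: a generator.
* `card_pow`: the image of `s ↦ θ s ^ i` has `e₀ / gcd(e₀, i)` elements.
* `ord_two`: the 2-part. `u ≡ 1` modulo the 2-part and `u ≡ 0` modulo the odd part of an exponent of `ζ t`; every value of `ζ` is a power of `ζ t` times an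
  element of odd order. So the quotient of the image by its subgroup of elements of odd order is generated by `ζ t`, and the 2-part of the cyclic image is generated by
  `ζ t ^ u`.
* `relIndex_layer`: the image `Λ = η (R i)` is a finite subgroup of `k`, its cardinality is `[R i : R (i + 1)]`, and the group `θ(J) ^ i` of order `m` acts on
  `Λ ∖ {0}` by multiplication without fixed points (`conj_mem`, `conj`), so `m` divides `|Λ| - 1`.
* `odd_relIndex`: `[R i : R (i + 1)] = |Λ|` is a power of the characteristic `l`, so it is odd.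
-/

set_option autoImplicit false
set_option linter.unusedSectionVars false

namespace Pool.Agent.Work.MP_787500_nt.AR

open Module

variable {J k : Type*} [Group J] [Field k] [Finite k]

private theorem card_units (ζ : J →* k) : Nat.card (Set.range ζ) = Nat.card ζ.toHomUnits.range := by
  have h1 : Set.range ζ = Units.val '' (ζ.toHomUnits.range : Set kˣ) := by
    ext x
    constructor
    · rintro ⟨s, rfl⟩
      exact ⟨ζ.toHomUnits s, ⟨s, rfl⟩, rfl⟩
    · rintro ⟨_, ⟨s, rfl⟩, rfl⟩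
      exact ⟨s, rfl⟩
  rw [h1]
  exact Nat.card_image_of_injective Units.val_injective _

private theorem ord_of_gen {ζ : J →* k} {s : J} (h : ∀ t, ∃ j : ℕ, ζ t = ζ s ^ j) :
    orderOf (ζ s) = Nat.card (Set.range ζ) := by
  have h1 : ζ.toHomUnits.range = Subgroup.zpowers (ζ.toHomUnits s) := by
    apply le_antisymm
    · rintro _ ⟨t, rfl⟩
      obtain ⟨j, hj⟩ := h t
      refine ⟨j, ?_⟩
      apply Units.ext
      simp only [zpow_natCast, Units.val_pow_eq_pow_val]
      exact hj.symm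
    · rw [Subgroup.zpowers_le]
      exact ⟨s, rfl⟩
  rw [card_units, h1, Nat.card_zpowers, ← orderOf_units]
  rfl

private theorem gen_ex (ζ : J →* k) : ∃ s, ∀ t, ∃ j : ℕ, ζ t = ζ s ^ j := by
  obtain ⟨⟨g, ⟨s, rfl⟩⟩, hg⟩ := IsCyclic.exists_generator (α := ζ.toHomUnits.range)
  refine ⟨s, fun t => ?_⟩
  have h1 := hg ⟨ζ.toHomUnits t, ⟨t, rfl⟩⟩
  rw [← mem_powers_iff_mem_zpowers] at h1
  obtain ⟨j, hj⟩ := h1
  refine ⟨j, ?_⟩
  have h2 := congrArg (fun x : ζ.toHomUnits.range => ((x : kˣ) : k)) hj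
  simp only [Subgroup.coe_pow, Units.val_pow_eq_pow_val] at h2
  exact h2.symm

private noncomputable def lay {R : ℕ → Subgroup J} {θ : J →* k} {η : ℕ → J → k} (h : Fil R θ η) {i : ℕ}
    (hi : 1 ≤ i) : R i →* Multiplicative k where
  toFun g := Multiplicative.ofAdd (η i g)
  map_one' := by
    have h1 := h.add i hi 1 (R i).one_mem 1 (R i).one_mem
    rw [one_mul, left_eq_add] at h1
    show Multiplicative.ofAdd (η i 1) = 1
    rw [h1]
    rfl
  map_mul' g g' := by
    show Multiplicative.ofAdd (η i (g * g')) = _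
    rw [h.add i hi g g.2 g' g'.2]
    rfl

private theorem relIndex_eq {R : ℕ → Subgroup J} {θ : J →* k} {η : ℕ → J → k} (h : Fil R θ η) {i : ℕ}
    (hi : 1 ≤ i) : (R (i + 1)).relIndex (R i) = Nat.card (lay h hi).range := by
  have h1 : (R (i + 1)).subgroupOf (R i) = (lay h hi).ker := by
    ext g
    rw [Subgroup.mem_subgroupOf, h.ker i hi, MonoidHom.mem_ker]
    constructor
    · rintro ⟨_, h2⟩
      show Multiplicative.ofAdd (η i g) = 1
      rw [h2]
      rfl
    · intro h2
      exact ⟨g.2, h2⟩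
  rw [Subgroup.relIndex, h1, Subgroup.index_ker]

theorem exists_gen (ζ : J →* k) : ∃ s, orderOf (ζ s) = Nat.card (Set.range ζ) := by
  obtain ⟨s, hs⟩ := gen_ex ζ
  exact ⟨s, ord_of_gen hs⟩

theorem card_range_pos (ζ : J →* k) : 0 < Nat.card (Set.range ζ) := by
  have : Nonempty (Set.range ζ) := ⟨⟨ζ 1, ⟨1, rfl⟩⟩⟩
  have : Finite (Set.range ζ) := Subtype.finite
  exact Nat.card_pos

theorem card_pow (θ : J →* k) (i : ℕ) :
    Nat.card (Set.range (θ ^ i)) * Nat.gcd (Nat.card (Set.range θ)) i = Nat.card (Set.range θ) := by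
  obtain ⟨s, hs⟩ := gen_ex θ
  have h1 : orderOf ((θ ^ i) s) = Nat.card (Set.range (θ ^ i)) := by
    apply ord_of_gen
    intro t
    obtain ⟨j, hj⟩ := hs t
    refine ⟨j, ?_⟩
    rw [MonoidHom.pow_apply, MonoidHom.pow_apply, hj, ← pow_mul, ← pow_mul, mul_comm]
  have h2 := ord_of_gen hs
  have h3 : 0 < Nat.card (Set.range θ) := card_range_pos θ
  have h4 : orderOf ((θ ^ i) s) = orderOf (θ s) / Nat.gcd (orderOf (θ s)) i := by
    rw [MonoidHom.pow_apply]
    exact IsOfFinOrder.orderOf_pow _ _ (orderOf_pos_iff.mp (h2 ▸ h3))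
  rw [← h1, h4, h2]
  exact Nat.div_mul_cancel (Nat.gcd_dvd_left _ _)

theorem ord_two {ζ : J →* k} {t : J} {u e m : ℕ} (hm : Odd m) (ht : ζ t ^ (2 ^ e * m) = 1)
    (hu1 : u ≡ 1 [MOD 2 ^ e]) (hu2 : u ≡ 0 [MOD m])
    (h : ∀ g, ∃ (j : ℕ) (z : k) (r : ℕ), Odd r ∧ z ^ r = 1 ∧ ζ g = ζ t ^ j * z) :
    orderOf (ζ (t ^ u)) = 2 ^ (Nat.card (Set.range ζ)).factorization 2 := by
  have hN : 0 < Nat.card (Set.range ζ) := card_range_pos ζ
  obtain ⟨s, hs⟩ := gen_ex ζ
  have hsN := ord_of_gen hs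
  set N := Nat.card (Set.range ζ) with hNdef
  set a := N.factorization 2 with ha
  obtain ⟨b, hb⟩ : ∃ b, N = 2 ^ a * b := ⟨_, (Nat.ordProj_mul_ordCompl_eq_self N 2).symm⟩
  have hb2 : Odd b := by
    have h1 : ¬ 2 ∣ N / 2 ^ a := Nat.not_dvd_ordCompl Nat.prime_two hN.ne'
    have h2 : N / 2 ^ a = b := by
      rw [hb]
      exact Nat.mul_div_cancel_left _ (by positivity)
    rw [h2] at h1
    exact Nat.not_even_iff_odd.mp fun h3 => h1 h3.two_dvd
  have hy : ζ (t ^ u) = ζ t ^ u := map_pow ζ t u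
  have hye : ζ (t ^ u) ^ 2 ^ e = 1 := by
    obtain ⟨c, hc⟩ := (Nat.modEq_zero_iff_dvd.mp hu2)
    rw [hy, hc, ← pow_mul, show m * c * 2 ^ e = 2 ^ e * m * c by ring, pow_mul, ht, one_pow]
  have hym : ζ (t ^ u) ^ m = ζ t ^ m := by
    rw [hy, ← pow_mul]
    have h1 : u * m ≡ m [MOD 2 ^ e * m] := by
      have h2 := Nat.ModEq.mul_right' m hu1
      rwa [one_mul] at h2
    exact pow_eq_pow_of_modEq h1 ht
  apply Nat.dvd_antisymm
  · have h1 : orderOf (ζ (t ^ u)) ∣ 2 ^ e := orderOf_dvd_of_pow_eq_one hye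
    have h2 : orderOf (ζ (t ^ u)) ∣ N := by
      obtain ⟨j, hj⟩ := hs (t ^ u)
      apply orderOf_dvd_of_pow_eq_one
      rw [hj, ← pow_mul, mul_comm, pow_mul, ← hsN, pow_orderOf_eq_one, one_pow]
    rw [hb] at h2
    refine Nat.Coprime.dvd_of_dvd_mul_right ?_ h2
    refine Nat.Coprime.coprime_dvd_left h1 ?_
    exact Nat.Coprime.pow_left _ (Nat.coprime_two_left.mpr hb2)
  · obtain ⟨j, z, r, hr, hz, hj⟩ := h s
    have h1 : ζ s ^ (r * m * b) = ζ (t ^ u) ^ (m * (j * r * b)) := by
      rw [pow_mul (ζ (t ^ u)), hym, ← pow_mul, hj, mul_pow, show r * m * b = r * (m * b) by ring,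
        pow_mul z, hz, one_pow, mul_one, ← pow_mul]
      congr 1
      ring
    have h2 : orderOf (ζ s ^ (r * m * b)) = 2 ^ a := by
      have h3 : orderOf (ζ s ^ (r * m * b)) = orderOf (ζ s) / Nat.gcd (orderOf (ζ s)) (r * m * b) :=
        IsOfFinOrder.orderOf_pow _ _ (orderOf_pos_iff.mp (hsN ▸ hN))
      have h4 : Nat.gcd (2 ^ a * b) (r * m * b) = b := by
        rw [Nat.gcd_mul_right]
        have h5 : Nat.gcd (2 ^ a) (r * m) = 1 :=
          Nat.Coprime.pow_left _ (Nat.coprime_two_left.mpr (hr.mul hm))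
        rw [h5, one_mul]
      rw [h3, hsN, hb, h4]
      exact Nat.mul_div_cancel _ (Nat.pos_of_ne_zero fun h5 => by rw [h5, mul_zero] at hb; omega)
    rw [← h2, h1]
    exact orderOf_pow_dvd _

theorem relIndex_layer {R : ℕ → Subgroup J} {θ : J →* k} {η : ℕ → J → k} (h : Fil R θ η) {i : ℕ}
    (hi : 1 ≤ i) : ∃ a, (R (i + 1)).relIndex (R i) = Nat.card (Set.range (θ ^ i)) * a + 1 := by
  classical
  have hc := relIndex_eq h hi
  set U : Subgroup kˣ := (θ ^ i).toHomUnits.range with hU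
  let T : Type _ := {x : k // (Multiplicative.ofAdd x) ∈ (lay h hi).range ∧ x ≠ 0}
  have hst : ∀ (u : U) (x : T), Multiplicative.ofAdd (((u : kˣ) : k) * x.1) ∈ (lay h hi).range ∧
      ((u : kˣ) : k) * x.1 ≠ 0 := by
    rintro ⟨_, ⟨s, rfl⟩⟩ ⟨x, ⟨g, hg⟩, hx⟩
    refine ⟨⟨⟨s * g * s⁻¹, h.conj_mem i hi s g g.2⟩, ?_⟩, mul_ne_zero (Units.ne_zero _) hx⟩
    show Multiplicative.ofAdd (η i (s * g * s⁻¹)) = _
    rw [h.conj i hi s g g.2]
    have hg' : η i g = x := hg
    rw [hg']
    rfl
  let act : MulAction U T :=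
    { smul := fun u x => ⟨((u : kˣ) : k) * x.1, hst u x⟩
      one_smul := fun x => Subtype.ext (by
        show (((1 : U) : kˣ) : k) * x.1 = x.1
        simp)
      mul_smul := fun u v x => Subtype.ext (by
        show (((u * v : U) : kˣ) : k) * x.1 = ((u : kˣ) : k) * (((v : kˣ) : k) * x.1)
        simp [mul_assoc]) }
  have hfin : Finite T := Subtype.finite
  have hfinU : Finite U := Subtype.finite
  letI : Fintype T := Fintype.ofFinite T
  letI : Fintype U := Fintype.ofFinite U
  have hstab : ∀ x : T, MulAction.stabilizer U x = ⊥ := by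
    intro x
    rw [eq_bot_iff]
    intro u hu
    have h1 : ((u : kˣ) : k) * x.1 = x.1 := congrArg Subtype.val hu
    have h2 : ((u : kˣ) : k) = 1 := mul_right_cancel₀ x.2.2 (h1.trans (one_mul _).symm)
    rw [Subgroup.mem_bot]
    exact Subtype.ext (Units.ext h2)
  have h3 := MulAction.card_eq_sum_card_group_div_card_stabilizer U T
  have h4 : ∀ ω : Quotient (MulAction.orbitRel U T),
      Fintype.card U / Fintype.card (MulAction.stabilizer U ω.out) = Fintype.card U := by
    intro ω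
    have h5 : Fintype.card (MulAction.stabilizer U ω.out) = 1 := by
      rw [← Nat.card_eq_fintype_card, hstab, Subgroup.card_bot]
    rw [h5, Nat.div_one]
  rw [Finset.sum_congr rfl fun ω _ => h4 ω, Finset.sum_const, smul_eq_mul] at h3
  have h6 : Fintype.card U = Nat.card (Set.range (θ ^ i)) := by
    rw [card_units, Nat.card_eq_fintype_card]
  refine ⟨(Finset.univ : Finset (Quotient (MulAction.orbitRel U T))).card, ?_⟩
  rw [hc, ← h6, mul_comm, ← h3]
  let E : Option T ≃ (lay h hi).range :=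
    { toFun := fun o => o.elim 1 fun x => ⟨Multiplicative.ofAdd x.1, x.2.1⟩
      invFun := fun y => if hy : y = 1 then none else some ⟨y.1.toAdd, y.2, fun h0 => hy (Subtype.ext h0)⟩
      left_inv := by
        rintro (_ | x)
        · simp
        · have h7 : (⟨Multiplicative.ofAdd x.1, x.2.1⟩ : (lay h hi).range) ≠ 1 := by
            intro h8
            exact x.2.2 (congrArg Subtype.val h8)
          simp only [Option.elim_some]
          rw [dif_neg h7]
          rfl
      right_inv := by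
        intro y
        by_cases hy : y = 1
        · simp [hy]
        · simp only [dif_neg hy, Option.elim_some]
          rfl }
  rw [← Nat.card_congr E, Finite.card_option, Nat.card_eq_fintype_card]

theorem odd_relIndex {R : ℕ → Subgroup J} {θ : J →* k} {η : ℕ → J → k} (h : Fil R θ η) {l : ℕ} [CharP k l]
    (hl : l.Prime) (h2 : l ≠ 2) {i : ℕ} (hi : 1 ≤ i) : Odd ((R (i + 1)).relIndex (R i)) := by
  rw [relIndex_eq h hi]
  have h1 : Nat.card (lay h hi).range ∣ Nat.card (Multiplicative k) := Subgroup.card_subgroup_dvd_card _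
  letI : Fintype k := Fintype.ofFinite k
  obtain ⟨n, _, hn⟩ := FiniteField.card k l
  have h3 : Nat.card (Multiplicative k) = l ^ (n : ℕ) := by
    rw [← hn, ← Nat.card_eq_fintype_card]
    rfl
  rw [h3] at h1
  exact Odd.of_dvd_nat ((hl.odd_of_ne_two h2).pow) h1

end Pool.Agent.Work.MP_787500_nt.AR
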