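import Mathlib
import Pool.Agent.Work.MP_787500_nt.AR.Defs

/-!
# AR/DecL (size S): dimensions in a decomposition

* `Dec.finrank_eq`: for a subspace `S` stable under the projections, `S ≃ Π i, S ⊓ W i` by `v ↦ (e i v)`, inverse the sum
  (`Module.finrank_pi_fintype`).
* `Dec.finrank_top`: the case `S = ⊤`.
* `Dec.perm`: `x v = ∑ x (e i v)`, with `x (e i v)` in `W (σ i)`; apply `e (σ i)`.
* `finrank_fx_res`, `finrank_fxs_res`: `fx (resE ρ X hX g)` is the preimage of `fx (ρ g)` in `X` (`Submodule.comap`, `Submodule.finrank_map_subtype_eq`, ..).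
-/

set_option autoImplicit false
set_option linter.unusedSectionVars false

namespace Pool.Agent.Work.MP_787500_nt.AR

open Module

variable {F V : Type*} [Field F] [AddCommGroup V] [Module F V] {Ω : Type*} [Fintype Ω] {W : Ω → Submodule F V}
  {e : Ω → End F V}

theorem Dec.finrank_eq [FiniteDimensional F V] (h : Dec W e) {S : Submodule F V}
    (hS : ∀ i, ∀ v ∈ S, e i v ∈ S) : finrank F S = ∑ i, finrank F (S ⊓ W i : Submodule F V) := by
  let E : S ≃ₗ[F] (∀ i, (S ⊓ W i : Submodule F V)) :=
    { toFun := fun v i => ⟨e i v, hS i v v.2, h.mem i v⟩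
      invFun := fun f => ⟨∑ i, (f i : V), S.sum_mem fun i _ => (f i).2.1⟩
      map_add' := fun u v => by
        funext i
        apply Subtype.ext
        simp
      map_smul' := fun a v => by
        funext i
        apply Subtype.ext
        simp
      left_inv := fun v => Subtype.ext (h.sum v)
      right_inv := fun f => by
        funext j
        apply Subtype.ext
        show e j (∑ i, (f i : V)) = f j
        rw [map_sum, Finset.sum_eq_single j]
        · exact h.eq j _ (f j).2.2
        · intro i _ hij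
          exact h.ne j i (Ne.symm hij) _ (f i).2.2
        · intro hj
          exact absurd (Finset.mem_univ j) hj }
  rw [E.finrank_eq, Module.finrank_pi_fintype]

theorem Dec.finrank_top [FiniteDimensional F V] (h : Dec W e) : finrank F V = ∑ i, finrank F (W i) := by
  have h1 := h.finrank_eq (S := (⊤ : Submodule F V)) (fun i v _ => Submodule.mem_top)
  rw [_root_.finrank_top] at h1
  rw [h1]
  refine Finset.sum_congr rfl fun i _ => ?_
  rw [top_inf_eq]

theorem Dec.perm (h : Dec W e) {x : End F V} {σ : Ω → Ω} (hσ : Function.Injective σ)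
    (hx : ∀ i, ∀ v ∈ W i, x v ∈ W (σ i)) (i : Ω) (v : V) : e (σ i) (x v) = x (e i v) := by
  have h1 : x v = ∑ j, x (e j v) := by
    rw [← map_sum, h.sum v]
  rw [h1, map_sum, Finset.sum_eq_single i]
  · exact h.eq _ _ (hx i _ (h.mem i v))
  · intro j _ hji
    exact h.ne _ _ (fun hh => hji (hσ hh).symm) _ (hx j _ (h.mem j v))
  · intro hi
    exact absurd (Finset.mem_univ i) hi

section res

variable {J : Type*} [Group J] {ρ : J →* End F V} {X : Submodule F V} {hX : ∀ g, ∀ v ∈ X, ρ g v ∈ X}

theorem finrank_fx_res (g : J) : finrank F (fx (resE ρ X hX g)) = finrank F (X ⊓ fx (ρ g) : Submodule F V) := by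
  have h1 : (fx (resE ρ X hX g)).map X.subtype = X ⊓ fx (ρ g) := by
    ext v
    constructor
    · rintro ⟨w, hw, rfl⟩
      exact ⟨w.2, congrArg Subtype.val (show resE ρ X hX g w = w from hw)⟩
    · rintro ⟨hv, hv2⟩
      exact ⟨⟨v, hv⟩, Subtype.ext hv2, rfl⟩
  rw [← h1, Submodule.finrank_map_subtype_eq]

theorem finrank_fxs_res {ι : Type*} (f : ι → J) :
    finrank F (fxs fun i => resE ρ X hX (f i)) = finrank F (X ⊓ fxs (fun i => ρ (f i)) : Submodule F V) := by
  have h1 : (fxs fun i => resE ρ X hX (f i)).map X.subtype = X ⊓ fxs (fun i => ρ (f i)) := by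
    ext v
    constructor
    · rintro ⟨w, hw, rfl⟩
      exact ⟨w.2, fun i => congrArg Subtype.val (show resE ρ X hX (f i) w = w from hw i)⟩
    · rintro ⟨hv, hv2⟩
      exact ⟨⟨v, hv⟩, fun i => Subtype.ext (hv2 i), rfl⟩
  rw [← h1, Submodule.finrank_map_subtype_eq]

theorem finrank_both_res (g : J) {ι : Type*} (f : ι → J) :
    finrank F (fx (resE ρ X hX g) ⊓ fxs (fun i => resE ρ X hX (f i)) : Submodule F X) =
      finrank F (X ⊓ (fx (ρ g) ⊓ fxs (fun i => ρ (f i))) : Submodule F V) := by
  have h1 : (fx (resE ρ X hX g) ⊓ fxs (fun i => resE ρ X hX (f i)) : Submodule F X).map X.subtype =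
      X ⊓ (fx (ρ g) ⊓ fxs (fun i => ρ (f i))) := by
    ext v
    constructor
    · rintro ⟨w, ⟨hw1, hw2⟩, rfl⟩
      exact ⟨w.2, congrArg Subtype.val (show resE ρ X hX g w = w from hw1),
        fun i => congrArg Subtype.val (show resE ρ X hX (f i) w = w from hw2 i)⟩
    · rintro ⟨hv, hv1, hv2⟩
      exact ⟨⟨v, hv⟩, ⟨Subtype.ext hv1, fun i => Subtype.ext (hv2 i)⟩, rfl⟩
  rw [← h1, Submodule.finrank_map_subtype_eq]

end res

end Pool.Agent.Work.MP_787500_nt.AR
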