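import Mathlib
import Pool.Agent.Work.MP_787500_nt.AR.Defs

/-!
# AR/Orb (size S): orbits of a permutation

* `exists_orb`: representatives of the orbits (all of length `q`) in `S`. E.g. by strong induction on `S.card`: remove the orbit of an element.
  Or take the quotient of `S` by the orbit relation `σ.SameCycle` and `Quotient.out`.
* `Orb.sum`: the sum over `S`, `Finset.sum_bij'` or `Finset.sum_nbij` with the map `(j, t) ↦ σ ^ j t` from `range q ×ˢ T`.
* `Orb.sum_inv`: the case that `f` is constant on the orbits.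
* `even_inv`: a fixed point free involution of `S`; `Finset.sum_involution` in `ZMod 2`.
-/

set_option autoImplicit false
set_option linter.unusedSectionVars false

namespace Pool.Agent.Work.MP_787500_nt.AR

open Module

variable {Ω : Type*}

theorem exists_orb [Fintype Ω] (σ : Equiv.Perm Ω) {q : ℕ} (hq : 0 < q) {S : Finset Ω}
    (hS : ∀ i ∈ S, σ i ∈ S) (h1 : ∀ i ∈ S, (σ ^ q) i = i)
    (h2 : ∀ i ∈ S, ∀ j, 0 < j → j < q → (σ ^ j) i ≠ i) : ∃ T : Finset Ω, Orb σ q S T := by
  classical
  induction S using Finset.strongInduction with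
  | H S ih =>
    rcases S.eq_empty_or_nonempty with rfl | ⟨i, hi⟩
    · exact ⟨∅, fun _ t ht => absurd ht (Finset.notMem_empty t),
        fun i hi => absurd hi (Finset.notMem_empty i),
        fun _ _ _ _ t ht => absurd ht (Finset.notMem_empty t), fun i hi =>
        absurd hi (Finset.notMem_empty i)⟩
    · have hpow : ∀ x ∈ S, ∀ j : ℕ, (σ ^ j) x ∈ S := by
        intro x hx j
        induction j with
        | zero => simpa using hx
        | succ j ihj =>
          rw [pow_succ', Equiv.Perm.mul_apply]
          exact hS _ ihj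
      have hper : ∀ x ∈ S, ∀ k : ℕ, (σ ^ (q * k)) x = x := by
        intro x hx k
        induction k with
        | zero => simp
        | succ k ihk =>
          rw [Nat.mul_succ, pow_add, Equiv.Perm.mul_apply, h1 x hx, ihk]
      obtain ⟨O, hO⟩ : ∃ O : Finset Ω, O = (Finset.range q).image (fun j => (σ ^ j) i) := ⟨_, rfl⟩
      have hOm : ∀ x, x ∈ O ↔ ∃ j < q, (σ ^ j) i = x := by
        intro x
        rw [hO, Finset.mem_image]
        simp only [Finset.mem_range]
      have hOall : ∀ j : ℕ, (σ ^ j) i ∈ O := by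
        intro j
        rw [hOm]
        refine ⟨j % q, Nat.mod_lt _ hq, ?_⟩
        conv_rhs => rw [← Nat.mod_add_div j q]
        rw [pow_add, Equiv.Perm.mul_apply, hper i hi]
      have hback : ∀ x, σ x ∈ O → x ∈ O := by
        intro x hx
        obtain ⟨j, hj, hjx⟩ := (hOm _).1 hx
        have h3 : x = (σ ^ (j + q - 1)) i := by
          apply σ.injective
          rw [← Equiv.Perm.mul_apply, ← pow_succ', ← hjx]
          have h4 : j + q - 1 + 1 = j + q := by omega
          rw [h4, pow_add, Equiv.Perm.mul_apply, h1 i hi]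
        rw [h3]
        exact hOall _
      have hiO : i ∈ O := by simpa using hOall 0
      have hss : S \ O ⊂ S := by
        refine Finset.ssubset_iff_subset_ne.2 ⟨Finset.sdiff_subset, fun h => ?_⟩
        have h3 : i ∈ S \ O := by
          rw [h]
          exact hi
        exact (Finset.mem_sdiff.1 h3).2 hiO
      obtain ⟨T, hT⟩ := ih (S \ O) hss
        (fun x hx => Finset.mem_sdiff.2 ⟨hS x (Finset.mem_sdiff.1 hx).1, fun h =>
          (Finset.mem_sdiff.1 hx).2 (hback x h)⟩)
        (fun x hx => h1 x (Finset.mem_sdiff.1 hx).1)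
        (fun x hx => h2 x (Finset.mem_sdiff.1 hx).1)
      refine ⟨insert i T, ?_, ?_, ?_, h1⟩
      · intro j t ht
        rcases Finset.mem_insert.1 ht with rfl | ht
        · exact hpow _ hi j
        · exact (Finset.mem_sdiff.1 (hT.sub j t ht)).1
      · intro x hx
        by_cases hxO : x ∈ O
        · obtain ⟨j, hj, hjx⟩ := (hOm _).1 hxO
          exact ⟨j, hj, i, Finset.mem_insert_self _ _, hjx⟩
        · obtain ⟨j, hj, t, ht, h⟩ := hT.ex x (Finset.mem_sdiff.2 ⟨hx, hxO⟩)
          exact ⟨j, hj, t, Finset.mem_insert_of_mem ht, h⟩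
      · have key : ∀ j < q, ∀ j' < q, (σ ^ j) i = (σ ^ j') i → j ≤ j' → j = j' := by
          intro j hj j' hj' h hle
          by_contra hne
          refine h2 i hi (j' - j) (by omega) (by omega) ?_
          apply (σ ^ j).injective
          rw [← Equiv.Perm.mul_apply, ← pow_add, h]
          congr 2
          omega
        intro j hj j' hj' t ht t' ht' h
        rcases Finset.mem_insert.1 ht with rfl | ht2
        · rcases Finset.mem_insert.1 ht' with rfl | ht2'
          · refine ⟨?_, rfl⟩
            rcases le_total j j' with hle | hle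
            · exact key j hj j' hj' h hle
            · exact (key j' hj' j hj h.symm hle).symm
          · exact absurd (by rw [← h]; exact hOall j)
              (Finset.mem_sdiff.1 (hT.sub j' t' ht2')).2
        · rcases Finset.mem_insert.1 ht' with rfl | ht2'
          · exact absurd (by rw [h]; exact hOall j')
              (Finset.mem_sdiff.1 (hT.sub j t ht2)).2
          · exact hT.inj j hj j' hj' t ht2 t' ht2' h

theorem Orb.sum {σ : Equiv.Perm Ω} {q : ℕ} {S T : Finset Ω} (h : Orb σ q S T) {M : Type*} [AddCommMonoid M]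
    (f : Ω → M) : ∑ i ∈ S, f i = ∑ j ∈ Finset.range q, ∑ t ∈ T, f ((σ ^ j) t) := by
  rw [← Finset.sum_product']
  symm
  refine Finset.sum_bij (fun p _ => (σ ^ p.1) p.2) ?_ ?_ ?_ ?_
  · intro p hp
    exact h.sub _ _ (Finset.mem_product.1 hp).2
  · intro p hp p' hp' he
    have h1 := Finset.mem_product.1 hp
    have h2 := Finset.mem_product.1 hp'
    obtain ⟨h3, h4⟩ := h.inj p.1 (Finset.mem_range.1 h1.1) p'.1 (Finset.mem_range.1 h2.1) p.2 h1.2
      p'.2 h2.2 he
    exact Prod.ext h3 h4
  · intro i hi
    obtain ⟨j, hj, t, ht, he⟩ := h.ex i hi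
    exact ⟨(j, t), Finset.mem_product.2 ⟨Finset.mem_range.2 hj, ht⟩, he⟩
  · intro p _
    rfl

theorem Orb.sum_inv {σ : Equiv.Perm Ω} {q : ℕ} {S T : Finset Ω} (h : Orb σ q S T) {f : Ω → ℕ}
    (hf : ∀ i, f (σ i) = f i) : ∑ i ∈ S, f i = q * ∑ t ∈ T, f t := by
  have hf' : ∀ (j : ℕ) (t : Ω), f ((σ ^ j) t) = f t := by
    intro j t
    induction j with
    | zero => simp
    | succ j ih => rw [pow_succ', Equiv.Perm.mul_apply, hf, ih]
  rw [h.sum f]
  simp only [hf', Finset.sum_const, Finset.card_range, smul_eq_mul]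

theorem even_inv {S : Finset Ω} (inv : Ω → Ω) (h1 : ∀ i ∈ S, inv i ∈ S) (h2 : ∀ i ∈ S, inv (inv i) = i)
    (h3 : ∀ i ∈ S, inv i ≠ i) {f : Ω → ℕ} (hf : ∀ i ∈ S, f (inv i) = f i) : Even (∑ i ∈ S, f i) := by
  classical
  have h : ((∑ i ∈ S, f i : ℕ) : ZMod 2) = 0 := by
    rw [Nat.cast_sum]
    refine Finset.sum_involution (fun i _ => inv i) ?_ ?_ ?_ ?_
    · intro i hi
      rw [hf i hi, ← two_mul]
      have h2 : (2 : ZMod 2) = 0 := by decide
      rw [h2, zero_mul]
    · intro i hi _
      exact h3 i hi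
    · intro i hi
      exact h1 i hi
    · intro i hi
      exact h2 i hi
  rw [ZMod.natCast_eq_zero_iff] at h
  exact even_iff_two_dvd.2 h

end Pool.Agent.Work.MP_787500_nt.AR
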