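import Mathlib
import Pool.Agent.Work.MP_787500_nt.AR.Orb
import Pool.Agent.Work.MP_787500_nt.AR.DecL

/-!
# AR/OrbFx (size S/M): the fixed vectors of an endomorphism that permutes the summands

`x` maps `W i` to `W (σ i)`. A vector `v` is fixed by `x` if and only if `e (σ i) v = x (e i v)` for all `i` (`Dec.perm`). So a fixed vector is
given by its components at the elements outside `S` (fixed by `x`, since `σ i = i`) and at the elements `t` of `T` (fixed by `x ^ q`), and the
component at `σ ^ j t` is `x ^ j` applied to the component at `t`. Conversely `∑ j < q, x ^ j v` is fixed by `x` if `v` is fixed by `x ^ q`.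
E.g.: `fx x` is the direct sum of `fx x ⊓ W i` for `i` outside `S` and the images of `W t ⊓ fx (x ^ q)` under `∑ j < q, x ^ j`.
-/

set_option autoImplicit false
set_option linter.unusedSectionVars false

namespace Pool.Agent.Work.MP_787500_nt.AR

open Module

variable {F V : Type*} [Field F] [AddCommGroup V] [Module F V] {Ω : Type*} [Fintype Ω] [DecidableEq Ω]
  {W : Ω → Submodule F V} {e : Ω → End F V}

private theorem mem_pow {x : End F V} {σ : Equiv.Perm Ω} (hx : ∀ i, ∀ v ∈ W i, x v ∈ W (σ i))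
    (j : ℕ) (i : Ω) (v : V) (hv : v ∈ W i) : (x ^ j) v ∈ W ((σ ^ j) i) := by
  induction j with
  | zero => simpa using hv
  | succ j ih =>
    rw [pow_succ', pow_succ', Module.End.mul_apply, Equiv.Perm.mul_apply]
    exact hx _ _ ih

private theorem perm_pow (h : Dec W e) {x : End F V} {σ : Equiv.Perm Ω}
    (hx : ∀ i, ∀ v ∈ W i, x v ∈ W (σ i)) (j : ℕ) (i : Ω) (v : V) :
    e ((σ ^ j) i) ((x ^ j) v) = (x ^ j) (e i v) :=
  h.perm (x := x ^ j) (σ := fun i => (σ ^ j) i) (σ ^ j).injective
    (fun i v hv => mem_pow hx j i v hv) i v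

private theorem fx_pow {x : End F V} {v : V} (hv : v ∈ fx x) (j : ℕ) : (x ^ j) v = v := by
  induction j with
  | zero => simp
  | succ j ih =>
    rw [pow_succ', Module.End.mul_apply, ih]
    exact hv

theorem finrank_fx_orb [FiniteDimensional F V] (h : Dec W e) {x : End F V} {σ : Equiv.Perm Ω}
    (hx : ∀ i, ∀ v ∈ W i, x v ∈ W (σ i)) {q : ℕ} {S T : Finset Ω} (ho : Orb σ q S T)
    (hS : ∀ i, i ∉ S → σ i = i) :
    finrank F (fx x) = ∑ i ∈ Sᶜ, finrank F (W i ⊓ fx x : Submodule F V) +
      ∑ t ∈ T, finrank F (W t ⊓ fx (x ^ q) : Submodule F V) := by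
  have hTS : ∀ t ∈ T, t ∈ S := fun t ht => by
    have h1 := ho.sub 0 t ht
    rwa [pow_zero] at h1
  have hq : ∀ t ∈ T, 0 < q := fun t ht => by
    obtain ⟨j, hj, -⟩ := ho.ex t (hTS t ht)
    omega
  have hm1 : ∀ v ∈ fx x, ∀ i ∉ S, e i v ∈ W i ⊓ fx x := fun v hv i hi => by
    refine ⟨h.mem i v, ?_⟩
    have h1 := perm_pow h hx 1 i v
    rw [pow_one, pow_one, hS i hi, show x v = v from hv] at h1
    exact h1.symm
  have hm2 : ∀ v ∈ fx x, ∀ t ∈ T, e t v ∈ W t ⊓ fx (x ^ q) := fun v hv t ht => by
    refine ⟨h.mem t v, ?_⟩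
    have h1 := perm_pow h hx q t v
    rw [ho.per t (hTS t ht), fx_pow hv q] at h1
    exact h1.symm
  let Φ : fx x →ₗ[F] ((i : {i // i ∈ Sᶜ}) → (W i.1 ⊓ fx x : Submodule F V)) ×
      ((t : {t // t ∈ T}) → (W t.1 ⊓ fx (x ^ q) : Submodule F V)) :=
    { toFun := fun v => (fun i => ⟨e i.1 v.1, hm1 v.1 v.2 i.1 (Finset.mem_compl.1 i.2)⟩,
        fun t => ⟨e t.1 v.1, hm2 v.1 v.2 t.1 t.2⟩)
      map_add' := fun u v => by
        refine Prod.ext (funext fun i => Subtype.ext ?_) (funext fun t => Subtype.ext ?_)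
        · exact map_add (e i.1) u.1 v.1
        · exact map_add (e t.1) u.1 v.1
      map_smul' := fun c v => by
        refine Prod.ext (funext fun i => Subtype.ext ?_) (funext fun t => Subtype.ext ?_)
        · exact map_smul (e i.1) c v.1
        · exact map_smul (e t.1) c v.1 }
  have hΦ1 : ∀ (v : fx x) (i : {i // i ∈ Sᶜ}), ((Φ v).1 i : V) = e i.1 v.1 := fun v i => rfl
  have hΦ2 : ∀ (v : fx x) (t : {t // t ∈ T}), ((Φ v).2 t : V) = e t.1 v.1 := fun v t => rfl
  have hinj : Function.Injective Φ := by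
    rw [injective_iff_map_eq_zero]
    intro v hv
    have h0 : ∀ i, e i v.1 = 0 := by
      intro i
      by_cases hi : i ∈ S
      · obtain ⟨j, -, t, ht, rfl⟩ := ho.ex i hi
        have h1 := perm_pow h hx j t v.1
        rw [fx_pow v.2 j] at h1
        rw [h1, ← hΦ2 v ⟨t, ht⟩, hv]
        simp
      · rw [← hΦ1 v ⟨i, Finset.mem_compl.2 hi⟩, hv]
        rfl
    refine Subtype.ext ?_
    rw [← h.sum v.1]
    exact Finset.sum_eq_zero fun i _ => h0 i
  have hsurj : Function.Surjective Φ := by
    rintro ⟨u, w⟩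
    set v : V := ∑ i : {i // i ∈ Sᶜ}, (u i : V) +
      ∑ t : {t // t ∈ T}, ∑ j ∈ Finset.range q, (x ^ j) (w t : V) with hv
    have hxv : x v = v := by
      rw [hv, map_add, map_sum, map_sum]
      congr 1
      · exact Finset.sum_congr rfl fun i _ => (u i).2.2
      · refine Finset.sum_congr rfl fun t _ => ?_
        rw [map_sum]
        have h1 : ∀ j, x ((x ^ j) (w t : V)) = (x ^ (j + 1)) (w t : V) := fun j => by
          rw [pow_succ', Module.End.mul_apply]
        simp only [h1]
        have h2 := Finset.sum_range_succ (fun j => (x ^ j) (w t : V)) q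
        have h3 := Finset.sum_range_succ' (fun j => (x ^ j) (w t : V)) q
        have h4 : (x ^ q) (w t : V) = w t := (w t).2.2
        have h5 : (x ^ 0) (w t : V) = w t := by simp
        rw [h3, h4, h5] at h2
        exact add_right_cancel h2
    have he : ∀ k, e k v = ∑ i : {i // i ∈ Sᶜ}, e k (u i : V) +
        ∑ t : {t // t ∈ T}, ∑ j ∈ Finset.range q, e k ((x ^ j) (w t : V)) := by
      intro k
      rw [hv, map_add, map_sum, map_sum]
      simp only [map_sum]
    refine ⟨⟨v, hxv⟩, Prod.ext (funext fun i => Subtype.ext ?_)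
      (funext fun t => Subtype.ext ?_)⟩
    · show e i.1 v = (u i : V)
      have hi := Finset.mem_compl.1 i.2
      rw [he, Finset.sum_eq_single i, h.eq i.1 _ (u i).2.1, Finset.sum_eq_zero, add_zero]
      · intro t _
        refine Finset.sum_eq_zero fun j _ => ?_
        refine h.ne i.1 ((σ ^ j) t.1) ?_ _ (mem_pow hx j t.1 _ (w t).2.1)
        intro h1
        exact hi (h1 ▸ ho.sub j t.1 t.2)
      · intro k _ hk
        exact h.ne i.1 k.1 (fun h1 => hk (Subtype.ext h1.symm)) _ (u k).2.1
      · intro h1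
        exact absurd (Finset.mem_univ _) h1
    · show e t.1 v = (w t : V)
      have ht := hTS t.1 t.2
      have hq0 := hq t.1 t.2
      rw [he, Finset.sum_eq_zero, zero_add, Finset.sum_eq_single t, Finset.sum_eq_single 0]
      · rw [pow_zero, Module.End.one_apply]
        exact h.eq t.1 _ (w t).2.1
      · intro j hj hj0
        refine h.ne t.1 ((σ ^ j) t.1) ?_ _ (mem_pow hx j t.1 _ (w t).2.1)
        intro h1
        have h2 := ho.inj j (Finset.mem_range.1 hj) 0 hq0 t.1 t.2 t.1 t.2 (by
          rw [pow_zero, Equiv.Perm.one_apply]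
          exact h1.symm)
        exact hj0 h2.1
      · intro h1
        exact absurd (Finset.mem_range.2 hq0) h1
      · intro k _ hk
        refine Finset.sum_eq_zero fun j hj => ?_
        refine h.ne t.1 ((σ ^ j) k.1) ?_ _ (mem_pow hx j k.1 _ (w k).2.1)
        intro h1
        have h2 := ho.inj j (Finset.mem_range.1 hj) 0 hq0 k.1 k.2 t.1 t.2 (by
          rw [pow_zero, Equiv.Perm.one_apply]
          exact h1.symm)
        exact hk (Subtype.ext h2.2)
      · intro h1
        exact absurd (Finset.mem_univ _) h1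
      · intro i _
        refine h.ne t.1 i.1 ?_ _ (u i).2.1
        intro h1
        exact (Finset.mem_compl.1 i.2) (h1 ▸ ht)
  have h1 := (LinearEquiv.ofBijective Φ ⟨hinj, hsurj⟩).finrank_eq
  rw [Module.finrank_prod, Module.finrank_pi_fintype, Module.finrank_pi_fintype] at h1
  rw [h1, Finset.sum_coe_sort Sᶜ (fun i => finrank F (W i ⊓ fx x : Submodule F V)),
    Finset.sum_coe_sort T (fun t => finrank F (W t ⊓ fx (x ^ q) : Submodule F V))]

end Pool.Agent.Work.MP_787500_nt.AR
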