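import Mathlib
import Pool.Agent.Work.MP_787500_nt.AR.Defs
import Pool.Agent.Work.MP_787500_nt.KS.Lin

/-!
# AR/Form (size M): alternating forms in characteristic 2

* `IsSy.comm`: `B u v = B v u`.
* `alt_even`: the kernel of an alternating form has the parity of the dimension (see KI/CondL `IsAl.even`, GP or KT for nondegenerate forms; the form
  on the quotient by its kernel is nondegenerate).
* `IsSy.even`: the dimension is even.
* `even_asym`: `z` maps `X` to `Y` and `Y` to `X`, and `B` is a perfect pairing of `X` and `Y`. The form `C u v = B u (z v) + B v (z u)` on `X` is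
  alternating (`C u u = 0` in characteristic 2), and its kernel is `X ⊓ fx (z * z)`: for `v ∈ X` take `v' ∈ Y` with `z v' = v` (`z` is an isometry of a
  nondegenerate form, so it is bijective, and `z : Y → X` is bijective by dimensions); `B v (z u) = B (z v') (z u) = B v' u = B u v'`, so `C u v = B u (z v - v')` and
  `v` is in the kernel if and only if `z v = v'`, if and only if `z (z v) = v`.
* `pair_dim`: `B` is a perfect pairing of `X` and `Y`, both stable under the isometry `x`. The annihilator in `Y` of `(x - 1) X` is `Y ⊓ fx x`, so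
  `dim (Y ⊓ fx x) = dim Y - dim (x - 1) X = dim X - dim (x - 1) X = dim (X ⊓ fx x)`. (E.g. `Y ≃ Dual X` and `LinearMap.finrank_range_dualMap_eq_finrank_range`.)
-/

set_option autoImplicit false
set_option linter.unusedSectionVars false

namespace Pool.Agent.Work.MP_787500_nt.AR

open Module

variable {F V : Type*} [Field F] [AddCommGroup V] [Module F V] {B : V →ₗ[F] V →ₗ[F] F}

theorem IsSy.comm [CharP F 2] (hB : IsSy B) (u v : V) : B u v = B v u := by
  have h := hB.alt (u + v)
  simp only [map_add, LinearMap.add_apply, hB.alt, zero_add, add_zero] at h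
  rw [add_comm] at h
  exact CharTwo.add_eq_zero.1 h

/-- the kernel of an alternating form has the parity of the dimension -/
theorem alt_even [FiniteDimensional F V] (hB : ∀ v, B v v = 0) {K : Submodule F V}
    (hK : ∀ v, v ∈ K ↔ ∀ w, B v w = 0) : Even (finrank F V + finrank F K) := by
  have hK' : K = LinearMap.ker B := by
    ext v
    rw [hK, LinearMap.mem_ker]
    constructor
    · intro h
      exact LinearMap.ext h
    · intro h w
      rw [h, LinearMap.zero_apply]
  obtain ⟨m, hm⟩ := KS.alt_even B hB
  rw [hK', hm]
  exact ⟨finrank F (LinearMap.ker B) + m, by ring⟩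

theorem IsSy.even [FiniteDimensional F V] (hB : IsSy B) : Even (finrank F V) := by
  have h := alt_even (K := (⊥ : Submodule F V)) hB.alt (fun v => by
    rw [Submodule.mem_bot]
    constructor
    · rintro rfl w
      rw [map_zero, LinearMap.zero_apply]
    · exact hB.nd v)
  rwa [finrank_bot, add_zero] at h

private theorem isom_inj (hB : IsSy B) {z : End F V} (hz : ∀ u v, B (z u) (z v) = B u v) {u v : V}
    (h : z u = z v) : u = v := by
  refine sub_eq_zero.1 (hB.nd _ fun w => ?_)
  rw [← hz, map_sub, h, sub_self, map_zero, LinearMap.zero_apply]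

private theorem finrank_comap_sub [FiniteDimensional F V] (X W : Submodule F V) :
    finrank F (Submodule.comap X.subtype W) = finrank F (X ⊓ W : Submodule F V) := by
  rw [← Submodule.map_comap_subtype]
  exact (LinearEquiv.finrank_eq
    (Submodule.equivMapOfInjective X.subtype X.injective_subtype (Submodule.comap X.subtype W)))

theorem even_asym [CharP F 2] [FiniteDimensional F V] (hB : IsSy B) {z : End F V}
    (hz : ∀ u v, B (z u) (z v) = B u v) {X Y : Submodule F V} (hXY : ∀ v ∈ X, z v ∈ Y)
    (hYX : ∀ v ∈ Y, z v ∈ X) (h1 : ∀ u ∈ X, (∀ v ∈ Y, B u v = 0) → u = 0)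
    (h2 : ∀ v ∈ Y, (∀ u ∈ X, B u v = 0) → v = 0) :
    Even (finrank F X + finrank F (X ⊓ fx (z * z) : Submodule F V)) := by
  -- z maps Y onto X
  let zXY : X →ₗ[F] Y := z.restrict hXY
  let zYX : Y →ₗ[F] X := z.restrict hYX
  have iXY : Function.Injective zXY := fun u v h =>
    Subtype.ext (isom_inj hB hz (congrArg Subtype.val h))
  have iYX : Function.Injective zYX := fun u v h =>
    Subtype.ext (isom_inj hB hz (congrArg Subtype.val h))
  have hd : finrank F Y = finrank F X :=
    le_antisymm (LinearMap.finrank_le_finrank_of_injective iYX)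
      (LinearMap.finrank_le_finrank_of_injective iXY)
  have sYX : Function.Surjective zYX :=
    (LinearMap.injective_iff_surjective_of_finrank_eq_finrank hd).1 iYX
  let C : X →ₗ[F] X →ₗ[F] F := LinearMap.mk₂ F (fun u v : X => B u (z v) + B v (z u))
    (fun u u' v => by
      simp only [Submodule.coe_add, map_add, LinearMap.add_apply]
      ring)
    (fun c u v => by
      simp only [Submodule.coe_smul, map_smul, LinearMap.smul_apply, smul_eq_mul]
      ring)
    (fun u v v' => by
      simp only [Submodule.coe_add, map_add, LinearMap.add_apply]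
      ring)
    (fun c u v => by
      simp only [Submodule.coe_smul, map_smul, LinearMap.smul_apply, smul_eq_mul]
      ring)
  have hC : ∀ u v : X, C u v = B u (z v) + B v (z u) := fun u v => rfl
  have hCa : ∀ u : X, C u u = 0 := fun u => by
    rw [hC]
    exact CharTwo.add_self_eq_zero _
  have hCk : ∀ v : X, v ∈ Submodule.comap X.subtype (fx (z * z)) ↔ ∀ w, C v w = 0 := by
    intro v
    obtain ⟨v', hv'⟩ := sYX v
    have e1 : z v' = v := congrArg Subtype.val hv'
    have e2 : ∀ w : X, C v w = B w ((v' : V) + z v) := by
      intro w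
      rw [hC, map_add]
      have e3 : B v (z w) = B w v' := by
        rw [← e1, hz, hB.comm]
      rw [e3]
    have e4 : v ∈ Submodule.comap X.subtype (fx (z * z)) ↔ z (z v) = v := Iff.rfl
    rw [e4]
    constructor
    · intro h w
      have e5 : (v' : V) = z v := isom_inj hB hz (by rw [e1, h])
      rw [e2, e5, map_add]
      exact CharTwo.add_self_eq_zero _
    · intro h
      have e5 : (v' : V) + z v = 0 :=
        h2 _ (Y.add_mem v'.2 (hXY _ v.2)) fun u hu => by
          have e6 := h ⟨u, hu⟩
          rwa [e2] at e6
      have e6 : z v = v' := by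
        have e7 : -(v' : V) = v' := by
          have e8 : (2 : F) • (v' : V) = 0 := by rw [CharTwo.two_eq_zero, zero_smul]
          rw [two_smul] at e8
          exact neg_eq_of_add_eq_zero_left e8
        rw [← e7]
        exact eq_neg_of_add_eq_zero_right e5
      rw [e6, e1]
  have h := alt_even (B := C) hCa hCk
  rwa [finrank_comap_sub] at h

theorem pair_dim [CharP F 2] [FiniteDimensional F V] (hB : IsSy B) {x : End F V}
    (hx : ∀ u v, B (x u) (x v) = B u v) {X Y : Submodule F V} (hX : ∀ v ∈ X, x v ∈ X)
    (hY : ∀ v ∈ Y, x v ∈ Y) (h1 : ∀ u ∈ X, (∀ v ∈ Y, B u v = 0) → u = 0)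
    (h2 : ∀ v ∈ Y, (∀ u ∈ X, B u v = 0) → v = 0) :
    finrank F (X ⊓ fx x : Submodule F V) = finrank F (Y ⊓ fx x : Submodule F V) := by
  let xX : X →ₗ[F] X := x.restrict hX
  let xY : Y →ₗ[F] Y := x.restrict hY
  let P : Y →ₗ[F] Module.Dual F X := ((B.flip).domRestrict₁₂ Y X)
  let Q : X →ₗ[F] Module.Dual F Y := (B.domRestrict₁₂ X Y)
  have hP : ∀ (y : Y) (u : X), P y u = B u y := fun y u => rfl
  have hQ : ∀ (u : X) (y : Y), Q u y = B u y := fun u y => rfl
  have iP : Function.Injective P := by
    rw [injective_iff_map_eq_zero]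
    intro y hy
    refine Subtype.ext (h2 y y.2 fun u hu => ?_)
    have := LinearMap.congr_fun hy ⟨u, hu⟩
    rwa [hP] at this
  have iQ : Function.Injective Q := by
    rw [injective_iff_map_eq_zero]
    intro u hu
    refine Subtype.ext (h1 u u.2 fun y hy => ?_)
    have := LinearMap.congr_fun hu ⟨y, hy⟩
    rwa [hQ] at this
  have d1 : finrank F Y ≤ finrank F X := by
    have := LinearMap.finrank_le_finrank_of_injective iP
    rwa [Subspace.dual_finrank_eq] at this
  have d2 : finrank F X ≤ finrank F Y := by
    have := LinearMap.finrank_le_finrank_of_injective iQ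
    rwa [Subspace.dual_finrank_eq] at this
  have hd : finrank F Y = finrank F X := le_antisymm d1 d2
  have sP : Function.Surjective P :=
    (LinearMap.injective_iff_surjective_of_finrank_eq_finrank
      (by rw [Subspace.dual_finrank_eq]; exact hd)).1 iP
  have iY : Function.Injective xY := fun u v h =>
    Subtype.ext (isom_inj hB hx (congrArg Subtype.val h))
  have sY : Function.Surjective xY := LinearMap.injective_iff_surjective.1 iY
  have key : (xX - 1).dualMap ∘ₗ (P ∘ₗ xY) = -(P ∘ₗ (xY - 1)) := by
    refine LinearMap.ext fun y => LinearMap.ext fun u => ?_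
    show P (xY y) ((xX - 1) u) = -(P ((xY - 1) y) u)
    rw [hP, hP]
    show B (x u - u) (x y) = -(B u (x y - y))
    rw [map_sub, LinearMap.sub_apply, hx, map_sub]
    ring
  have sPY : Function.Surjective (P ∘ₗ xY) := by
    rw [LinearMap.coe_comp]
    exact sP.comp sY
  have r1 : finrank F (LinearMap.range ((xX - 1).dualMap ∘ₗ (P ∘ₗ xY))) =
      finrank F (LinearMap.range (xX - 1)) := by
    rw [LinearMap.range_comp_of_range_eq_top _ (LinearMap.range_eq_top.2 sPY),
      LinearMap.finrank_range_dualMap_eq_finrank_range]
  have r2 : finrank F (LinearMap.range (-(P ∘ₗ (xY - 1)))) = finrank F (LinearMap.range (xY - 1)) := by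
    rw [LinearMap.range_neg, LinearMap.range_comp]
    exact (LinearEquiv.finrank_eq (Submodule.equivMapOfInjective P iP _)).symm
  have r3 : finrank F (LinearMap.range (xX - 1)) = finrank F (LinearMap.range (xY - 1)) := by
    rw [← r1, key, r2]
  have k1 := LinearMap.finrank_range_add_finrank_ker (xX - 1)
  have k2 := LinearMap.finrank_range_add_finrank_ker (xY - 1)
  have m1 : LinearMap.ker (xX - 1) = Submodule.comap X.subtype (fx x) := by
    ext v
    rw [LinearMap.mem_ker, LinearMap.sub_apply, sub_eq_zero]
    exact Subtype.ext_iff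
  have m2 : LinearMap.ker (xY - 1) = Submodule.comap Y.subtype (fx x) := by
    ext v
    rw [LinearMap.mem_ker, LinearMap.sub_apply, sub_eq_zero]
    exact Subtype.ext_iff
  rw [m1, finrank_comap_sub] at k1
  rw [m2, finrank_comap_sub] at k2
  omega

end Pool.Agent.Work.MP_787500_nt.AR
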