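import Mathlib
import Pool.Agent.Work.MP_787500_nt.AR.Wt
import Pool.Agent.Work.MP_787500_nt.AR.Form
import Pool.Agent.Work.MP_787500_nt.AR.DecL
import Pool.Agent.Work.MP_787500_nt.AR.Orb

/-!
# AR/PairL (size M): commuting isometries of odd order do not change the parity

Weights of the family `T` (`exists_dec`, with `m` odd so `(m : F) ≠ 0`). `x` preserves every `wt T χ`. If `wt T χ ≠ ⊥` then by nondegeneracy and `wt_orth` the space
`wt T χ⁻¹` is not zero and `B` is a perfect pairing of the two (a vector of `wt T χ` orthogonal to `wt T χ⁻¹` is orthogonal to all the summands), so `pair_dim` gives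
`dim (wt T χ ⊓ fx x) = dim (wt T χ⁻¹ ⊓ fx x)`. If `χ = χ⁻¹` then `χ a ^ 2 = 1` and `χ a ^ m = 1` with `m` odd, so `χ = 1`. So the sum over the `χ ≠ 1` is even
(`even_inv`), and the part for `χ = 1` is `fx x ⊓ fxs T`. (`Dec.finrank_eq` for `S = fx x`.)
* `nd_fxs`: the form is nondegenerate on `fxs T` (here the family is only assumed to have a decomposition in weights).
-/

set_option autoImplicit false
set_option linter.unusedSectionVars false

namespace Pool.Agent.Work.MP_787500_nt.AR

open Module

variable {F V : Type*} [Field F] [AddCommGroup V] [Module F V] {B : V →ₗ[F] V →ₗ[F] F} {ι : Type*}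
  {T : ι → End F V}

theorem nd_fxs [IsAlgClosed F] [FiniteDimensional F V] (hB : IsSy B)
    (hT : ∀ a u v, B (T a u) (T a v) = B u v) (hc : ∀ a b, Commute (T a) (T b))
    (hm : ∀ a, ∃ m : ℕ, (m : F) ≠ 0 ∧ T a ^ m = 1) {v : V} (hv : v ∈ fxs T)
    (h : ∀ w ∈ fxs T, B v w = 0) : v = 0 := by
  obtain ⟨r, χ, e, -, hD, -⟩ := exists_dec hc hm
  refine hB.nd v fun w => ?_
  rw [← hD.sum w, map_sum]
  refine Finset.sum_eq_zero fun j _ => ?_
  by_contra h0
  have hv' : v ∈ wt T 1 := by
    rw [← fxs_eq_wt]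
    exact hv
  have h1 := wt_orth hT hv' (hD.mem j w) h0
  apply h0
  apply h
  rw [fxs_eq_wt]
  have h2 : χ j = 1 := funext fun a => by
    have h3 := h1 a
    rw [Pi.one_apply, one_mul] at h3
    rw [h3]
    rfl
  have h4 := hD.mem j w
  rw [← h2]
  exact h4

theorem pair_even [IsAlgClosed F] [CharP F 2] [FiniteDimensional F V] (hB : IsSy B) {x : End F V}
    (hx : ∀ u v, B (x u) (x v) = B u v) (hT : ∀ a u v, B (T a u) (T a v) = B u v)
    (hc : ∀ a b, Commute (T a) (T b)) (hcx : ∀ a, Commute (T a) x)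
    (hm : ∀ a, ∃ m : ℕ, Odd m ∧ T a ^ m = 1) :
    Even (finrank F (fx x) + finrank F (fx x ⊓ fxs T : Submodule F V)) := by
  classical
  have hm' : ∀ a, ∃ m : ℕ, (m : F) ≠ 0 ∧ T a ^ m = 1 := fun a => by
    obtain ⟨m, h1, h2⟩ := hm a
    refine ⟨m, ?_, h2⟩
    rw [Ne, CharP.cast_eq_zero_iff F 2]
    exact h1.not_two_dvd_nat
  obtain ⟨r, χ, e, hinj, hD, hne⟩ := exists_dec hc hm'
  have hxW : ∀ i, ∀ v ∈ wt T (χ i), x v ∈ wt T (χ i) := fun i v hv a => by
    have h3 : T a (x v) = x (T a v) := DFunLike.congr_fun (hcx a).eq v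
    rw [h3, hv a, map_smul]
  have hperm : ∀ i v, e i (x v) = x (e i v) := fun i v =>
    hD.perm (σ := id) Function.injective_id hxW i v
  have hsum : finrank F (fx x) = ∑ i, finrank F (fx x ⊓ wt T (χ i) : Submodule F V) :=
    hD.finrank_eq fun i v hv => by
      show x (e i v) = e i v
      rw [← hperm, show x v = v from hv]
  have hex : ∀ i, ∃ j, ∀ a, χ i a * χ j a = 1 := by
    intro i
    obtain ⟨w, hw, hw0⟩ := Submodule.exists_mem_ne_zero_of_ne_bot (hne i)
    have h1 : ∃ u, B w u ≠ 0 := by
      by_contra hcon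
      push Not at hcon
      exact hw0 (hB.nd w hcon)
    obtain ⟨u, hu⟩ := h1
    rw [← hD.sum u, map_sum] at hu
    obtain ⟨j, -, hj⟩ := Finset.exists_ne_zero_of_sum_ne_zero hu
    exact ⟨j, fun a => wt_orth hT hw (hD.mem j u) hj a⟩
  choose inv hinv using hex
  have huniq : ∀ i j, (∀ a, χ i a * χ j a = 1) → j = inv i := fun i j hij =>
    hinj (funext fun a => by
      have h1 := hij a
      have h2 := hinv i a
      have h3 : χ i a ≠ 0 := left_ne_zero_of_mul_eq_one h1
      exact mul_left_cancel₀ h3 (h1.trans h2.symm))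
  have hinv2 : ∀ i, inv (inv i) = i := fun i =>
    (huniq (inv i) i fun a => by rw [mul_comm, hinv i a]).symm
  have hf : ∀ i, finrank F (fx x ⊓ wt T (χ (inv i)) : Submodule F V) =
      finrank F (fx x ⊓ wt T (χ i) : Submodule F V) := by
    intro i
    rw [inf_comm, inf_comm (fx x)]
    refine (pair_dim hB hx (hxW i) (hxW (inv i)) ?_ ?_).symm
    · intro u hu h0
      refine hB.nd u fun w => ?_
      rw [← hD.sum w, map_sum]
      refine Finset.sum_eq_zero fun j _ => ?_
      by_contra hj
      have h1 := huniq i j fun a => wt_orth hT hu (hD.mem j w) hj a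
      subst h1
      exact hj (h0 _ (hD.mem _ w))
    · intro v hv h0
      refine hB.nd v fun w => ?_
      rw [hB.comm, ← hD.sum w, map_sum, LinearMap.sum_apply]
      refine Finset.sum_eq_zero fun j _ => ?_
      by_contra hj
      have h1 := huniq j (inv i) fun a => wt_orth hT (hD.mem j w) hv hj a
      have h2 : j = i := by
        have h3 := congrArg inv h1
        rw [hinv2, hinv2] at h3
        exact h3.symm
      subst h2
      exact hj (h0 _ (hD.mem _ w))
  set f : Fin r → ℕ := fun i => finrank F (fx x ⊓ wt T (χ i) : Submodule F V) with hfdef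
  have hev : Even (∑ i ∈ Finset.univ.filter (fun i => χ i ≠ 1), f i) := by
    refine even_inv inv ?_ (fun i _ => hinv2 i) ?_ (fun i _ => hf i)
    · intro i hi
      rw [Finset.mem_filter] at hi ⊢
      refine ⟨Finset.mem_univ _, fun h0 => hi.2 ?_⟩
      funext a
      have h1 := hinv i a
      rw [h0, Pi.one_apply, mul_one] at h1
      rw [h1]
      rfl
    · intro i hi h0
      rw [Finset.mem_filter] at hi
      refine hi.2 (funext fun a => ?_)
      have h1 := hinv i a
      rw [h0] at h1
      have h2 : (χ i a - 1) * (χ i a - 1) = 0 := by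
        have h3 : (2 : F) = 0 := CharTwo.two_eq_zero
        linear_combination h1 + (1 - χ i a) * h3
      have h4 := mul_self_eq_zero.1 h2
      rw [Pi.one_apply]
      exact sub_eq_zero.1 h4
  have h1 : ∑ i ∈ Finset.univ.filter (fun i => ¬ χ i ≠ 1), f i =
      finrank F (fx x ⊓ fxs T : Submodule F V) := by
    by_cases hb : wt T (1 : ι → F) = ⊥
    · rw [fxs_eq_wt, hb, inf_bot_eq, finrank_bot]
      refine Finset.sum_eq_zero fun i hi => ?_
      exfalso
      rw [Finset.mem_filter, not_not] at hi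
      refine hne i ?_
      rw [hi.2]
      exact hb
    · obtain ⟨i0, h0⟩ := exists_of_ne hD hb
      have h2 : Finset.univ.filter (fun i => ¬ χ i ≠ 1) = {i0} := by
        ext i
        rw [Finset.mem_filter, not_not, Finset.mem_singleton]
        constructor
        · rintro ⟨-, h⟩
          exact hinj (h.trans h0.symm)
        · rintro rfl
          exact ⟨Finset.mem_univ _, h0⟩
      rw [h2, Finset.sum_singleton, fxs_eq_wt, ← h0]
  have hsplit := Finset.sum_filter_add_sum_filter_not Finset.univ (fun i => χ i ≠ 1) f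
  rw [h1] at hsplit
  have hsum2 : finrank F (fx x) = ∑ i, f i := hsum
  rw [hsum2, ← hsplit]
  obtain ⟨k, hk⟩ := hev
  rw [hk]
  exact ⟨k + finrank F (fx x ⊓ fxs T : Submodule F V), by ring⟩

end Pool.Agent.Work.MP_787500_nt.AR
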