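import Mathlib
import Pool.Agent.Work.MP_787500_nt.AR.Act
import Pool.Agent.Work.MP_787500_nt.AR.PairL
import Pool.Agent.Work.MP_787500_nt.AR.OrbFx
import Pool.Agent.Work.MP_787500_nt.AR.Cyc

/-!
# AR/Blk (size M): one layer

`m` is the order of the image of `ζ`.
* `Layer.dvd`: take `s` with `orderOf (ζ s) = m` (`exists_gen`). By `Layer.exists_weights` the permutation `σ s` of the weights `≠ 1` has all orbits of length `m`
  (`σ s ^ j` fixes `i` if and only if `ζ s ^ j = 1`), and `dim wt (χ (σ s i)) = dim wt (χ i)` (`ρ s` and `ρ s⁻¹`). So `Dec.finrank_top`, `exists_orb`, `Orb.sum_inv`; the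
  part of the weight 1 is `fxs` (`fxs_eq_wt`; if the weight 1 does not occur it is zero, `exists_of_ne`).
* `Layer.parity`: `orderOf (ζ x) = 2 ^ b` is the 2-part of `m`.
  If `b = 0` (`m` odd): `ζ x = 1`, so `ρ x` commutes with the `ρ a`, `pair_even` gives the parity of the first two terms, and `D` is even since `m D` is the difference of the dimensions of
  two nondegenerate spaces (`IsSy.even`, `nd_fxs`).
  If `b ≥ 1`: the orbits of `σ x` on the weights `≠ 1` have length `q = 2 ^ b`; `z = x ^ (q / 2)` has `ζ z = -1` (`ζ z ^ 2 = 1`, `ζ z ≠ 1`), so `χ (σ z i)` is the inverse of `χ i`, and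
  by `wt_orth` the spaces `X = wt (χ i)` and `Y = wt (χ (σ z i))` are in perfect pairing; `even_asym` gives the parity of `dim (wt (χ t) ⊓ fx (x ^ q))`, and
  `finrank_fx_orb` the parity of `dim fx x`. So `dim fx x + dim (fx x ⊓ fxs) ≡ ∑ t ∈ T, dim wt (χ t) =: d`, with `q d = dim V - dim fxs = m D` and `m / q` odd, so `d ≡ D`.
-/

set_option autoImplicit false
set_option linter.unusedSectionVars false

namespace Pool.Agent.Work.MP_787500_nt.AR

open Module

variable {F V : Type*} [Field F] [AddCommGroup V] [Module F V] {J k : Type*} [Group J] [Field k] [Finite k]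
  {A : Subgroup J} {ζ : J →* k} {η : J → k} {ρ : J →* End F V}

private theorem eta_one (h : Layer A ζ η ρ) : η 1 = 0 := by
  have h1 := h.add 1 A.one_mem 1 A.one_mem
  rw [mul_one] at h1
  exact left_eq_add.1 h1

private theorem eta_inv (h : Layer A ζ η ρ) {a : J} (ha : a ∈ A) : η a⁻¹ = -η a := by
  have h1 := h.add a ha a⁻¹ (A.inv_mem ha)
  rw [mul_inv_cancel, eta_one h] at h1
  exact (neg_eq_of_add_eq_zero_right h1.symm).symm

private theorem rho_eq (h : Layer A ζ η ρ) {a b : J} (ha : a ∈ A) (hb : b ∈ A) (hab : η a = η b) :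
    ρ a = ρ b := by
  have h1 : ρ (a * b⁻¹) = 1 := h.ker _ (A.mul_mem ha (A.inv_mem hb)) (by
    rw [h.add a ha _ (A.inv_mem hb), eta_inv h hb, hab, add_neg_cancel])
  have h2 : ρ a = ρ (a * b⁻¹) * ρ b := by rw [← map_mul, inv_mul_cancel_right]
  rw [h2, h1, one_mul]

private theorem eta_pow (h : Layer A ζ η ρ) {a : J} (ha : a ∈ A) (n : ℕ) : η (a ^ n) = n * η a := by
  induction n with
  | zero => rw [pow_zero, eta_one h, Nat.cast_zero, zero_mul]
  | succ n ih =>
    rw [pow_succ, h.add _ (A.pow_mem ha n) _ ha, ih]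
    push_cast
    ring

private theorem rho_comm (h : Layer A ζ η ρ) (a b : A) : Commute (ρ a) (ρ b) := by
  show ρ a * ρ b = ρ b * ρ a
  rw [← map_mul, ← map_mul]
  refine rho_eq h (A.mul_mem a.2 b.2) (A.mul_mem b.2 a.2) ?_
  rw [h.add _ a.2 _ b.2, h.add _ b.2 _ a.2, add_comm]

private theorem rho_pow (h : Layer A ζ η ρ) {l : ℕ} [CharP k l] (a : A) : ρ a ^ l = 1 := by
  rw [← map_pow]
  refine h.ker _ (A.pow_mem a.2 l) ?_
  rw [eta_pow h a.2, CharP.cast_eq_zero, zero_mul]

/-- the part of the weight 1 -/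
private theorem sum_one {ι : Type*} {T : ι → End F V} {r : ℕ} {χ : Fin r → ι → F} {e : Fin r → End F V}
    (hinj : Function.Injective χ) (hD : Dec (fun i => wt T (χ i)) e) (hne : ∀ i, wt T (χ i) ≠ ⊥)
    (P : Submodule F V) [DecidablePred fun i => χ i ≠ 1] :
    ∑ i ∈ (Finset.univ.filter (fun i => χ i ≠ 1))ᶜ, finrank F (P ⊓ wt T (χ i) : Submodule F V) =
      finrank F (P ⊓ fxs T : Submodule F V) := by
  by_cases hb : wt T (1 : ι → F) = ⊥
  · rw [fxs_eq_wt, hb, inf_bot_eq, finrank_bot]
    refine Finset.sum_eq_zero fun i hi => ?_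
    exfalso
    rw [Finset.mem_compl, Finset.mem_filter, not_and] at hi
    have h1 := hi (Finset.mem_univ _)
    rw [not_not] at h1
    refine hne i ?_
    rw [h1]
    exact hb
  · obtain ⟨i0, h0⟩ := exists_of_ne hD hb
    have h2 : (Finset.univ.filter (fun i => χ i ≠ 1))ᶜ = {i0} := by
      ext i
      rw [Finset.mem_compl, Finset.mem_filter, Finset.mem_singleton]
      constructor
      · intro h
        by_contra hi
        exact h ⟨Finset.mem_univ _, fun h1 => hi (hinj (h1.trans h0.symm))⟩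
      · rintro rfl
        exact fun h => h.2 h0
    rw [h2, Finset.sum_singleton, fxs_eq_wt, ← h0]

private theorem sum_one_top {ι : Type*} {T : ι → End F V} {r : ℕ} {χ : Fin r → ι → F}
    {e : Fin r → End F V} (hinj : Function.Injective χ) (hD : Dec (fun i => wt T (χ i)) e)
    (hne : ∀ i, wt T (χ i) ≠ ⊥) [DecidablePred fun i => χ i ≠ 1] :
    ∑ i ∈ (Finset.univ.filter (fun i => χ i ≠ 1))ᶜ, finrank F (wt T (χ i)) = finrank F (fxs T) := by
  have h8 := sum_one hinj hD hne (⊤ : Submodule F V)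
  rw [top_inf_eq] at h8
  rw [← h8]
  exact Finset.sum_congr rfl fun i _ => by rw [top_inf_eq]

/-- the orbits of one element -/
private theorem orbs {r : ℕ} {χ : Fin r → A → F} {σ : J →* Equiv.Perm (Fin r)}
    (h5 : ∀ i, χ i ≠ 1 → ∀ s, σ s i = i ↔ ζ s = 1) (h6 : ∀ i, χ i = 1 → ∀ s, σ s i = i)
    [DecidablePred fun i => χ i ≠ 1] (s : J) {q : ℕ} (hq : 0 < q) (ho : orderOf (ζ s) = q) :
    ∃ T : Finset (Fin r), Orb (σ s) q (Finset.univ.filter (fun i => χ i ≠ 1)) T := by
  have hpow : ∀ (j : ℕ) (i : Fin r), (σ s ^ j) i = σ (s ^ j) i := fun j i => by rw [map_pow]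
  refine exists_orb (σ s) hq ?_ ?_ ?_
  · intro i hi
    rw [Finset.mem_filter] at hi ⊢
    refine ⟨Finset.mem_univ _, fun h1 => hi.2 ?_⟩
    have h2 := h6 _ h1 s⁻¹
    rw [← Equiv.Perm.mul_apply, ← map_mul, inv_mul_cancel, map_one, Equiv.Perm.one_apply] at h2
    rw [h2]
    exact h1
  · intro i hi
    rw [hpow, h5 i (Finset.mem_filter.1 hi).2, map_pow, ← ho]
    exact pow_orderOf_eq_one _
  · intro i hi j hj0 hjq h1
    rw [hpow, h5 i (Finset.mem_filter.1 hi).2, map_pow] at h1
    have h2 := orderOf_dvd_of_pow_eq_one h1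
    rw [ho] at h2
    exact absurd (Nat.le_of_dvd hj0 h2) (not_le.2 hjq)

private theorem dim_inv [FiniteDimensional F V] {r : ℕ} {χ : Fin r → A → F} {σ : J →* Equiv.Perm (Fin r)}
    (h4 : ∀ s i, ∀ v ∈ wt (fun a : A => ρ a) (χ i), ρ s v ∈ wt (fun a : A => ρ a) (χ (σ s i)))
    (s : J) (i : Fin r) : finrank F (wt (fun a : A => ρ a) (χ (σ s i))) =
      finrank F (wt (fun a : A => ρ a) (χ i)) := by
  have key : ∀ (s : J) (i : Fin r), finrank F (wt (fun a : A => ρ a) (χ i)) ≤
      finrank F (wt (fun a : A => ρ a) (χ (σ s i))) := by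
    intro s i
    refine LinearMap.finrank_le_finrank_of_injective (f := (ρ s).restrict (h4 s i)) ?_
    intro u v huv
    have h1 : ρ s u = ρ s v := congrArg Subtype.val huv
    refine Subtype.ext ?_
    have h2 : ∀ w : V, ρ s⁻¹ (ρ s w) = w := fun w => by
      rw [← Module.End.mul_apply, ← map_mul, inv_mul_cancel, map_one, Module.End.one_apply]
    rw [← h2 u, ← h2 v, h1]
  refine le_antisymm ?_ (key s i)
  have h1 := key s⁻¹ (σ s i)
  rwa [← Equiv.Perm.mul_apply, ← map_mul, inv_mul_cancel, map_one, Equiv.Perm.one_apply] at h1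

theorem Layer.dvd [IsAlgClosed F] [FiniteDimensional F V] (h : Layer A ζ η ρ) {l : ℕ} [CharP k l]
    (hl : (l : F) ≠ 0) :
    ∃ D, finrank F V = finrank F (fxs fun a : A => ρ a) + Nat.card (Set.range ζ) * D := by
  classical
  obtain ⟨s, hs⟩ := exists_gen ζ
  obtain ⟨r, χ, e, σ, h1, h2, h3, h4, h5, h6, h7⟩ := h.exists_weights hl
  obtain ⟨T, hT⟩ := orbs h5 h6 s (card_range_pos ζ) hs
  refine ⟨∑ t ∈ T, finrank F (wt (fun a : A => ρ a) (χ t)), ?_⟩
  rw [← hT.sum_inv (f := fun t => finrank F (wt (fun a : A => ρ a) (χ t))) (dim_inv h4 s)]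
  rw [← sum_one_top h1 h2 h3, h2.finrank_top, Finset.sum_compl_add_sum]

theorem Layer.nd [IsAlgClosed F] [FiniteDimensional F V] (h : Layer A ζ η ρ) {l : ℕ} [CharP k l]
    (hl : (l : F) ≠ 0) {B : V →ₗ[F] V →ₗ[F] F} (hB : IsSy B) (hρ : ∀ g u v, B (ρ g u) (ρ g v) = B u v)
    {v : V} (hv : v ∈ fxs fun a : A => ρ a) (h0 : ∀ w ∈ fxs (fun a : A => ρ a), B v w = 0) : v = 0 :=
  nd_fxs (T := fun a : A => ρ a) hB (fun a u v => hρ a u v) (fun a b => rho_comm h a b) (fun a => ⟨l, hl, rho_pow h a⟩) hv h0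

private theorem even_fxs [FiniteDimensional F V] {B : V →ₗ[F] V →ₗ[F] F} (hB : IsSy B)
    {X : Submodule F V} (hX : ∀ v ∈ X, (∀ w ∈ X, B v w = 0) → v = 0) : Even (finrank F X) := by
  have h1 : IsSy (B.domRestrict₁₂ X X) :=
    { alt := fun v => hB.alt v
      nd := fun v hv => Subtype.ext (hX v v.2 fun w hw => hv ⟨w, hw⟩) }
  exact h1.even

theorem Layer.parity [IsAlgClosed F] [CharP F 2] [FiniteDimensional F V] (h : Layer A ζ η ρ) {l : ℕ}
    [CharP k l] (hl : l.Prime) (hl2 : l ≠ 2) {B : V →ₗ[F] V →ₗ[F] F} (hB : IsSy B)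
    (hρ : ∀ g u v, B (ρ g u) (ρ g v) = B u v) {x : J}
    (hx : orderOf (ζ x) = 2 ^ (Nat.card (Set.range ζ)).factorization 2) {D : ℕ}
    (hD : finrank F V = finrank F (fxs fun a : A => ρ a) + Nat.card (Set.range ζ) * D) :
    Even (finrank F (fx (ρ x)) +
        finrank F (fx (ρ x) ⊓ fxs (fun a : A => ρ a) : Submodule F V) + D) ∧
      (Odd (Nat.card (Set.range ζ)) → Even D) := by
  classical
  have hlo : Odd l := hl.odd_of_ne_two hl2
  have hlF : (l : F) ≠ 0 := by
    rw [Ne, CharP.cast_eq_zero_iff F 2]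
    exact hlo.not_two_dvd_nat
  have hDev : Odd (Nat.card (Set.range ζ)) → Even D := by
    intro hodd
    have e1 := hB.even
    have e2 : Even (finrank F (fxs fun a : A => ρ a)) :=
      even_fxs hB fun v hv h0 => h.nd hlF hB hρ hv h0
    rw [hD, Nat.even_add] at e1
    have e3 := e1.1 e2
    rw [Nat.even_mul] at e3
    rcases e3 with e3 | e3
    · exact absurd e3 (Nat.not_even_iff_odd.2 hodd)
    · exact e3
  refine ⟨?_, hDev⟩
  set m := Nat.card (Set.range ζ) with hm
  have hm0 : 0 < m := card_range_pos ζ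
  rcases Nat.eq_zero_or_pos (m.factorization 2) with hb | hb
  · -- odd case
    rw [hb, pow_zero, orderOf_eq_one_iff] at hx
    have hmo : Odd m := by
      rw [← Nat.not_even_iff_odd, even_iff_two_dvd]
      intro h2
      have := (Nat.Prime.dvd_iff_one_le_factorization Nat.prime_two hm0.ne').1 h2
      omega
    refine Even.add ?_ (hDev hmo)
    refine pair_even hB (hρ x) (fun a u v => hρ a u v) (fun a b => rho_comm h a b) (fun a => ?_)
      (fun a => ⟨l, hlo, rho_pow h a⟩)
    show ρ a * ρ x = ρ x * ρ a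
    have e1 : ρ (x * a * x⁻¹) = ρ a := rho_eq h (h.conj_mem x a a.2) a.2 (by
      rw [h.conj x a a.2, hx, one_mul])
    calc ρ a * ρ x = ρ (x * a * x⁻¹) * ρ x := by rw [e1]
      _ = ρ (x * a) := by rw [← map_mul, inv_mul_cancel_right]
      _ = ρ x * ρ a := map_mul _ _ _
  · -- even case
    obtain ⟨r, χ, e, σ, h1, h2, h3, h4, h5, h6, h7⟩ := h.exists_weights hlF
    set b := m.factorization 2 with hbdef
    obtain ⟨T, hT⟩ := orbs h5 h6 x (pow_pos two_pos b) hx
    set S := Finset.univ.filter (fun i => χ i ≠ 1) with hS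
    have hfx := finrank_fx_orb h2 (x := ρ x) (σ := σ x) (h4 x) hT (fun i hi => by
      refine h6 i ?_ x
      by_contra hc
      exact hi (Finset.mem_filter.2 ⟨Finset.mem_univ _, hc⟩))
    have hs1 := sum_one h1 h2 h3 (fx (ρ x))
    have hs2 : ∑ i ∈ Sᶜ, finrank F (wt (fun a : A => ρ a) (χ i) ⊓ fx (ρ x) : Submodule F V) =
        finrank F (fx (ρ x) ⊓ fxs (fun a : A => ρ a) : Submodule F V) := by
      rw [← hs1]
      exact Finset.sum_congr rfl fun i _ => by rw [inf_comm]
    -- the element z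
    have hq : 2 ^ b = 2 * 2 ^ (b - 1) := by
      rw [← pow_succ']
      congr 1
      omega
    set z : J := x ^ 2 ^ (b - 1) with hz
    have hzz : z * z = x ^ 2 ^ b := by
      rw [hz, ← pow_add, hq, two_mul]
    have hz1 : ζ z = -1 := by
      have e1 : ζ z * ζ z = 1 := by
        rw [← map_mul, hzz, map_pow, ← hx]
        exact pow_orderOf_eq_one _
      rcases mul_self_eq_one_iff.1 e1 with e2 | e2
      · exfalso
        rw [hz, map_pow] at e2
        have e3 := orderOf_dvd_of_pow_eq_one e2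
        rw [hx] at e3
        have e4 := Nat.le_of_dvd (pow_pos two_pos _) e3
        have e5 : 0 < 2 ^ (b - 1) := pow_pos two_pos _
        omega
      · exact e2
    have hpar : ∀ t, Even (finrank F (wt (fun a : A => ρ a) (χ t)) +
        finrank F (wt (fun a : A => ρ a) (χ t) ⊓ fx (ρ x ^ 2 ^ b) : Submodule F V)) := by
      intro t
      have e0 : ρ x ^ 2 ^ b = ρ z * ρ z := by rw [← map_mul, hzz, map_pow]
      have e1 : σ z (σ z t) = t := by
        rw [← Equiv.Perm.mul_apply, ← map_mul, hzz]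
        by_cases ht : χ t = 1
        · exact h6 t ht _
        · rw [h5 t ht, map_pow, ← hx]
          exact pow_orderOf_eq_one _
      have e2 : ∀ j, (∀ a, χ t a * χ j a = 1) → j = σ z t := by
        intro j hj
        refine h1 (funext fun a => ?_)
        have e3 := hj a
        have e4 := h7 t z hz1 a
        rw [mul_comm] at e4
        exact mul_left_cancel₀ (left_ne_zero_of_mul_eq_one e3) (e3.trans e4.symm)
      have e2' : ∀ j, (∀ a, χ (σ z t) a * χ j a = 1) → j = t := by
        intro j hj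
        refine h1 (funext fun a => ?_)
        have e3 := hj a
        have e4 := h7 t z hz1 a
        exact mul_left_cancel₀ (left_ne_zero_of_mul_eq_one e3) (e3.trans e4.symm)
      rw [e0]
      refine even_asym hB (hρ z) (X := wt (fun a : A => ρ a) (χ t))
        (Y := wt (fun a : A => ρ a) (χ (σ z t))) (h4 z t) ?_ ?_ ?_
      · intro v hv
        have e3 := h4 z (σ z t) v hv
        rwa [e1] at e3
      · intro u hu h0
        refine hB.nd u fun w => ?_
        rw [← h2.sum w, map_sum]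
        refine Finset.sum_eq_zero fun j _ => ?_
        by_contra hj
        have e3 := e2 j fun a => wt_orth (T := fun a : A => ρ a) (fun a u v => hρ a u v) hu
          (h2.mem j w) hj a
        subst e3
        exact hj (h0 _ (h2.mem _ w))
      · intro v hv h0
        refine hB.nd v fun w => ?_
        rw [hB.comm, ← h2.sum w, map_sum, LinearMap.sum_apply]
        refine Finset.sum_eq_zero fun j _ => ?_
        by_contra hj
        have e3 := e2' j fun a => by
          rw [mul_comm]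
          exact wt_orth (T := fun a : A => ρ a) (fun a u v => hρ a u v) (h2.mem j w) hv hj a
        subst e3
        exact hj (h0 _ (h2.mem _ w))
    have hd := hT.sum_inv (f := fun t => finrank F (wt (fun a : A => ρ a) (χ t))) (dim_inv h4 x)
    set d := ∑ t ∈ T, finrank F (wt (fun a : A => ρ a) (χ t)) with hddef
    have h9 : finrank F V = finrank F (fxs fun a : A => ρ a) + 2 ^ b * d := by
      rw [← hd, ← sum_one_top h1 h2 h3, h2.finrank_top, Finset.sum_compl_add_sum]
    have h10 : 2 ^ b * d = m * D := by omega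
    have h11 : 2 ^ b * (m / 2 ^ b) = m := Nat.ordProj_mul_ordCompl_eq_self m 2
    have h12 : ¬ 2 ∣ m / 2 ^ b := Nat.not_dvd_ordCompl Nat.prime_two hm0.ne'
    have h13 : d = (m / 2 ^ b) * D := by
      have e1 : 2 ^ b * d = 2 ^ b * ((m / 2 ^ b) * D) := by
        rw [h10, ← mul_assoc, h11]
      exact Nat.eq_of_mul_eq_mul_left (pow_pos two_pos b) e1
    have h14 : Even (d + ∑ t ∈ T, finrank F (wt (fun a : A => ρ a) (χ t) ⊓ fx (ρ x ^ 2 ^ b) : Submodule F V)) := by
      rw [hddef, ← Finset.sum_add_distrib]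
      exact Finset.even_sum _ fun t _ => hpar t
    rw [hfx, hs2]
    set c := finrank F (fx (ρ x) ⊓ fxs (fun a : A => ρ a) : Submodule F V)
    set y := ∑ t ∈ T, finrank F (wt (fun a : A => ρ a) (χ t) ⊓ fx (ρ x ^ 2 ^ b) : Submodule F V)
    have h15 : Odd (m / 2 ^ b) := by
      rw [← Nat.not_even_iff_odd, even_iff_two_dvd]
      exact h12
    have h16 : Even (D + y) := by
      rw [Nat.even_add] at h14 ⊢
      rw [← h14, h13, Nat.even_mul]
      constructor
      · exact fun e1 => Or.inr e1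
      · rintro (e1 | e1)
        · exact absurd e1 (Nat.not_even_iff_odd.2 h15)
        · exact e1
    have h17 : c + y + c + D = (c + c) + (D + y) := by ring
    rw [h17]
    exact (Even.add ⟨c, rfl⟩ h16)

end Pool.Agent.Work.MP_787500_nt.AR
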