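import Mathlib

/-!
# AR/Cnt (size M): the arithmetic of the ramification groups

Let `c i = c (i + 1) (m i a + 1)` with `m i gcd(e₀, i) = e₀`. Then `e₀` divides `i (c i - c (i + 1))`: `c i - c (i + 1) = m i a c (i + 1)` and
`i m i = e₀ (i / gcd)`. Abel summation: `∑_{1 ≤ k ≤ i} c k = i c i + ∑_{1 ≤ k < i} k (c k - c (k + 1))`, so `S i = ∑_{1 ≤ k ≤ i} c k ≡ i c i` modulo `e₀`.
In particular `S N ≡ N` modulo `e₀` (`cnt_sum`). And `∑_{1 ≤ k < N} c k (n - u k) = ∑_{1 ≤ i < N} S i (u (i + 1) - u i) = ∑ S i m i D i`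
(`n - u k = ∑_{k ≤ i < N} (u (i + 1) - u i)`); `gcd(e₀, i)` divides `S i` (it divides `e₀` and `i`), so `e₀` divides `S i m i` and the quotient is `S i / gcd(e₀, i)`.
* `cnt_dvd`: so `e₀` divides the sum.
* `cnt_even`: if `m i` is even then `S i / gcd(e₀, i) ≡ (i / gcd(e₀, i)) c i` modulo `m i`, which is odd since `i / gcd(e₀, i)` is prime to `m i = e₀ / gcd(e₀, i)`. If `m i` is odd
  then `D i` is even. So the quotient by `e₀` has the parity of `∑ D i`.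
-/

set_option autoImplicit false
set_option linter.unusedSectionVars false

namespace Pool.Agent.Work.MP_787500_nt.AR

open Module

variable {e₀ N : ℕ} {c m u D : ℕ → ℕ} {n : ℕ}

private theorem cnt_pos (hcN : c N = 1)
    (hc : ∀ i, 1 ≤ i → i < N → ∃ a, c i = c (i + 1) * (m i * a + 1)) :
    ∀ d i, 1 ≤ i → i + d = N → 1 ≤ c i := by
  intro d
  induction d with
  | zero =>
    intro i _ hi
    have : i = N := by omega
    rw [this, hcN]
  | succ d ih =>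
    intro i h1 hi
    obtain ⟨a, ha⟩ := hc i h1 (by omega)
    have h2 := ih (i + 1) (by omega) (by omega)
    rw [ha]
    exact Nat.mul_pos h2 (Nat.succ_pos _)

private theorem cnt_mono (hD : ∀ i, 1 ≤ i → i < N → u (i + 1) = u i + m i * D i) :
    ∀ d i, 1 ≤ i → i + d = N → u i ≤ u N := by
  intro d
  induction d with
  | zero =>
    intro i _ hi
    have : i = N := by omega
    rw [this]
  | succ d ih =>
    intro i h1 hi
    have h2 := ih (i + 1) (by omega) (by omega)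
    rw [hD i h1 (by omega)] at h2
    omega

private theorem cnt_form (hm : ∀ i, 1 ≤ i → m i * Nat.gcd e₀ i = e₀)
    (hc : ∀ i, 1 ≤ i → i < N → ∃ a, c i = c (i + 1) * (m i * a + 1)) :
    ∀ i, 1 ≤ i → i ≤ N → ∃ t : ℤ, (∑ k ∈ Finset.Ico 1 (i + 1), (c k : ℤ)) = i * c i + e₀ * t := by
  intro i h1
  induction i, h1 using Nat.le_induction with
  | base =>
    intro _
    refine ⟨0, ?_⟩
    simp
  | succ i h1 ih =>
    intro hi
    obtain ⟨t, ht⟩ := ih (by omega)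
    obtain ⟨a, ha⟩ := hc i h1 (by omega)
    obtain ⟨b, hb⟩ := Nat.gcd_dvd_right e₀ i
    have hmi := hm i h1
    have hmi' : (m i : ℤ) * (Nat.gcd e₀ i : ℤ) = e₀ := by exact_mod_cast hmi
    have hb' : (i : ℤ) = (Nat.gcd e₀ i : ℤ) * b := by exact_mod_cast hb
    have ha' : (c i : ℤ) = c (i + 1) * (m i * a + 1) := by exact_mod_cast ha
    rw [Finset.sum_Ico_succ_top (by omega), ht]
    refine ⟨t + b * a * c (i + 1), ?_⟩
    push_cast
    have h3 : (i : ℤ) * c i = i * c (i + 1) + e₀ * (b * a * c (i + 1)) := by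
      rw [ha']
      have h4 : (i : ℤ) * m i = e₀ * b := by
        rw [← hmi']
        calc (i : ℤ) * m i = ((Nat.gcd e₀ i : ℤ) * b) * m i := by rw [← hb']
          _ = m i * (Nat.gcd e₀ i : ℤ) * b := by ring
      calc (i : ℤ) * (c (i + 1) * (m i * a + 1)) = (i * m i) * a * c (i + 1) + i * c (i + 1) := by ring
        _ = i * c (i + 1) + e₀ * (b * a * c (i + 1)) := by rw [h4]; ring
    rw [h3]
    ring

private theorem cnt_key (he : 0 < e₀) (hm : ∀ i, 1 ≤ i → m i * Nat.gcd e₀ i = e₀)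
    (hc : ∀ i, 1 ≤ i → i < N → ∃ a, c i = c (i + 1) * (m i * a + 1))
    (i : ℕ) (h1 : 1 ≤ i) (hi : i ≤ N) :
    ∃ s : ℕ, ∑ k ∈ Finset.Ico 1 (i + 1), c k = Nat.gcd e₀ i * s ∧
      (Even (m i) → Odd (c i) → Odd s) := by
  obtain ⟨t, ht⟩ := cnt_form hm hc i h1 hi
  have hg : 0 < Nat.gcd e₀ i := Nat.gcd_pos_of_pos_left _ he
  have hgz : (0 : ℤ) < (Nat.gcd e₀ i : ℤ) := by exact_mod_cast hg
  obtain ⟨b, hb⟩ := Nat.gcd_dvd_right e₀ i
  have hmi := hm i h1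
  have hmi' : (m i : ℤ) * (Nat.gcd e₀ i : ℤ) = e₀ := by exact_mod_cast hmi
  have hb' : (i : ℤ) = (Nat.gcd e₀ i : ℤ) * b := by exact_mod_cast hb
  have h2 : (((∑ k ∈ Finset.Ico 1 (i + 1), c k : ℕ)) : ℤ) = (Nat.gcd e₀ i : ℤ) * (b * c i + m i * t) := by
    push_cast
    rw [ht, ← hmi']
    calc (i : ℤ) * c i + m i * (Nat.gcd e₀ i : ℤ) * t = ((Nat.gcd e₀ i : ℤ) * b) * c i + m i * (Nat.gcd e₀ i : ℤ) * t := by rw [← hb']
      _ = (Nat.gcd e₀ i : ℤ) * (b * c i + m i * t) := by ring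
  have h3 : Nat.gcd e₀ i ∣ ∑ k ∈ Finset.Ico 1 (i + 1), c k := by
    have : (Nat.gcd e₀ i : ℤ) ∣ (((∑ k ∈ Finset.Ico 1 (i + 1), c k : ℕ)) : ℤ) := ⟨_, h2⟩
    exact_mod_cast this
  obtain ⟨s, hs⟩ := h3
  refine ⟨s, hs, ?_⟩
  intro hme hco
  have h4 : (s : ℤ) = b * c i + m i * t := by
    have h5 : (Nat.gcd e₀ i : ℤ) * s = (Nat.gcd e₀ i : ℤ) * (b * c i + m i * t) := by
      rw [← h2, hs]
      push_cast
      ring
    exact mul_left_cancel₀ hgz.ne' h5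
  have hcop : Nat.Coprime (m i) b := by
    have h6 : Nat.gcd (Nat.gcd e₀ i * m i) (Nat.gcd e₀ i * b) = Nat.gcd e₀ i := by
      rw [← hb, mul_comm (Nat.gcd e₀ i) (m i), hmi]
    rw [Nat.gcd_mul_left] at h6
    exact Nat.eq_of_mul_eq_mul_left hg (by rw [h6, mul_one])
  have hbo : Odd b := by
    rcases Nat.even_or_odd b with h | h
    · exfalso
      have h7 : 2 ∣ Nat.gcd (m i) b := Nat.dvd_gcd hme.two_dvd h.two_dvd
      rw [hcop] at h7
      omega
    · exact h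
  have h8 : Odd (s : ℤ) := by
    rw [h4]
    have h9 : Odd ((b : ℤ) * c i) := by
      have : Odd (b * c i) := hbo.mul hco
      exact_mod_cast this
    have h10 : Even ((m i : ℤ) * t) := by
      have : Even (m i : ℤ) := by exact_mod_cast hme
      exact this.mul_right t
    exact h9.add_even h10
  exact_mod_cast h8

private theorem cnt_abel (hD : ∀ i, 1 ≤ i → i < N → u (i + 1) = u i + m i * D i) :
    ∀ j, 1 ≤ j → j ≤ N → ∑ k ∈ Finset.Ico 1 j, (c k : ℤ) * ((u j : ℤ) - u k)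
      = ∑ i ∈ Finset.Ico 1 j, (∑ k ∈ Finset.Ico 1 (i + 1), (c k : ℤ)) * (m i * D i) := by
  intro j h1
  induction j, h1 using Nat.le_induction with
  | base => intro _; simp
  | succ j h1 ih =>
    intro hj
    have ih' := ih (by omega)
    rw [Finset.sum_Ico_succ_top (by omega), Finset.sum_Ico_succ_top (by omega), ← ih']
    have hu : (u (j + 1) : ℤ) = u j + m j * D j := by exact_mod_cast hD j h1 (by omega)
    rw [hu, Finset.sum_Ico_succ_top (by omega) (fun k => (c k : ℤ)), add_mul, Finset.sum_mul, ← add_assoc,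
      ← Finset.sum_add_distrib]
    congr 1
    · refine Finset.sum_congr rfl ?_
      intro k _
      ring
    · ring

private theorem cnt_quot (he : 0 < e₀) (huN : u N = n) (hm : ∀ i, 1 ≤ i → m i * Nat.gcd e₀ i = e₀)
    (hc : ∀ i, 1 ≤ i → i < N → ∃ a, c i = c (i + 1) * (m i * a + 1))
    (hD : ∀ i, 1 ≤ i → i < N → u (i + 1) = u i + m i * D i) :
    ∃ s : ℕ → ℕ, ∑ k ∈ Finset.Ico 1 N, c k * (n - u k) = e₀ * ∑ i ∈ Finset.Ico 1 N, s i * D i ∧
      ∀ i, 1 ≤ i → i < N → Even (m i) → Odd (c i) → Odd (s i) := by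
  have hk : ∀ i, ∃ s : ℕ, 1 ≤ i → i ≤ N → (∑ k ∈ Finset.Ico 1 (i + 1), c k = Nat.gcd e₀ i * s ∧
      (Even (m i) → Odd (c i) → Odd s)) := by
    intro i
    by_cases h : 1 ≤ i ∧ i ≤ N
    · obtain ⟨s, hs⟩ := cnt_key he hm hc i h.1 h.2
      exact ⟨s, fun _ _ => hs⟩
    · exact ⟨0, fun h1 h2 => absurd ⟨h1, h2⟩ h⟩
  choose s hs using hk
  refine ⟨s, ?_, fun i h1 h2 => (hs i h1 h2.le).2⟩
  by_cases hN : 1 ≤ N
  · have h1 := cnt_abel (c := c) hD N hN le_rfl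
    have h2 : ((∑ k ∈ Finset.Ico 1 N, c k * (n - u k) : ℕ) : ℤ)
        = ∑ k ∈ Finset.Ico 1 N, (c k : ℤ) * ((u N : ℤ) - u k) := by
      push_cast
      refine Finset.sum_congr rfl ?_
      intro k hk
      rw [Finset.mem_Ico] at hk
      have h3 : u k ≤ u N := cnt_mono hD (N - k) k hk.1 (by omega)
      rw [← huN, Nat.cast_sub h3]
    have h4 : ((∑ k ∈ Finset.Ico 1 N, c k * (n - u k) : ℕ) : ℤ)
        = ((e₀ * ∑ i ∈ Finset.Ico 1 N, s i * D i : ℕ) : ℤ) := by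
      rw [h2, h1]
      push_cast
      rw [Finset.mul_sum]
      refine Finset.sum_congr rfl ?_
      intro i hi
      rw [Finset.mem_Ico] at hi
      have h5 : ((∑ k ∈ Finset.Ico 1 (i + 1), (c k : ℤ))) = (Nat.gcd e₀ i : ℤ) * s i := by
        exact_mod_cast (hs i hi.1 hi.2.le).1
      have h6 : (m i : ℤ) * (Nat.gcd e₀ i : ℤ) = e₀ := by exact_mod_cast hm i hi.1
      rw [h5, ← h6]
      ring
    exact_mod_cast h4
  · have : Finset.Ico 1 N = ∅ := Finset.Ico_eq_empty (by omega)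
    rw [this]
    simp

theorem cnt_sum (he : 0 < e₀) (hcN : c N = 1) (hm : ∀ i, 1 ≤ i → m i * Nat.gcd e₀ i = e₀)
    (hc : ∀ i, 1 ≤ i → i < N → ∃ a, c i = c (i + 1) * (m i * a + 1)) :
    e₀ ∣ ∑ k ∈ Finset.Ico 1 N, (c k - 1) := by
  have hpos : ∀ i, 1 ≤ i → i ≤ N → 1 ≤ c i := fun i h1 h2 => cnt_pos hcN hc (N - i) i h1 (by omega)
  by_cases hN : 1 ≤ N
  · obtain ⟨t, ht⟩ := cnt_form hm hc N hN le_rfl
    have h1 : ((∑ k ∈ Finset.Ico 1 N, (c k - 1) : ℕ) : ℤ) = ∑ k ∈ Finset.Ico 1 N, ((c k : ℤ) - 1) := by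
      push_cast
      refine Finset.sum_congr rfl ?_
      intro k hk
      rw [Finset.mem_Ico] at hk
      rw [Nat.cast_sub (hpos k hk.1 hk.2.le)]
      simp
    have h2 : ∑ k ∈ Finset.Ico 1 N, ((c k : ℤ) - 1) = e₀ * t := by
      rw [Finset.sum_Ico_succ_top (by omega), hcN] at ht
      rw [Finset.sum_sub_distrib]
      have h3 : ∑ k ∈ Finset.Ico 1 N, (1 : ℤ) = (N : ℤ) - 1 := by
        simp [Nat.cast_sub hN]
      rw [h3]
      push_cast at ht
      linarith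
    have h4 : (e₀ : ℤ) ∣ ((∑ k ∈ Finset.Ico 1 N, (c k - 1) : ℕ) : ℤ) := by
      rw [h1, h2]
      exact ⟨t, rfl⟩
    exact_mod_cast h4
  · have : Finset.Ico 1 N = ∅ := Finset.Ico_eq_empty (by omega)
    rw [this]
    simp

theorem cnt_dvd (he : 0 < e₀) (hcN : c N = 1) (huN : u N = n) (hm : ∀ i, 1 ≤ i → m i * Nat.gcd e₀ i = e₀)
    (hc : ∀ i, 1 ≤ i → i < N → ∃ a, c i = c (i + 1) * (m i * a + 1))
    (hD : ∀ i, 1 ≤ i → i < N → u (i + 1) = u i + m i * D i) :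
    e₀ ∣ ∑ k ∈ Finset.Ico 1 N, c k * (n - u k) := by
  obtain ⟨s, hs, _⟩ := cnt_quot he huN hm hc hD
  exact ⟨_, hs⟩

theorem cnt_even (he : 0 < e₀) (hcN : c N = 1) (huN : u N = n) (hm : ∀ i, 1 ≤ i → m i * Nat.gcd e₀ i = e₀)
    (hc : ∀ i, 1 ≤ i → i < N → ∃ a, c i = c (i + 1) * (m i * a + 1))
    (hodd : ∀ i, 1 ≤ i → i ≤ N → Odd (c i))
    (hD : ∀ i, 1 ≤ i → i < N → u (i + 1) = u i + m i * D i)
    (hDe : ∀ i, 1 ≤ i → i < N → Odd (m i) → Even (D i)) :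
    Even ((∑ k ∈ Finset.Ico 1 N, c k * (n - u k)) / e₀ + ∑ i ∈ Finset.Ico 1 N, D i) := by
  obtain ⟨s, hs, hso⟩ := cnt_quot he huN hm hc hD
  rw [hs, Nat.mul_div_cancel_left _ he, ← Finset.sum_add_distrib]
  refine Finset.sum_induction _ Even (fun a b => Even.add) Even.zero ?_
  intro i hi
  rw [Finset.mem_Ico] at hi
  rcases Nat.even_or_odd (m i) with h | h
  · have h1 : Odd (s i) := hso i hi.1 hi.2 h (hodd i hi.1 hi.2.le)
    have h2 : s i * D i + D i = (s i + 1) * D i := by ring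
    rw [h2]
    exact (h1.add_odd odd_one).mul_right _
  · have h1 : Even (D i) := hDe i hi.1 hi.2 h
    exact (h1.mul_left _).add h1

end Pool.Agent.Work.MP_787500_nt.AR
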