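import Mathlib
import Pool.Agent.Work.MP_787500_nt.AR.Blk
import Pool.Agent.Work.MP_787500_nt.AR.Cnt

/-!
# AR/FG: the parity of the dimensions of fixed spaces for a group with a filtration

* `fil_dvd`: the number `artN` is divisible by the order of the image of `θ`.
* `fil_parity`: THE PARITY FORMULA for symplectic representations in characteristic 2.
-/

set_option autoImplicit false
set_option linter.unusedSectionVars false

namespace Pool.Agent.Work.MP_787500_nt.AR

open Module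

variable {F V : Type*} [Field F] [AddCommGroup V] [Module F V] {J k : Type*} [Group J] [Field k] [Finite k]
  {R : ℕ → Subgroup J} {θ : J →* k} {η : ℕ → J → k} {ρ : J →* End F V}

/-- the space fixed by `R i` -/
private def X (R : ℕ → Subgroup J) (ρ : J →* End F V) (i : ℕ) : Submodule F V := fxs fun g : R i => ρ g

private theorem mem_X {i : ℕ} {v : V} : v ∈ X R ρ i ↔ ∀ g ∈ R i, ρ g v = v :=
  ⟨fun h g hg => h ⟨g, hg⟩, fun h g => h g g.2⟩

private theorem X_stab (h : Fil R θ η) {i : ℕ} (hi : 1 ≤ i) (s : J) : ∀ v ∈ X R ρ i, ρ s v ∈ X R ρ i := by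
  intro v hv
  rw [mem_X] at hv ⊢
  intro g hg
  have h1 : g * s = s * (s⁻¹ * g * s) := by group
  have h2 : s⁻¹ * g * s ∈ R i := by
    have := h.conj_mem i hi s⁻¹ g hg
    rwa [inv_inv] at this
  rw [← End.mul_apply, ← map_mul, h1, map_mul, End.mul_apply, hv _ h2]

private theorem fil_anti (h : Fil R θ η) {i : ℕ} (hi : 1 ≤ i) : R (i + 1) ≤ R i :=
  fun g hg => ((h.ker i hi g).1 hg).1

private theorem X_mono (h : Fil R θ η) {i : ℕ} (hi : 1 ≤ i) : X R ρ i ≤ X R ρ (i + 1) :=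
  fun v hv => mem_X.2 fun g hg => mem_X.1 hv g (fil_anti h hi hg)

private theorem layer (h : Fil R θ η) {i : ℕ} (hi : 1 ≤ i) :
    Layer (R i) (θ ^ i) (η i) (resE ρ (X R ρ (i + 1)) (X_stab h (Nat.le_add_left 1 i))) where
  conj_mem := h.conj_mem i hi
  add := h.add i hi
  conj := fun s a ha => by
    rw [h.conj i hi s a ha, MonoidHom.pow_apply]
  ker := by
    intro a ha h0
    have h1 : a ∈ R (i + 1) := (h.ker i hi a).2 ⟨ha, h0⟩
    ext v
    exact mem_X.1 v.2 a h1

private theorem fxs_layer (h : Fil R θ η) {i : ℕ} (hi : 1 ≤ i) :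
    finrank F (fxs fun a : R i => resE ρ (X R ρ (i + 1)) (X_stab h (Nat.le_add_left 1 i)) a) =
      finrank F (X R ρ i) := by
  rw [finrank_fxs_res (fun a : R i => (a : J))]
  exact congrArg (fun Y : Submodule F V => finrank F Y) (inf_eq_right.2 (X_mono h hi))

private theorem relIndex_step (h : Fil R θ η) {N : ℕ} {i : ℕ} (hi : 1 ≤ i) (hN : i < N) :
    (R N).relIndex (R i) = (R N).relIndex (R (i + 1)) * (R (i + 1)).relIndex (R i) := by
  have key : ∀ j, i + 1 ≤ j → R j ≤ R (i + 1) := by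
    intro j hj
    induction j, hj using Nat.le_induction with
    | base => exact le_rfl
    | succ j hj ih => exact (fil_anti h (by omega)).trans ih
  exact (Subgroup.relIndex_mul_relIndex _ _ _ (key N hN) (fil_anti h hi)).symm

private theorem c_step (h : Fil R θ η) {N : ℕ} {i : ℕ} (hi : 1 ≤ i) (hN : i < N) :
    ∃ a, (R N).relIndex (R i) = (R N).relIndex (R (i + 1)) * (Nat.card (Set.range (θ ^ i)) * a + 1) := by
  obtain ⟨a, ha⟩ := relIndex_layer h hi
  exact ⟨a, by rw [relIndex_step h hi hN, ha]⟩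

/-- divisibility of the sums of the orders -/
theorem fil_sum (h : Fil R θ η) (N : ℕ) :
    Nat.card (Set.range θ) ∣ ∑ i ∈ Finset.Ico 1 N, ((R N).relIndex (R i) - 1) :=
  cnt_sum (c := fun i => (R N).relIndex (R i)) (m := fun i => Nat.card (Set.range (θ ^ i)))
    (card_range_pos θ) (Subgroup.relIndex_self _) (fun i _ => card_pow θ i)
    fun _ hi hi' => c_step h hi hi'

/-- divisibility of `artN` -/
theorem fil_dvd [IsAlgClosed F] [FiniteDimensional F V] (h : Fil R θ η) {l : ℕ} [CharP k l]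
    (hl : (l : F) ≠ 0) {N : ℕ} (hN : ∀ g ∈ R N, ρ g = 1) : Nat.card (Set.range θ) ∣ artN R ρ N := by
  have key : ∀ i, ∃ D, 1 ≤ i → i < N → finrank F (X R ρ (i + 1)) =
      finrank F (X R ρ i) + Nat.card (Set.range (θ ^ i)) * D := by
    intro i
    by_cases hi : 1 ≤ i
    · obtain ⟨D, hD⟩ := (layer (ρ := ρ) h hi).dvd hl
      rw [fxs_layer h hi] at hD
      exact ⟨D, fun _ _ => hD⟩
    · exact ⟨0, fun h' => absurd h' hi⟩
  choose D hD using key
  refine cnt_dvd (c := fun i => (R N).relIndex (R i)) (m := fun i => Nat.card (Set.range (θ ^ i)))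
    (u := fun i => finrank F (X R ρ i)) (n := finrank F V) (D := D) (card_range_pos θ)
    (Subgroup.relIndex_self _) ?_ (fun i _ => card_pow θ i) (fun _ hi hi' => c_step h hi hi') hD
  have h1 : X R ρ N = ⊤ := by
    rw [eq_top_iff]
    intro v _
    exact mem_X.2 fun g hg => by rw [hN g hg, End.one_apply]
  show finrank F (X R ρ N) = _
  rw [h1, finrank_top]

private theorem fix_pow {x : End F V} {v : V} (h : x v = v) (j : ℕ) : (x ^ j) v = v := by
  induction j with
  | zero => rw [pow_zero, End.one_apply]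
  | succ j ih => rw [pow_succ, End.mul_apply, h, ih]

variable [IsAlgClosed F] [CharP F 2] [FiniteDimensional F V]

private theorem step (h : Fil R θ η) {l : ℕ} [CharP k l] (hl : l.Prime) (hl2 : l ≠ 2)
    {B : V →ₗ[F] V →ₗ[F] F} (hρ : ∀ g u v, B (ρ g u) (ρ g v) = B u v) {x : J} {i : ℕ} (hi : 1 ≤ i)
    (hx : orderOf ((θ ^ i) x) = 2 ^ (Nat.card (Set.range (θ ^ i))).factorization 2) (halt : ∀ v, B v v = 0)
    (hnd : ∀ v ∈ X R ρ (i + 1), (∀ w ∈ X R ρ (i + 1), B v w = 0) → v = 0) :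
    ∃ D, finrank F (X R ρ (i + 1)) = finrank F (X R ρ i) + Nat.card (Set.range (θ ^ i)) * D ∧
      (∀ v ∈ X R ρ i, (∀ w ∈ X R ρ i, B v w = 0) → v = 0) ∧
      Even (finrank F (X R ρ (i + 1) ⊓ fx (ρ x) : Submodule F V) +
        finrank F (X R ρ i ⊓ fx (ρ x) : Submodule F V) + D) ∧
      (Odd (Nat.card (Set.range (θ ^ i))) → Even D) := by
  have hL := layer (ρ := ρ) h hi
  have hlF : (l : F) ≠ 0 := by
    intro h0
    have h1 := (CharP.cast_eq_zero_iff F 2 l).1 h0
    exact hl2 ((Nat.prime_dvd_prime_iff_eq Nat.prime_two hl).1 h1).symm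
  let B' : X R ρ (i + 1) →ₗ[F] X R ρ (i + 1) →ₗ[F] F := B.domRestrict₁₂ (X R ρ (i + 1)) (X R ρ (i + 1))
  have hB' : ∀ u v : X R ρ (i + 1), B' u v = B u v := fun u v => rfl
  have hSy : IsSy B' := by
    refine ⟨fun v => halt v, fun v hv => ?_⟩
    apply Subtype.ext
    exact hnd v v.2 fun w hw => hv ⟨w, hw⟩
  have hρ' : ∀ g u v, B' (resE ρ (X R ρ (i + 1)) (X_stab h (Nat.le_add_left 1 i)) g u)
      (resE ρ (X R ρ (i + 1)) (X_stab h (Nat.le_add_left 1 i)) g v) = B' u v := fun g u v =>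
    hρ g u v
  obtain ⟨D, hD⟩ := hL.dvd hlF
  obtain ⟨h1, h2⟩ := hL.parity hl hl2 hSy hρ' hx hD
  rw [fxs_layer h hi] at hD
  refine ⟨D, hD, ?_, ?_, h2⟩
  · intro v hv hw
    have hv' : v ∈ X R ρ (i + 1) := X_mono h hi hv
    have h3 := hL.nd hlF hSy hρ' (v := ⟨v, hv'⟩) (fun a => Subtype.ext (mem_X.1 hv a a.2)) (by
      intro w hw'
      exact hw w (mem_X.2 fun g hg => congrArg Subtype.val (hw' ⟨g, hg⟩)))
    exact congrArg Subtype.val h3
  · rw [finrank_fx_res, finrank_both_res x (fun a : R i => (a : J))] at h1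
    have h3 : (X R ρ (i + 1) ⊓ (fx (ρ x) ⊓ fxs fun a : R i => ρ a) : Submodule F V) =
        X R ρ i ⊓ fx (ρ x) := by
      ext v
      constructor
      · rintro ⟨-, hv, hv'⟩
        exact ⟨hv', hv⟩
      · rintro ⟨hv', hv⟩
        exact ⟨X_mono h hi hv', hv, hv'⟩
    rw [h3] at h1
    exact h1

/-- THE PARITY FORMULA. -/
theorem fil_parity (h : Fil R θ η) {l : ℕ} [CharP k l] (hl : l.Prime) (hl2 : l ≠ 2)
    {B : V →ₗ[F] V →ₗ[F] F} (hB : IsSy B) (hρ : ∀ g u v, B (ρ g u) (ρ g v) = B u v) {N : ℕ}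
    (hN1 : 1 ≤ N) (hN : ∀ g ∈ R N, ρ g = 1) {t : J} (ht : ∃ d, d ≠ 0 ∧ ρ t ^ d = 1)
    (hgen : ∀ g, ∃ (j : ℕ) (p : J) (r : ℕ), Odd r ∧ ρ p ^ r = 1 ∧ θ p ^ r = 1 ∧
      ρ g = ρ t ^ j * ρ p ∧ θ g = θ t ^ j * θ p) :
    Even (finrank F (fx (ρ t)) + finrank F (fxs fun g : J => ρ g) +
      artN R ρ N / Nat.card (Set.range θ)) := by
  classical
  -- the 2-part of `t`
  obtain ⟨d, hd0, hd⟩ := ht
  obtain ⟨d', hd'0, hd'⟩ : ∃ d', d' ≠ 0 ∧ θ t ^ d' = 1 := by
    have hfin : Finite kˣ := inferInstance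
    refine ⟨orderOf (θ.toHomUnits t), (orderOf_pos _).ne', ?_⟩
    have h1 := congrArg (fun z : kˣ => (z : k)) (pow_orderOf_eq_one (θ.toHomUnits t))
    rw [Units.val_pow_eq_pow_val, Units.val_one] at h1
    exact h1
  obtain ⟨e, m, hm, hM⟩ := Nat.exists_eq_two_pow_mul_odd (Nat.mul_ne_zero hd0 hd'0)
  have hρM : ρ t ^ (2 ^ e * m) = 1 := by rw [← hM, pow_mul, hd, one_pow]
  have hθM : θ t ^ (2 ^ e * m) = 1 := by rw [← hM, mul_comm, pow_mul, hd', one_pow]
  have hco : Nat.Coprime (2 ^ e) m := Nat.Coprime.pow_left e (Nat.coprime_two_left.2 hm)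
  obtain ⟨u, hu1, hu2⟩ := Nat.chineseRemainder hco 1 0
  obtain ⟨v, hv1, hv2⟩ := Nat.chineseRemainder hco 0 1
  have huv : ρ (t ^ u) * ρ (t ^ v) = ρ t := by
    have h1 : u + v ≡ 1 [MOD 2 ^ e * m] :=
      (Nat.modEq_and_modEq_iff_modEq_mul hco).1 ⟨hu1.add hv1, hu2.add hv2⟩
    rw [← map_mul, ← pow_add, map_pow, pow_eq_pow_mod _ hρM,
      show (u + v) % (2 ^ e * m) = 1 % (2 ^ e * m) from h1, ← pow_eq_pow_mod _ hρM, pow_one]
  have hvm : ρ (t ^ v) ^ m = 1 := by
    obtain ⟨w, hw⟩ := (Nat.modEq_zero_iff_dvd).1 hv1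
    rw [map_pow, hw, ← pow_mul, show 2 ^ e * w * m = 2 ^ e * m * w by ring, pow_mul, hρM, one_pow]
  have hord : ∀ i : ℕ, orderOf ((θ ^ i) (t ^ u)) =
      2 ^ (Nat.card (Set.range (θ ^ i))).factorization 2 := by
    intro i
    refine ord_two (ζ := θ ^ i) hm ?_ hu1 hu2 fun g => ?_
    · rw [MonoidHom.pow_apply, ← pow_mul, mul_comm, pow_mul, hθM, one_pow]
    · obtain ⟨j, p, r, hr, -, h2, -, h4⟩ := hgen g
      refine ⟨j, θ p ^ i, r, hr, ?_, ?_⟩
      · rw [← pow_mul, mul_comm, pow_mul, h2, one_pow]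
      · rw [MonoidHom.pow_apply, MonoidHom.pow_apply, h4, mul_pow, ← pow_mul, ← pow_mul, mul_comm j]
  -- the layers
  have hXN : X R ρ N = ⊤ := by
    rw [eq_top_iff]
    intro v _
    exact mem_X.2 fun g hg => by rw [hN g hg, End.one_apply]
  have hnd : ∀ j, j < N → ∀ v ∈ X R ρ (N - j), (∀ w ∈ X R ρ (N - j), B v w = 0) → v = 0 := by
    intro j
    induction j with
    | zero =>
      intro _ v _ hv
      rw [Nat.sub_zero, hXN] at hv
      exact hB.nd v fun w => hv w Submodule.mem_top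
    | succ j ih =>
      intro hj
      have h1 : N - j = N - (j + 1) + 1 := by omega
      have h2 := ih (by omega)
      rw [h1] at h2
      obtain ⟨D, -, h3, -⟩ := step h hl hl2 hρ (i := N - (j + 1)) (by omega) (hord _) hB.alt h2
      exact h3
  have hnd' : ∀ i, 1 ≤ i → i ≤ N → ∀ v ∈ X R ρ i, (∀ w ∈ X R ρ i, B v w = 0) → v = 0 := by
    intro i hi hiN
    have h1 := hnd (N - i) (by omega)
    rwa [show N - (N - i) = i by omega] at h1
  have key : ∀ i : ℕ, ∃ D : ℕ, 1 ≤ i → i < N →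
      finrank F (X R ρ (i + 1)) = finrank F (X R ρ i) + Nat.card (Set.range (θ ^ i)) * D ∧
      Even (finrank F (X R ρ (i + 1) ⊓ fx (ρ (t ^ u)) : Submodule F V) +
        finrank F (X R ρ i ⊓ fx (ρ (t ^ u)) : Submodule F V) + D) ∧
      (Odd (Nat.card (Set.range (θ ^ i))) → Even D) := by
    intro i
    by_cases hi : 1 ≤ i ∧ i < N
    · obtain ⟨D, h1, -, h2, h3⟩ := step h hl hl2 hρ hi.1 (hord _) hB.alt
        (hnd' (i + 1) (by omega) (by omega))
      exact ⟨D, fun _ _ => ⟨h1, h2, h3⟩⟩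
    · exact ⟨0, fun h1 h2 => absurd ⟨h1, h2⟩ hi⟩
  choose D hD using key
  have hsum : ∀ M, 1 ≤ M → M ≤ N → Even (finrank F (X R ρ M ⊓ fx (ρ (t ^ u)) : Submodule F V) +
      finrank F (X R ρ 1 ⊓ fx (ρ (t ^ u)) : Submodule F V) + ∑ i ∈ Finset.Ico 1 M, D i) := by
    intro M hM1
    induction M, hM1 using Nat.le_induction with
    | base =>
      intro _
      rw [Finset.Ico_self, Finset.sum_empty, Nat.add_zero]
      exact ⟨_, rfl⟩
    | succ M hM ih =>
      intro hMN
      have h1 := ih (by omega)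
      have h2 := (hD M hM (by omega)).2.1
      rw [Finset.sum_Ico_succ_top hM]
      rw [Nat.even_iff] at h1 h2 ⊢
      omega
  -- the first layer
  have h1c := h.comm
  have hfirst : Even (finrank F (X R ρ 1 ⊓ fx (ρ (t ^ u)) : Submodule F V) +
      finrank F (fxs fun g : J => ρ g)) := by
    let ρ' := resE ρ (X R ρ 1) (X_stab h le_rfl)
    let B' : X R ρ 1 →ₗ[F] X R ρ 1 →ₗ[F] F := B.domRestrict₁₂ (X R ρ 1) (X R ρ 1)
    have hSy : IsSy B' := by
      refine ⟨fun v => hB.alt v, fun v hv => ?_⟩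
      apply Subtype.ext
      exact hnd' 1 le_rfl hN1 v v.2 fun w hw => hv ⟨w, hw⟩
    have hR1 : ∀ g ∈ R 1, ρ' g = 1 := by
      intro g hg
      ext v
      exact mem_X.1 v.2 g hg
    have hcm : ∀ g g', ρ' g * ρ' g' = ρ' g' * ρ' g := by
      intro g g'
      have h2 : g * g' = (g * g' * g⁻¹ * g'⁻¹) * (g' * g) := by group
      rw [← map_mul, h2, map_mul, hR1 _ (h1c g g'), one_mul, map_mul]
    have h3 := pair_even (ι := {p : J // ∃ r, Odd r ∧ ρ' p ^ r = 1}) (T := fun p => ρ' p) hSy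
      (x := ρ' (t ^ u)) (fun u v => hρ _ _ _) (fun a u v => hρ _ _ _) (fun a b => hcm _ _)
      (fun a => hcm _ _) (fun a => a.2)
    have h4 : (fx (ρ' (t ^ u)) ⊓ fxs (fun p : {p : J // ∃ r, Odd r ∧ ρ' p ^ r = 1} => ρ' p) :
        Submodule F (X R ρ 1)) = fxs fun g : J => ρ' g := by
      ext w
      constructor
      · rintro ⟨hw1, hw2⟩ g
        have hres : ∀ (j : ℕ) (p : J) (r : ℕ), ρ p ^ r = 1 → ρ' p ^ r = 1 := by
          intro j p r hp
          rw [← map_pow] at hp ⊢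
          ext w'
          show ρ (p ^ r) w' = w'
          rw [hp, End.one_apply]
        have hv' : ρ' (t ^ v) w = w := hw2 ⟨t ^ v, m, hm, hres 0 _ _ hvm⟩
        have ht' : ρ' t w = w := by
          apply Subtype.ext
          show ρ t w = w
          rw [← huv, End.mul_apply]
          have h5 : ρ (t ^ v) w = w := congrArg Subtype.val hv'
          have h6 : ρ (t ^ u) w = w := congrArg Subtype.val hw1
          rw [h5, h6]
        obtain ⟨j, p, r, hr, h5, -, h6, -⟩ := hgen g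
        apply Subtype.ext
        show ρ g w = w
        have h7 : ρ p w = w := congrArg Subtype.val (hw2 ⟨p, r, hr, hres 0 _ _ h5⟩)
        have h8 : ρ t w = w := congrArg Subtype.val ht'
        rw [h6, End.mul_apply, h7, fix_pow h8]
      · intro hw
        exact ⟨hw _, fun p => hw p⟩
    rw [h4, finrank_fx_res, finrank_fxs_res (fun g : J => g)] at h3
    have h5 : (X R ρ 1 ⊓ fxs (fun g : J => ρ g) : Submodule F V) = fxs fun g : J => ρ g :=
      inf_eq_right.2 fun v hv => mem_X.2 fun g _ => hv g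
    rwa [h5] at h3
  -- `t` and its 2-part
  have hlast : Even (finrank F (fx (ρ (t ^ u))) + finrank F (fx (ρ t))) := by
    have h3 := pair_even (ι := Unit) (T := fun _ => ρ (t ^ v)) hB (x := ρ (t ^ u))
      (fun u v => hρ _ _ _) (fun a u v => hρ _ _ _) (fun a b => rfl)
      (fun a => by
        show ρ (t ^ v) * ρ (t ^ u) = ρ (t ^ u) * ρ (t ^ v)
        rw [← map_mul, ← map_mul, ← pow_add, ← pow_add, add_comm]) (fun a => ⟨m, hm, hvm⟩)
    have h4 : (fx (ρ (t ^ u)) ⊓ fxs (fun _ : Unit => ρ (t ^ v)) : Submodule F V) = fx (ρ t) := by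
      ext w
      constructor
      · rintro ⟨hw1, hw2⟩
        show ρ t w = w
        rw [← huv, End.mul_apply, hw2 (), show ρ (t ^ u) w = w from hw1]
      · intro hw
        refine ⟨?_, fun _ => ?_⟩
        · show ρ (t ^ u) w = w
          rw [map_pow]
          exact fix_pow hw _
        · show ρ (t ^ v) w = w
          rw [map_pow]
          exact fix_pow hw _
    rwa [h4] at h3
  -- the sum
  have hcnt := cnt_even (c := fun i => (R N).relIndex (R i)) (m := fun i => Nat.card (Set.range (θ ^ i)))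
    (u := fun i => finrank F (X R ρ i)) (n := finrank F V) (D := D) (N := N) (card_range_pos θ)
    (Subgroup.relIndex_self _) (by
      show finrank F (X R ρ N) = _
      rw [hXN, finrank_top]) (fun i _ => card_pow θ i) (fun _ hi hi' => c_step h hi hi') (by
      intro i hi hiN
      obtain ⟨j, rfl⟩ := Nat.exists_eq_add_of_le hiN
      clear hsum hD hnd hnd' hN hXN hN1
      induction j generalizing i with
      | zero =>
        show Odd ((R (i + 0)).relIndex (R i))
        rw [Nat.add_zero, Subgroup.relIndex_self]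
        exact odd_one
      | succ j ih =>
        show Odd ((R (i + (j + 1))).relIndex (R i))
        rw [relIndex_step h hi (by omega)]
        refine Odd.mul ?_ (odd_relIndex h hl hl2 hi)
        have h2 := ih (i + 1) (by omega) (by omega)
        rwa [show i + 1 + j = i + (j + 1) by omega] at h2) (fun i hi hi' => (hD i hi hi').1)
    (fun i hi hi' => (hD i hi hi').2.2)
  have h5 := hsum N hN1 le_rfl
  have h6 : finrank F (X R ρ N ⊓ fx (ρ (t ^ u)) : Submodule F V) = finrank F (fx (ρ (t ^ u))) := by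
    rw [hXN, top_inf_eq]
  rw [h6] at h5
  change Even (artN R ρ N / Nat.card (Set.range θ) + ∑ i ∈ Finset.Ico 1 N, D i) at hcnt
  rw [Nat.even_iff] at h5 hfirst hlast hcnt ⊢
  omega

end Pool.Agent.Work.MP_787500_nt.AR
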