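import Mathlib
import Pool.Agent.Work.MP_787500_nt.AR.FG
import Pool.Agent.Work.MP_787500_nt.AR.BC

/-!
# AR/MatF: the parity formula for matrices over an arbitrary field of characteristic 2
-/

set_option autoImplicit false
set_option linter.unusedSectionVars false

namespace Pool.Agent.Work.MP_787500_nt.AR

open Module Matrix
open Pool.Agent.Work.MP_787500_nt.KT (Sy IsSp fixv)

variable {J k : Type*} [Group J] [Field k] [Finite k] {R : ℕ → Subgroup J} {θ : J →* k} {η : ℕ → J → k}

/-- the powers of a matrix over the extension field -/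
theorem mrep_of_eq {F : Type*} [Field F] {n : ℕ} (F' : Type*) [Field F'] [Algebra F F']
    {A : J →* Matrix (Fin n) (Fin n) F} {g : J} {M : Matrix (Fin n) (Fin n) F} (h : A g = M) :
    mrep F' A g = Matrix.toLin' (M.map (algebraMap F F')) := by
  rw [← h]
  rfl

theorem mrep_one {F : Type*} [Field F] {n : ℕ} (F' : Type*) [Field F'] [Algebra F F']
    {A : J →* Matrix (Fin n) (Fin n) F} {g : J} (h : A g = 1) : mrep F' A g = 1 := by
  rw [mrep_of_eq F' h, Matrix.map_one _ (map_zero _) (map_one _), Matrix.toLin'_one]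
  rfl

theorem mrep_pow {F : Type*} [Field F] {n : ℕ} (F' : Type*) [Field F'] [Algebra F F']
    {A : J →* Matrix (Fin n) (Fin n) F} {g : J} {r : ℕ} (h : A g ^ r = 1) : mrep F' A g ^ r = 1 := by
  rw [← map_pow] at h ⊢
  exact mrep_one F' h

theorem mrep_congr {F : Type*} [Field F] {n : ℕ} (F' : Type*) [Field F'] [Algebra F F']
    {A : J →* Matrix (Fin n) (Fin n) F} {g h : J} (hgh : A g = A h) : mrep F' A g = mrep F' A h := by
  rw [mrep_of_eq F' hgh]
  rfl

/-- divisibility for representations over a field in which `l` is not zero -/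
theorem dvd_mat {E : Type*} [Field E] {n : ℕ} (h : Fil R θ η) {l : ℕ} [CharP k l] (hl : (l : E) ≠ 0)
    {A : J →* Matrix (Fin n) (Fin n) E} {N : ℕ} (hN : ∀ g ∈ R N, A g = 1) :
    Nat.card (Set.range θ) ∣ artN R (mrep E A) N := by
  rw [← artN_mrep (AlgebraicClosure E) A R N]
  refine fil_dvd h (l := l) (fun h0 => hl ?_) fun g hg => mrep_one _ (hN g hg)
  rw [← map_natCast (algebraMap E (AlgebraicClosure E))] at h0
  exact (map_eq_zero_iff _ (FaithfulSMul.algebraMap_injective E (AlgebraicClosure E))).1 h0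

/-- THE PARITY FORMULA for symplectic matrices in characteristic 2 -/
theorem parity_mat {F : Type*} [Field F] [CharP F 2] {n : ℕ} [Sy F n] (h : Fil R θ η) {l : ℕ} [CharP k l]
    (hl : l.Prime) (hl2 : l ≠ 2) {A : J →* Matrix (Fin n) (Fin n) F} (hA : ∀ g, IsSp (A g)) {N : ℕ}
    (hN1 : 1 ≤ N) (hN : ∀ g ∈ R N, A g = 1) {t : J} (ht : ∃ d, d ≠ 0 ∧ A t ^ d = 1)
    (hgen : ∀ g, ∃ (j : ℕ) (p : J) (r : ℕ), Odd r ∧ A p ^ r = 1 ∧ θ p ^ r = 1 ∧
      A g = A t ^ j * A p ∧ θ g = θ t ^ j * θ p) :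
    Even (finrank F (fixv (A t)) + finrank F (fxs fun g : J => mrep F A g) +
      artN R (mrep F A) N / Nat.card (Set.range θ)) := by
  obtain ⟨B, hB, hBs⟩ := exists_form (F := F) (n := n) (AlgebraicClosure F)
  have hch : CharP (AlgebraicClosure F) 2 := charP_of_injective_algebraMap
    (FaithfulSMul.algebraMap_injective F (AlgebraicClosure F)) 2
  have h1 := fil_parity h hl hl2 hB (ρ := mrep (AlgebraicClosure F) A)
    (fun g u v => hBs (A g) (hA g) u v) hN1 (fun g hg => mrep_one _ (hN g hg)) (t := t)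
    (ht.imp fun d hd => ⟨hd.1, mrep_pow _ hd.2⟩) (fun g => by
      obtain ⟨j, p, r, h1, h2, h3, h4, h5⟩ := hgen g
      refine ⟨j, p, r, h1, mrep_pow _ h2, h3, ?_, h5⟩
      rw [← map_pow, ← map_mul]
      exact mrep_congr _ (by rw [h4, map_mul, map_pow]))
  rw [artN_mrep (AlgebraicClosure F) A R N, finrank_fx_mrep (AlgebraicClosure F) A t,
    finrank_fxs_mrep (AlgebraicClosure F) A (fun g : J => g)] at h1
  have h2 : fx (mrep F A t) = fixv (A t) := by
    ext v
    rw [mem_fx, mrep_self]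
    exact Iff.rfl
  rw [h2] at h1
  exact h1

end Pool.Agent.Work.MP_787500_nt.AR
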