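import Mathlib
import Pool.Agent.Work.MP_787500_nt.AR.Defs

/-!
# AR/Sw (size S): the number `swan` in terms of `artN`

The index set of the space in `swan` (the elements of `H` in `wildSet l Q` and `ramSet W Q i`; they belong to `Q.inertia`) corresponds to `R i`. For `i ≥ N` the elements of `R i` belong
to `W` and act trivially, so the codimension is 0 and the sum over all `k` (with `i = k + 1`) is finite (`finsum_eq_sum_of_support_subset`), and equal to the sum over `1 ≤ i < N`.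
* `wildDiff_eq`: the same for `wildDiff`; `c i` and `h i` are 1 for `i ≥ N`.
-/

set_option autoImplicit false
set_option linter.unusedSectionVars false

namespace Pool.Agent.Work.MP_787500_nt.AR

open Module NumberField Matrix

variable {K : Type*} [Field K] {W H : Subgroup (AbsGal K)} {l : ℕ} {Q : Ideal (𝓞 (AlgebraicClosure K))}
  {E : Type*} [NormedField E] {n : ℕ}

private theorem fsum_shift (f : ℕ → ℕ) {N : ℕ} (h : ∀ i, N ≤ i → f i = 0) (hN1 : 1 ≤ N) :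
    ∑ᶠ k : ℕ, f (k + 1) = ∑ i ∈ Finset.Ico 1 N, f i := by
  rw [finsum_eq_sum_of_support_subset (s := Finset.range (N - 1))]
  · rw [Finset.sum_Ico_eq_sum_range]
    refine Finset.sum_congr rfl fun k _ => ?_
    rw [add_comm]
  · intro k hk
    rw [Function.mem_support] at hk
    rw [Finset.coe_range, Set.mem_Iio]
    by_contra hlt
    exact hk (h (k + 1) (by omega))

private theorem fixedBy_top {ι : Type*} (B : ι → Matrix (Fin n) (Fin n) E) (h : ∀ i, B i = 1) :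
    n - finrank E (Parity.fixedBy B) = 0 := by
  have : Parity.fixedBy B = ⊤ := by
    rw [eq_top_iff]
    intro v _
    change ∀ i, B i *ᵥ v = v
    intro i
    rw [h i, Matrix.one_mulVec]
  rw [this, finrank_top, finrank_fin_fun, Nat.sub_self]

private theorem fixedBy_fxs {J : Type*} [Group J] {ι : Type*} (B : ι → Matrix (Fin n) (Fin n) E)
    (A : J →* Matrix (Fin n) (Fin n) E) (R : Subgroup J)
    (h1 : ∀ g : R, ∃ i, B i = A g) (h2 : ∀ i, ∃ g : R, A g = B i) :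
    Parity.fixedBy B = fxs fun g : R => mrep E A g := by
  ext v
  rw [mem_fxs]
  change (∀ i, B i *ᵥ v = v) ↔ _
  constructor
  · intro hv g
    obtain ⟨i, hi⟩ := h1 g
    rw [mrep_self, ← hi]
    exact hv i
  · intro hv i
    obtain ⟨g, hg⟩ := h2 i
    rw [← hg, ← mrep_self]
    exact hv g

private theorem artN_eq {J : Type*} [Group J] {R : ℕ → Subgroup J} {N : ℕ}
    {A : J →* Matrix (Fin n) (Fin n) E} {c : ℕ → ℕ} (hc : ∀ i, 1 ≤ i → c i = (R N).relIndex (R i))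
    {d : ℕ → ℕ} (hd : ∀ i, 1 ≤ i → d i = finrank E (fxs fun g : R i => mrep E A g)) :
    ∑ i ∈ Finset.Ico 1 N, c i * (n - d i) = artN R (mrep E A) N := by
  unfold artN
  refine Finset.sum_congr rfl fun i hi => ?_
  rw [Finset.mem_Ico] at hi
  rw [hc i hi.1, hd i hi.1, finrank_fin_fun]

theorem swan_eq {R : ℕ → Subgroup (Q.inertia (AbsGal K) ⊓ H : Subgroup (AbsGal K))}
    (hR : ∀ i, 1 ≤ i → ∀ g : (Q.inertia (AbsGal K) ⊓ H : Subgroup (AbsGal K)), g ∈ R i ↔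
      (g : AbsGal K) ∈ wildSet l Q ∧ (g : AbsGal K) ∈ ramSet W Q i)
    {N : ℕ} (hN1 : 1 ≤ N) (hN : ∀ i, N ≤ i → ∀ g ∈ R i, ((g : (Q.inertia (AbsGal K) ⊓ H : Subgroup (AbsGal K))) :
        AbsGal K) ∈ W)
    (hc : ∀ i, 1 ≤ i → ramCard H W Q i = (R N).relIndex (R i)) {τ : H →* Matrix (Fin n) (Fin n) E}
    (hτ : ∀ g : H, (g : AbsGal K) ∈ W → (g : AbsGal K) ∈ wildSet l Q → τ g = 1)
    {A : (Q.inertia (AbsGal K) ⊓ H : Subgroup (AbsGal K)) →* Matrix (Fin n) (Fin n) E}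
    (hA : ∀ g : (Q.inertia (AbsGal K) ⊓ H : Subgroup (AbsGal K)), A g = τ ⟨g, g.2.2⟩) :
    swan l W Q τ = artN R (mrep E A) N / (ramCard H W Q 0 / ramCard H W Q 1) := by
  have key : (∑ᶠ k : ℕ, ramCard H W Q (k + 1) * (n - finrank E (Parity.fixedBy
      (fun σ : {σ : H // (σ : AbsGal K) ∈ wildSet l Q ∧ (σ : AbsGal K) ∈ ramSet W Q (k + 1)} => τ σ)))) =
        artN R (mrep E A) N := by
    have h0 := fsum_shift (fun i => ramCard H W Q i * (n - finrank E (Parity.fixedBy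
      (fun σ : {σ : H // (σ : AbsGal K) ∈ wildSet l Q ∧ (σ : AbsGal K) ∈ ramSet W Q i} => τ σ)))) (N := N)
      (by
        intro i hi
        rw [fixedBy_top, mul_zero]
        rintro ⟨σ, hσ1, hσ2⟩
        exact hτ σ (hN i hi ⟨σ, hσ1.1, σ.2⟩ ((hR i (hN1.trans hi) _).2 ⟨hσ1, hσ2⟩)) hσ1) hN1
    refine h0.trans (artN_eq hc ?_)
    intro i hi
    rw [fixedBy_fxs _ A (R i)]
    · rintro ⟨g, hg⟩
      have hg' := (hR i hi g).1 hg
      exact ⟨⟨⟨g, g.2.2⟩, hg'.1, hg'.2⟩, (hA g).symm⟩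
    · rintro ⟨σ, hσ1, hσ2⟩
      refine ⟨⟨⟨σ, hσ1.1, σ.2⟩, (hR i hi _).2 ⟨hσ1, hσ2⟩⟩, ?_⟩
      rw [hA]
  unfold swan
  rw [key]

theorem swanK_eq {R : ℕ → Subgroup (Q.inertia (AbsGal K) ⊓ ⊤ : Subgroup (AbsGal K))}
    (hR : ∀ i, 1 ≤ i → ∀ g : (Q.inertia (AbsGal K) ⊓ ⊤ : Subgroup (AbsGal K)), g ∈ R i ↔
      (g : AbsGal K) ∈ wildSet l Q ∧ (g : AbsGal K) ∈ ramSet W Q i)
    {N : ℕ} (hN1 : 1 ≤ N) (hN : ∀ i, N ≤ i → ∀ g ∈ R i, ((g : (Q.inertia (AbsGal K) ⊓ ⊤ : Subgroup (AbsGal K))) :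
        AbsGal K) ∈ W)
    (hc : ∀ i, 1 ≤ i → ramCard ⊤ W Q i = (R N).relIndex (R i)) {ρ : AbsGal K →* Matrix (Fin n) (Fin n) E}
    (hτ : ∀ g ∈ W, g ∈ wildSet l Q → ρ g = 1)
    {A : (Q.inertia (AbsGal K) ⊓ ⊤ : Subgroup (AbsGal K)) →* Matrix (Fin n) (Fin n) E}
    (hA : ∀ g : (Q.inertia (AbsGal K) ⊓ ⊤ : Subgroup (AbsGal K)), A g = ρ g) :
    swanK l W Q ρ = artN R (mrep E A) N / (ramCard ⊤ W Q 0 / ramCard ⊤ W Q 1) := by
  have key : (∑ᶠ k : ℕ, ramCard ⊤ W Q (k + 1) * (n - finrank E (Parity.fixedBy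
      (fun σ : {σ : AbsGal K // σ ∈ wildSet l Q ∧ σ ∈ ramSet W Q (k + 1)} => ρ σ)))) =
        artN R (mrep E A) N := by
    have h0 := fsum_shift (fun i => ramCard ⊤ W Q i * (n - finrank E (Parity.fixedBy
      (fun σ : {σ : AbsGal K // σ ∈ wildSet l Q ∧ σ ∈ ramSet W Q i} => ρ σ)))) (N := N)
      (by
        intro i hi
        rw [fixedBy_top, mul_zero]
        rintro ⟨σ, hσ1, hσ2⟩
        exact hτ σ (hN i hi ⟨σ, hσ1.1, Subgroup.mem_top σ⟩ ((hR i (hN1.trans hi) _).2 ⟨hσ1, hσ2⟩)) hσ1) hN1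
    refine h0.trans (artN_eq hc ?_)
    intro i hi
    rw [fixedBy_fxs _ A (R i)]
    · rintro ⟨g, hg⟩
      have hg' := (hR i hi g).1 hg
      exact ⟨⟨g, hg'.1, hg'.2⟩, (hA g).symm⟩
    · rintro ⟨σ, hσ1, hσ2⟩
      refine ⟨⟨⟨σ, hσ1.1, Subgroup.mem_top σ⟩, (hR i hi _).2 ⟨hσ1, hσ2⟩⟩, ?_⟩
      rw [hA]
  unfold swanK
  rw [key]

theorem wildDiff_eq {N : ℕ} (hN1 : 1 ≤ N) (h1 : ∀ i, N ≤ i → ramCard ⊤ W Q i = 1)
    (h2 : ∀ i, N ≤ i → ramCard H W Q i = 1) :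
    wildDiff H W Q = (∑ i ∈ Finset.Ico 1 N, (ramCard ⊤ W Q i - ramCard H W Q i)) /
      (ramCard H W Q 0 / ramCard H W Q 1) := by
  unfold wildDiff
  have h0 := fsum_shift (fun i => ramCard ⊤ W Q i - ramCard H W Q i) (N := N)
    (by
      intro i hi
      rw [h1 i hi, h2 i hi]) hN1
  have h0' : (∑ᶠ k : ℕ, (ramCard ⊤ W Q (k + 1) - ramCard H W Q (k + 1))) =
      ∑ i ∈ Finset.Ico 1 N, (ramCard ⊤ W Q i - ramCard H W Q i) := h0
  rw [h0']

end Pool.Agent.Work.MP_787500_nt.AR
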