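import Mathlib
import Pool.Agent.Work.MP_787500_nt.AR.MatF
import Pool.Agent.Work.MP_787500_nt.AR.FilI
import Pool.Agent.Work.MP_787500_nt.AR.Sw
import Pool.Agent.Work.MP_787500_nt.AR.IndC

/-!
# AR/Nums (size M): the orders of the ramification groups

From `exists_fil` (for `H`): `ramCard H W Q i = (R N).relIndex (R i)` for `i ≥ 1` and large `N`, `ramCard H W Q 0 / ramCard H W Q 1 = Nat.card (range θ)`.
* `one`: for `i ≥ N`, `R i = R N` modulo .. (take `N' = i` in `exists_fil`: `(R i).relIndex (R i) = 1`).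
* `odd`: `odd_relIndex` and multiplicativity (as in `odd_rel` in AR/Core.lean; copy it or import AR/Core).
* `e0`: `ramCard H W Q 1` divides `ramCard H W Q 0` (`ramCard_zero`, `ramCard_sub`, multiplicativity of the index).
* `sum`: `fil_sum`.
* `swan_mul`: `swan_eq`, `dvd_mat` (characteristic 0: `(l : E) ≠ 0`), and `artN` in terms of `ramCard` and the fixed spaces.
* `ramCard_dvd`: `W.relIndex (P ⊓ H)` divides `W.relIndex P` (`W ≤ H`).
* `e_dvd`: `[I ∩ H : S ∩ H]` divides `[I : S]` for the normal subgroup `S = I ∩ ramSet W Q 1` of `I` (`Subgroup.relIndex_dvd_of_le_left`-like); or: both are the orders of the images of `θ` on `I ∩ H` and `I`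
  (uniqueness of `Nat.card`: the image is `I ∩ H` modulo `ramSet W Q 1`).
-/

set_option autoImplicit false
set_option linter.unusedSectionVars false

namespace Pool.Agent.Work.MP_787500_nt.AR

open Module NumberField Matrix

universe u

variable {K : Type u} [Field K] [NumberField K] {W H : Subgroup (AbsGal K)} {l : ℕ}
  {Q : Ideal (𝓞 (AlgebraicClosure K))}

private theorem nums_anti {J k : Type*} [Group J] [Field k] {R : ℕ → Subgroup J} {θ : J →* k}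
    {η : ℕ → J → k} (h : Fil R θ η) {i : ℕ} (hi : 1 ≤ i) : ∀ j, i ≤ j → R j ≤ R i := by
  intro j hj
  induction j, hj using Nat.le_induction with
  | base => exact le_rfl
  | succ j hj ih =>
    intro g hg
    exact ih ((h.ker j (hi.trans hj) g).1 hg).1

private theorem nums_odd {J k : Type*} [Group J] [Field k] [Finite k] {R : ℕ → Subgroup J} {θ : J →* k}
    {η : ℕ → J → k} (h : Fil R θ η) {l : ℕ} [CharP k l] (hl : l.Prime) (hl2 : l ≠ 2) {N : ℕ} :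
    ∀ j i, 1 ≤ i → i + j = N → Odd ((R N).relIndex (R i)) := by
  intro j
  induction j with
  | zero =>
    intro i hi hiN
    obtain rfl : i = N := by omega
    rw [Subgroup.relIndex_self]
    exact odd_one
  | succ j ih =>
    intro i hi hiN
    rw [← Subgroup.relIndex_mul_relIndex _ _ _ (nums_anti h (i := i + 1) (by omega) N (by omega))
      (nums_anti h hi (i + 1) (by omega))]
    exact (ih (i + 1) (by omega) (by omega)).mul (odd_relIndex h hl hl2 hi)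

private theorem rel_dvd {G : Type*} [Group G] {U : Subgroup G} (hn : U.Normal) {A B : Subgroup G}
    (h : A ≤ B) : U.relIndex A ∣ U.relIndex B := by
  have h1 : ∀ C : Subgroup G, U.relIndex C = Nat.card (C.map (QuotientGroup.mk' U)) := by
    intro C
    rw [← Subgroup.relIndex_ker, QuotientGroup.ker_mk']
  rw [h1, h1]
  exact Subgroup.card_dvd_of_le (Subgroup.map_mono h)

private theorem card_range_eq {J k : Type*} [Group J] [Field k] (θ : J →* k) :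
    Nat.card (Set.range θ) = θ.toHomUnits.ker.index := by
  rw [Subgroup.index_ker]
  have h1 : Set.range θ = (Units.val : kˣ → k) '' (θ.toHomUnits.range : Set kˣ) := by
    ext x
    constructor
    · rintro ⟨g, rfl⟩
      exact ⟨θ.toHomUnits g, ⟨g, rfl⟩, rfl⟩
    · rintro ⟨_, ⟨g, rfl⟩, rfl⟩
      exact ⟨g, rfl⟩
  rw [h1, Nat.card_image_of_injective Units.val_injective]
  rfl

private theorem fixedBy_fxs' {E : Type*} [NormedField E] {n : ℕ} {J : Type*} [Group J] {ι : Type*}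
    (B : ι → Matrix (Fin n) (Fin n) E)
    (A : J →* Matrix (Fin n) (Fin n) E) (R : Subgroup J)
    (h1 : ∀ g : R, ∃ i, B i = A g) (h2 : ∀ i, ∃ g : R, A g = B i) :
    Parity.fixedBy B = fxs fun g : R => mrep E A g := by
  ext v
  rw [mem_fxs]
  change (∀ i, B i *ᵥ v = v) ↔ _
  constructor
  · intro hv g
    obtain ⟨i, hi⟩ := h1 g
    rw [mrep_self, ← hi]
    exact hv i
  · intro hv i
    obtain ⟨g, hg⟩ := h2 i
    rw [← hg, ← mrep_self]
    exact hv g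

/-- the properties of the numbers `ramCard H W Q i` -/
structure Nums (H W : Subgroup (AbsGal K)) (Q : Ideal (𝓞 (AlgebraicClosure K))) (N : ℕ) : Prop where
  one : ∀ i, N ≤ i → ramCard H W Q i = 1
  odd : ∀ i, 1 ≤ i → Odd (ramCard H W Q i)
  pos : 0 < ramCard H W Q 0
  e0 : ramCard H W Q 0 = ramCard H W Q 0 / ramCard H W Q 1 * ramCard H W Q 1
  sum : ramCard H W Q 0 / ramCard H W Q 1 ∣ ∑ i ∈ Finset.Ico 1 N, (ramCard H W Q i - 1)

theorem exists_nums (hl : l.Prime) (hl2 : l ≠ 2) (hQ : Q.IsPrime) (hlQ : (l : 𝓞 (AlgebraicClosure K)) ∈ Q)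
    (hW : IsOpen (W : Set (AbsGal K))) (hn : W.Normal) (hWH : W ≤ H) :
    ∃ N₀, 1 ≤ N₀ ∧ ∀ N, N₀ ≤ N → Nums H W Q N := by
  obtain ⟨k, i1, i2, i3, R, θ, η, hF, hR, hθ, ⟨N₀, hN1, hN⟩, he⟩ :=
    exists_fil (Q := Q) hl hQ hlQ hW hn hWH
  have hpos : 0 < Nat.card (Set.range θ) := card_range_pos θ
  refine ⟨N₀, hN1, fun N hNN => ⟨?_, ?_, ?_, ?_, ?_⟩⟩
  · intro i hi
    rw [(hN i (hNN.trans hi)).2 i (hN1.trans (hNN.trans hi)), Subgroup.relIndex_self]
  · intro i hi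
    rw [(hN (max N₀ i) (le_max_left _ _)).2 i hi]
    refine nums_odd hF hl hl2 (max N₀ i - i) i hi ?_
    have := le_max_right N₀ i
    omega
  · rcases Nat.eq_zero_or_pos (ramCard H W Q 0) with h0 | h0
    · rw [h0, Nat.zero_div] at he
      omega
    · exact h0
  · obtain ⟨P, hP⟩ := exists_sub hl hQ hlQ hW hn 1
    have h1 : ramCard H W Q 1 ∣ ramCard H W Q 0 := by
      rw [ramCard_sub hl hQ hlQ hW hn hWH le_rfl hP, ramCard_zero hW hn hWH]
      exact rel_dvd hn (inf_le_inf_right _ fun g hg => ((hP g).1 hg).1.1)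
    exact (Nat.div_mul_cancel h1).symm
  · rw [he]
    have h1 := fil_sum hF N
    have h2 : ∑ i ∈ Finset.Ico 1 N, (ramCard H W Q i - 1) =
        ∑ i ∈ Finset.Ico 1 N, ((R N).relIndex (R i) - 1) := by
      refine Finset.sum_congr rfl fun i hi => ?_
      rw [(hN N hNN).2 i (Finset.mem_Ico.1 hi).1]
    rw [h2]
    exact h1

theorem swan_mul (hl : l.Prime) (hQ : Q.IsPrime) (hlQ : (l : 𝓞 (AlgebraicClosure K)) ∈ Q)
    (hW : IsOpen (W : Set (AbsGal K))) (hn : W.Normal) (hWH : W ≤ H) {E : Type*} [NormedField E]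
    [CharZero E] {n : ℕ} {τ : H →* Matrix (Fin n) (Fin n) E}
    (hτ : ∀ g : H, (g : AbsGal K) ∈ W → (g : AbsGal K) ∈ wildSet l Q → τ g = 1) :
    ∃ N₀, 1 ≤ N₀ ∧ ∀ N, N₀ ≤ N → ramCard H W Q 0 / ramCard H W Q 1 * swan l W Q τ =
      ∑ i ∈ Finset.Ico 1 N, ramCard H W Q i * (n - finrank E (Parity.fixedBy
        (fun σ : {σ : H // (σ : AbsGal K) ∈ wildSet l Q ∧ (σ : AbsGal K) ∈ ramSet W Q i} => τ σ))) := by
  obtain ⟨k, i1, i2, i3, R, θ, η, hF, hR, hθ, ⟨N₀, hN1, hN⟩, he⟩ :=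
    exists_fil (Q := Q) hl hQ hlQ hW hn hWH
  refine ⟨N₀, hN1, fun N hNN => ?_⟩
  let A : (Q.inertia (AbsGal K) ⊓ H : Subgroup (AbsGal K)) →* Matrix (Fin n) (Fin n) E :=
    τ.comp (Subgroup.inclusion inf_le_right)
  have hA : ∀ g : (Q.inertia (AbsGal K) ⊓ H : Subgroup (AbsGal K)), A g = τ ⟨g, g.2.2⟩ := fun _ => rfl
  have hNl : 1 ≤ N := hN1.trans hNN
  have h1 := swan_eq hR hNl (fun i hi => (hN i (hNN.trans hi)).1) (hN N hNN).2 hτ hA
  have h2 : Nat.card (Set.range θ) ∣ artN R (mrep E A) N :=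
    dvd_mat hF (l := l) (by exact_mod_cast hl.ne_zero) fun g hg =>
      hτ ⟨g, g.2.2⟩ ((hN N hNN).1 g hg) ((hR N hNl g).1 hg).1
  rw [h1, he, Nat.mul_div_cancel' h2]
  unfold artN
  refine Finset.sum_congr rfl fun i hi => ?_
  have hi1 := (Finset.mem_Ico.1 hi).1
  rw [(hN N hNN).2 i hi1, finrank_fin_fun, fixedBy_fxs' _ A (R i)]
  · rintro ⟨g, hg⟩
    have hg' := (hR i hi1 g).1 hg
    exact ⟨⟨⟨g, g.2.2⟩, hg'.1, hg'.2⟩, (hA g).symm⟩
  · rintro ⟨σ, hσ1, hσ2⟩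
    refine ⟨⟨⟨σ, hσ1.1, σ.2⟩, (hR i hi1 _).2 ⟨hσ1, hσ2⟩⟩, ?_⟩
    rw [hA]

theorem swanK_mul (hl : l.Prime) (hQ : Q.IsPrime) (hlQ : (l : 𝓞 (AlgebraicClosure K)) ∈ Q)
    (hW : IsOpen (W : Set (AbsGal K))) (hn : W.Normal) {E : Type*} [NormedField E]
    [CharZero E] {m : ℕ} {ρ : AbsGal K →* Matrix (Fin m) (Fin m) E}
    (hτ : ∀ g ∈ W, g ∈ wildSet l Q → ρ g = 1) :
    ∃ N₀, 1 ≤ N₀ ∧ ∀ N, N₀ ≤ N → ramCard ⊤ W Q 0 / ramCard ⊤ W Q 1 * swanK l W Q ρ =
      ∑ i ∈ Finset.Ico 1 N, ramCard ⊤ W Q i * (m - finrank E (Parity.fixedBy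
        (fun σ : {σ : AbsGal K // σ ∈ wildSet l Q ∧ σ ∈ ramSet W Q i} => ρ σ))) := by
  obtain ⟨k, i1, i2, i3, R, θ, η, hF, hR, hθ, ⟨N₀, hN1, hN⟩, he⟩ :=
    exists_fil (Q := Q) hl hQ hlQ hW hn (H := ⊤) le_top
  refine ⟨N₀, hN1, fun N hNN => ?_⟩
  let A : (Q.inertia (AbsGal K) ⊓ ⊤ : Subgroup (AbsGal K)) →* Matrix (Fin m) (Fin m) E :=
    ρ.comp (Subgroup.subtype _)
  have hA : ∀ g : (Q.inertia (AbsGal K) ⊓ ⊤ : Subgroup (AbsGal K)), A g = ρ g := fun _ => rfl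
  have hNl : 1 ≤ N := hN1.trans hNN
  have h1 := swanK_eq hR hNl (fun i hi => (hN i (hNN.trans hi)).1) (hN N hNN).2 hτ hA
  have h2 : Nat.card (Set.range θ) ∣ artN R (mrep E A) N :=
    dvd_mat hF (l := l) (by exact_mod_cast hl.ne_zero) fun g hg =>
      hτ g ((hN N hNN).1 g hg) ((hR N hNl g).1 hg).1
  rw [h1, he, Nat.mul_div_cancel' h2]
  unfold artN
  refine Finset.sum_congr rfl fun i hi => ?_
  have hi1 := (Finset.mem_Ico.1 hi).1
  rw [(hN N hNN).2 i hi1, finrank_fin_fun, fixedBy_fxs' _ A (R i)]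
  · rintro ⟨g, hg⟩
    have hg' := (hR i hi1 g).1 hg
    exact ⟨⟨g, hg'.1, hg'.2⟩, (hA g).symm⟩
  · rintro ⟨σ, hσ1, hσ2⟩
    refine ⟨⟨⟨σ, hσ1.1, Subgroup.mem_top σ⟩, (hR i hi1 _).2 ⟨hσ1, hσ2⟩⟩, ?_⟩
    rw [hA]

theorem ramCard_dvd (hl : l.Prime) (hQ : Q.IsPrime) (hlQ : (l : 𝓞 (AlgebraicClosure K)) ∈ Q)
    (hW : IsOpen (W : Set (AbsGal K))) (hn : W.Normal) (hWH : W ≤ H) (i : ℕ) :
    ramCard H W Q i ∣ ramCard ⊤ W Q i := by
  rcases Nat.eq_zero_or_pos i with rfl | hi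
  · rw [ramCard_zero hW hn hWH, ramCard_zero hW hn le_top]
    exact rel_dvd hn (inf_le_inf_left _ le_top)
  · obtain ⟨P, hP⟩ := exists_sub hl hQ hlQ hW hn i
    rw [ramCard_sub hl hQ hlQ hW hn hWH hi hP, ramCard_sub hl hQ hlQ hW hn le_top hi hP]
    exact rel_dvd hn (inf_le_inf_left _ le_top)

theorem e_dvd (hl : l.Prime) (hQ : Q.IsPrime) (hlQ : (l : 𝓞 (AlgebraicClosure K)) ∈ Q)
    (hW : IsOpen (W : Set (AbsGal K))) (hn : W.Normal) (hWH : W ≤ H) :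
    ramCard H W Q 0 / ramCard H W Q 1 ∣ ramCard ⊤ W Q 0 / ramCard ⊤ W Q 1 := by
  obtain ⟨k, i1, i2, i3, R, θ, η, hF, hR, hθ, -, he⟩ :=
    exists_fil (Q := Q) hl hQ hlQ hW hn hWH
  obtain ⟨k', j1, j2, j3, R', θ', η', hF', hR', hθ', -, he'⟩ :=
    exists_fil (Q := Q) hl hQ hlQ hW hn (H := ⊤) le_top
  rw [he, he', card_range_eq, card_range_eq]
  let ι : (Q.inertia (AbsGal K) ⊓ H : Subgroup (AbsGal K)) →*
      (Q.inertia (AbsGal K) ⊓ ⊤ : Subgroup (AbsGal K)) := Subgroup.inclusion (inf_le_inf_left _ le_top)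
  have hk : θ.toHomUnits.ker = θ'.toHomUnits.ker.comap ι := by
    ext g
    rw [Subgroup.mem_comap, MonoidHom.mem_ker, MonoidHom.mem_ker, Units.ext_iff, Units.ext_iff]
    change θ g = 1 ↔ θ' (ι g) = 1
    rw [hθ, hθ']
    rfl
  rw [hk, Subgroup.index_comap]
  exact Subgroup.relIndex_dvd_index_of_normal _ _

end Pool.Agent.Work.MP_787500_nt.AR
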