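import Mathlib
import Pool.Agent.Work.MP_787500_nt.AR.Nums
import Pool.Agent.Work.MP_787500_nt.AR.IndN
import Pool.Agent.Work.MP_787500_nt.SH.FinalR

/-!
# AR/IndSw: the Artin conductor of the induced representation

`art_ind`: the number `artK` of the induced representation is congruent to `condA` modulo 2.
-/

set_option autoImplicit false
set_option linter.unusedSectionVars false

namespace Pool.Agent.Work.MP_787500_nt.AR

open Module NumberField Matrix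
open Pool.Agent.Work.MP_787500_nt.SH (IsInd fix_cs iner_conj iner_nor iner_le stabD_conj)
open Pool.Agent.Work.MP_787500_nt.GP (stabD)

universe u

/-- THE ARITHMETIC: the numbers of the induced representation -/
theorem arith_ind {Ψ : Type*} [Fintype Ψ] {e₀ c₁ c₀ X : ℕ} (he₀ : 0 < e₀) (hc0 : c₀ = e₀ * c₁)
    (hc1 : Odd c₁) {F f e eH h₀ h₁ S : Ψ → ℕ} (hF : ∀ i, F i = f i * e i)
    (h1 : ∀ i, c₀ = e i * h₀ i) (h2 : ∀ i, h₀ i = eH i * h₁ i) (h3 : ∀ i, h₁ i ∣ c₁)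
    (hX : X = ∑ i, F i * (eH i * S i)) : X / e₀ ≡ ∑ i, f i * S i [MOD 2] := by
  have hc1p : 0 < c₁ := hc1.pos
  have key : ∀ i, ∃ o, Odd o ∧ e i * eH i = e₀ * o := by
    intro i
    obtain ⟨o, ho⟩ := h3 i
    have hh : 0 < h₁ i := Nat.pos_of_ne_zero fun h0 => by
      rw [h0, Nat.zero_mul] at ho
      omega
    refine ⟨o, ?_, ?_⟩
    · rw [ho] at hc1
      exact (Nat.odd_mul.1 hc1).2
    · have h4 : e i * (eH i * h₁ i) = e₀ * (h₁ i * o) := by rw [← h2, ← h1, hc0, ho]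
      have h5 : h₁ i * (e i * eH i) = h₁ i * (e₀ * o) := by
        calc h₁ i * (e i * eH i) = e i * (eH i * h₁ i) := by ring
          _ = h₁ i * (e₀ * o) := by rw [h4]; ring
      exact Nat.eq_of_mul_eq_mul_left hh h5
  choose o ho ho' using key
  have h6 : X = e₀ * ∑ i, f i * o i * S i := by
    rw [hX, Finset.mul_sum]
    refine Finset.sum_congr rfl fun i _ => ?_
    calc F i * (eH i * S i) = f i * (e i * eH i) * S i := by rw [hF]; ring
      _ = e₀ * (f i * o i * S i) := by rw [ho']; ring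
  rw [h6, Nat.mul_div_cancel_left _ he₀]
  refine Nat.ModEq.sum ?_
  intro i _
  have h7 : o i ≡ 1 [MOD 2] := Nat.odd_iff.1 (ho i)
  have h8 := ((Nat.ModEq.refl (f i)).mul h7).mul (Nat.ModEq.refl (S i))
  rwa [Nat.mul_one] at h8

/-- the space fixed by the subgroup of the elements in `wildSet` and `ramSet` -/
theorem fixedBy_sub {K : Type u} [Field K] {H P : Subgroup (AbsGal K)} {W : Subgroup (AbsGal K)} {l i : ℕ}
    {Q : Ideal (𝓞 (AlgebraicClosure K))} (hP : ∀ g, g ∈ P ↔ g ∈ wildSet l Q ∧ g ∈ ramSet W Q i)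
    {E : Type*} [NormedField E] {n : ℕ} (τ : H →* Matrix (Fin n) (Fin n) E) :
    Parity.fixedBy (fun σ : P.subgroupOf H => τ σ) = Parity.fixedBy
      (fun σ : {σ : H // (σ : AbsGal K) ∈ wildSet l Q ∧ (σ : AbsGal K) ∈ ramSet W Q i} => τ σ) := by
  ext v
  exact ⟨fun h σ => h ⟨σ.1, (hP _).2 σ.2⟩, fun h σ => h ⟨σ.1, (hP _).1 σ.2⟩⟩

theorem fixedBy_subK {K : Type u} [Field K] {P : Subgroup (AbsGal K)} {W : Subgroup (AbsGal K)} {l i : ℕ}
    {Q : Ideal (𝓞 (AlgebraicClosure K))} (hP : ∀ g, g ∈ P ↔ g ∈ wildSet l Q ∧ g ∈ ramSet W Q i)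
    {E : Type*} [NormedField E] {n : ℕ} (ρ : AbsGal K →* Matrix (Fin n) (Fin n) E) :
    Parity.fixedBy (fun σ : P => ρ σ) = Parity.fixedBy
      (fun σ : {σ : AbsGal K // σ ∈ wildSet l Q ∧ σ ∈ ramSet W Q i} => ρ σ) := by
  ext v
  exact ⟨fun h σ => h ⟨σ.1, (hP _).2 σ.2⟩, fun h σ => h ⟨σ.1, (hP _).1 σ.2⟩⟩

theorem art_ind {K : Type u} [Field K] [NumberField K] {H W : Subgroup (AbsGal K)}
    (hW : IsOpen (W : Set (AbsGal K))) (hn : W.Normal) (hWH : W ≤ H) {l : ℕ} (hl : l.Prime) (hl2 : l ≠ 2)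
    {Q₀ : Ideal (𝓞 (AlgebraicClosure K))} (hQ₀ : Q₀.IsPrime) (hlQ₀ : (l : 𝓞 (AlgebraicClosure K)) ∈ Q₀)
    {E : Type*} [NormedField E] [CharZero E] {n m : ℕ} {τ : H →* Matrix (Fin n) (Fin n) E}
    {R : AbsGal K →* Matrix (Fin m) (Fin m) E} {val : (Fin m → E) →ₗ[E] (AbsGal K → Fin n → E)}
    (hI : IsInd τ R val) (hm : m = n * H.index) {Ψ : Type*} [Fintype Ψ]
    {Q : Ψ → Ideal (𝓞 (AlgebraicClosure K))} (hQ : ∀ i, (Q i).IsPrime)
    (hlQ : ∀ i, (l : 𝓞 (AlgebraicClosure K)) ∈ Q i) {g : Ψ → AbsGal K}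
    (hg : ∀ i x, x ∈ Q i ↔ g i • x ∈ Q₀)
    (hg' : ∀ a : AbsGal K, ∃! i, ∃ (d : stabD Q₀) (h : H), a = d * g i * h)
    (hτ : ∀ i, ∀ h : H, (h : AbsGal K) ∈ W → (h : AbsGal K) ∈ wildSet l (Q i) → τ h = 1)
    (hR : ∀ a ∈ W, a ∈ wildSet l Q₀ → R a = 1) :
    artK l W Q₀ R ≡ condA l W τ (fun i => stabD (Q i)) Q [MOD 2] := by
  classical
  have hfinW : Finite (AbsGal K ⧸ W) := Subgroup.quotient_finite_of_isOpen W hW
  have hWf : W.index ≠ 0 := Subgroup.index_ne_zero_of_finite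
  have hHf : H.index ≠ 0 := fun h0 => hWf (Nat.eq_zero_of_zero_dvd (h0 ▸ Subgroup.index_dvd_of_le hWH))
  have hHfi : H.FiniteIndex := ⟨hHf⟩
  have hfinH : Finite (AbsGal K ⧸ H) := inferInstance
  -- the first part
  have e1 := fix_cs hI (iner_nor Q₀) (iner_le Q₀) (fun i a => stabD_conj (hg i) a)
    (fun i a => iner_conj (hg i) a) hg'
  -- the bounds
  have hex : ∀ i, ∃ N₀ : ℕ, ∀ N, N₀ ≤ N → Nums H W (Q i) N ∧
      ramCard H W (Q i) 0 / ramCard H W (Q i) 1 * swan l W (Q i) τ =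
      ∑ j ∈ Finset.Ico 1 N, ramCard H W (Q i) j * (n - finrank E (Parity.fixedBy
        (fun σ : {σ : H // (σ : AbsGal K) ∈ wildSet l (Q i) ∧ (σ : AbsGal K) ∈ ramSet W (Q i) j} =>
          τ σ))) ∧ Nums ⊤ W (Q i) N := by
    intro i
    obtain ⟨N₁, -, h1⟩ := exists_nums hl hl2 (hQ i) (hlQ i) hW hn hWH
    obtain ⟨N₂, -, h2⟩ := swan_mul hl (hQ i) (hlQ i) hW hn hWH (hτ i)
    obtain ⟨N₃, -, h3⟩ := exists_nums hl hl2 (hQ i) (hlQ i) hW hn (H := ⊤) le_top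
    exact ⟨max N₁ (max N₂ N₃), fun N hN => ⟨h1 N ((le_max_left _ _).trans hN),
      h2 N (((le_max_left _ _).trans (le_max_right _ _)).trans hN),
      h3 N (((le_max_right _ _).trans (le_max_right _ _)).trans hN)⟩⟩
  choose M hM using hex
  obtain ⟨N₄, hN₄, h4⟩ := swanK_mul hl hQ₀ hlQ₀ hW hn hR
  obtain ⟨N₅, hN₅, h5⟩ := exists_nums hl hl2 hQ₀ hlQ₀ hW hn (H := ⊤) le_top
  obtain ⟨N, hN⟩ : ∃ N, N = max N₄ (max N₅ (∑ i, M i)) := ⟨_, rfl⟩
  have hN1 : 1 ≤ N := hN₄.trans (by rw [hN]; exact le_max_left _ _)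
  have hNM : ∀ i, M i ≤ N := fun i =>
    (Finset.single_le_sum (f := M) (fun _ _ => Nat.zero_le _) (Finset.mem_univ i)).trans
      (by rw [hN]; exact (le_max_right _ _).trans (le_max_right _ _))
  have hK := h4 N (by rw [hN]; exact le_max_left _ _)
  have hN0 := h5 N (by rw [hN]; exact (le_max_left _ _).trans (le_max_right _ _))
  have hMi := fun i => hM i N (hNM i)
  -- the subgroups
  have hex : ∀ k, ∃ P : Subgroup (AbsGal K), ∀ g, g ∈ P ↔ g ∈ wildSet l Q₀ ∧ g ∈ ramSet W Q₀ k :=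
    fun k => exists_sub hl hQ₀ hlQ₀ hW hn k
  choose P₀ hP₀ using hex
  have hex : ∀ i k, ∃ P : Subgroup (AbsGal K), ∀ g, g ∈ P ↔ g ∈ wildSet l (Q i) ∧ g ∈ ramSet W (Q i) k :=
    fun i k => exists_sub hl (hQ i) (hlQ i) hW hn k
  choose P hP using hex
  have hPconj : ∀ i k a, a ∈ P i k ↔ g i * a * (g i)⁻¹ ∈ P₀ k := by
    intro i k a
    rw [hP, hP₀, conj_wild (hg i), conj_ram hW hn (hg i)]
  have hPle : ∀ k, P₀ k ≤ stabD Q₀ := fun k a ha => iner_le Q₀ ((hP₀ k a).1 ha).1.1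
  have hPn : ∀ k, ∀ a ∈ stabD Q₀, ∀ σ ∈ P₀ k, a * σ * a⁻¹ ∈ P₀ k := by
    intro k a ha σ hσ
    have h7 : ∀ x, x ∈ Q₀ ↔ a • x ∈ Q₀ := ha
    rw [hP₀] at hσ ⊢
    exact ⟨(conj_wild h7 σ).1 hσ.1, (conj_ram hW hn h7 k σ).1 hσ.2⟩
  have hcount : ∀ k, 1 ≤ k → ramCard ⊤ W Q₀ k * (m - finrank E (Parity.fixedBy
        (fun σ : {σ : AbsGal K // σ ∈ wildSet l Q₀ ∧ σ ∈ ramSet W Q₀ k} => R σ))) =
      ∑ i, (stabD (Q i) ⊓ H).relIndex (stabD (Q i)) * (n * ramCard ⊤ W Q₀ k - ramCard H W (Q i) k *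
        finrank E (Parity.fixedBy (fun σ : {σ : H // (σ : AbsGal K) ∈ wildSet l (Q i) ∧
          (σ : AbsGal K) ∈ ramSet W (Q i) k} => τ σ))) := by
    intro k hk
    have h7 := ind_count hI hHf hm (hPn k) (hPle k) (fun i a => stabD_conj (hg i) a)
      (fun i a => hPconj i k a) hg' hn hWH hWf
    rw [fixedBy_subK (hP₀ k)] at h7
    have h8 : ramCard ⊤ W Q₀ k = W.relIndex (P₀ k) := by
      rw [ramCard_sub hl hQ₀ hlQ₀ hW hn le_top hk (hP₀ k), inf_top_eq]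
    rw [h8, h7]
    refine Finset.sum_congr rfl fun i _ => ?_
    rw [ramCard_sub hl (hQ i) (hlQ i) hW hn hWH hk (hP i k), fixedBy_sub (hP i k)]
  -- the orders at the conjugate primes
  have htop : ∀ i k, ramCard ⊤ W (Q i) k = ramCard ⊤ W Q₀ k := by
    intro i k
    rcases Nat.eq_zero_or_pos k with rfl | hk
    · rw [ramCard_zero hW hn le_top, ramCard_zero hW hn le_top, inf_top_eq, inf_top_eq]
      exact relIndex_conj hn (fun a => iner_conj (hg i) a)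
    · rw [ramCard_sub hl (hQ i) (hlQ i) hW hn le_top hk (hP i k),
        ramCard_sub hl hQ₀ hlQ₀ hW hn le_top hk (hP₀ k), inf_top_eq, inf_top_eq]
      exact relIndex_conj hn (fun a => hPconj i k a)
  -- the sums
  obtain ⟨S, hS⟩ : ∃ S : Ψ → ℕ, ∀ i, S i = swan l W (Q i) τ + n * wildDiff H W (Q i) :=
    ⟨_, fun _ => rfl⟩
  have hsum : ∀ i, ∑ k ∈ Finset.Ico 1 N, (n * ramCard ⊤ W Q₀ k - ramCard H W (Q i) k *
        finrank E (Parity.fixedBy (fun σ : {σ : H // (σ : AbsGal K) ∈ wildSet l (Q i) ∧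
          (σ : AbsGal K) ∈ ramSet W (Q i) k} => τ σ))) =
      ramCard H W (Q i) 0 / ramCard H W (Q i) 1 * S i := by
    intro i
    obtain ⟨hNH, hsw, hNT⟩ := hMi i
    have hle : ∀ k, ramCard H W (Q i) k ≤ ramCard ⊤ W (Q i) k := fun k => by
      rcases Nat.eq_zero_or_pos k with rfl | hk
      · exact Nat.le_of_dvd hNT.pos (ramCard_dvd hl (hQ i) (hlQ i) hW hn hWH _)
      · exact Nat.le_of_dvd (hNT.odd k hk).pos (ramCard_dvd hl (hQ i) (hlQ i) hW hn hWH _)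
    have hwd : ramCard H W (Q i) 0 / ramCard H W (Q i) 1 * wildDiff H W (Q i) =
        ∑ k ∈ Finset.Ico 1 N, (ramCard ⊤ W (Q i) k - ramCard H W (Q i) k) := by
      rw [wildDiff_eq hN1 hNT.one hNH.one]
      refine Nat.mul_div_cancel' ?_
      have h9 : ∑ k ∈ Finset.Ico 1 N, (ramCard ⊤ W (Q i) k - ramCard H W (Q i) k) =
          ∑ k ∈ Finset.Ico 1 N, (ramCard ⊤ W (Q i) k - 1) -
            ∑ k ∈ Finset.Ico 1 N, (ramCard H W (Q i) k - 1) := by
        refine Nat.eq_sub_of_add_eq ?_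
        rw [← Finset.sum_add_distrib]
        refine Finset.sum_congr rfl fun k hk => ?_
        have h10 := (hNH.odd k (Finset.mem_Ico.1 hk).1).pos
        have h11 := hle k
        omega
      rw [h9]
      exact Nat.dvd_sub ((e_dvd hl (hQ i) (hlQ i) hW hn hWH).trans hNT.sum) hNH.sum
    rw [hS, Nat.mul_add, hsw, show ∀ a b c : ℕ, a * (b * c) = b * (a * c) from fun a b c => by ring,
      hwd, Finset.mul_sum, ← Finset.sum_add_distrib]
    refine Finset.sum_congr rfl fun k _ => ?_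
    rw [← htop i k]
    have h10 := hle k
    have h11 : finrank E (Parity.fixedBy (fun σ : {σ : H // (σ : AbsGal K) ∈ wildSet l (Q i) ∧
          (σ : AbsGal K) ∈ ramSet W (Q i) k} => τ σ)) ≤ n :=
      (Submodule.finrank_le _).trans_eq (finrank_fin_fun E)
    obtain ⟨x, hx⟩ := Nat.exists_eq_add_of_le h10
    obtain ⟨y, hy⟩ := Nat.exists_eq_add_of_le h11
    rw [hx, Nat.add_sub_cancel_left]
    generalize finrank E (Parity.fixedBy (fun σ : {σ : H // (σ : AbsGal K) ∈ wildSet l (Q i) ∧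
          (σ : AbsGal K) ∈ ramSet W (Q i) k} => τ σ)) = d at hy ⊢
    subst hy
    rw [Nat.add_sub_cancel_left]
    have h12 : (d + y) * (ramCard H W (Q i) k + x) =
        ramCard H W (Q i) k * y + (d + y) * x + ramCard H W (Q i) k * d := by ring
    rw [h12, Nat.add_sub_cancel]
  have hX : ramCard ⊤ W Q₀ 0 / ramCard ⊤ W Q₀ 1 * swanK l W Q₀ R =
      ∑ i, (stabD (Q i) ⊓ H).relIndex (stabD (Q i)) *
        (ramCard H W (Q i) 0 / ramCard H W (Q i) 1 * S i) := by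
    rw [hK, Finset.sum_congr rfl fun k hk => hcount k (Finset.mem_Ico.1 hk).1, Finset.sum_comm]
    refine Finset.sum_congr rfl fun i _ => ?_
    rw [← Finset.mul_sum, hsum i]
  have he₀ : 0 < ramCard ⊤ W Q₀ 0 / ramCard ⊤ W Q₀ 1 := by
    refine Nat.pos_of_ne_zero fun h0 => ?_
    have h7 := hN0.e0
    rw [h0, Nat.zero_mul] at h7
    exact hN0.pos.ne' h7
  have hmod := arith_ind (f := fun i => ((Q i).inertia (AbsGal K) ⊔ (stabD (Q i) ⊓ H)).relIndex
      (stabD (Q i))) (e := fun i => ((Q i).inertia (AbsGal K) ⊓ H).relIndex ((Q i).inertia (AbsGal K)))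
    he₀ hN0.e0 (hN0.odd 1 le_rfl)
    (F := fun i => (stabD (Q i) ⊓ H).relIndex (stabD (Q i)))
    (eH := fun i => ramCard H W (Q i) 0 / ramCard H W (Q i) 1) (h₀ := fun i => ramCard H W (Q i) 0)
    (h₁ := fun i => ramCard H W (Q i) 1) (S := S)
    (fun i => rel_mul (iner_nor (Q i)) (iner_le (Q i)) hHf) (fun i => by
      show ramCard ⊤ W Q₀ 0 = ((Q i).inertia (AbsGal K) ⊓ H).relIndex ((Q i).inertia (AbsGal K)) *
        ramCard H W (Q i) 0
      rw [← htop i 0, ramCard_zero hW hn le_top, ramCard_zero hW hn hWH, inf_top_eq]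
      have h8 := Subgroup.relIndex_mul_relIndex (W ⊓ (Q i).inertia (AbsGal K))
        ((Q i).inertia (AbsGal K) ⊓ H) ((Q i).inertia (AbsGal K))
        (le_inf inf_le_right (inf_le_left.trans hWH)) inf_le_left
      rw [Subgroup.inf_relIndex_right] at h8
      rw [← h8, Nat.mul_comm]
      congr 1
      have h9 : W ⊓ ((Q i).inertia (AbsGal K) ⊓ H) =
          (W ⊓ (Q i).inertia (AbsGal K)) ⊓ ((Q i).inertia (AbsGal K) ⊓ H) := by
        ext x
        simp only [Subgroup.mem_inf]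
        tauto
      rw [← Subgroup.inf_relIndex_right W, h9, Subgroup.inf_relIndex_right])
    (fun i => (hMi i).1.e0) (fun i => by
      have := ramCard_dvd hl (hQ i) (hlQ i) hW hn hWH 1
      rwa [htop i 1] at this) hX
  rw [Nat.mul_div_cancel_left _ he₀] at hmod
  unfold artK condA
  have e2 : finrank E (Parity.fixedBy (fun σ : Q₀.inertia (AbsGal K) => R σ)) =
      ∑ i, ((Q i).inertia (AbsGal K) ⊔ (stabD (Q i) ⊓ H)).relIndex (stabD (Q i)) *
        finrank E (Parity.fixedBy (fun σ : ((Q i).inertia (AbsGal K)).subgroupOf H => τ σ)) := e1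
  rw [e2]
  refine ((Nat.ModEq.refl _).add hmod).trans ?_
  rw [← Finset.sum_add_distrib]
  refine Nat.ModEq.sum fun i _ => ?_
  have h7 : ∀ a b : ℕ, ((Q i).inertia (AbsGal K) ⊔ (stabD (Q i) ⊓ H)).relIndex (stabD (Q i)) * a +
    ((Q i).inertia (AbsGal K) ⊔ (stabD (Q i) ⊓ H)).relIndex (stabD (Q i)) * b =
    ((Q i).inertia (AbsGal K) ⊔ (stabD (Q i) ⊓ H)).relIndex (stabD (Q i)) * (a + b) :=
    fun a b => (Nat.mul_add _ _ _).symm
  rw [hS, h7, Nat.add_assoc]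

end Pool.Agent.Work.MP_787500_nt.AR
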