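import Mathlib
import Pool.Agent.Work.MP_787500_nt.AR.Defs
import Pool.Agent.Work.MP_787500_nt.RP.ExtSel
import Pool.Agent.Work.MP_787500_nt.LX.Defs

/-!
# AR/ExtA (size S): extension of the coefficients

`fixed_ext` in RP/ExtSel.lean: the dimension of the fixed space does not change.
-/

set_option autoImplicit false
set_option linter.unusedSectionVars false

namespace Pool.Agent.Work.MP_787500_nt.AR

open Module NumberField Matrix

open Pool.Agent.Work.MP_787500_nt.LX (mapRep)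

variable {K : Type*} [Field K] {E : Type*} [NormedField E] [NormedAlgebra ℚ_[2] E]
  [FiniteDimensional ℚ_[2] E] {E' : Type*} [NormedField E'] [NormedAlgebra ℚ_[2] E']
  [FiniteDimensional ℚ_[2] E'] {n : ℕ}

theorem swanK_fin (ι : E →ₐ[ℚ_[2]] E') (l : ℕ) (W : Subgroup (AbsGal K))
    (Q : Ideal (𝓞 (AlgebraicClosure K))) (ρ : AbsGal K →* Matrix (Fin n) (Fin n) E) :
    swanK l W Q (mapRep ι ρ) = swanK l W Q ρ := by
  unfold swanK
  congr 1
  refine finsum_congr fun k => ?_
  have h := RP.fixed_ext ι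
    (fun σ : {σ : AbsGal K // σ ∈ wildSet l Q ∧ σ ∈ ramSet W Q (k + 1)} => ρ σ)
  rw [← h]
  rfl

theorem artK_fin (ι : E →ₐ[ℚ_[2]] E') (l : ℕ) (W : Subgroup (AbsGal K))
    (Q : Ideal (𝓞 (AlgebraicClosure K))) (ρ : AbsGal K →* Matrix (Fin n) (Fin n) E) :
    artK l W Q (mapRep ι ρ) = artK l W Q ρ := by
  unfold artK
  rw [swanK_fin]
  have h := RP.fixed_ext ι (fun σ : Q.inertia (AbsGal K) => ρ σ)
  rw [← h]
  rfl

end Pool.Agent.Work.MP_787500_nt.AR
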