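import Mathlib
import Pool.Agent.Work.MP_787500_nt.AR.Defs
import Pool.Agent.Work.MP_787500_nt.KR.Sys
import Pool.Agent.Work.MP_787500_nt.KS.V16

/-!
# AR/SysN (size S/M): members of the system `fullC (stb Q)`

`U` contains the elements that fix a finite set `s` of algebraic numbers (`HP.basis_K` or the Krull topology). Let `s'` be the set of all roots of the minimal polynomials over
the rational numbers of the elements of `s` and of a basis of `K` over the rational numbers. The elements of `stb Q` that fix `s'` are a normal subgroup of finite index, they fix `K`, so they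
are `iK K g` with `g` in `U`.
-/

set_option autoImplicit false
set_option linter.unusedSectionVars false

namespace Pool.Agent.Work.MP_787500_nt.AR

open Module NumberField Matrix

open Pool.Agent.Work.MP_787500_nt.KR (fullC)
open Pool.Agent.Work.MP_787500_nt.HP (stb)
open Pool.Agent.Work.MP_787500_nt.KS (iK)

universe u

section perm

variable {Ω : Type u} [Field Ω] [CharZero Ω]

private theorem sysn_root (σ : Ω ≃+* Ω) {p : Polynomial ℚ} {x : Ω} (hx : x ∈ p.aroots Ω) :
    σ x ∈ p.aroots Ω := by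
  rw [Polynomial.mem_aroots] at hx ⊢
  refine ⟨hx.1, ?_⟩
  have h1 := Polynomial.aeval_algHom_apply ((σ : Ω →+* Ω).toRatAlgHom) x p
  rw [hx.2, map_zero] at h1
  exact h1

/-- the action on a finite stable set -/
private noncomputable def sysn_hom (C : Subgroup (Ω ≃+* Ω)) (S : Finset Ω)
    (hS : ∀ (σ : Ω ≃+* Ω), ∀ x ∈ S, σ x ∈ S) : C →* Equiv.Perm S where
  toFun d := ⟨fun x => ⟨(d : Ω ≃+* Ω) x, hS d x x.2⟩,
    fun x => ⟨(d : Ω ≃+* Ω).symm x, hS (d : Ω ≃+* Ω).symm x x.2⟩,
    fun x => Subtype.ext ((d : Ω ≃+* Ω).symm_apply_apply _),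
    fun x => Subtype.ext ((d : Ω ≃+* Ω).apply_symm_apply _)⟩
  map_one' := by
    ext x
    rfl
  map_mul' d e := by
    ext x
    rfl

private theorem sysn_ker {C : Subgroup (Ω ≃+* Ω)} {S : Finset Ω}
    {hS : ∀ (σ : Ω ≃+* Ω), ∀ x ∈ S, σ x ∈ S} {d : C} :
    d ∈ (sysn_hom C S hS).ker ↔ ∀ x ∈ S, (d : Ω ≃+* Ω) x = x := by
  rw [MonoidHom.mem_ker]
  constructor
  · intro h x hx
    have h1 := congrArg (fun τ : Equiv.Perm S => (τ ⟨x, hx⟩ : Ω)) h
    exact h1
  · intro h
    ext x
    exact h x x.2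

end perm

theorem exists_full {K : Type u} [Field K] [NumberField K] (Q : Ideal (𝓞 (AlgebraicClosure K)))
    {U : Subgroup (AbsGal K)} (hU : IsOpen (U : Set (AbsGal K))) :
    ∃ V, (fullC (stb Q)).mem V ∧ ∀ d ∈ V, ∃ g ∈ U, iK K g = d := by
  classical
  obtain ⟨L, hL, hLU⟩ : ∃ L : IntermediateField K (AlgebraicClosure K), FiniteDimensional K L ∧
      (L.fixingSubgroup : Set (AbsGal K)) ⊆ U := by
    have h1 : (U : Set (AbsGal K)) ∈ nhds (1 : AbsGal K) := hU.mem_nhds U.one_mem
    exact (krullTopology_mem_nhds_one_iff K (AlgebraicClosure K) _).1 h1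
  have hst : IsScalarTower ℚ K (AlgebraicClosure K) := inferInstance
  have halg : Algebra.IsAlgebraic ℚ (AlgebraicClosure K) := Algebra.IsAlgebraic.trans ℚ K _
  let b := Module.finBasis ℚ K
  let e := Module.finBasis K L
  let s₀ : Finset (AlgebraicClosure K) :=
    (Finset.univ.image fun i => algebraMap K (AlgebraicClosure K) (b i)) ∪
      Finset.univ.image fun i => (e i : AlgebraicClosure K)
  let S : Finset (AlgebraicClosure K) :=
    s₀.biUnion fun y => ((minpoly ℚ y).aroots (AlgebraicClosure K)).toFinset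
  have hS : ∀ (σ : AlgebraicClosure K ≃+* AlgebraicClosure K), ∀ x ∈ S, σ x ∈ S := by
    intro σ x hx
    obtain ⟨y, hy, hxy⟩ := Finset.mem_biUnion.1 hx
    exact Finset.mem_biUnion.2 ⟨y, hy,
      Multiset.mem_toFinset.2 (sysn_root σ (Multiset.mem_toFinset.1 hxy))⟩
  have hs₀ : ∀ y ∈ s₀, y ∈ S := by
    intro y hy
    refine Finset.mem_biUnion.2 ⟨y, hy, Multiset.mem_toFinset.2 ?_⟩
    rw [Polynomial.mem_aroots]
    exact ⟨minpoly.ne_zero (halg.isAlgebraic y).isIntegral, minpoly.aeval ℚ y⟩
  refine ⟨(sysn_hom (stb Q) S hS).ker, ⟨⟨S, fun g hg => sysn_ker.2 hg⟩, inferInstance,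
    Subgroup.FiniteIndex.index_ne_zero⟩, fun d hd => ?_⟩
  have hfix := sysn_ker.1 hd
  have hK : ∀ r : K, (d : AlgebraicClosure K ≃+* AlgebraicClosure K)
      (algebraMap K (AlgebraicClosure K) r) = algebraMap K (AlgebraicClosure K) r := by
    have h1 : ((((d : AlgebraicClosure K ≃+* AlgebraicClosure K) :
        AlgebraicClosure K →+* AlgebraicClosure K).comp
          (algebraMap K (AlgebraicClosure K))).toRatAlgHom).toLinearMap =
        ((algebraMap K (AlgebraicClosure K)).toRatAlgHom).toLinearMap := by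
      refine b.ext fun i => ?_
      exact hfix _ (hs₀ _ (Finset.mem_union_left _ (Finset.mem_image_of_mem _ (Finset.mem_univ i))))
    intro r
    exact congrArg (fun f => f r) h1
  let g : AbsGal K := AlgEquiv.ofRingEquiv (f := (d : AlgebraicClosure K ≃+* AlgebraicClosure K)) hK
  have hg : ∀ x, g x = (d : AlgebraicClosure K ≃+* AlgebraicClosure K) x := fun x => rfl
  refine ⟨g, hLU ?_, RingEquiv.ext fun x => rfl⟩
  show g ∈ L.fixingSubgroup
  rw [IntermediateField.mem_fixingSubgroup_iff]
  have h2 : g.toLinearMap ∘ₗ L.val.toLinearMap = L.val.toLinearMap := by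
    refine e.ext fun i => ?_
    show g (e i : AlgebraicClosure K) = (e i : AlgebraicClosure K)
    rw [hg]
    exact hfix _ (hs₀ _ (Finset.mem_union_right _ (Finset.mem_image_of_mem _ (Finset.mem_univ i))))
  intro x hx
  exact congrArg (fun f => f ⟨x, hx⟩) h2

end Pool.Agent.Work.MP_787500_nt.AR
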