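import Mathlib
import Pool.Agent.Work.MP_787500_nt.AR.MatF
import Pool.Agent.Work.MP_787500_nt.AR.FilI
import Pool.Agent.Work.MP_787500_nt.AR.Sw
import Pool.Agent.Work.MP_787500_nt.AR.SysN
import Pool.Agent.Work.MP_787500_nt.KI.CondA
import Pool.Agent.Work.MP_787500_nt.QG.CondV

/-!
# AR/Core: the parity of the fixed spaces at an inert prime number

`parity_core`: the space fixed by an element of inertia that generates the 2-part, the space fixed by inertia and the Swan conductor. Here `V` is compared with a symplectic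
representation `U` and a second representation `N` in characteristic 2: `V` looks like `U × N × N` for all finite groups of odd order.
-/

set_option autoImplicit false
set_option linter.unusedSectionVars false

namespace Pool.Agent.Work.MP_787500_nt.AR

open Module NumberField Matrix
open Pool.Agent.Work.MP_787500_nt.KT (Sy IsSp fixv)
open Pool.Agent.Work.MP_787500_nt.KI (fixS mem_fixS dec_I P_pow)
open Pool.Agent.Work.MP_787500_nt.KR (fullC)
open Pool.Agent.Work.MP_787500_nt.HP (stb inr)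
open Pool.Agent.Work.MP_787500_nt.KS (iK)
open Pool.Agent.Work.MP_787500_nt.QL (TameF)

universe u

/-- the relative indices are odd -/
theorem odd_rel {J k : Type*} [Group J] [Field k] [Finite k] {R : ℕ → Subgroup J} {θ : J →* k}
    {η : ℕ → J → k} (h : Fil R θ η) {l : ℕ} [CharP k l] (hl : l.Prime) (hl2 : l ≠ 2) {N : ℕ} :
    ∀ j i, 1 ≤ i → i + j = N → Odd ((R N).relIndex (R i)) := by
  have hanti : ∀ i, 1 ≤ i → R (i + 1) ≤ R i := fun i hi g hg => ((h.ker i hi g).1 hg).1
  have hle : ∀ i, 1 ≤ i → ∀ j, i ≤ j → R j ≤ R i := by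
    intro i hi j hj
    induction j, hj using Nat.le_induction with
    | base => exact le_rfl
    | succ j hj ih => exact (hanti j (by omega)).trans ih
  intro j
  induction j with
  | zero =>
    intro i hi hiN
    obtain rfl : i = N := by omega
    rw [Subgroup.relIndex_self]
    exact odd_one
  | succ j ih =>
    intro i hi hiN
    rw [← Subgroup.relIndex_mul_relIndex _ _ _ (hle (i + 1) (by omega) N (by omega)) (hanti i hi)]
    exact (ih (i + 1) (by omega) (by omega)).mul (odd_relIndex h hl hl2 hi)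

/-- the index of the images under an injective homomorphism -/
theorem relIndex_map_inj {G G' : Type*} [Group G] [Group G'] {f : G →* G'} (hf : Function.Injective f)
    (A B : Subgroup G) : (A.map f).relIndex (B.map f) = A.relIndex B := by
  have h1 := Subgroup.relIndex_comap (A.map f) f B
  rw [Subgroup.comap_map_eq_self_of_injective hf] at h1
  exact h1.symm

theorem parity_core {K : Type u} [Field K] [NumberField K] {Q : Ideal (𝓞 (AlgebraicClosure K))}
    (hQ : Q.IsPrime) {p : ℕ} (hp : p.Prime) (hp2 : p ≠ 2) (hpQ : (p : 𝓞 (AlgebraicClosure K)) ∈ Q)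
    {W : Subgroup (AbsGal K)} (hWo : IsOpen (W : Set (AbsGal K))) (hWn : W.Normal) {E : Type*}
    [NormedField E] {n : ℕ} {ρ : AbsGal K →* Matrix (Fin n) (Fin n) E}
    (hWt : ∀ g ∈ W, g ∈ wildSet p Q → ρ g = 1) {F : Type*} [Field F] [CharP F 2] {m : ℕ} [Sy F m]
    {A : (AlgebraicClosure K ≃+* AlgebraicClosure K) →* Matrix (Fin m) (Fin m) F}
    (hA : ∀ g, IsSp (A g)) {m' : ℕ} {A' : AbsGal K →* Matrix (Fin m') (Fin m') F}
    (h1 : ∀ g, ρ g = 1 → A (iK K g) = 1 ∧ A' g = 1)
    {W' : Subgroup (AbsGal K)} (hWo' : IsOpen (W' : Set (AbsGal K))) (hAW : ∀ g ∈ W', A (iK K g) = 1)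
    (hcmp : ∀ Γ Γ₀ : Subgroup (AbsGal K), (∀ g ∈ Γ₀, ρ g = 1) → Odd (Γ₀.relIndex Γ) →
      finrank E (Parity.fixedBy (fun σ : Γ => ρ σ)) =
        finrank F (fixS (A.comp (iK K)) Γ) + 2 * finrank F (fixS A' Γ))
    {χ a : stb Q → ℤ_[2]} {σ τ t : stb Q}
    (hT : TameF (fullC (stb Q)) χ a σ τ p ((inr Q).subgroupOf (stb Q)))
    (ht : t ∈ (inr Q).subgroupOf (stb Q)) (hodd : PadicInt.toZMod (a t) = 1)
    (hIr : inr Q ≤ (iK K).range) :
    Even (finrank F (fixv (A t)) +
      finrank F (fixS (A.comp (stb Q).subtype) ((inr Q).subgroupOf (stb Q))) + swanK p W Q ρ) := by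
  classical
  obtain ⟨k, i1, i2, i3, R, θ, η, hF, hR, hθ, ⟨N, hN1, hN⟩, he⟩ :=
    exists_fil (Q := Q) hp hQ hpQ hWo hWn (H := ⊤) le_top
  -- the representations of the inertia group
  let ρJ : (Q.inertia (AbsGal K) ⊓ ⊤ : Subgroup (AbsGal K)) →* Matrix (Fin n) (Fin n) E :=
    ρ.comp (Subgroup.subtype _)
  let AJ : (Q.inertia (AbsGal K) ⊓ ⊤ : Subgroup (AbsGal K)) →* Matrix (Fin m) (Fin m) F :=
    (A.comp (iK K)).comp (Subgroup.subtype _)
  let AJ' : (Q.inertia (AbsGal K) ⊓ ⊤ : Subgroup (AbsGal K)) →* Matrix (Fin m') (Fin m') F :=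
    A'.comp (Subgroup.subtype _)
  have hρN : ∀ g ∈ R N, ρJ g = 1 := fun g hg =>
    hWt g ((hN N le_rfl).1 g hg) ((hR N hN1 g).1 hg).1
  have hAN : ∀ g ∈ R N, AJ g = 1 := fun g hg => (h1 g (hρN g hg)).1
  have hAN' : ∀ g ∈ R N, AJ' g = 1 := fun g hg => (h1 g (hρN g hg)).2
  have hsw : swanK p W Q ρ = artN R (mrep E ρJ) N / Nat.card (Set.range θ) := by
    rw [← he]
    exact swanK_eq hR hN1 (fun i hi => (hN i hi).1) (hN N le_rfl).2 hWt (A := ρJ) fun g => rfl
  -- the comparison of the fixed spaces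
  have hfix : ∀ i, 1 ≤ i → i ≤ N → finrank E (fxs fun g : R i => mrep E ρJ g) =
      finrank F (fxs fun g : R i => mrep F AJ g) + 2 * finrank F (fxs fun g : R i => mrep F AJ' g) := by
    intro i hi hiN
    have h2 := hcmp ((R i).map (Subgroup.subtype _)) ((R N).map (Subgroup.subtype _)) (by
      rintro _ ⟨g, hg, rfl⟩
      exact hρN g hg) (by
      rw [relIndex_map_inj (Subgroup.subtype_injective _)]
      exact odd_rel hF hp hp2 (N - i) i hi (by omega))
    have e1 : (fxs fun g : R i => mrep E ρJ g) =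
        Parity.fixedBy (fun σ : (R i).map (Subgroup.subtype _) => ρ σ) := by
      ext v
      constructor
      · rintro hv ⟨_, g, hg, rfl⟩
        have h3 := hv ⟨g, hg⟩
        rw [mrep_self] at h3
        exact h3
      · intro hv g
        rw [mrep_self]
        exact hv ⟨_, g, g.2, rfl⟩
    have e2 : (fxs fun g : R i => mrep F AJ g) =
        fixS (A.comp (iK K)) ((R i).map (Subgroup.subtype _)) := by
      ext v
      constructor
      · rintro hv _ ⟨g, hg, rfl⟩
        have h3 := hv ⟨g, hg⟩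
        rw [mrep_self] at h3
        exact h3
      · intro hv g
        rw [mrep_self]
        exact hv _ ⟨g, g.2, rfl⟩
    have e3 : (fxs fun g : R i => mrep F AJ' g) = fixS A' ((R i).map (Subgroup.subtype _)) := by
      ext v
      constructor
      · rintro hv _ ⟨g, hg, rfl⟩
        have h3 := hv ⟨g, hg⟩
        rw [mrep_self] at h3
        exact h3
      · intro hv g
        rw [mrep_self]
        exact hv _ ⟨g, g.2, rfl⟩
    rw [e1, e2, e3]
    exact h2
  have hdim : n = m + 2 * m' := by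
    have h2 := hfix N hN1 le_rfl
    have e1 : (fxs fun g : R N => mrep E ρJ g) = ⊤ := by
      rw [eq_top_iff]
      intro v _ g
      rw [mrep_self, hρN g g.2, one_mulVec]
    have e2 : (fxs fun g : R N => mrep F AJ g) = ⊤ := by
      rw [eq_top_iff]
      intro v _ g
      rw [mrep_self, hAN g g.2, one_mulVec]
    have e3 : (fxs fun g : R N => mrep F AJ' g) = ⊤ := by
      rw [eq_top_iff]
      intro v _ g
      rw [mrep_self, hAN' g g.2, one_mulVec]
    rw [e1, e2, e3, finrank_top, finrank_top, finrank_top, finrank_fin_fun, finrank_fin_fun,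
      finrank_fin_fun] at h2
    exact h2
  have hart : artN R (mrep E ρJ) N = artN R (mrep F AJ) N + 2 * artN R (mrep F AJ') N := by
    unfold artN
    rw [Finset.mul_sum, ← Finset.sum_add_distrib]
    refine Finset.sum_congr rfl fun i hi => ?_
    obtain ⟨hi1, hi2⟩ := Finset.mem_Ico.1 hi
    rw [hfix i hi1 hi2.le, finrank_fin_fun, finrank_fin_fun, finrank_fin_fun]
    have h3 := Submodule.finrank_le (fxs fun g : R i => mrep F AJ g)
    have h4 := Submodule.finrank_le (fxs fun g : R i => mrep F AJ' g)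
    rw [finrank_fin_fun] at h3 h4
    obtain ⟨x, hx⟩ := Nat.exists_eq_add_of_le h3
    obtain ⟨y, hy⟩ := Nat.exists_eq_add_of_le h4
    have h5 : n - (finrank F (fxs fun g : R i => mrep F AJ g) +
        2 * finrank F (fxs fun g : R i => mrep F AJ' g)) =
        (m - finrank F (fxs fun g : R i => mrep F AJ g)) +
          2 * (m' - finrank F (fxs fun g : R i => mrep F AJ' g)) := by omega
    rw [h5]
    ring
  have hpF : (p : F) ≠ 0 := by
    intro h0
    have h2 := (CharP.cast_eq_zero_iff F 2 p).1 h0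
    exact hp2 ((Nat.prime_dvd_prime_iff_eq Nat.prime_two hp).1 h2).symm
  obtain ⟨y, hy⟩ := dvd_mat hF hpF hAN'
  have he0 : 0 < Nat.card (Set.range θ) := card_range_pos θ
  -- the element `t`
  have hinr : ∀ g : AbsGal K, iK K g ∈ inr Q ↔ g ∈ Q.inertia (AbsGal K) := fun g => by
    rw [iK, HP.emb_inr, GA.pb_refl]
  obtain ⟨gt, hgt⟩ : ∃ g : AbsGal K, iK K g = t := hIr ht
  have hgtI : gt ∈ Q.inertia (AbsGal K) := (hinr gt).1 (by rw [hgt]; exact ht)
  let tJ : (Q.inertia (AbsGal K) ⊓ ⊤ : Subgroup (AbsGal K)) := ⟨gt, hgtI, Subgroup.mem_top _⟩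
  -- the decomposition of the elements of inertia
  obtain ⟨V, hV, hVU⟩ := exists_full Q (U := W' ⊓ W) (hWo'.inter hWo)
  have hVn := (fullC (stb Q)).normal hV
  have hAt : ∃ d, d ≠ 0 ∧ AJ tJ ^ d = 1 := by
    refine ⟨V.index, (fullC (stb Q)).index hV, ?_⟩
    obtain ⟨g, hg, hg'⟩ := hVU _ (Subgroup.pow_index_mem V t)
    have h2 : AJ tJ ^ V.index = A (iK K g) := by
      rw [← map_pow, hg']
      show A (iK K (gt ^ V.index)) = _
      rw [map_pow (iK K), hgt]
      rfl
    rw [h2, hAW g hg.1]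
  have hpar := parity_mat hF hp hp2 (A := AJ) (fun g => hA _) hN1 hAN (t := tJ) hAt (by
    intro g
    have hgI : iK K (g : AbsGal K) ∈ inr Q := (hinr g).2 g.2.1
    let g' : stb Q := ⟨iK K g, HP.inr_le_stb _ hgI⟩
    obtain ⟨j, q, hq, h2, -⟩ := dec_I hT ht hodd hV (g := g') hgI
    obtain ⟨r, hr, h3⟩ := P_pow hT hV hq
    -- the second factor
    let pJ : (Q.inertia (AbsGal K) ⊓ ⊤ : Subgroup (AbsGal K)) := (tJ ^ j)⁻¹ * g
    have h4 : iK K (pJ : AbsGal K) = ((t ^ j)⁻¹ * g' : stb Q) := by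
      show iK K ((gt ^ j)⁻¹ * (g : AbsGal K)) = _
      rw [map_mul, map_inv, map_pow, hgt]
      rfl
    have h5 : ((t ^ j)⁻¹ * g') ^ r ∈ V := by
      have e1 : ((q : stb Q) : stb Q ⧸ V) = (((t ^ j)⁻¹ * g' : stb Q) : stb Q ⧸ V) :=
        QuotientGroup.eq.2 h2
      have e2 : ((((t ^ j)⁻¹ * g') ^ r : stb Q) : stb Q ⧸ V) = ((q ^ r : stb Q) : stb Q ⧸ V) := by
        show (((t ^ j)⁻¹ * g' : stb Q) : stb Q ⧸ V) ^ r = ((q : stb Q) : stb Q ⧸ V) ^ r
        rw [e1]
      rw [← QuotientGroup.eq_one_iff, e2, QuotientGroup.eq_one_iff]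
      exact h3
    obtain ⟨x, hx, hx'⟩ := hVU _ h5
    have h6 : iK K ((pJ ^ r : (Q.inertia (AbsGal K) ⊓ ⊤ : Subgroup (AbsGal K))) : AbsGal K) =
        iK K x := by
      rw [Subgroup.coe_pow, map_pow, h4, hx']
      rfl
    have h7 : ((pJ ^ r : (Q.inertia (AbsGal K) ⊓ ⊤ : Subgroup (AbsGal K))) : AbsGal K) = x := by
      apply AlgEquiv.ext
      intro z
      have := congrArg (fun f : AlgebraicClosure K ≃+* AlgebraicClosure K => f z) h6
      exact this
    refine ⟨j, pJ, r, hr, ?_, ?_, ?_, ?_⟩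
    · rw [← map_pow]
      show A (iK K ((pJ ^ r : (Q.inertia (AbsGal K) ⊓ ⊤ : Subgroup (AbsGal K))) : AbsGal K)) = 1
      rw [h7, hAW x hx.1]
    · rw [← map_pow, hθ]
      rw [h7]
      exact mem_ramSet_of_W (h7 ▸ (pJ ^ r).2.1) hx.2 1
    · rw [← map_pow, ← map_mul, mul_inv_cancel_left]
    · rw [← map_pow, ← map_mul, mul_inv_cancel_left])
  have e1 : AJ tJ = A t := by
    show A (iK K gt) = _
    rw [hgt]
  have e2 : (fxs fun g : (Q.inertia (AbsGal K) ⊓ ⊤ : Subgroup (AbsGal K)) => mrep F AJ g) =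
      fixS (A.comp (stb Q).subtype) ((inr Q).subgroupOf (stb Q)) := by
    ext v
    constructor
    · intro hv d hd
      obtain ⟨g, hg⟩ : ∃ g : AbsGal K, iK K g = d := hIr hd
      have h3 := hv ⟨g, (hinr g).1 (by rw [hg]; exact hd), Subgroup.mem_top _⟩
      rw [mrep_self] at h3
      change A (iK K g) *ᵥ v = v at h3
      show A d *ᵥ v = v
      rw [← hg]
      exact h3
    · intro hv g
      rw [mrep_self]
      have hgI : iK K (g : AbsGal K) ∈ inr Q := (hinr g).2 g.2.1
      exact hv ⟨iK K g, HP.inr_le_stb _ hgI⟩ hgI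
  rw [e1, e2] at hpar
  have h8 : swanK p W Q ρ = artN R (mrep F AJ) N / Nat.card (Set.range θ) + 2 * y := by
    rw [hsw, hart, hy, show 2 * (Nat.card (Set.range θ) * y) = Nat.card (Set.range θ) * (2 * y) by ring,
      Nat.add_mul_div_left _ _ he0]
  rw [h8]
  rw [Nat.even_iff] at hpar ⊢
  omega

end Pool.Agent.Work.MP_787500_nt.AR
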