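import Mathlib
import Pool.Agent.Work.MP_787500_nt.AR.Defs
import Pool.Agent.Work.MP_787500_nt.KR.NZero

/-!
# AR/Lev (size M): the fixed space of a group that acts through a finite group of odd order, at the level one

`Γ` acts on `V = E ^ n` through a finite group of odd order `r` (`Γ / (kernel)`, `r` divides `Γ₀.relIndex Γ`). The average `e v = (1/r) ∑ ρ g v` maps the lattice `L₀` to itself (`r` is
odd, so `‖1/r‖ = 1`; sums in the submodule `L₀`). So a fixed element of the level one, the class of `v`, is the class of the fixed vector `e v` (`e v - v` is the average of the `ρ g v - v`,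
which are in `L₀`). So the fixed elements are the elements of `lamN L₀ l 1 S` for `D = PUnit` and `S` the constant functions with values in `V^Γ`, and `GP.card_lamN` gives the
number (see the proof of `KR.card_MN` in KR/NZero.lean, which is the case `Γ = 1`).
-/

set_option autoImplicit false
set_option linter.unusedSectionVars false

namespace Pool.Agent.Work.MP_787500_nt.AR

open Module Matrix
open Pool.Agent.Work.MP_787500_nt.GP

section aver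

variable {E : Type*} [NormedField E] [NormedAlgebra ℚ_[2] E] {n : ℕ} {G : Type*} [Group G]
  {ρ : G →* Matrix (Fin n) (Fin n) E} {Γ Γ₀ : Subgroup G}

private theorem norm_odd {r : ℕ} (hr : Odd r) : ‖(r : E)‖ = 1 := by
  have h1 : (r : E) = algebraMap ℚ_[2] E (r : ℚ_[2]) := by rw [map_natCast]
  rw [h1, norm_algebraMap', Padic.norm_natCast_eq_one_iff]
  exact (Nat.coprime_two_left (n := r)).2 hr

/-- the matrix of a coset -/
private noncomputable def cmat (ρ : G →* Matrix (Fin n) (Fin n) E) (Γ Γ₀ : Subgroup G)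
    (x : Γ ⧸ Γ₀.subgroupOf Γ) : Matrix (Fin n) (Fin n) E := ρ ((x.out : Γ) : G)

private theorem cmat_mk (h0 : ∀ g ∈ Γ₀, ρ g = 1) (g : Γ) :
    cmat ρ Γ Γ₀ (g : Γ ⧸ Γ₀.subgroupOf Γ) = ρ g := by
  have h1 : ((g : Γ ⧸ Γ₀.subgroupOf Γ).out : Γ ⧸ Γ₀.subgroupOf Γ) = (g : Γ ⧸ Γ₀.subgroupOf Γ) :=
    QuotientGroup.out_eq' _
  rw [QuotientGroup.eq] at h1
  have h2 : ((g : Γ ⧸ Γ₀.subgroupOf Γ).out : G)⁻¹ * (g : G) ∈ Γ₀ := h1
  have h3 : (g : G) = ((g : Γ ⧸ Γ₀.subgroupOf Γ).out : G) *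
      (((g : Γ ⧸ Γ₀.subgroupOf Γ).out : G)⁻¹ * (g : G)) := by group
  rw [cmat]
  conv_rhs => rw [h3, map_mul, h0 _ h2, mul_one]

private theorem mul_cmat (h0 : ∀ g ∈ Γ₀, ρ g = 1) (a : Γ) (x : Γ ⧸ Γ₀.subgroupOf Γ) :
    ρ a * cmat ρ Γ Γ₀ x = cmat ρ Γ Γ₀ (a • x) := by
  obtain ⟨g, rfl⟩ := QuotientGroup.mk_surjective x
  rw [cmat_mk h0]
  have h1 : a • (g : Γ ⧸ Γ₀.subgroupOf Γ) = ((a * g : Γ) : Γ ⧸ Γ₀.subgroupOf Γ) := rfl
  rw [h1, cmat_mk h0, Subgroup.coe_mul, map_mul]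

/-- the average -/
private noncomputable def aver (ρ : G →* Matrix (Fin n) (Fin n) E) (Γ Γ₀ : Subgroup G)
    [Fintype (Γ ⧸ Γ₀.subgroupOf Γ)] (v : Fin n → E) : Fin n → E :=
  ((Fintype.card (Γ ⧸ Γ₀.subgroupOf Γ) : ℕ) : E)⁻¹ •
    ∑ x : Γ ⧸ Γ₀.subgroupOf Γ, cmat ρ Γ Γ₀ x *ᵥ v

private theorem aver_fix [Fintype (Γ ⧸ Γ₀.subgroupOf Γ)] (h0 : ∀ g ∈ Γ₀, ρ g = 1) (a : Γ)
    (v : Fin n → E) : ρ a *ᵥ aver ρ Γ Γ₀ v = aver ρ Γ Γ₀ v := by
  rw [aver, mulVec_smul, Matrix.mulVec_sum]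
  congr 1
  rw [← Equiv.sum_comp (MulAction.toPerm a)
    (fun x : Γ ⧸ Γ₀.subgroupOf Γ => cmat ρ Γ Γ₀ x *ᵥ v)]
  refine Finset.sum_congr rfl fun x _ => ?_
  rw [mulVec_mulVec, mul_cmat h0]
  rfl

end aver

theorem lev_card {E : Type*} [NormedField E] [NormedAlgebra ℚ_[2] E] [FiniteDimensional ℚ_[2] E] {n : ℕ}
    [IsLocalRing (OE E)] {b : Matrix (Fin n) (Fin n) E} {l : OE E} {t : E →ₗ[ℚ_[2]] ℚ_[2]}
    {L₀ : Submodule (OE E) (Fin n → E)} (hl : Lat b l t L₀) {G : Type*} [Group G]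
    {ρ : G →* Matrix (Fin n) (Fin n) E} (hst : ∀ g, ∀ x ∈ L₀, ρ g *ᵥ x ∈ L₀) {Γ Γ₀ : Subgroup G}
    (h0 : ∀ g ∈ Γ₀, ρ g = 1) (hodd : Odd (Γ₀.relIndex Γ)) :
    Nat.card {m : MN L₀ l 1 // ∀ g ∈ Γ, actN l 1 (fun g => ρ g) hst g m = m} =
      Nat.card (IsLocalRing.ResidueField (OE E)) ^
        finrank E (Parity.fixedBy (fun σ : Γ => ρ σ)) := by
  have hr0 : Γ₀.relIndex Γ ≠ 0 := fun h => by
    rw [h] at hodd
    exact absurd hodd (by decide)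
  have hfin : Finite (Γ ⧸ Γ₀.subgroupOf Γ) := Nat.finite_of_card_ne_zero hr0
  let _ : Fintype (Γ ⧸ Γ₀.subgroupOf Γ) := Fintype.ofFinite _
  have hr : Fintype.card (Γ ⧸ Γ₀.subgroupOf Γ) = Γ₀.relIndex Γ := by
    rw [← Nat.card_eq_fintype_card]
    rfl
  have hnr : ‖((Fintype.card (Γ ⧸ Γ₀.subgroupOf Γ) : ℕ) : E)‖ = 1 := by
    rw [hr]
    exact norm_odd hodd
  have hr0' : ((Fintype.card (Γ ⧸ Γ₀.subgroupOf Γ) : ℕ) : E) ≠ 0 := by
    intro h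
    rw [h, norm_zero] at hnr
    exact zero_ne_one hnr
  let ri : OE E := ⟨((Fintype.card (Γ ⧸ Γ₀.subgroupOf Γ) : ℕ) : E)⁻¹, by
    show ‖((Fintype.card (Γ ⧸ Γ₀.subgroupOf Γ) : ℕ) : E)⁻¹‖ ≤ 1
    rw [norm_inv, hnr, inv_one]⟩
  -- the average of a vector whose class is fixed
  have hav : ∀ v : Fin n → E, (∀ g ∈ Γ, ρ g *ᵥ v - v ∈ L₀) → aver ρ Γ Γ₀ v - v ∈ L₀ := by
    intro v hv
    have e : aver ρ Γ Γ₀ v - v = ri • ∑ x : Γ ⧸ Γ₀.subgroupOf Γ, (cmat ρ Γ Γ₀ x *ᵥ v - v) := by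
      show aver ρ Γ Γ₀ v - v = ((Fintype.card (Γ ⧸ Γ₀.subgroupOf Γ) : ℕ) : E)⁻¹ •
        ∑ x : Γ ⧸ Γ₀.subgroupOf Γ, (cmat ρ Γ Γ₀ x *ᵥ v - v)
      rw [Finset.sum_sub_distrib, smul_sub, Finset.sum_const, Finset.card_univ, aver,
        ← Nat.cast_smul_eq_nsmul E, smul_smul, inv_mul_cancel₀ hr0', one_smul]
    rw [e]
    exact L₀.smul_mem _ (Submodule.sum_mem _ fun x _ => hv _ (x.out : Γ).2)
  let S : Submodule E (PUnit.{1} → Fin n → E) :=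
    (Parity.fixedBy (fun σ : Γ => ρ σ)).comap (LinearMap.proj PUnit.unit)
  have hS : ∀ X : PUnit.{1} → Fin n → E, X ∈ S ↔ ∀ σ : Γ, ρ σ *ᵥ X PUnit.unit = X PUnit.unit :=
    fun X => Iff.rfl
  have hfr : finrank E S = finrank E (Parity.fixedBy (fun σ : Γ => ρ σ)) := by
    refine LinearEquiv.finrank_eq
      (LinearEquiv.ofBijective (((LinearMap.proj PUnit.unit :
        (PUnit.{1} → Fin n → E) →ₗ[E] Fin n → E)).restrict (p := S) fun x hx => hx) ⟨?_, ?_⟩)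
    · intro X Y h
      apply Subtype.ext
      funext d
      exact congrArg Subtype.val h
    · intro v
      exact ⟨⟨fun _ => v.1, v.2⟩, rfl⟩
  have h1 := card_lamN (D := PUnit.{1}) hl 1 S (fun X _ => ⟨‖X PUnit.unit‖, fun d => le_rfl⟩)
  rw [one_mul, hfr] at h1
  rw [← h1]
  have hfixL : ∀ m : MN L₀ l 1, (∀ g ∈ Γ, actN l 1 (fun g => ρ g) hst g m = m) →
      ∀ g ∈ Γ, ρ g *ᵥ lft (m : Wq L₀) - lft (m : Wq L₀) ∈ L₀ := by
    intro m hm g hg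
    have h2 := congrArg Subtype.val (hm g hg)
    rw [coe_actN] at h2
    have h3 : actQ L₀ (ρ g) (mq L₀ (lft (m : Wq L₀))) = mq L₀ (lft (m : Wq L₀)) := by
      rw [mq_lft]
      exact h2
    rw [actQ_mq (hst g), mq_eq] at h3
    exact h3
  refine Nat.card_congr
    { toFun := fun m => ⟨fun _ => m.1, fun _ => aver ρ Γ Γ₀ (lft (m.1 : Wq L₀)),
        fun σ => aver_fix h0 σ _, fun _ => ?_⟩
      invFun := fun x => ⟨x.1 PUnit.unit, fun g hg => ?_⟩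
      left_inv := fun m => rfl
      right_inv := fun x => rfl }
  · have h2 := hav _ (hfixL m.1 m.2)
    rw [← mq_eq, mq_lft] at h2
    exact h2.symm
  · obtain ⟨X, hX, hX'⟩ := x.2
    apply Subtype.ext
    rw [coe_actN, hX' PUnit.unit, actQ_mq (hst g)]
    exact congrArg (mq L₀) ((hS X).1 hX ⟨g, hg⟩)

end Pool.Agent.Work.MP_787500_nt.AR
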