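import Mathlib
import Pool.Agent.Work.MP_787500_nt.AR.Core
import Pool.Agent.Work.MP_787500_nt.AR.Lev
import Pool.Agent.Work.MP_787500_nt.QX.InrX

/-!
# AR/LocIn: THE CONTRIBUTION OF AN INERT PRIME NUMBER for an arbitrary representation

* `locM_inr1`, `locX_inr1`: `KI.locM_inr` and `QX.locX_inr0` with the tame structure for the full system.
* `locF_inertA`, `locX_inrA`: the contribution is `artK` (the dimension of the space fixed by inertia plus the Swan conductor), without a condition on the representation.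
-/

set_option autoImplicit false
set_option linter.unusedSectionVars false

namespace Pool.Agent.Work.MP_787500_nt.AR

open Matrix NumberField
open Pool.Agent.Work.MP_787500_nt.GP (A0 OE bil Lat inT stabD EvPow actN lamN MN bN mq Wq actQ IsAct hf d0)
open Pool.Agent.Work.MP_787500_nt.KR (FSys Sm1 IsChar Smooth Z1 ZV zV LocRep LocD fullC fullD fullK fullQ big
  SDualF sdualF_MN)
open Pool.Agent.Work.MP_787500_nt.KT hiding Str Rel Sel KH Ai IsP cc ff TT
open Pool.Agent.Work.MP_787500_nt.PA (toE cyc homs)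
open Pool.Agent.Work.MP_787500_nt.HP (IsQ Spl IsP inr stb cyQ fsys)
open Pool.Agent.Work.MP_787500_nt.KS (iK ep ep_zero)
open Pool.Agent.Work.MP_787500_nt.QS (Two Lag QM ac2 be2 la2 prY)
open Pool.Agent.Work.MP_787500_nt.QV (rho2 selNQ QRep T2 J2 blk beN laN isoN iso_one iso_two iso_act)
open Pool.Agent.Work.MP_787500_nt.QU (urV Inst)
open Pool.Agent.Work.MP_787500_nt.QW (famL Ari sysQ)
open Pool.Agent.Work.MP_787500_nt.GA (HQ SQ jQ iQ Inr)
open Pool.Agent.Work.MP_787500_nt.QP (InvC)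
open Pool.Agent.Work.MP_787500_nt.QL (TameF zur zurM mem_zurM mem_zur)
open Pool.Agent.Work.MP_787500_nt.KI (LocM LocF YM mem_YM lag_YM Crd exists_psi homs_sm1 card_zur_tra rel_card
  locM_inert siso_iso card_YM fixS mem_fixS plQ lag_fam)
open Pool.Agent.Work.MP_787500_nt.QX (InX LocX famX chi chic lag_odd ep_homs)
open Pool.Agent.Work.MP_787500_nt.QG (VI_eq)

universe u w

/-- the tame structure for the system `big` -/
theorem tame_big {Ω : Type u} [Field Ω] {Q : Ideal (𝓞 Ω)} (N : Subgroup (stb Q)) {a : stb Q → ℤ_[2]}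
    {σ τ : stb Q} {l : ℕ}
    (h : TameF (fullC (stb Q)) (fun d : stb Q => cyQ (d : Ω ≃+* Ω)) a σ τ l ((inr Q).subgroupOf (stb Q))) :
    TameF (big (fullC (stb Q)) N) (fun d : stb Q => cyQ (d : Ω ≃+* Ω)) a σ τ l
      ((inr Q).subgroupOf (stb Q)) := by
  refine h.mono (fun W hW => ?_) (RQ.char_big h.char N)
  obtain ⟨hn, ⟨W₁, ⟨⟨s, hs⟩, -, hi⟩, hle⟩, -⟩ := hW
  exact ⟨⟨s, fun g hg => hle (hs g hg)⟩, hn, fun h0 =>
    hi (Nat.eq_zero_of_zero_dvd (h0 ▸ Subgroup.index_dvd_of_le hle))⟩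

section crd

variable {K : Type u} [Field K] [NumberField K] {c : AlgebraicClosure K ≃+* AlgebraicClosure K}
  {E : Type w} [NormedField E] [NormedAlgebra ℚ_[2] E] [FiniteDimensional ℚ_[2] E]
  [IsLocalRing (OE E)] [Finite (IsLocalRing.ResidueField (OE E))]
  [CharP (IsLocalRing.ResidueField (OE E)) 2] [Algebra (ZMod 2) (IsLocalRing.ResidueField (OE E))]
  {n : ℕ} {ρ : AbsGal K →* Matrix (Fin n) (Fin n) E} {b : Matrix (Fin n) (Fin n) E}
  {l : OE E} {t : E →ₗ[ℚ_[2]] ℚ_[2]} {L₀ : Submodule (OE E) (Fin n → E)}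

/-- THE PARITY in coordinates. -/
theorem crd_even {Q : Ideal (𝓞 (AlgebraicClosure K))} (hQ : Q.IsPrime) {p : ℕ} (hp : p.Prime)
    (hp2 : p ≠ 2) (hpQ : (p : 𝓞 (AlgebraicClosure K)) ∈ Q) (hl : Lat b l t L₀)
    (hst : ∀ g, ∀ x ∈ L₀, ρ g *ᵥ x ∈ L₀) {C : MN L₀ l 1 → MN L₀ l 1} {m : ℕ}
    [Sy (IsLocalRing.ResidueField (OE E)) m]
    {Lc : MN L₀ l 1 ≃+ (Fin m → IsLocalRing.ResidueField (OE E))}
    {A : (AlgebraicClosure K ≃+* AlgebraicClosure K) →*
      Matrix (Fin m) (Fin m) (IsLocalRing.ResidueField (OE E))}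
    (hc : Crd (iK K) c (OE E) (actN l 1 (fun g => ρ g) hst) (bN hl 1) C Lc A)
    {W : Subgroup (AbsGal K)} (hWo : IsOpen (W : Set (AbsGal K))) (hWn : W.Normal)
    (hWt : ∀ g ∈ W, g ∈ wildSet p Q → ρ g = 1) {W' : Subgroup (AbsGal K)}
    (hWo' : IsOpen (W' : Set (AbsGal K)))
    (hW' : ∀ g ∈ W', ∀ m, actN l 1 (fun g => ρ g) hst g m = m)
    {a : stb Q → ℤ_[2]} {σ τ τ' : stb Q}
    (hT : TameF (fullC (stb Q)) (fun d : stb Q => cyQ (d : AlgebraicClosure K ≃+* AlgebraicClosure K))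
      a σ τ p ((inr Q).subgroupOf (stb Q)))
    (hτ' : τ' ∈ (inr Q).subgroupOf (stb Q)) (hodd : PadicInt.toZMod (a τ') = 1)
    (hIr : inr Q ≤ (iK K).range) :
    Even (Module.finrank (IsLocalRing.ResidueField (OE E)) (fixv (A τ')) +
      Module.finrank (IsLocalRing.ResidueField (OE E))
        (fixS (A.comp (stb Q).subtype) ((inr Q).subgroupOf (stb Q))) + swanK p W Q ρ) := by
  have hfin : Finite (MN L₀ l 1) := GP.MN_finite hl 1
  have hq1 : 1 < Nat.card (IsLocalRing.ResidueField (OE E)) := Finite.one_lt_card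
  have hone : ∀ g, (∀ m, actN l 1 (fun g => ρ g) hst g m = m) → A (iK K g) = 1 := by
    intro g hg
    apply Matrix.toLin'.injective
    refine LinearMap.ext fun x => ?_
    rw [Matrix.toLin'_apply, Matrix.toLin'_apply, one_mulVec]
    obtain ⟨m, rfl⟩ := Lc.surjective x
    rw [hc.ae, hg]
  refine parity_core hQ hp hp2 hpQ hWo hWn hWt (A := A) (fun g => hc.sp g) (m' := 0) (A' := 1) ?_ hWo'
    (fun g hg => hone g (hW' g hg)) ?_ hT hτ' hodd hIr
  · intro g hg
    refine ⟨hone g fun m => ?_, rfl⟩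
    apply Subtype.ext
    rw [GP.coe_actN]
    show actQ L₀ (ρ g) _ = _
    rw [hg, GP.actQ, one_mulVec, GP.mq_lft]
  · intro Γ Γ₀ h0 hΓ
    have h1 := lev_card hl hst h0 hΓ
    have h2 : Nat.card (fixS (A.comp (iK K)) Γ) =
        Nat.card {m : MN L₀ l 1 // ∀ g ∈ Γ, actN l 1 (fun g => ρ g) hst g m = m} := by
      refine (Nat.card_congr (Lc.toEquiv.subtypeEquiv fun m => ?_)).symm
      show (∀ g ∈ Γ, actN l 1 (fun g => ρ g) hst g m = m) ↔ ∀ g ∈ Γ, A (iK K g) *ᵥ Lc m = Lc m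
      refine forall₂_congr fun g _ => ?_
      rw [hc.ae]
      exact Lc.injective.eq_iff.symm
    rw [h1, Module.natCard_eq_pow_finrank (K := IsLocalRing.ResidueField (OE E))] at h2
    have h3 := Nat.pow_right_injective hq1 h2
    have h4 : Module.finrank (IsLocalRing.ResidueField (OE E))
        (fixS (1 : AbsGal K →* Matrix (Fin 0) (Fin 0) (IsLocalRing.ResidueField (OE E))) Γ) = 0 := by
      have h5 := Submodule.finrank_le
        (fixS (1 : AbsGal K →* Matrix (Fin 0) (Fin 0) (IsLocalRing.ResidueField (OE E))) Γ)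
      rw [Module.finrank_fin_fun] at h5
      omega
    rw [h4, ← h3, Nat.mul_zero, Nat.add_zero]

end crd

section locF

variable {K : Type u} [Field K] [NumberField K] {D : ℕ} {s : K}
  {c : AlgebraicClosure K ≃+* AlgebraicClosure K} {κ : AbsGal K →* AbsGal K} {T : Finset ℕ}
  {P : ℕ → Ideal (𝓞 (AlgebraicClosure K))} {N₀ : Subgroup (AbsGal K)}
  {iv ivF : ∀ w : Option T, (stb (HP.PP P w) → stb (HP.PP P w) → A0) → A0}
  {tr : (((AlgebraicClosure K ≃+* AlgebraicClosure K) → (AlgebraicClosure K ≃+* AlgebraicClosure K) →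
      (AlgebraicClosure K ≃+* AlgebraicClosure K) → A0) ×
      (∀ i : Option (Option T), HQ c P i → HQ c P i → A0)) →+ A0}
  {E : Type w} [NormedField E] [NormedAlgebra ℚ_[2] E] [FiniteDimensional ℚ_[2] E]
  [IsLocalRing (OE E)] [Finite (IsLocalRing.ResidueField (OE E))]
  [CharP (IsLocalRing.ResidueField (OE E)) 2] [Algebra (ZMod 2) (IsLocalRing.ResidueField (OE E))]
  {n : ℕ} {ρ : AbsGal K →* Matrix (Fin n) (Fin n) E} {b : Matrix (Fin n) (Fin n) E}
  {l : OE E} {t : E →ₗ[ℚ_[2]] ℚ_[2]} {L₀ : Submodule (OE E) (Fin n → E)}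
  {L : Submodule E (stabD (K := K) (P 2) → Fin n → E)}

/-- The contribution of an inert prime number, with the tame structure for the full system (LocF). -/
theorem locM_inr1 (I : Inst.{u, w} s c κ D T P N₀ iv ivF tr) (h : Ari s c κ D T P N₀)
    (hρ : Gn.ConjDual 2 N₀ (inT K T) (Parity.cyclo E) κ ρ b) (hl : Lat b l t L₀)
    (hst : ∀ g, ∀ x ∈ L₀, ρ g *ᵥ x ∈ L₀) {C : MN L₀ l 1 → MN L₀ l 1}
    (hL : L ≤ Parity.cocycles (fun σ : stabD (K := K) (P 2) => ρ σ))
    (hL0 : Parity.coboundaries (fun σ : stabD (K := K) (P 2) => ρ σ) ≤ L) {p : T} (hp : Inr D p)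
    {δ : ℕ}
    (hδ : ∀ (m : ℕ) (_ : Sy (IsLocalRing.ResidueField (OE E)) m)
      (Lc : MN L₀ l 1 ≃+ (Fin m → IsLocalRing.ResidueField (OE E)))
      (A : (AlgebraicClosure K ≃+* AlgebraicClosure K) →*
        Matrix (Fin m) (Fin m) (IsLocalRing.ResidueField (OE E))),
      Crd (iK K) c (OE E) (actN l 1 (fun g => ρ g) hst) (bN hl 1) C Lc A →
      ∀ (a : stb (P p) → ℤ_[2]) (σ τ τ' : stb (P p)),
        TameF (fullC (stb (P p))) (fun d : stb (P p) => cyQ (d : AlgebraicClosure K ≃+* AlgebraicClosure K)) a σ τ p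
          ((inr (P p)).subgroupOf (stb (P p))) →
        τ' ∈ (inr (P p)).subgroupOf (stb (P p)) → PadicInt.toZMod (a τ') = 1 →
        Even (Module.finrank (IsLocalRing.ResidueField (OE E)) (fixv (A τ')) +
          Module.finrank (IsLocalRing.ResidueField (OE E))
            (fixS (A.comp (stb (P p)).subtype) ((inr (P p)).subgroupOf (stb (P p)))) +
          Module.finrank E (EV.VI (iK K) (stb (P p)).subtype ((inr (P p)).subgroupOf (stb (P p)))
            (fun g => ρ g)) + δ)) :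
    LocF c κ P N₀ ivF hl hst C (some (some p)) (famL c κ T P N₀ ρ b h.h2 L (some (some p))) δ := by
  have hfin : Finite (MN L₀ l 1) := GP.MN_finite hl 1
  have hs : SDualF (big (fullK (K := K) T) N₀) cyc κ ∅ (OE E) (actN l 1 (fun g => ρ g) hst)
      (bN hl 1) := sdualF_MN hl (h.rep hρ hst) (fun p hp => absurd hp (Set.notMem_empty p)) 1
  have hpl := plQ I (some (some p))
  have hlag := lag_fam I h hρ hl hst hL hL0 (some (some p))
  have hN := I.norQ
  have hNn : ((N₀.map (iK K)).subgroupOf (stb (P p))).Normal := inferInstance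
  obtain ⟨a, σ, τ, hT0⟩ := QL.exists_tameQ (HP.alg_closure K) (I.prime p) (I.odd p) (I.isPrime p)
    (I.natMem p)
  have hT := tame_big ((N₀.map (iK K)).subgroupOf (stb (P p))) hT0
  have hI : ∀ i ∈ (inr (P p)).subgroupOf (stb (P p)), ∃ g, iK K g = (stb (P p)).subtype i :=
    fun i hi => I.le_inr hp.2.2.1 hi
  have hεI : ∀ d ∈ (inr (P p)).subgroupOf (stb (P p)), ep (iK K) ((stb (P p)).subtype d) = 0 :=
    fun d hd => I.e_inr hp.2.2.1 hd
  obtain ⟨d₁, hd₁⟩ := I.e_inert hp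
  obtain ⟨ψ, hψ, hψI, hv⟩ := exists_psi I.qdat p (I.locF (some p)) (I.ehoms' (stb (P p))) hεI
    ⟨d₁, by rw [show ep (iK K) (d₁ : AlgebraicClosure K ≃+* AlgebraicClosure K) = 1 from hd₁]; exact one_ne_zero⟩
  have hq := h.qrep hρ hl hst I.glob.glob.char.mul
  have hr := QW.locRep_res hq.rep (GA.jsmQ c P (N₀.map (iK K)) (some (some p)))
  -- the action on the level one
  have hqm := hpl.qm hs
  have hact0 : ∀ (d : stb (P p)) (m : MN (T2 L₀) l 1),
      (isoN L₀ l 1).toAddEquiv (actN l 1 (fun d : stb (P p) => rho2 (iK K) c κ (fun g => ρ g) d)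
        hr.st d m) = ac2 (iK K) c κ (actN l 1 (fun g => ρ g) hst) d ((isoN L₀ l 1).toAddEquiv m) :=
    fun d m => iso_act I.isTwo hst hq.rep.st _ m
  have hqN := (QV.qm_N hq I.glob.glob.char 1).comp (GA.jsmQ c P (N₀.map (iK K)) (some (some p)))
  have act0 : IsAct (actN l 1 (fun d : stb (P p) => rho2 (iK K) c κ (fun g => ρ g) d) hr.st) :=
    hqN.act
  have lin0 : ∀ (g : stb (P p)) (a : OE E) (m : MN (T2 L₀) l 1),
      actN l 1 (fun d : stb (P p) => rho2 (iK K) c κ (fun g => ρ g) d) hr.st g (a • m) =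
        a • actN l 1 (fun d : stb (P p) => rho2 (iK K) c κ (fun g => ρ g) d) hr.st g m :=
    hqN.lin
  obtain ⟨W, hW, hW1⟩ := GA.jsmQ c P (N₀.map (iK K)) (some (some p)) _ I.memQ
  have hinQ := EV.inert_Q (e := iK K) (κ := κ) (c := c) (HP.alg_closure K) (I.prime p) (I.odd p)
    (I.isPrime p) (I.natMem p) hNn (I.opnL (some p)) I.isTwo hl hst hr hI hW (fun d hd => by
      obtain ⟨g, -, hg⟩ := hW1 d hd
      exact ⟨g, hg⟩) ⟨d₁, fun h1 => by
        exact one_ne_zero (hd₁.symm.trans ((ep_zero _).2 h1))⟩ act0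
  have hfinY : Finite (YM L₀ l (famL c κ T P N₀ ρ b h.h2 L (some (some p)))) := by
    have h1 := (hpl.ldM hs).fin
    exact Finite.of_injective (fun x => (⟨x.1, hlag.coc _ x.2⟩ : {x // Z1 _ _ x}))
      fun x y hxy => Subtype.ext (congrArg (fun z => z.1) hxy)
  have e1 := card_zur_tra (T := big (fullC (stb (P p))) ((N₀.map (iK K)).subgroupOf (stb (P p))))
    (In := (inr (P p)).subgroupOf (stb (P p))) (siso_iso L₀ l) hact0 act0 lin0 hqm.act hqm.lin
    (lamN (T2 L₀) l 1 (famL c κ T P N₀ ρ b h.h2 L (some (some p))))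
  have e2 := rel_card (zur (big (fullC (stb (P p))) ((N₀.map (iK K)).subgroupOf (stb (P p))))
    ((inr (P p)).subgroupOf (stb (P p))) act0)
    (lamN (T2 L₀) l 1 (famL c κ T P N₀ ρ b h.h2 L (some (some p)))).toAddSubgroup
  refine locM_inert hpl hs hT hI (fun g h => hψ.2.2 g trivial h trivial) (homs_sm1 hψ _) hψI hv hT.τI
    (by rw [hT.τa, map_one]) hqm.act hqm.lin hfinY ?_ hinQ fun m iS Lc A hc =>
      hδ m iS Lc A hc a σ τ τ hT0 hT.τI (by rw [hT.τa, map_one])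
  rw [card_YM]
  exact (congrArg (· * _) e1).trans e2


/-- THE CONTRIBUTION OF AN INERT PRIME NUMBER. -/
theorem locF_inertA (I : Inst.{u, w} s c κ D T P N₀ iv ivF tr) (h : Ari s c κ D T P N₀)
    (hρ : Gn.ConjDual 2 N₀ (inT K T) (Parity.cyclo E) κ ρ b) (hl : Lat b l t L₀)
    (hst : ∀ g, ∀ x ∈ L₀, ρ g *ᵥ x ∈ L₀) {C : MN L₀ l 1 → MN L₀ l 1}
    (hL : L ≤ Parity.cocycles (fun σ : stabD (K := K) (P 2) => ρ σ))
    (hL0 : Parity.coboundaries (fun σ : stabD (K := K) (P 2) => ρ σ) ≤ L) {p : T} (hp : Inr D p)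
    {W : Subgroup (AbsGal K)} (hWo : IsOpen (W : Set (AbsGal K))) (hWn : W.Normal)
    (hWt : ∀ g ∈ W, g ∈ wildSet p (P p) → ρ g = 1) :
    LocF c κ P N₀ ivF hl hst C (some (some p)) (famL c κ T P N₀ ρ b h.h2 L (some (some p)))
      (artK p W (P p) ρ) := by
  refine locM_inr1 I h hρ hl hst hL hL0 hp fun m iS Lc A hc a σ τ τ' hT hτ' hodd => ?_
  have hs : SDualF (big (fullK (K := K) T) N₀) cyc κ ∅ (OE E) (actN l 1 (fun g => ρ g) hst)
      (bN hl 1) := sdualF_MN hl (h.rep hρ hst) (fun p hp => absurd hp (Set.notMem_empty p)) 1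
  obtain ⟨W₀, ⟨-, ⟨W', hW', hle⟩, -⟩, h3⟩ := hs.sm
  have h1 := crd_even (I.isPrime p) (I.prime p) (I.odd p) (I.natMem p) hl hst hc hWo hWn hWt hW'.2.1
    (fun g hg m => h3 g (hle hg) m) hT hτ' hodd fun d hd => I.le_inr hp.2.2.1 hd
  have h2 : Module.finrank E (EV.VI (iK K) (stb (P p)).subtype
      ((inr (P p)).subgroupOf (stb (P p))) (fun g => ρ g)) =
      Module.finrank E (Parity.fixedBy (fun σ : (P p).inertia (AbsGal K) => ρ σ)) := by
    have h3 := VI_eq (c := c) (P := P) p (fun g => ρ g)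
    exact congrArg (fun W : Submodule E (Fin n → E) => Module.finrank E W) h3
  rw [h2]
  unfold artK
  rw [Nat.even_iff] at h1 ⊢
  omega

end locF

section locX

variable {K : Type u} [Field K] [NumberField K]
  {c : AlgebraicClosure K ≃+* AlgebraicClosure K} {κ : AbsGal K →* AbsGal K} {T : Finset ℕ}
  {P : ℕ → Ideal (𝓞 (AlgebraicClosure K))} {N₀ : Subgroup (AbsGal K)}
  {iv ivF : ∀ w : Option T, (stb (HP.PP P w) → stb (HP.PP P w) → A0) → A0}
  {tr : (((AlgebraicClosure K ≃+* AlgebraicClosure K) → (AlgebraicClosure K ≃+* AlgebraicClosure K) →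
      (AlgebraicClosure K ≃+* AlgebraicClosure K) → A0) ×
      (∀ i : Option (Option T), HQ c P i → HQ c P i → A0)) →+ A0}
  {E : Type w} [NormedField E] [NormedAlgebra ℚ_[2] E] [FiniteDimensional ℚ_[2] E]
  {n : ℕ} {ρ : AbsGal K →* Matrix (Fin n) (Fin n) E} {b : Matrix (Fin n) (Fin n) E}
  {l : OE E} {t : E →ₗ[ℚ_[2]] ℚ_[2]} {L₀ : Submodule (OE E) (Fin n → E)}

variable [IsLocalRing (OE E)] [Finite (IsLocalRing.ResidueField (OE E))]
  [CharP (IsLocalRing.ResidueField (OE E)) 2] [Algebra (ZMod 2) (IsLocalRing.ResidueField (OE E))]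

/-- the contribution of an inert prime number, in terms of the level one -/
theorem locX_inr1 (I : InX.{u, w} c κ T P N₀ iv ivF tr)
    (hρ : Gn.ConjDual 2 N₀ (inT K T) (Parity.cyclo E) κ ρ b) (hl : Lat b l t L₀)
    (hst : ∀ g, ∀ x ∈ L₀, ρ g *ᵥ x ∈ L₀) {C : MN L₀ l 1 → MN L₀ l 1} {p : T}
    (hIr : inr (P p) ≤ (iK K).range) {g₀ : AbsGal K} (hg₀ : iK K g₀ * c ∈ stb (P p))
    (L₂ : Submodule E (stb (P 2) → Fin (n + n) → E)) {δ : ℕ}
    (hδ : ∀ (m : ℕ) (_ : Sy (IsLocalRing.ResidueField (OE E)) m)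
      (Lc : MN L₀ l 1 ≃+ (Fin m → IsLocalRing.ResidueField (OE E)))
      (A : (AlgebraicClosure K ≃+* AlgebraicClosure K) →*
        Matrix (Fin m) (Fin m) (IsLocalRing.ResidueField (OE E))),
      Crd (iK K) c (OE E) (actN l 1 (fun g => ρ g) hst) (bN hl 1) C Lc A →
      ∀ (a : stb (P p) → ℤ_[2]) (σ τ τ' : stb (P p)),
        TameF (fullC (stb (P p))) (fun d : stb (P p) => cyQ (d : AlgebraicClosure K ≃+* AlgebraicClosure K)) a σ τ p
          ((inr (P p)).subgroupOf (stb (P p))) →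
        τ' ∈ (inr (P p)).subgroupOf (stb (P p)) → PadicInt.toZMod (a τ') = 1 →
        Even (Module.finrank (IsLocalRing.ResidueField (OE E)) (fixv (A τ')) +
          Module.finrank (IsLocalRing.ResidueField (OE E))
            (fixS (A.comp (stb (P p)).subtype) ((inr (P p)).subgroupOf (stb (P p)))) +
          Module.finrank E (EV.VI (iK K) (stb (P p)).subtype ((inr (P p)).subgroupOf (stb (P p)))
            (fun g => ρ g)) + δ)) :
    LocX c κ P N₀ ivF hl hst C (some (some p)) (famX c κ T P N₀ ρ L₂ (some (some p))) δ := by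
  have hfin : Finite (MN L₀ l 1) := GP.MN_finite hl 1
  have hs : SDualF (big (fullK (K := K) T) N₀) cyc κ ∅ (OE E) (actN l 1 (fun g => ρ g) hst)
      (bN hl 1) := sdualF_MN hl (I.toArX.rep hρ hst) (fun p hp => absurd hp (Set.notMem_empty p)) 1
  have hpl := I.plQ (some (some p))
  have hlag := lag_YM I.two chi (chic I.two) I.glob.glob.char.mul hl (I.toArX.rep hρ hst)
    (I.toArX.qrep hρ hl hst I.glob.glob.char.mul) (lag_odd I hρ hl hst 1 p)
  have hN := I.norQ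
  have hNn : ((N₀.map (iK K)).subgroupOf (stb (P p))).Normal := inferInstance
  obtain ⟨a, σ, τ, hT0⟩ := QL.exists_tameQ (HP.alg_closure K) (I.prime p) (I.odd p) (I.isPrime p)
    (I.natMem p)
  have hT := tame_big ((N₀.map (iK K)).subgroupOf (stb (P p))) hT0
  have hI : ∀ i ∈ (inr (P p)).subgroupOf (stb (P p)), ∃ g, iK K g = (stb (P p)).subtype i :=
    fun i hi => hIr hi
  have hεI : ∀ d ∈ (inr (P p)).subgroupOf (stb (P p)), ep (iK K) ((stb (P p)).subtype d) = 0 :=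
    fun d hd => (ep_zero _).2 (hIr hd)
  obtain ⟨d₁, hd₁⟩ : ∃ d₁ : stb (P p), ep (iK K) (d₁ : AlgebraicClosure K ≃+* AlgebraicClosure K) = 1 :=
    ⟨⟨iK K g₀ * c, hg₀⟩, if_neg fun h => by
      obtain ⟨m, hm⟩ := h
      exact I.two.out g₀ m hm⟩
  have heh : (fun d : stb (P p) => ep (iK K) (d : AlgebraicClosure K ≃+* AlgebraicClosure K)) ∈
      homs (fsys (stb (P p))) (⊤ : Subgroup (stb (P p))) := by
    rw [← KR.two_fullC]
    exact ep_homs I.two I.unr (stb (P p))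
  obtain ⟨ψ, hψ, hψI, hv⟩ := exists_psi I.qdat p (I.locF (some p)) heh hεI
    ⟨d₁, by rw [hd₁]; exact one_ne_zero⟩
  have hq := I.toArX.qrep hρ hl hst I.glob.glob.char.mul
  have hr := QW.locRep_res hq.rep (GA.jsmQ c P (N₀.map (iK K)) (some (some p)))
  -- the action on the level one
  have hqm := hpl.qm hs
  have hact0 : ∀ (d : stb (P p)) (m : MN (T2 L₀) l 1),
      (isoN L₀ l 1).toAddEquiv (actN l 1 (fun d : stb (P p) => rho2 (iK K) c κ (fun g => ρ g) d)
        hr.st d m) = ac2 (iK K) c κ (actN l 1 (fun g => ρ g) hst) d ((isoN L₀ l 1).toAddEquiv m) :=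
    fun d m => iso_act I.two hst hq.rep.st _ m
  have hqN := (QV.qm_N hq I.glob.glob.char 1).comp (GA.jsmQ c P (N₀.map (iK K)) (some (some p)))
  have act0 : IsAct (actN l 1 (fun d : stb (P p) => rho2 (iK K) c κ (fun g => ρ g) d) hr.st) :=
    hqN.act
  have lin0 : ∀ (g : stb (P p)) (a : OE E) (m : MN (T2 L₀) l 1),
      actN l 1 (fun d : stb (P p) => rho2 (iK K) c κ (fun g => ρ g) d) hr.st g (a • m) =
        a • actN l 1 (fun d : stb (P p) => rho2 (iK K) c κ (fun g => ρ g) d) hr.st g m :=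
    hqN.lin
  obtain ⟨W, hW, hW1⟩ := GA.jsmQ c P (N₀.map (iK K)) (some (some p)) _ I.memQ
  have hinQ := EV.inert_Q (e := iK K) (κ := κ) (c := c) (HP.alg_closure K) (I.prime p) (I.odd p)
    (I.isPrime p) (I.natMem p) hNn (I.opnL (some p)) I.two hl hst hr hI hW (fun d hd => by
      obtain ⟨g, -, hg⟩ := hW1 d hd
      exact ⟨g, hg⟩) ⟨d₁, fun h1 => by
        exact one_ne_zero (hd₁.symm.trans ((ep_zero _).2 h1))⟩ act0
  have hfinY : Finite (YM L₀ l (famX c κ T P N₀ ρ L₂ (some (some p)))) := by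
    have h1 := (hpl.ldM hs).fin
    exact Finite.of_injective (fun x => (⟨x.1, hlag.coc _ x.2⟩ : {x // Z1 _ _ x}))
      fun x y hxy => Subtype.ext (congrArg (fun z => z.1) hxy)
  have e1 := card_zur_tra (T := big (fullC (stb (P p))) ((N₀.map (iK K)).subgroupOf (stb (P p))))
    (In := (inr (P p)).subgroupOf (stb (P p))) (siso_iso L₀ l) hact0 act0 lin0 hqm.act hqm.lin
    (lamN (T2 L₀) l 1 (famX c κ T P N₀ ρ L₂ (some (some p))))
  have e2 := rel_card (zur (big (fullC (stb (P p))) ((N₀.map (iK K)).subgroupOf (stb (P p))))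
    ((inr (P p)).subgroupOf (stb (P p))) act0)
    (lamN (T2 L₀) l 1 (famX c κ T P N₀ ρ L₂ (some (some p)))).toAddSubgroup
  refine locM_inert hpl hs hT hI (fun g h => hψ.2.2 g trivial h trivial) (homs_sm1 hψ _) hψI hv hT.τI
    (by rw [hT.τa, map_one]) hqm.act hqm.lin hfinY ?_ hinQ fun m iS Lc A hc =>
      hδ m iS Lc A hc a σ τ τ hT0 hT.τI (by rw [hT.τa, map_one])
  rw [card_YM]
  exact (congrArg (· * _) e1).trans e2


/-- THE CONTRIBUTION OF AN INERT PRIME NUMBER, for an arbitrary imaginary quadratic field. -/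
theorem locX_inrA (I : InX.{u, w} c κ T P N₀ iv ivF tr)
    (hρ : Gn.ConjDual 2 N₀ (inT K T) (Parity.cyclo E) κ ρ b) (hl : Lat b l t L₀)
    (hst : ∀ g, ∀ x ∈ L₀, ρ g *ᵥ x ∈ L₀) {C : MN L₀ l 1 → MN L₀ l 1} {p : T}
    (hIr : inr (P p) ≤ (iK K).range) {g₀ : AbsGal K} (hg₀ : iK K g₀ * c ∈ stb (P p))
    {W : Subgroup (AbsGal K)} (hWo : IsOpen (W : Set (AbsGal K))) (hWn : W.Normal)
    (hWt : ∀ g ∈ W, g ∈ wildSet p (P p) → ρ g = 1)
    (L₂ : Submodule E (stb (P 2) → Fin (n + n) → E)) :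
    LocX c κ P N₀ ivF hl hst C (some (some p)) (famX c κ T P N₀ ρ L₂ (some (some p)))
      (artK p W (P p) ρ) := by
  refine locX_inr1 I hρ hl hst hIr hg₀ L₂ fun m iS Lc A hc a σ τ τ' hT hτ' hodd => ?_
  have hs : SDualF (big (fullK (K := K) T) N₀) cyc κ ∅ (OE E) (actN l 1 (fun g => ρ g) hst)
      (bN hl 1) := sdualF_MN hl (I.toArX.rep hρ hst) (fun p hp => absurd hp (Set.notMem_empty p)) 1
  obtain ⟨W₀, ⟨-, ⟨W', hW', hle⟩, -⟩, h3⟩ := hs.sm
  have h1 := crd_even (I.isPrime p) (I.prime p) (I.odd p) (I.natMem p) hl hst hc hWo hWn hWt hW'.2.1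
    (fun g hg m => h3 g (hle hg) m) hT hτ' hodd hIr
  have h2 : Module.finrank E (EV.VI (iK K) (stb (P p)).subtype
      ((inr (P p)).subgroupOf (stb (P p))) (fun g => ρ g)) =
      Module.finrank E (Parity.fixedBy (fun σ : (P p).inertia (AbsGal K) => ρ σ)) := by
    have h3 := VI_eq (c := c) (P := P) p (fun g => ρ g)
    exact congrArg (fun W : Submodule E (Fin n → E) => Module.finrank E W) h3
  rw [h2]
  unfold artK
  rw [Nat.even_iff] at h1 ⊢
  omega

end locX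

end Pool.Agent.Work.MP_787500_nt.AR
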