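import Mathlib
import Pool.Agent.Work.MP_787500_nt.AR.LocIn
import Pool.Agent.Work.MP_787500_nt.KJ.InrF

/-!
# AR/LocInS: THE CONTRIBUTION OF AN INERT PRIME NUMBER, the level one is `U × N × N`

* `locFS_inr1`: `KJ.locFS_inr` with the tame structure for the full system.
* `exists_mat`: coordinates of `N`.
* `locFS_inertA`: the contribution is `artK`.
-/

set_option autoImplicit false
set_option linter.unusedSectionVars false

namespace Pool.Agent.Work.MP_787500_nt.AR

open Matrix NumberField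
open Pool.Agent.Work.MP_787500_nt.GP (A0 OE MN actN actQ bN Lat inT stabD IsAct lamN EvPow)
open Pool.Agent.Work.MP_787500_nt.KR (fullK fullC big SDualF Smooth Z1)
open Pool.Agent.Work.MP_787500_nt.PA (cyc)
open Pool.Agent.Work.MP_787500_nt.HP (IsQ Spl IsP inr stb cyQ)
open Pool.Agent.Work.MP_787500_nt.KS (iK ep ep_zero)
open Pool.Agent.Work.MP_787500_nt.KT (Sy fixv)
open Pool.Agent.Work.MP_787500_nt.QP (InvC)
open Pool.Agent.Work.MP_787500_nt.QS (Two ac2 be2 la2 Lag)
open Pool.Agent.Work.MP_787500_nt.QV (rho2 T2 isoN iso_act)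
open Pool.Agent.Work.MP_787500_nt.QU (Inst urV)
open Pool.Agent.Work.MP_787500_nt.QW (famL Ari)
open Pool.Agent.Work.MP_787500_nt.GA (HQ SQ jQ iQ)
open Pool.Agent.Work.MP_787500_nt.QL (TameF zur zurM mem_zurM mem_zur)
open Pool.Agent.Work.MP_787500_nt.KI (plQ lag_fam Crd fixS exists_psi homs_sm1 card_zur_tra rel_card
  siso_iso card_YM YM exists_crd_res)
open Pool.Agent.Work.MP_787500_nt.QG (inr_iff one_of_lev VI_eq)
open Pool.Agent.Work.MP_787500_nt.RC (SplS)
open Pool.Agent.Work.MP_787500_nt.KJ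

section mat

universe v

/-- coordinates of a module that is killed by the maximal ideal -/
theorem exists_mat {O : Type*} [CommRing O] [IsLocalRing O] [Finite (IsLocalRing.ResidueField O)]
    {N : Type v} [AddCommGroup N] [Module O N] [Finite N]
    (hN : ∀ a ∈ IsLocalRing.maximalIdeal O, ∀ y : N, a • y = 0) {G : Type*} [Group G] {aN : G → N → N}
    (h : IsAct aN) (hlin : ∀ g (a : O) y, aN g (a • y) = a • aN g y) :
    ∃ (m : ℕ) (L : N ≃+ (Fin m → IsLocalRing.ResidueField O))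
      (A : G →* Matrix (Fin m) (Fin m) (IsLocalRing.ResidueField O)), ∀ g y, A g *ᵥ L y = L (aN g y) := by
  have hN' : Module.IsTorsionBySet O N (IsLocalRing.maximalIdeal O : Set O) := fun y a => hN a a.2 y
  let iN : Module (IsLocalRing.ResidueField O) N :=
    (hN'.module : Module (O ⧸ IsLocalRing.maximalIdeal O) N)
  have h5 : ∀ (x : O) (y : N), IsLocalRing.residue O x • y = x • y := fun _ _ => rfl
  have hfin : Module.Finite (IsLocalRing.ResidueField O) N := Module.Finite.of_finite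
  let bs := Module.finBasis (IsLocalRing.ResidueField O) N
  let f : G → N →ₗ[IsLocalRing.ResidueField O] N := fun g =>
    { toFun := aN g
      map_add' := fun x y => h.add g x y
      map_smul' := fun a y => by
        obtain ⟨x, rfl⟩ := IsLocalRing.residue_surjective a
        rw [h5, hlin]
        rfl }
  refine ⟨_, bs.equivFun.toAddEquiv,
    { toFun := fun g => LinearMap.toMatrix bs bs (f g)
      map_one' := ?_
      map_mul' := fun g g' => ?_ }, fun g y => ?_⟩
  · have h1 : f 1 = LinearMap.id := LinearMap.ext fun y => h.one y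
    rw [h1, LinearMap.toMatrix_id]
  · have h1 : f (g * g') = f g ∘ₗ f g' := LinearMap.ext fun y => h.mul g g' y
    rw [h1, LinearMap.toMatrix_comp bs bs bs]
  · have h1 := LinearMap.toMatrix_mulVec_repr bs bs (f g) y
    exact h1

end mat

universe u w

variable {K : Type u} [Field K] [NumberField K] {D : ℕ} {s : K}
  {c : AlgebraicClosure K ≃+* AlgebraicClosure K} {κ : AbsGal K →* AbsGal K} {T : Finset ℕ}
  {P : ℕ → Ideal (𝓞 (AlgebraicClosure K))} {N₀ : Subgroup (AbsGal K)}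
  {iv ivF : ∀ w : Option T, (stb (HP.PP P w) → stb (HP.PP P w) → A0) → A0}
  {tr : (((AlgebraicClosure K ≃+* AlgebraicClosure K) → (AlgebraicClosure K ≃+* AlgebraicClosure K) →
      (AlgebraicClosure K ≃+* AlgebraicClosure K) → A0) ×
      (∀ i : Option (Option T), GA.HQ c P i → GA.HQ c P i → A0)) →+ A0}
  {E : Type w} [NormedField E] [NormedAlgebra ℚ_[2] E] [FiniteDimensional ℚ_[2] E]
  {n : ℕ} {ρ : AbsGal K →* Matrix (Fin n) (Fin n) E} {b : Matrix (Fin n) (Fin n) E}
  {l : OE E} {t : E →ₗ[ℚ_[2]] ℚ_[2]} {L₀ : Submodule (OE E) (Fin n → E)}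
  {L : Submodule E (stabD (K := K) (P 2) → Fin n → E)}

variable [IsLocalRing (OE E)] [Finite (IsLocalRing.ResidueField (OE E))]
  [CharP (IsLocalRing.ResidueField (OE E)) 2] [Algebra (ZMod 2) (IsLocalRing.ResidueField (OE E))]
  {U N : Type w} [AddCommGroup U] [Module (OE E) U] [Finite U] [AddCommGroup N] [Module (OE E) N]
  [Finite N]
  {aU : AbsGal K → U → U} {bU : U →+ U →+ A0} {aN : AbsGal K → N → N} {hN : N →+ N →+ A0}
  {Φ : MN L₀ l 1 ≃ₗ[OE E] U × N × N} {C : U → U}

/-- THE CONTRIBUTION OF AN INERT PRIME NUMBER, in terms of the coordinates of `U`. -/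
theorem locFS_inr1 (I : Inst.{u, w} s c κ D T P N₀ iv ivF tr) (h : Ari s c κ D T P N₀)
    (hρ : Gn.ConjDual 2 N₀ (inT K T) (Parity.cyclo E) κ ρ b) (hl : Lat b l t L₀)
    (hst : ∀ g, ∀ x ∈ L₀, ρ g *ᵥ x ∈ L₀)
    (hs : SplS (OE E) (actN l 1 (fun g => ρ g) hst) (bN hl 1) aU bU aN hN Φ)
    (hC : InvC κ (OE E) aU bU C)
    (hL : L ≤ Parity.cocycles (fun σ : stabD (K := K) (P 2) => ρ σ))
    (hL0 : Parity.coboundaries (fun σ : stabD (K := K) (P 2) => ρ σ) ≤ L) {p : T} (hp : GA.Inr D p)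
    {δ : ℕ}
    (hδ : ∀ (m : ℕ) (_ : Sy (IsLocalRing.ResidueField (OE E)) m)
      (Lc : U ≃+ (Fin m → IsLocalRing.ResidueField (OE E)))
      (A : (AlgebraicClosure K ≃+* AlgebraicClosure K) →*
        Matrix (Fin m) (Fin m) (IsLocalRing.ResidueField (OE E))),
      Crd (iK K) c (OE E) aU bU C Lc A →
      ∀ (a : stb (P p) → ℤ_[2]) (σ τ τ' : stb (P p)),
        TameF (fullC (stb (P p))) (fun d : stb (P p) => cyQ (d : AlgebraicClosure K ≃+* AlgebraicClosure K)) a σ τ p
          ((inr (P p)).subgroupOf (stb (P p))) →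
        τ' ∈ (inr (P p)).subgroupOf (stb (P p)) → PadicInt.toZMod (a τ') = 1 →
        Even (Module.finrank (IsLocalRing.ResidueField (OE E)) (fixv (A τ')) +
          Module.finrank (IsLocalRing.ResidueField (OE E))
            (fixS (A.comp (stb (P p)).subtype) ((inr (P p)).subgroupOf (stb (P p)))) +
          Module.finrank E (EV.VI (iK K) (stb (P p)).subtype ((inr (P p)).subgroupOf (stb (P p)))
            (fun g => ρ g)) + δ)) :
    LocFS c κ P N₀ ivF aU bU aN hN Φ C (some (some p)) (famL c κ T P N₀ ρ b h.h2 L (some (some p)))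
      δ := by
  have hfin : Finite (MN L₀ l 1) := GP.MN_finite hl 1
  have hsd := sdual_M I h hρ hl hst
  have hU := sdualU hs hsd
  have hpl := plQ I (some (some p))
  have hlag := lag_fam I h hρ hl hst hL hL0 (some (some p))
  have hNn : ((N₀.map (iK K)).subgroupOf (stb (P p))).Normal := by
    have := I.norQ
    infer_instance
  obtain ⟨a, σ, τ, hT0⟩ := QL.exists_tameQ (HP.alg_closure K) (I.prime p) (I.odd p) (I.isPrime p)
    (I.natMem p)
  have hT := tame_big ((N₀.map (iK K)).subgroupOf (stb (P p))) hT0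
  have hI : ∀ i ∈ (inr (P p)).subgroupOf (stb (P p)), ∃ g, iK K g = (stb (P p)).subtype i :=
    fun i hi => I.le_inr hp.2.2.1 hi
  have hεI : ∀ d ∈ (inr (P p)).subgroupOf (stb (P p)), ep (iK K) ((stb (P p)).subtype d) = 0 :=
    fun d hd => I.e_inr hp.2.2.1 hd
  obtain ⟨d₁, hd₁⟩ := I.e_inert hp
  obtain ⟨ψ, hψ, hψI, hv⟩ := exists_psi I.qdat p (I.locF (some p)) (I.ehoms' (stb (P p))) hεI
    ⟨d₁, by rw [show ep (iK K) (d₁ : AlgebraicClosure K ≃+* AlgebraicClosure K) = 1 from hd₁]; exact one_ne_zero⟩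
  have hq := h.qrep hρ hl hst I.glob.glob.char.mul
  have hr := QW.locRep_res hq.rep (GA.jsmQ c P (N₀.map (iK K)) (some (some p)))
  -- the action on the level one
  have hqm := hpl.qm hsd
  have hact0 : ∀ (d : stb (P p)) (m : MN (T2 L₀) l 1),
      (isoN L₀ l 1).toAddEquiv (actN l 1 (fun d : stb (P p) => rho2 (iK K) c κ (fun g => ρ g) d)
        hr.st d m) = ac2 (iK K) c κ (actN l 1 (fun g => ρ g) hst) d ((isoN L₀ l 1).toAddEquiv m) :=
    fun d m => iso_act I.isTwo hst hq.rep.st _ m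
  have hqN := (QV.qm_N hq I.glob.glob.char 1).comp (GA.jsmQ c P (N₀.map (iK K)) (some (some p)))
  have act0 : IsAct (actN l 1 (fun d : stb (P p) => rho2 (iK K) c κ (fun g => ρ g) d) hr.st) :=
    hqN.act
  have lin0 : ∀ (g : stb (P p)) (a : OE E) (m : MN (T2 L₀) l 1),
      actN l 1 (fun d : stb (P p) => rho2 (iK K) c κ (fun g => ρ g) d) hr.st g (a • m) =
        a • actN l 1 (fun d : stb (P p) => rho2 (iK K) c κ (fun g => ρ g) d) hr.st g m :=
    hqN.lin
  obtain ⟨W, hW, hW1⟩ := GA.jsmQ c P (N₀.map (iK K)) (some (some p)) _ I.memQ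
  have hinQ := EV.inert_Q (e := iK K) (κ := κ) (c := c) (HP.alg_closure K) (I.prime p) (I.odd p)
    (I.isPrime p) (I.natMem p) hNn (I.opnL (some p)) I.isTwo hl hst hr hI hW (fun d hd => by
      obtain ⟨g, -, hg⟩ := hW1 d hd
      exact ⟨g, hg⟩) ⟨d₁, fun h1 => by
        exact one_ne_zero (hd₁.symm.trans ((ep_zero _).2 h1))⟩ act0
  have e1 := card_zur_tra (T := big (fullC (stb (P p))) ((N₀.map (iK K)).subgroupOf (stb (P p))))
    (In := (inr (P p)).subgroupOf (stb (P p))) (siso_iso L₀ l) hact0 act0 lin0 hqm.act hqm.lin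
    (lamN (T2 L₀) l 1 (famL c κ T P N₀ ρ b h.h2 L (some (some p))))
  have e2 := rel_card (zur (big (fullC (stb (P p))) ((N₀.map (iK K)).subgroupOf (stb (P p))))
    ((inr (P p)).subgroupOf (stb (P p))) act0)
    (lamN (T2 L₀) l 1 (famL c κ T P N₀ ρ b h.h2 L (some (some p)))).toAddSubgroup
  obtain ⟨g₀, hg₀⟩ := hI τ hT.τI
  obtain ⟨f, hf⟩ := pow_fix1 (O := OE E) hU.act hU.lin g₀
  obtain ⟨v, hv'⟩ := pow_fixI (O := OE E) (e := iK K) (jp := (stb (P p)).subtype)
    (In := (inr (P p)).subgroupOf (stb (P p))) hU.act hU.lin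
  have key := locS_inert (C := C) hpl hsd hs hT hI (fun g h => hψ.2.2 g trivial h trivial)
    (homs_sm1 hψ _) hψI hv hT.τI (by rw [hT.τa, map_one]) hlag (by
      rw [card_YM]
      exact (congrArg (· * _) e1).trans e2) hinQ hg₀ hf hv'
  refine locS_congr ?_ key
  obtain ⟨m, iS, Lc, A, hc⟩ := exists_crd_res I.isTwo
    (fun g => by
      rw [← Inst.chi]
      exact I.glob.glob.char.odd _) (fun a ha y => max_U Φ hl a ha y) hU hC
  have h5 := hδ m iS Lc A hc a σ τ τ hT0 hT.τI (by rw [hT.τa, map_one])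
  rw [fixI_crd hc hI hv'] at h5
  have h6 := fix1_crd hc hf
  rw [hg₀] at h6
  rw [show (A (τ : AlgebraicClosure K ≃+* AlgebraicClosure K)) = A ((stb (P p)).subtype τ) from rfl,
    h6] at h5
  obtain ⟨x, hx⟩ := h5
  refine ⟨x, ?_⟩
  rw [← hx]
  show f + (v + Module.finrank E (EV.VI (iK K) (stb (P p)).subtype
    ((inr (P p)).subgroupOf (stb (P p))) (fun g => ρ g))) + δ = _
  rw [← add_assoc f v]


/-- THE PARITY in coordinates. -/
theorem crdS_even {Q : Ideal (𝓞 (AlgebraicClosure K))} (hQ : Q.IsPrime) {p : ℕ} (hp : p.Prime)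
    (hp2 : p ≠ 2) (hpQ : (p : 𝓞 (AlgebraicClosure K)) ∈ Q) (hl : Lat b l t L₀)
    (hst : ∀ g, ∀ x ∈ L₀, ρ g *ᵥ x ∈ L₀)
    (hs : SplS (OE E) (actN l 1 (fun g => ρ g) hst) (bN hl 1) aU bU aN hN Φ)
    (hactN : IsAct aN) (hlinN : ∀ g (a : OE E) y, aN g (a • y) = a • aN g y) {m : ℕ}
    [Sy (IsLocalRing.ResidueField (OE E)) m]
    {Lc : U ≃+ (Fin m → IsLocalRing.ResidueField (OE E))}
    {A : (AlgebraicClosure K ≃+* AlgebraicClosure K) →*
      Matrix (Fin m) (Fin m) (IsLocalRing.ResidueField (OE E))}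
    (hc : Crd (iK K) c (OE E) aU bU C Lc A)
    {W : Subgroup (AbsGal K)} (hWo : IsOpen (W : Set (AbsGal K))) (hWn : W.Normal)
    (hWt : ∀ g ∈ W, g ∈ wildSet p Q → ρ g = 1) {W' : Subgroup (AbsGal K)}
    (hWo' : IsOpen (W' : Set (AbsGal K)))
    (hW' : ∀ g ∈ W', ∀ m, actN l 1 (fun g => ρ g) hst g m = m)
    {a : stb Q → ℤ_[2]} {σ τ τ' : stb Q}
    (hT : TameF (fullC (stb Q)) (fun d : stb Q => cyQ (d : AlgebraicClosure K ≃+* AlgebraicClosure K))
      a σ τ p ((inr Q).subgroupOf (stb Q)))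
    (hτ' : τ' ∈ (inr Q).subgroupOf (stb Q)) (hodd : PadicInt.toZMod (a τ') = 1)
    (hIr : inr Q ≤ (iK K).range) :
    Even (Module.finrank (IsLocalRing.ResidueField (OE E)) (fixv (A τ')) +
      Module.finrank (IsLocalRing.ResidueField (OE E))
        (fixS (A.comp (stb Q).subtype) ((inr Q).subgroupOf (stb Q))) + swanK p W Q ρ) := by
  have hfin : Finite (MN L₀ l 1) := GP.MN_finite hl 1
  have hq1 : 1 < Nat.card (IsLocalRing.ResidueField (OE E)) := Finite.one_lt_card
  obtain ⟨m', LN, A', hA'⟩ := exists_mat (fun a ha y => max_N Φ hl a ha y) hactN hlinN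
  have hactU : ∀ g, (∀ m, actN l 1 (fun g => ρ g) hst g m = m) →
      (∀ u, aU g u = u) ∧ ∀ y, aN g y = y := by
    intro g hg
    constructor
    · intro u
      have h1 := hs.act g (Φ.symm (u, 0, 0))
      rw [hg, Φ.apply_symm_apply] at h1
      exact (congrArg Prod.fst h1).symm
    · intro y
      have h1 := hs.act g (Φ.symm (0, y, 0))
      rw [hg, Φ.apply_symm_apply] at h1
      exact (congrArg (fun z => z.2.1) h1).symm
  have hone : ∀ g, (∀ m, actN l 1 (fun g => ρ g) hst g m = m) → A (iK K g) = 1 ∧ A' g = 1 := by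
    intro g hg
    obtain ⟨h1, h2⟩ := hactU g hg
    constructor
    · apply Matrix.toLin'.injective
      refine LinearMap.ext fun x => ?_
      rw [Matrix.toLin'_apply, Matrix.toLin'_apply, one_mulVec]
      obtain ⟨u, rfl⟩ := Lc.surjective x
      rw [hc.ae, h1]
    · apply Matrix.toLin'.injective
      refine LinearMap.ext fun x => ?_
      rw [Matrix.toLin'_apply, Matrix.toLin'_apply, one_mulVec]
      obtain ⟨y, rfl⟩ := LN.surjective x
      rw [hA', h2]
  refine parity_core hQ hp hp2 hpQ hWo hWn hWt (A := A) (fun g => hc.sp g) (A' := A') ?_ hWo'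
    (fun g hg => (hone g (hW' g hg)).1) ?_ hT hτ' hodd hIr
  · intro g hg
    refine hone g fun m => ?_
    apply Subtype.ext
    rw [GP.coe_actN]
    show actQ L₀ (ρ g) _ = _
    rw [hg, GP.actQ, one_mulVec, GP.mq_lft]
  · intro Γ Γ₀ h0 hΓ
    have h1 := lev_card hl hst h0 hΓ
    have h2 : Nat.card (fixS (A.comp (iK K)) Γ) = Nat.card {u : U // ∀ g ∈ Γ, aU g u = u} := by
      refine (Nat.card_congr (Lc.toEquiv.subtypeEquiv fun u => ?_)).symm
      show (∀ g ∈ Γ, aU g u = u) ↔ ∀ g ∈ Γ, A (iK K g) *ᵥ Lc u = Lc u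
      refine forall₂_congr fun g _ => ?_
      rw [hc.ae]
      exact Lc.injective.eq_iff.symm
    have h3 : Nat.card (fixS A' Γ) = Nat.card {y : N // ∀ g ∈ Γ, aN g y = y} := by
      refine (Nat.card_congr (LN.toEquiv.subtypeEquiv fun y => ?_)).symm
      show (∀ g ∈ Γ, aN g y = y) ↔ ∀ g ∈ Γ, A' g *ᵥ LN y = LN y
      refine forall₂_congr fun g _ => ?_
      rw [hA']
      exact LN.injective.eq_iff.symm
    have h4 : Nat.card {m : MN L₀ l 1 // ∀ g ∈ Γ, actN l 1 (fun g => ρ g) hst g m = m} =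
        Nat.card {u : U // ∀ g ∈ Γ, aU g u = u} * (Nat.card {y : N // ∀ g ∈ Γ, aN g y = y} *
          Nat.card {y : N // ∀ g ∈ Γ, aN g y = y}) := by
      rw [← Nat.card_prod, ← Nat.card_prod]
      refine Nat.card_congr
        { toFun := fun m => (⟨(Φ m.1).1, fun g hg => ?_⟩, ⟨(Φ m.1).2.1, fun g hg => ?_⟩,
            ⟨(Φ m.1).2.2, fun g hg => ?_⟩)
          invFun := fun z => ⟨Φ.symm (z.1.1, z.2.1.1, z.2.2.1), fun g hg => ?_⟩
          left_inv := fun m => ?_
          right_inv := fun z => ?_ }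
      · have h5 := hs.act g m.1
        rw [m.2 g hg] at h5
        exact (congrArg Prod.fst h5).symm
      · have h5 := hs.act g m.1
        rw [m.2 g hg] at h5
        exact (congrArg (fun z => z.2.1) h5).symm
      · have h5 := hs.act g m.1
        rw [m.2 g hg] at h5
        exact (congrArg (fun z => z.2.2) h5).symm
      · apply Φ.injective
        rw [hs.act, Φ.apply_symm_apply]
        show (aU g z.1.1, aN g z.2.1.1, aN g z.2.2.1) = _
        rw [z.1.2 g hg, z.2.1.2 g hg, z.2.2.2 g hg]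
      · exact Subtype.ext (Φ.symm_apply_apply m.1)
      · refine Prod.ext (Subtype.ext ?_) (Prod.ext (Subtype.ext ?_) (Subtype.ext ?_))
        · exact congrArg Prod.fst (Φ.apply_symm_apply _)
        · exact congrArg (fun z => z.2.1) (Φ.apply_symm_apply _)
        · exact congrArg (fun z => z.2.2) (Φ.apply_symm_apply _)
    rw [h1, ← h2, ← h3, Module.natCard_eq_pow_finrank (K := IsLocalRing.ResidueField (OE E))
      (V := fixS (A.comp (iK K)) Γ),
      Module.natCard_eq_pow_finrank (K := IsLocalRing.ResidueField (OE E)) (V := fixS A' Γ),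
      ← pow_add, ← pow_add] at h4
    have h5 := Nat.pow_right_injective hq1 h4
    have h6 : Module.finrank E (Parity.fixedBy (fun σ : Γ => ρ σ)) =
      Module.finrank (IsLocalRing.ResidueField (OE E)) (fixS (A.comp (iK K)) Γ) +
      (Module.finrank (IsLocalRing.ResidueField (OE E)) (fixS A' Γ) +
      Module.finrank (IsLocalRing.ResidueField (OE E)) (fixS A' Γ)) := h5
    rw [h6, two_mul]

/-- THE CONTRIBUTION OF AN INERT PRIME NUMBER. -/
theorem locFS_inertA (I : Inst.{u, w} s c κ D T P N₀ iv ivF tr) (h : Ari s c κ D T P N₀)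
    (hρ : Gn.ConjDual 2 N₀ (inT K T) (Parity.cyclo E) κ ρ b) (hl : Lat b l t L₀)
    (hst : ∀ g, ∀ x ∈ L₀, ρ g *ᵥ x ∈ L₀)
    (hs : SplS (OE E) (actN l 1 (fun g => ρ g) hst) (bN hl 1) aU bU aN hN Φ)
    (hC : InvC κ (OE E) aU bU C)
    (hL : L ≤ Parity.cocycles (fun σ : stabD (K := K) (P 2) => ρ σ))
    (hL0 : Parity.coboundaries (fun σ : stabD (K := K) (P 2) => ρ σ) ≤ L) {p : T} (hp : GA.Inr D p)
    {W : Subgroup (AbsGal K)} (hWo : IsOpen (W : Set (AbsGal K))) (hWn : W.Normal)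
    (hWt : ∀ g ∈ W, g ∈ wildSet p (P p) → ρ g = 1) :
    LocFS c κ P N₀ ivF aU bU aN hN Φ C (some (some p)) (famL c κ T P N₀ ρ b h.h2 L (some (some p)))
      (artK p W (P p) ρ) := by
  refine locFS_inr1 I h hρ hl hst hs hC hL hL0 hp fun m iS Lc A hc a σ τ τ' hT hτ' hodd => ?_
  have hfin : Finite (MN L₀ l 1) := GP.MN_finite hl 1
  have hsd := sdual_M I h hρ hl hst
  have hN' := sdualN hs hsd
  obtain ⟨W₀, ⟨-, ⟨W', hW', hle⟩, -⟩, h3⟩ := hsd.sm
  have h1 := crdS_even (I.isPrime p) (I.prime p) (I.odd p) (I.natMem p) hl hst hs hN'.act hN'.lin hc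
    hWo hWn hWt hW'.2.1 (fun g hg m => h3 g (hle hg) m) hT hτ' hodd fun d hd => I.le_inr hp.2.2.1 hd
  have h2 : Module.finrank E (EV.VI (iK K) (stb (P p)).subtype
      ((inr (P p)).subgroupOf (stb (P p))) (fun g => ρ g)) =
      Module.finrank E (Parity.fixedBy (fun σ : (P p).inertia (AbsGal K) => ρ σ)) := by
    have h3 := VI_eq (c := c) (P := P) p (fun g => ρ g)
    exact congrArg (fun W : Submodule E (Fin n → E) => Module.finrank E W) h3
  rw [h2]
  unfold artK
  rw [Nat.even_iff] at h1 ⊢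
  omega

end Pool.Agent.Work.MP_787500_nt.AR
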