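import Mathlib
import Pool.Agent.Work.MP_787500_nt.SF.FinalF
import Pool.Agent.Work.MP_787500_nt.SF.Trace
import Pool.Agent.Work.MP_787500_nt.AR.Main8
import Pool.Agent.Work.MP_787500_nt.AR.IndSw

/-!
# AR/FinalA: the parity formula over finite extensions of an imaginary quadratic field

Representations with residually self-dual traces, arbitrarily ramified at the inert primes (Artin conductor), semistable at the primes that
divide `D`; the conjugation need not be an involution.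
-/

set_option autoImplicit false
set_option linter.unusedSectionVars false

namespace Pool.Agent.Work.MP_787500_nt.AR

open Matrix NumberField
open Pool.Agent.Work.MP_787500_nt.SH
open Pool.Agent.Work.MP_787500_nt.SF
open Pool.Agent.Work.MP_787500_nt.PA (cyc toE)
open Pool.Agent.Work.MP_787500_nt.GP (inT stabD)
open Pool.Agent.Work.MP_787500_nt.HP (IsQ Spl)
open Pool.Agent.Work.MP_787500_nt.Parity (SqMod)

universe u v w₁ w₂

/-- an element all whose conjugates are trivial in `τ` is trivial in the induced representation -/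
theorem ind_triv {G : Type*} [Group G] {H : Subgroup G} {E : Type*} [NormedField E] {n m : ℕ}
    {τ : H →* Matrix (Fin n) (Fin n) E} {R : G →* Matrix (Fin m) (Fin m) E}
    {val : (Fin m → E) →ₗ[E] (G → Fin n → E)} (hI : IsInd τ R val) {a : G}
    (h : ∀ x : G, ∃ y : H, (y : G) = x⁻¹ * a * x ∧ τ y = 1) : R a = 1 := by
  apply Matrix.toLin'.injective
  refine LinearMap.ext fun f => ?_
  rw [Matrix.toLin'_apply, Matrix.toLin'_apply, Matrix.one_mulVec]
  apply hI.emb.injective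
  funext x
  obtain ⟨y, hy, hy1⟩ := h x
  have h1 : a⁻¹ * x = x * ((y⁻¹ : H) : G) := by
    rw [Subgroup.coe_inv, hy]
    group
  rw [hI.act, h1, hI.mul_right, inv_inv, hy1, Matrix.one_mulVec]

/-- the induced representation is trivial on the elements of `W` in the wild inertia group -/
theorem ind_wild {K : Type*} [Field K] {H W : Subgroup (AbsGal K)} (hn : W.Normal) (hWH : W ≤ H) {l : ℕ}
    {Q₀ : Ideal (𝓞 (AlgebraicClosure K))} {E : Type*} [NormedField E] {n m : ℕ}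
    {τ : H →* Matrix (Fin n) (Fin n) E} {R : AbsGal K →* Matrix (Fin m) (Fin m) E}
    {val : (Fin m → E) →ₗ[E] (AbsGal K → Fin n → E)} (hI : IsInd τ R val) {Ψ : Type*}
    {Q : Ψ → Ideal (𝓞 (AlgebraicClosure K))} {g : Ψ → AbsGal K}
    (hgw : ∀ i a, a ∈ wildSet l (Q i) ↔ g i * a * (g i)⁻¹ ∈ wildSet l Q₀)
    (hdw : ∀ d ∈ stabD (K := K) Q₀, ∀ a, a ∈ wildSet l Q₀ ↔ d * a * d⁻¹ ∈ wildSet l Q₀)
    (hg' : ∀ a : AbsGal K, ∃ i, ∃ (d : stabD Q₀) (h : H), a = d * g i * h)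
    (hτ : ∀ i, ∀ h : H, (h : AbsGal K) ∈ W → (h : AbsGal K) ∈ wildSet l (Q i) → τ h = 1) {a : AbsGal K}
    (ha : a ∈ W) (haw : a ∈ wildSet l Q₀) : R a = 1 := by
  refine ind_triv hI fun x => ?_
  obtain ⟨i, d, h, rfl⟩ := hg' x
  have h1 : (g i)⁻¹ * ((d : AbsGal K)⁻¹ * a * d) * g i ∈ W := by
    have h2 := hn.conj_mem _ (hn.conj_mem a ha (d : AbsGal K)⁻¹) (g i)⁻¹
    rw [inv_inv, inv_inv] at h2
    exact h2
  have h2 : (g i)⁻¹ * ((d : AbsGal K)⁻¹ * a * d) * g i ∈ wildSet l (Q i) := by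
    rw [hgw, hdw d d.2]
    have h3 : (d : AbsGal K) * (g i * ((g i)⁻¹ * ((d : AbsGal K)⁻¹ * a * d) * g i) * (g i)⁻¹) *
        (d : AbsGal K)⁻¹ = a := by group
    rw [h3]
    exact haw
  refine ⟨h⁻¹ * ⟨_, hWH h1⟩ * h, ?_, ?_⟩
  · rw [Subgroup.coe_mul, Subgroup.coe_mul, Subgroup.coe_inv]
    group
  · rw [map_mul, map_mul, hτ i ⟨_, hWH h1⟩ h1 h2, mul_one, ← map_mul, inv_mul_cancel, map_one]

section quad

variable {K : Type u} [Field K] [NumberField K] {D : ℕ} {s : K}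
  {c : AlgebraicClosure K ≃+* AlgebraicClosure K} {κ : AbsGal K →* AbsGal K}

open scoped Classical in
/-- The parity formula over the open subgroup `H`, residually self-dual traces, Artin conductor at the inert primes. -/
theorem final_A (hK : IsQ K D s) (hc : PA.IsConj s c)
    (hκ : ∀ (σ : AbsGal K) (x : AlgebraicClosure K), κ σ x = c (σ (c x)))
    {P₀ : Ideal (𝓞 (AlgebraicClosure K))} (hP₀ : P₀.IsPrime)
    (hP2 : (2 : 𝓞 (AlgebraicClosure K)) ∈ P₀) {T : Finset ℕ} (hT : ∀ l ∈ T, l.Prime ∧ l ≠ 2)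
    {H : Subgroup (AbsGal K)} (hH : IsOpen (H : Set (AbsGal K))) {g₀ : AbsGal K} {kk : H →* H}
    (tw : Tw H κ g₀ kk) (hTH : ∀ σ ∈ inT K T, σ ∈ H)
    {E : Type v} [NormedField E] [NormedAlgebra ℚ_[2] E] [FiniteDimensional ℚ_[2] E] {n : ℕ}
    {τ : H →* Matrix (Fin n) (Fin n) E} {b : Matrix (Fin n) (Fin n) E} (hb : b.det ≠ 0)
    (hτc : Continuous τ) (hτu : ∀ σ : H, (σ : AbsGal K) ∈ inT K T → τ σ = 1)
    (hτs : b * τ ⟨g₀ * κ g₀, tw.mem⟩ = Parity.cyclo E g₀ • bᵀ)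
    (hdτ : ∀ h : H, (τ h)ᵀ * b * τ (kk h) = Parity.cyclo E (h : AbsGal K) • b)
    (hres : Parity.ResTrace τ)
    {Ψ : ℕ → Type*} [∀ l, Fintype (Ψ l)] {Q : ∀ l, Ψ l → Ideal (𝓞 (AlgebraicClosure K))}
    (hQ : ∀ l ∈ T, GA.Inr D l ∨ l ∣ D →
      IsReps H {Q | Q.IsPrime ∧ (l : 𝓞 (AlgebraicClosure K)) ∈ Q} (Q l))
    {W : Subgroup (AbsGal K)} (hWo : IsOpen (W : Set (AbsGal K))) (hWn : W.Normal) (hWH : W ≤ H)
    (hW : ∀ l ∈ T, GA.Inr D l → ∀ i, ∀ h : H, (h : AbsGal K) ∈ W →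
      (h : AbsGal K) ∈ wildSet l (Q l i) → τ h = 1)
    (hR : ∀ l ∈ T, l ∣ D → ∀ i, (Q l i).inertia (AbsGal K) ≤ H ∧
      Parity.SemistableOn (((Q l i).inertia (AbsGal K)).subgroupOf H) τ)
    {Φ : Type*} [Fintype Φ] {P : Φ → Ideal (𝓞 (AlgebraicClosure K))} (hP : ∀ i, (P i).IsPrime)
    (hPu : ∀ i, (P i).comap (algebraMap (𝓞 K) (𝓞 (AlgebraicClosure K))) =
      P₀.comap (algebraMap (𝓞 K) (𝓞 (AlgebraicClosure K))))
    (hrep : ∀ Q : Ideal (𝓞 (AlgebraicClosure K)), Q.IsPrime →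
      Q.comap (algebraMap (𝓞 K) (𝓞 (AlgebraicClosure K))) =
        P₀.comap (algebraMap (𝓞 K) (𝓞 (AlgebraicClosure K))) →
      ∃! i, ∃ h ∈ H, ∀ x, x ∈ P i ↔ h • x ∈ Q) :
    ParityFam {I : Subgroup H | ∃ J ∈ Parity.inertiaOffTwo K, I = J.subgroupOf H}
      (fun σ : H => Parity.cyclo E (σ : AbsGal K)) kk τ b (fun i => (stabD (P i)).subgroupOf H)
      (∑ l ∈ T.filter (GA.Inr D), condA l W τ (fun i => stabD (Q l i)) (Q l) +
        ∑ l ∈ T.filter (fun l => l ∣ D), condR H τ (fun i => stabD (Q l i))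
          (fun i => (Q l i).inertia (AbsGal K))) := by
  have hκκ : ∀ g, κ (κ g) = g := GA.kap_kap hc hκ
  have hfin : Finite (AbsGal K ⧸ H) := Subgroup.quotient_finite_of_isOpen H hH
  let _ : Fintype (AbsGal K ⧸ H) := Fintype.ofFinite _
  obtain ⟨m, ⟨en⟩⟩ := Finite.exists_equiv_fin ((AbsGal K ⧸ H) × Fin n)
  let r : Rep H n m := ⟨fun x => x.out, fun x => QuotientGroup.out_eq' x, en⟩
  have hcyc := (PA.isInvol (K := K) (c := c) (fun x => hc.sq x) hκ).chi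
  have hE : ∀ g : AbsGal K, Parity.cyclo E g = toE E (cyc g) := fun _ => rfl
  have hχ1 : Parity.cyclo E (1 : AbsGal K) = 1 := by
    rw [hE, PA.isChar_cyc.one]
    show (LB.toEh E) 1 = 1
    exact map_one _
  have hχ : ∀ a a' : AbsGal K, Parity.cyclo E (a * a') = Parity.cyclo E a * Parity.cyclo E a' := by
    intro a a'
    rw [hE, hE, hE, PA.isChar_cyc.mul]
    exact map_mul (LB.toEh E) _ _
  have hχκ : ∀ a : AbsGal K, Parity.cyclo E (κ a) = Parity.cyclo E a := by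
    intro a
    rw [hE, hE, hcyc]
  have hdual : Parity.IsDualRep (inT K T) (Parity.cyclo E) κ (indR r τ)
      (indT r κ g₀ (Parity.cyclo E) b τ) :=
    isDualRep_indT hH tw hχ1 hχ hχκ (fun σ hσ a => (GP.baseT K T).conj a σ hσ) hTH hτc hτu hτs hdτ
  have hF := indForm_ind (r := r) tw hχ1 hχ hdτ
  have hInd : IsInd τ (indR r τ) (indV r τ) := isInd_ind r τ
  have hdet : (indT r κ g₀ (Parity.cyclo E) b τ).det ≠ 0 :=
    indForm_det hF hInd (isInd_kap hInd tw) hχ1 hχ hb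
  have hm : m = n * H.index := by
    have h1 := Nat.card_congr en
    rw [Nat.card_prod, Nat.card_fin, Nat.card_fin, mul_comm] at h1
    exact h1.symm
  -- the residual representation
  have hu : IsUltrametricDist E := Gn.ultra 2 E
  have hresW : Parity.ResTrace (indR r τ) := trace_ind r hres
  -- primes over the elements of `T`
  have hR0 : ∀ p : ℕ, ∃ Q : Ideal (𝓞 (AlgebraicClosure K)), p.Prime →
      Q.IsPrime ∧ (p : 𝓞 (AlgebraicClosure K)) ∈ Q := by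
    intro p
    by_cases hp : p.Prime
    · obtain ⟨Q, hQ⟩ := HP.prime_over_nat (Ω := AlgebraicClosure K) hp
      exact ⟨Q, fun _ => hQ⟩
    · exact ⟨⊥, fun h => absurd h hp⟩
  choose Q₀ hQ₀ using hR0
  have hQT : ∀ l ∈ T, (Q₀ l).IsPrime ∧ (l : 𝓞 (AlgebraicClosure K)) ∈ Q₀ l :=
    fun l hl => hQ₀ l (hT l hl).1
  have hex : ∀ l ∈ T, GA.Inr D l ∨ l ∣ D → ∃ g : Ψ l → AbsGal K,
      (∀ i x, x ∈ Q l i ↔ g i • x ∈ Q₀ l) ∧
      ∀ a : AbsGal K, ∃! i, ∃ (d : stabD (Q₀ l)) (h : H), a = d * g i * h := by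
    intro l hl hli
    obtain ⟨q1, q2⟩ := hQ l hl hli
    refine exists_reps' (hQT l hl).1 (fun i => (q1 i).1) (fun i => ?_) (fun Q' hQ' h => ?_)
    · exact comap_nonspl hK hc (hT l hl).1 hli (q1 i).1 (hQT l hl).1 (q1 i).2 (hQT l hl).2
    · exact q2 Q' ⟨hQ', comap_of_rep h (hQT l hl).2⟩
  have hI' : ∀ l ∈ T, GA.Inr D l → ∀ a ∈ W, a ∈ wildSet l (Q₀ l) → indR r τ a = 1 := by
    intro l hl hli a ha haw
    obtain ⟨g, hg, hg'⟩ := hex l hl (Or.inl hli)
    exact ind_wild hWn hWH hInd (fun i a => conj_wild (hg i) a)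
      (fun d hd a => conj_wild (show ∀ x, x ∈ Q₀ l ↔ d • x ∈ Q₀ l from hd) a)
      (fun a => (hg' a).exists) (hW l hl hli) ha haw
  have hRS : ∀ l ∈ T, l ∣ D → (∀ σ ∈ (Q₀ l).inertia (AbsGal K), ∀ a, a⁻¹ * σ * a ∈ H) ∧
      Parity.SemistableOn ((Q₀ l).inertia (AbsGal K)) (indR r τ) := by
    intro l hl hli
    obtain ⟨g, hg, hg'⟩ := hex l hl (Or.inr hli)
    exact semi_ind hInd (iner_nor (Q₀ l)) (fun i a => iner_conj (hg i) a) hg' (hR l hl hli)
  have hme : Even m :=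
    even_dim hK hc hκ hT hQT hdet hdual (fun l hl hli => (hRS l hl hli).2)
  have hpar := main_gen8 (κ := κ) hK hc hκ hP₀ hP2 hT hQT hme hdet hdual hresW hWo hWn hI'
    (fun l hl hli => (hRS l hl hli).2)
  refine (main_fam hK hc hκ hP₀ hP2 hH tw hTH hb hτc hτu hτs hdτ hP hPu hrep r hpar).congr ?_
  refine Nat.ModEq.add ?_ ?_
  · -- the inert primes
    have key : ∀ l ∈ T.filter (GA.Inr D), artK l W (Q₀ l) (indR r τ) ≡
        condA l W τ (fun i => stabD (Q l i)) (Q l) [MOD 2] := by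
      intro l hl
      obtain ⟨hlT, hli⟩ := Finset.mem_filter.1 hl
      obtain ⟨g, hg, hg'⟩ := hex l hlT (Or.inl hli)
      obtain ⟨q1, -⟩ := hQ l hlT (Or.inl hli)
      have hch : CharZero E := charZero_of_injective_algebraMap (algebraMap ℚ_[2] E).injective
      exact art_ind hWo hWn hWH (hT l hlT).1 (hT l hlT).2 (hQT l hlT).1 (hQT l hlT).2 hInd hm
        (fun i => (q1 i).1) (fun i => (q1 i).2) hg hg' (hW l hlT hli) (hI' l hlT hli)
    exact modEq_sum key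
  · rw [Finset.sum_congr rfl fun l hl => ?_]
    obtain ⟨hlT, hli⟩ := Finset.mem_filter.1 hl
    obtain ⟨g, hg, hg'⟩ := hex l hlT (Or.inr hli)
    exact quotDim_ind hInd (iner_le (Q₀ l)) (iner_nor (Q₀ l)) (fun i a => stabD_conj (hg i) a)
      (fun i a => iner_conj (hg i) a) hg' (hRS l hlT hli).1

end quad

end Pool.Agent.Work.MP_787500_nt.AR
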