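import Mathlib
import Pool.Agent.Work.MP_787500_nt.SF.TowerF
import Pool.Agent.Work.MP_787500_nt.AR.FinalA

/-!
# AR/TowerA: the parity formula over finite extensions of an imaginary quadratic field, in elementary terms

Representations with residually self-dual traces, arbitrarily ramified at the inert primes (Artin conductor), semistable at the primes that
divide `D`; the conjugation need not be an involution.
-/

set_option autoImplicit false
set_option linter.unusedSectionVars false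

namespace Pool.Agent.Work.MP_787500_nt.AR

open Matrix NumberField
open Pool.Agent.Work.MP_787500_nt.SH
open Pool.Agent.Work.MP_787500_nt.SF
open Pool.Agent.Work.MP_787500_nt.KS (iK iK_apply iK_cases)
open Pool.Agent.Work.MP_787500_nt.PA (cyc toE)
open Pool.Agent.Work.MP_787500_nt.GP (inT stabD)
open Pool.Agent.Work.MP_787500_nt.HP (IsQ Spl cyQ)
open Pool.Agent.Work.MP_787500_nt.Parity (SqMod)

universe u v w₁ w₂

open scoped Classical in
theorem towerA (K : Type u) [Field K] [NumberField K] (hK : Module.finrank ℚ K = 2) (D : ℕ)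
    (hD : Squarefree D) (hD8 : D % 8 = 7) (s : K) (hs : s ^ 2 = -(D : K))
    (c : AlgebraicClosure K ≃+* AlgebraicClosure K)
    (hcs : c (algebraMap K (AlgebraicClosure K) s) = -algebraMap K (AlgebraicClosure K) s)
    (T : Finset ℕ) (hT : ∀ l ∈ T, l.Prime ∧ l ≠ 2)
    (H : Subgroup (AbsGal K)) (hH : IsOpen (H : Set (AbsGal K))) (hTH : ∀ σ ∈ inT K T, σ ∈ H)
    (κ : H → H)
    (hκ : ∀ (σ : H) (x : AlgebraicClosure K), (κ σ : AbsGal K) (c x) = c ((σ : AbsGal K) x))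
    (c₂ : H) (hc₂ : ∀ x : AlgebraicClosure K, (c₂ : AbsGal K) x = c (c x))
    (E : Type v) [NormedField E] [NormedAlgebra ℚ_[2] E] [FiniteDimensional ℚ_[2] E] (n : ℕ)
    (τ : H →* Matrix (Fin n) (Fin n) E) (b : Matrix (Fin n) (Fin n) E) (hb : b.det ≠ 0)
    (hτ : IsDualF {σ : H | (σ : AbsGal K) ∈ inT K T} (fun σ => Parity.cyclo E (σ : AbsGal K)) κ
      c₂ (cycloAut E c) τ b) (hres : Parity.ResTrace τ)
    (Ψ : ℕ → Type w₁) [∀ l, Fintype (Ψ l)] (Q : ∀ l, Ψ l → Ideal (𝓞 (AlgebraicClosure K)))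
    (hQ : ∀ l ∈ T, IsReps H {Q | Q.IsPrime ∧ (l : 𝓞 (AlgebraicClosure K)) ∈ Q} (Q l))
    (W : Subgroup (AbsGal K)) (hWo : IsOpen (W : Set (AbsGal K))) (hWn : W.Normal) (hWH : W ≤ H)
    (hW : ∀ l ∈ T, ¬ SqMod D l → ∀ i, ∀ h : H, (h : AbsGal K) ∈ W →
      (h : AbsGal K) ∈ wildSet l (Q l i) → τ h = 1)
    (hR : ∀ l ∈ T, l ∣ D → ∀ i, (Q l i).inertia (AbsGal K) ≤ H ∧
      Parity.SemistableOn (((Q l i).inertia (AbsGal K)).subgroupOf H) τ)
    (v : Ideal (𝓞 K)) (hv : v.IsPrime) (hv2 : (2 : 𝓞 K) ∈ v)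
    (Φ : Type w₂) [Fintype Φ] (P : Φ → Ideal (𝓞 (AlgebraicClosure K)))
    (hP : IsReps H {Q | Q.IsPrime ∧ Q.comap (algebraMap (𝓞 K) (𝓞 (AlgebraicClosure K))) = v} P) :
    ParityFam {I : Subgroup H | ∃ J ∈ Parity.inertiaOffTwo K, I = J.subgroupOf H}
      (fun σ => Parity.cyclo E (σ : AbsGal K)) κ τ b (fun i => (stabD (P i)).subgroupOf H)
      (∑ l ∈ T.filter (fun l => ¬ SqMod D l), condA l W τ (fun i => stabD (Q l i)) (Q l) +
        ∑ l ∈ T.filter (fun l => l ∣ D), condR H τ (fun i => stabD (Q l i))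
          (fun i => (Q l i).inertia (AbsGal K))) := by
  have hK' : IsQ K D s := ⟨hK, hs, hD, hD8⟩
  obtain ⟨c₀, κ₀, g₀, kk, hc₀, hκ₀, tw, hkk, hg2, hcy⟩ := exists_tw hK' hcs hκ hc₂
  -- a prime of the integers of the algebraic closure over `v`
  obtain ⟨P₀, hP₀, hP₀v⟩ := exists_over (K := K) hv
  have hP2 : (2 : 𝓞 (AlgebraicClosure K)) ∈ P₀ := by
    have h1 : (2 : 𝓞 K) ∈ P₀.comap (algebraMap (𝓞 K) (𝓞 (AlgebraicClosure K))) := by
      rw [hP₀v]
      exact hv2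
    rw [Ideal.mem_comap, map_ofNat] at h1
    exact h1
  have hdv : ∀ l, l ∣ D → SqMod D l := by
    intro l h
    refine ⟨0, ?_⟩
    have h1 : (l : ℤ) ∣ (D : ℤ) := by exact_mod_cast h
    simpa using h1
  have hf : T.filter (fun l => ¬ SqMod D l) = T.filter (GA.Inr D) :=
    Finset.filter_congr fun l hl => ⟨fun h => ⟨(hT l hl).1, (hT l hl).2, fun h' => h (hdv l h'), h⟩,
      fun h => h.2.2.2⟩
  rw [hf]
  subst hkk
  have hτs : b * τ ⟨g₀ * κ₀ g₀, tw.mem⟩ = Parity.cyclo E g₀ • bᵀ := by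
    have h1 : (⟨g₀ * κ₀ g₀, tw.mem⟩ : H) = c₂ := Subtype.ext hg2.symm
    have h2 : cycloAut E c = -Parity.cyclo E g₀ := by
      have h3 : cycloAut E c = toE E (cyQ c) := rfl
      have h4 : Parity.cyclo E g₀ = toE E (cyc g₀) := rfl
      rw [h3, h4, hcy]
      show LB.toEh E (-cyc g₀) = -LB.toEh E (cyc g₀)
      exact map_neg _ _
    rw [h1, hτ.symm, h2, neg_neg]
  refine final_A hK' hc₀ hκ₀ hP₀ hP2 hT hH tw hTH hb hτ.cont (fun σ hσ => hτ.unram σ hσ) hτs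
    hτ.dual hres (fun l hl _ => hQ l hl) hWo hWn hWH (fun l hl hli => hW l hl hli.2.2.2) hR
    (fun i => (hP.1 i).1) (fun i => by rw [(hP.1 i).2, hP₀v]) ?_
  rw [hP₀v]
  exact fun Q hQ hQv => hP.2 Q ⟨hQ, hQv⟩

end Pool.Agent.Work.MP_787500_nt.AR
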