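import Mathlib
import Pool.Agent.Work.MP_787500_nt.AR.FDefs2
import Pool.Agent.Work.MP_787500_nt.AR.ExW
import Pool.Agent.Work.MP_787500_nt.AR.TowerA

/-!
# AR/TowerB: the parity formula over finite extensions of an imaginary quadratic field, in elementary terms

The auxiliary subgroup `W` exists. Representations with residually self-dual traces, arbitrarily ramified at the inert primes (Artin conductor), semistable at the primes that
divide `D`; the conjugation need not be an involution.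
-/

set_option autoImplicit false
set_option linter.unusedSectionVars false

namespace Pool.Agent.Work.MP_787500_nt.AR

open Matrix NumberField
open Pool.Agent.Work.MP_787500_nt.SH
open Pool.Agent.Work.MP_787500_nt.SF
open Pool.Agent.Work.MP_787500_nt.KS (iK iK_apply iK_cases)
open Pool.Agent.Work.MP_787500_nt.PA (cyc toE)
open Pool.Agent.Work.MP_787500_nt.GP (inT stabD)
open Pool.Agent.Work.MP_787500_nt.HP (IsQ Spl cyQ)
open Pool.Agent.Work.MP_787500_nt.Parity (SqMod)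

universe u v w₁ w₂

open scoped Classical in
theorem towerB (K : Type u) [Field K] [NumberField K] (hK : Module.finrank ℚ K = 2) (D : ℕ)
    (hD : Squarefree D) (hD8 : D % 8 = 7) (s : K) (hs : s ^ 2 = -(D : K))
    (c : AlgebraicClosure K ≃+* AlgebraicClosure K)
    (hcs : c (algebraMap K (AlgebraicClosure K) s) = -algebraMap K (AlgebraicClosure K) s)
    (T : Finset ℕ) (hT : ∀ l ∈ T, l.Prime ∧ l ≠ 2)
    (H : Subgroup (AbsGal K)) (hH : IsOpen (H : Set (AbsGal K))) (hTH : ∀ σ ∈ inT K T, σ ∈ H)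
    (κ : H → H)
    (hκ : ∀ (σ : H) (x : AlgebraicClosure K), (κ σ : AbsGal K) (c x) = c ((σ : AbsGal K) x))
    (c₂ : H) (hc₂ : ∀ x : AlgebraicClosure K, (c₂ : AbsGal K) x = c (c x))
    (E : Type v) [NormedField E] [NormedAlgebra ℚ_[2] E] [FiniteDimensional ℚ_[2] E] (n : ℕ)
    (τ : H →* Matrix (Fin n) (Fin n) E) (b : Matrix (Fin n) (Fin n) E) (hb : b.det ≠ 0)
    (hτ : IsDualF {σ : H | (σ : AbsGal K) ∈ inT K T} (fun σ => Parity.cyclo E (σ : AbsGal K)) κ
      c₂ (cycloAut E c) τ b) (hres : Parity.ResTrace τ)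
    (Ψ : ℕ → Type w₁) [∀ l, Fintype (Ψ l)] (Q : ∀ l, Ψ l → Ideal (𝓞 (AlgebraicClosure K)))
    (hQ : ∀ l ∈ T, IsReps H {Q | Q.IsPrime ∧ (l : 𝓞 (AlgebraicClosure K)) ∈ Q} (Q l))
    (hR : ∀ l ∈ T, l ∣ D → ∀ i, (Q l i).inertia (AbsGal K) ≤ H ∧
      Parity.SemistableOn (((Q l i).inertia (AbsGal K)).subgroupOf H) τ)
    (v : Ideal (𝓞 K)) (hv : v.IsPrime) (hv2 : (2 : 𝓞 K) ∈ v)
    (Φ : Type w₂) [Fintype Φ] (P : Φ → Ideal (𝓞 (AlgebraicClosure K)))
    (hP : IsReps H {Q | Q.IsPrime ∧ Q.comap (algebraMap (𝓞 K) (𝓞 (AlgebraicClosure K))) = v} P) :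
    (∃ W, IsAux {l | l ∈ T ∧ ¬ SqMod D l} Q τ W) ∧
      ∀ W, IsAux {l | l ∈ T ∧ ¬ SqMod D l} Q τ W →
      ParityFam {I : Subgroup H | ∃ J ∈ Parity.inertiaOffTwo K, I = J.subgroupOf H}
        (fun σ => Parity.cyclo E (σ : AbsGal K)) κ τ b (fun i => (stabD (P i)).subgroupOf H)
        (∑ l ∈ T.filter (fun l => ¬ SqMod D l), condA l W τ (fun i => stabD (Q l i)) (Q l) +
          ∑ l ∈ T.filter (fun l => l ∣ D), condR H τ (fun i => stabD (Q l i))
            (fun i => (Q l i).inertia (AbsGal K))) := by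
  refine ⟨?_, fun W hW => towerA K hK D hD hD8 s hs c hcs T hT H hH hTH κ hκ c₂ hc₂ E n τ b hb hτ hres Ψ Q hQ
    W hW.opn hW.nor hW.le (fun l hl hl' => hW.triv l ⟨hl, hl'⟩) hR v hv hv2 Φ P hP⟩
  obtain ⟨W, h1, h2, h3, h4⟩ := exists_W hH hτ.cont
  exact ⟨W, h1, h2, h3, fun l hl i h => h4 l ((hT l hl.1).1.odd_of_ne_two (hT l hl.1).2) _ h⟩

end Pool.Agent.Work.MP_787500_nt.AR
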